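import Mathlib
import Pool.Agent.H8.UDef
import Pool.Agent.H8.Destroy

/-!
All levels are unambiguous relative to the closure oracle.
-/

set_option autoImplicit false

namespace Pool.Agent.H8u

open Classical
open Pool.Agent.H9
open Pool.Agent.H8d (Avoids exec_avoids avoids_mkCode)

theorem Unamb_congr (m : ℕ) : ∀ (k : ℕ) (ex : Bool) (φ ψ : List (List Bool) → Prop),
    (∀ us : List (List Bool), us.map List.length = List.replicate k m → (φ us ↔ ψ us)) →
    (Unamb ex k m φ ↔ Unamb ex k m ψ) := by
  intro k
  induction k with
  | zero => intro ex φ ψ _; exact Iff.rfl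
  | succ k ih =>
    intro ex φ ψ h
    have hA : ∀ u : List Bool, u.length = m →
        (Alt (!ex) k m (fun us => φ (u :: us)) ↔ Alt (!ex) k m (fun us => ψ (u :: us))) := by
      intro u hu
      rw [Alt_eq, Alt_eq]
      apply AltL_congr
      intro us hus
      apply h
      rw [List.map_cons, hus, hu, List.replicate_succ]
    have hU : ∀ u : List Bool, u.length = m →
        (Unamb (!ex) k m (fun us => φ (u :: us)) ↔ Unamb (!ex) k m (fun us => ψ (u :: us))) := by
      intro u hu
      apply ih
      intro us hus
      apply h
      rw [List.map_cons, hus, hu, List.replicate_succ]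
    simp only [Unamb]
    apply and_congr
    · apply forall_congr'; intro u
      apply forall_congr'; intro v
      apply forall_congr'; intro hu
      apply forall_congr'; intro hv
      rw [hA u hu, hA v hv]
    · apply forall_congr'; intro u
      apply forall_congr'; intro hu
      exact hU u hu

/-! ### Moving several stacks, with the source stacks emptied -/

theorem exec_moves_empty (A : Oracle) (W : ℕ) : ∀ (is : List ℕ), is.Nodup → W ∉ is →
    ∀ s : ℕ → List Bool, ∃ s', Exec A (moves W is) s s'
      (((is.map s).map List.length).sum * 5 + 2 * is.length + 1) ∧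
      s' W = ((is.map s).flatten).reverse ++ s W ∧ (∀ m ∈ is, s' m = []) ∧
      ∀ m, m ∉ is → m ≠ W → s' m = s m := by
  intro is
  induction is with
  | nil =>
    intro _ _ s
    exact ⟨s, (exec_skip A s).mono (by simp), by simp, by simp, fun _ _ _ => rfl⟩
  | cons i is ih =>
    intro hnd hW s
    have hiW : i ≠ W := fun h => hW (by simp [h])
    have hi : i ∉ is := (List.nodup_cons.1 hnd).1
    obtain ⟨s1, h1, h2, h3, h4⟩ := exec_moveAll A hiW s
    obtain ⟨s2, h5, h6, h7', h7⟩ := ih hnd.of_cons (fun h => hW (by simp [h])) s1
    have hmap : is.map s1 = is.map s := by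
      apply List.map_congr_left
      intro m hm
      apply h4
      · intro e
        subst e
        exact hi hm
      · intro e
        subst e
        exact hW (by simp [hm])
    refine ⟨s2, (h1.seq h5).mono ?_, ?_, ?_, ?_⟩
    · rw [hmap]
      simp only [List.map_cons, List.sum_cons, List.length_cons]
      ring_nf
      omega
    · rw [h6, hmap, h3]
      simp
    · intro m hm
      rcases List.mem_cons.1 hm with rfl | hm
      · rw [h7 m hi hiW, h2]
      · exact h7' m hm
    · intro m hm hmW
      have hm1 : m ≠ i := fun h => hm (by simp [h])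
      have hm2 : m ∉ is := fun h => hm (by simp [h])
      rw [h7 m hm2 hmW, h4 m hm1 hmW]

/-! ### The program -/

/-- The program of the unambiguous machine for a language at level `k`. -/
def auProg (k e κ : ℕ) : Prog :=
  seqs [moves (k + 6) (List.range' 1 k), mkCode e κ, moveAll (k + 6) 2, Prog.push 2 false,
    seqs (List.replicate k (Prog.push 2 true)), Prog.push 2 true,
    Prog.ask 2 (Prog.push 0 k.bodd) (Prog.push 0 (!k.bodd))]

/-- time bound -/
def auTime (k e κ n : ℕ) : ℕ := 10 * n + 4 * k + 30 + codeTime e κ n

theorem codeTime_mono (e κ : ℕ) {m n : ℕ} (h : m ≤ n) : codeTime e κ m ≤ codeTime e κ n := by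
  unfold codeTime
  have h1 : (m + 2) ^ 2 ^ κ ≤ (n + 2) ^ 2 ^ κ := Nat.pow_le_pow_left (by omega) _
  generalize (m + 2) ^ 2 ^ κ = a at *
  generalize (n + 2) ^ 2 ^ κ = b at *
  have h2 : (a + 1) * (a + 1) ≤ (b + 1) * (b + 1) := Nat.mul_le_mul (by omega) (by omega)
  have h3 : κ * (20 * (a + 1) * (a + 1) + 1) ≤ κ * (20 * (b + 1) * (b + 1) + 1) := by
    apply Nat.mul_le_mul_left
    nlinarith
  omega

theorem map_getD_range' (x : List Bool) (us : List (List Bool)) :
    (List.range' 1 us.length).map (fun i => (x :: us).getD i []) = us := by
  apply List.ext_getElem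
  · simp
  · intro i h1 h2
    simp only [List.getElem_map, List.getElem_range', one_mul]
    rw [Nat.add_comm 1 i, List.getD_cons_succ, List.getD_eq_getElem _ _ h2]

theorem exec_auProg (A : Oracle) (k e κ : ℕ) (x : List Bool) (us : List (List Bool))
    (hus : us.length = k) :
    ∃ s', Exec A (auProg k e κ) (fun j => (x :: us).getD j []) s'
      (auTime k e κ (totalLength (x :: us))) ∧
      ((s' 0).head? = some true ↔
        A (true :: (List.replicate k true ++ false ::
          (us.flatten ++ code e x ((x.length + 2) ^ 2 ^ κ)))) = k.bodd) := by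
  subst hus
  set k := us.length with hk
  set s0 : ℕ → List Bool := fun j => (x :: us).getD j [] with hs0
  obtain ⟨s1, e1, a1, b1, c1⟩ := exec_moves_empty A (k + 6) (List.range' 1 k)
    List.nodup_range' (by simp; omega) s0
  have hmap : (List.range' 1 k).map s0 = us := map_getD_range' x us
  rw [hmap] at e1 a1
  have hW : s0 (k + 6) = [] := by
    rw [hs0]
    simp only
    rw [List.getD_eq_default]
    simp [← hk]
  rw [hW, List.append_nil] at a1
  have h10 : s1 0 = x := by
    rw [c1 0 (by simp) (by omega)]
    rfl
  have hsmall : ∀ i, 1 ≤ i → i ≤ 5 → s1 i = [] := by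
    intro i h1 h2
    by_cases hi : i ≤ k
    · apply b1
      simp
      omega
    · rw [c1 i (by simp; omega) (by omega), hs0]
      simp only
      rw [List.getD_eq_default]
      simp [← hk]
      omega
  obtain ⟨s2, e2, a2, b2⟩ := exec_mkCode A e κ s1 (hsmall 1 (by omega) (by omega))
    (hsmall 2 (by omega) (by omega)) (hsmall 3 (by omega) (by omega))
    (hsmall 4 (by omega) (by omega)) (hsmall 5 (by omega) (by omega))
  rw [h10] at e2 a2
  have c2 : s2 (k + 6) = us.flatten.reverse := by
    rw [exec_avoids e2 (avoids_mkCode (by omega) e κ), a1]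
  obtain ⟨s3, e3, _, a3, c3⟩ := exec_moveAll A (show k + 6 ≠ 2 by omega) s2
  rw [c2] at e3 a3
  rw [List.reverse_reverse, a2] at a3
  have e4 := exec_push A s3 2 false
  set s4 := Function.update s3 2 (false :: s3 2) with hs4
  have a4 : s4 2 = false :: (us.flatten ++ code e x ((x.length + 2) ^ 2 ^ κ)) := by
    rw [hs4, Function.update_self, a3]
  obtain ⟨s5, e5, a5, c5⟩ := exec_pushes A 2 k s4
  rw [a4] at a5
  have e6 := exec_push A s5 2 true
  set s6 := Function.update s5 2 (true :: s5 2) with hs6
  have a6 : s6 2 = true :: (List.replicate k true ++ false ::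
      (us.flatten ++ code e x ((x.length + 2) ^ 2 ^ κ))) := by
    rw [hs6, Function.update_self, a5]
  have hlen : us.flatten.length ≤ totalLength (x :: us) := by
    rw [List.length_flatten, totalLength, List.map_cons, List.sum_cons]
    omega
  have hlen2 : (us.map List.length).sum ≤ totalLength (x :: us) := by
    rw [totalLength, List.map_cons, List.sum_cons]
    omega
  have hct : codeTime e κ x.length ≤ codeTime e κ (totalLength (x :: us)) := by
    apply codeTime_mono
    rw [totalLength, List.map_cons, List.sum_cons]
    omega
  have htime : (((us.map List.length).sum * 5 + 2 * (List.range' 1 k).length + 1) +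
      (codeTime e κ x.length + ((us.flatten.reverse.length * 5 + 1) +
      (1 + ((2 * k + 1) + (1 + (2 + 1 + 1) + 1) + 1) + 1) + 1) + 1) + 1) ≤
      auTime k e κ (totalLength (x :: us)) := by
    unfold auTime
    rw [List.length_range', List.length_reverse]
    omega
  by_cases hA : A (s6 2) = true
  · refine ⟨Function.update s6 0 (k.bodd :: s6 0), ?_, ?_⟩
    · have e7 : Exec A (Prog.ask 2 (Prog.push 0 k.bodd) (Prog.push 0 (!k.bodd))) s6
          (Function.update s6 0 (k.bodd :: s6 0)) 2 := by
        apply exec_ask
        rw [if_pos hA]
        exact exec_push A s6 0 _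
      exact (exec_seqs_cons e1 (exec_seqs_cons e2 (exec_seqs_cons e3 (exec_seqs_cons e4
        (exec_seqs_cons e5 (exec_seqs_cons e6 (exec_seqs_cons e7
          (exec_seqs_nil _ _)))))))).mono htime
    · rw [← a6, hA, Function.update_self]
      simp only [List.head?_cons, Option.some.injEq]
      exact eq_comm
  · refine ⟨Function.update s6 0 ((!k.bodd) :: s6 0), ?_, ?_⟩
    · have e7 : Exec A (Prog.ask 2 (Prog.push 0 k.bodd) (Prog.push 0 (!k.bodd))) s6
          (Function.update s6 0 ((!k.bodd) :: s6 0)) 2 := by
        apply exec_ask
        rw [if_neg hA]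
        exact exec_push A s6 0 _
      exact (exec_seqs_cons e1 (exec_seqs_cons e2 (exec_seqs_cons e3 (exec_seqs_cons e4
        (exec_seqs_cons e5 (exec_seqs_cons e6 (exec_seqs_cons e7
          (exec_seqs_nil _ _)))))))).mono htime
    · rw [← a6]
      simp only [Bool.not_eq_true] at hA
      rw [hA, Function.update_self]
      simp only [List.head?_cons, Option.some.injEq]
      cases k.bodd <;> simp

theorem auProg_spec (A : Oracle) (k e κ : ℕ) (x : List Bool) (us : List (List Bool))
    (hus : us.length = k) :
    (run A (auProg k e κ) (x :: us) (auTime k e κ (totalLength (x :: us)))).1 = [] ∧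
      (Accepts A (auProg k e κ) (x :: us) ↔
        A (true :: (List.replicate k true ++ false ::
          (us.flatten ++ code e x ((x.length + 2) ^ 2 ^ κ)))) = k.bodd) := by
  obtain ⟨s', h1, h2⟩ := exec_auProg A k e κ x us hus
  have h3 := run_of_exec h1
  have h4 : (run A (auProg k e κ) (x :: us) (auTime k e κ (totalLength (x :: us)))).1 = [] := by
    rw [h3]
  refine ⟨h4, ?_⟩
  rw [accepts_iff_of_halted h4]
  unfold AcceptsIn
  rw [h3]
  simp only [true_and]
  exact h2

theorem polyTime_auProg (A : Oracle) (k e κ : ℕ) : PolyTime A (k + 1) (auProg k e κ) := by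
  refine ⟨10 * Polynomial.X + Polynomial.C (4 * k + 30) + (Polynomial.C κ *
    (20 * ((Polynomial.X + 2) ^ 2 ^ κ + 1) * ((Polynomial.X + 2) ^ 2 ^ κ + 1) + 1) +
    20 * Polynomial.X + Polynomial.C (2 * e + 30)), ?_⟩
  intro xs hxs
  obtain ⟨x, us, rfl⟩ : ∃ x us, xs = x :: us := by
    cases xs with
    | nil => simp at hxs
    | cons x us => exact ⟨x, us, rfl⟩
  have h := (auProg_spec A k e κ x us (by simpa using hxs)).1
  rw [run_of_halted h]
  · exact h
  · simp only [Polynomial.eval_add, Polynomial.eval_mul, Polynomial.eval_X,
      Polynomial.eval_ofNat, Polynomial.eval_C, Polynomial.eval_pow, Polynomial.eval_one,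
      auTime, codeTime]
    omega

/-- **All levels are unambiguous** relative to the closure oracle. -/
theorem sigmaP_eq_auSigmaP (g : Enum) (hg : Function.Surjective g) (S : Oracle)
    (Y : List Bool → List Bool) (k : ℕ) :
    SigmaP (orU g S Y) k = AUSigmaP (orU g S Y) k := by
  set A := orU g S Y with hA
  apply Set.Subset.antisymm
  · rintro L ⟨q, p, ⟨T, hT⟩, hL⟩
    cases k with
    | zero =>
      exact ⟨q, p, ⟨T, hT⟩, fun x => ⟨hL x, trivial⟩⟩
    | succ j =>
      set k := j + 1 with hk
      obtain ⟨e, he⟩ := hg (j, p, q, T)
      obtain ⟨κ, hκ⟩ := poly_le_pow ((T.comp (Polynomial.X + Polynomial.C k * q) + Polynomial.X +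
        Polynomial.C k * q + 2) ^ 2)
      have htp : ∀ (x : List Bool) (N : ℕ), tp g (e, x, N) = k := by
        intro x N
        unfold tp
        simp only
        rw [he]
      have hql : ∀ (x : List Bool) (N : ℕ), ql g (e, x, N) = q.eval x.length := by
        intro x N
        unfold ql
        simp only
        rw [he]
      have hrt : ∀ (x : List Bool) (N : ℕ),
          rt g (e, x, N) = T.eval (x.length + k * q.eval x.length) := by
        intro x N
        unfold rt
        rw [htp, hql]
        simp only
        rw [he]
      refine ⟨(Polynomial.X + 2) ^ 2 ^ κ, auProg k e κ, polyTime_auProg A k e κ, ?_⟩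
      intro x
      set N := (x.length + 2) ^ 2 ^ κ with hN
      have hqe : ((Polynomial.X + 2 : Polynomial ℕ) ^ 2 ^ κ).eval x.length = N := by
        simp [hN]
      rw [hqe]
      set c : Cd := (e, x, N) with hc
      -- the predicate
      have hlive : Live g c := by
        unfold Live
        rw [hc, hrt, htp, hql]
        have := hκ x.length
        simpa [Polynomial.eval_comp] using this
      have hKP : KP g A c ↔ x ∈ L := by
        rw [hL x]
        unfold KP
        simp only [hlive, true_and]
        rw [hc, htp, hql, hrt, Alt_eq, Alt_eq]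
        apply AltL_congr
        intro us hus
        simp only
        rw [he]
        simp only
        have hlen : us.length = k := by
          have := congrArg List.length hus
          simpa using this
        have htot : totalLength (x :: us) = x.length + k * q.eval x.length :=
          totalLength_cons_of hus
        have hhalt := hT (x :: us) (by simp [hlen])
        rw [htot] at hhalt
        exact (accepts_iff_of_halted hhalt).symm
      -- the bits
      have hbit : ∀ us : List (List Bool), us.map List.length = List.replicate k N →
          (Accepts A (auProg k e κ) (x :: us) ↔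
            bitv (decide (KP g A c)) Y c (us.reverse ++ []) = (true ^^ !k.bodd)) := by
        intro us hus
        have hlen : us.length = k := by
          have := congrArg List.length hus
          simpa using this
        have hall : ∀ y ∈ us, y.length = N := by
          intro y hy
          have h1 : y.length ∈ us.map List.length := List.mem_map_of_mem hy
          rw [hus] at h1
          exact List.eq_of_mem_replicate h1
        rw [(auProg_spec A k e κ x us hlen).2, List.append_nil]
        have hw : List.replicate k true ++ false :: (us.flatten ++ code e x N) =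
            wrd c us.reverse := by
          unfold wrd
          rw [List.length_reverse, hlen, List.reverse_reverse]
        rw [hw, hA, orU_wrd g S Y c us.reverse (by rw [List.length_reverse, hlen, hc, htp])
          (fun y hy => by
            rw [hc]
            exact hall y (List.mem_reverse.1 hy))]
        rw [← hA]
        simp
      have hmain := alt_bitv (decide (KP g A c)) Y c k true []
      have hcN : c.2.2 = N := rfl
      rw [hcN] at hmain
      constructor
      · rw [← hKP, Alt_eq]
        rw [AltL_congr (fun us hus => hbit us hus), ← Alt_eq, hmain.1]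
        simp [bitv]
      · rw [Unamb_congr N k true _ _ hbit]
        exact hmain.2
  · rintro L ⟨q, p, hp, h⟩
    exact ⟨q, p, hp, fun x => (h x).1⟩

end Pool.Agent.H8u
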