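import Mathlib
import Pool.Agent.H9.Machine

/-!
Relativised complexity classes: deterministic time `O(t)`, constantly many alternations in time
polynomial in `s`, and alternating polynomial time.
-/

set_option autoImplicit false

namespace Pool.Agent.H7

open Pool.Agent.H9

/-- `DTIME^A(poly(n + t(n)))`: languages decided by a deterministic program with oracle `A` which
halts on every input `x` within `(|x| + t(|x|))^d + d` steps, for some constant `d`. -/
def DTime (A : Oracle) (t : ℕ → ℕ) : Set (Set (List Bool)) :=
  {L | ∃ (d : ℕ) (p : Prog), ∀ x : List Bool,
    (run A p [x] ((x.length + t x.length) ^ d + d)).1 = [] ∧ (x ∈ L ↔ Accepts A p [x])}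

/-- `Sigma_k-TIME^A(poly(s))`: languages defined by `k` alternating quantifier blocks of strings
of length `q(s(|x|))`, the first one existential, in front of a predicate decided by a program
with oracle `A` in at most `r(s(|x|))` steps, for polynomials `q` and `r`. -/
def SigmaTime (A : Oracle) (s : ℕ → ℕ) (k : ℕ) : Set (Set (List Bool)) :=
  {L | ∃ (q r : Polynomial ℕ) (p : Prog),
    (∀ (x : List Bool) (us : List (List Bool)), us.length = k →
      (∀ u ∈ us, u.length = q.eval (s x.length)) →
      (run A p (x :: us) (r.eval (s x.length))).1 = []) ∧
    ∀ x : List Bool, x ∈ L ↔
      Alt true k (q.eval (s x.length)) (fun us => Accepts A p (x :: us))}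

/-- Alternating polynomial time relative to `A` (this is `PSPACE^A`): languages defined by
polynomially many alternating quantifier blocks of polynomial length, the first one existential,
in front of a predicate of the input and the concatenation of all blocks which is decided in
polynomial time with oracle `A`. -/
def AP (A : Oracle) : Set (Set (List Bool)) :=
  {L | ∃ (r q : Polynomial ℕ) (p : Prog), PolyTime A 2 p ∧
    ∀ x : List Bool, x ∈ L ↔
      Alt true (r.eval x.length) (q.eval x.length) (fun us => Accepts A p [x, us.flatten])}

end Pool.Agent.H7
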