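import Mathlib
import Pool.Agent.H9.Classes
import Pool.Agent.H9.Hier2

/-!
Oracles with a table part and a self-encoding part, and the deterministic program reading the
self-encoding part.
-/

set_option autoImplicit false

namespace Pool.Agent.H7

open Pool.Agent.H9 Classical

/-- The word asking for the answer of the `i`-th functional on `x`, with a pad of length `N`. -/
def eword (N i : ℕ) (x : List Bool) : List Bool :=
  true :: (List.replicate N true ++ false :: (List.replicate i true ++ false :: x))

theorem eword_length (N i : ℕ) (x : List Bool) :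
    (eword N i x).length = N + i + x.length + 3 := by
  simp [eword]
  omega

theorem eword_inj {N N' i i' : ℕ} {x x' : List Bool} (h : eword N i x = eword N' i' x') :
    N = N' ∧ i = i' ∧ x = x' := by
  unfold eword at h
  rw [List.cons.injEq] at h
  obtain ⟨h1, h2⟩ := replicate_append_false_inj h.2
  obtain ⟨h3, h4⟩ := replicate_append_false_inj h2
  exact ⟨h1, h3, h4⟩

/-- One step of the definition of the oracle: words starting with `false` are looked up in the
table `Y`, words starting with `true` encode answers of the functionals `F i`. -/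
noncomputable def G (T : ℕ → ℕ → ℕ) (F : ℕ → Oracle → List Bool → Prop) (Y A : Oracle) :
    Oracle := fun w =>
  match w with
  | [] => false
  | false :: v => Y v
  | true :: v => decide (∃ (N i : ℕ) (x : List Bool), true :: v = eword N i x ∧
      T i x.length ≤ N / 2 ∧ (N % 2 = 1 → F i A x))

/-- The functional `F i` on inputs of length `m` reads the oracle only up to length `U i m`. -/
def Use (U : ℕ → ℕ → ℕ) (F : ℕ → Oracle → List Bool → Prop) : Prop :=
  ∀ (i : ℕ) (x : List Bool) (A B : Oracle), (∀ w : List Bool, w.length ≤ U i x.length →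
    A w = B w) → (F i A x ↔ F i B x)

theorem G_local {T U : ℕ → ℕ → ℕ} {F : ℕ → Oracle → List Bool → Prop} (hF : Use U F)
    (hTU : ∀ i m, U i m ≤ T i m) {Y Y' A B : Oracle} {w : List Bool}
    (hY : ∀ v : List Bool, v.length < w.length → Y v = Y' v)
    (hA : ∀ v : List Bool, v.length < w.length → A v = B v) :
    G T F Y A w = G T F Y' B w := by
  match w with
  | [] => rfl
  | false :: v => exact hY v (by simp)
  | true :: v =>
    have : (∃ (N i : ℕ) (x : List Bool), true :: v = eword N i x ∧
      T i x.length ≤ N / 2 ∧ (N % 2 = 1 → F i A x)) ↔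
      (∃ (N i : ℕ) (x : List Bool), true :: v = eword N i x ∧
      T i x.length ≤ N / 2 ∧ (N % 2 = 1 → F i B x)) := by
      apply exists_congr; intro N
      apply exists_congr; intro i
      apply exists_congr; intro x
      apply and_congr_right; intro h1
      apply and_congr_right; intro h2
      apply imp_congr_right; intro _
      apply hF
      intro w hw
      apply hA
      rw [h1, eword_length]
      have := hTU i x.length
      omega
    simp only [G, this]

/-- The oracle with table `Y`. -/
noncomputable def fix (T : ℕ → ℕ → ℕ) (F : ℕ → Oracle → List Bool → Prop) (Y : Oracle) :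
    Oracle := fun w => (G T F Y)^[w.length + 1] (fun _ => false) w

theorem iter_agree {T U : ℕ → ℕ → ℕ} {F : ℕ → Oracle → List Bool → Prop} (hF : Use U F)
    (hTU : ∀ i m, U i m ≤ T i m) (Y : Oracle) : ∀ (n m : ℕ) (w : List Bool), w.length < n →
    w.length < m → (G T F Y)^[n] (fun _ => false) w = (G T F Y)^[m] (fun _ => false) w := by
  intro n
  induction n with
  | zero => intro m w h; omega
  | succ n ih =>
    intro m w hn hm
    obtain ⟨m, rfl⟩ : ∃ m', m = m' + 1 := ⟨m - 1, by omega⟩
    rw [Function.iterate_succ_apply', Function.iterate_succ_apply']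
    exact G_local hF hTU (fun _ _ => rfl) (fun v hv => ih m v (by omega) (by omega))

theorem fix_eq {T U : ℕ → ℕ → ℕ} {F : ℕ → Oracle → List Bool → Prop} (hF : Use U F)
    (hTU : ∀ i m, U i m ≤ T i m) (Y : Oracle) (w : List Bool) :
    fix T F Y w = G T F Y (fix T F Y) w := by
  unfold fix
  rw [Function.iterate_succ_apply']
  apply G_local hF hTU (fun _ _ => rfl)
  intro v hv
  exact iter_agree hF hTU Y _ _ v hv (Nat.lt_succ_self _)

theorem fix_local {T U : ℕ → ℕ → ℕ} {F : ℕ → Oracle → List Bool → Prop} (hF : Use U F)
    (hTU : ∀ i m, U i m ≤ T i m) {Y Y' : Oracle} {l : ℕ}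
    (hY : ∀ v : List Bool, v.length < l → Y v = Y' v) :
    ∀ (n : ℕ) (w : List Bool), w.length = n → n ≤ l → fix T F Y w = fix T F Y' w := by
  intro n
  induction n using Nat.strong_induction_on with
  | _ n ih =>
    intro w hw hn
    rw [fix_eq hF hTU Y, fix_eq hF hTU Y']
    apply G_local hF hTU
    · intro v hv
      exact hY v (by omega)
    · intro v hv
      exact ih v.length (by omega) v rfl (by omega)

theorem fix_false {T U : ℕ → ℕ → ℕ} {F : ℕ → Oracle → List Bool → Prop} (hF : Use U F)
    (hTU : ∀ i m, U i m ≤ T i m) (Y : Oracle) (v : List Bool) :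
    fix T F Y (false :: v) = Y v := by
  rw [fix_eq hF hTU Y]
  rfl

theorem fix_eword {T U : ℕ → ℕ → ℕ} {F : ℕ → Oracle → List Bool → Prop} (hF : Use U F)
    (hTU : ∀ i m, U i m ≤ T i m) (Y : Oracle) (N i : ℕ) (x : List Bool) :
    fix T F Y (eword N i x) = true ↔ T i x.length ≤ N / 2 ∧ (N % 2 = 1 → F i (fix T F Y) x) := by
  rw [fix_eq hF hTU Y]
  have h : G T F Y (fix T F Y) (eword N i x) = decide (∃ (N' i' : ℕ) (x' : List Bool),
      eword N i x = eword N' i' x' ∧
      T i' x'.length ≤ N' / 2 ∧ (N' % 2 = 1 → F i' (fix T F Y) x')) := rfl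
  rw [h, decide_eq_true_iff]
  constructor
  · rintro ⟨N', i', x', he, h1, h2⟩
    obtain ⟨rfl, rfl, rfl⟩ := eword_inj he
    exact ⟨h1, h2⟩
  · rintro ⟨h1, h2⟩
    exact ⟨N, i, x, rfl, h1, h2⟩

/-! ### The program -/

/-- Ask with longer and longer pads until the oracle answers. -/
def padLoop : Prog :=
  Prog.loop 1 (Prog.ask 0 (Prog.pop 1) (Prog.seq (Prog.push 0 true) (Prog.push 0 true)))

/-- The deterministic program for the `i`-th functional. -/
def easyProg (i : ℕ) : Prog :=
  seqs [Prog.push 0 false, seqs (List.replicate i (Prog.push 0 true)), Prog.push 0 false,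
    Prog.push 0 true, Prog.push 1 true, padLoop, Prog.push 0 true,
    Prog.ask 0 Prog.skip (Prog.push 0 false)]

theorem replicate_snoc_true (n : ℕ) (l : List Bool) :
    true :: (List.replicate n true ++ l) = List.replicate (n + 1) true ++ l := rfl

theorem exec_padLoop {T U : ℕ → ℕ → ℕ} {F : ℕ → Oracle → List Bool → Prop} (hF : Use U F)
    (hTU : ∀ i m, U i m ≤ T i m) (Y : Oracle) (i : ℕ) (x : List Bool) : ∀ (d j : ℕ)
    (s : ℕ → List Bool), j + d = T i x.length → s 0 = eword (2 * j) i x → s 1 = [true] →
    ∃ s', Exec (fix T F Y) padLoop s s' (5 * d + 4) ∧ s' 0 = eword (2 * T i x.length) i x := by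
  intro d
  induction d with
  | zero =>
    intro j s hj h0 h1
    have hask : fix T F Y (s 0) = true := by
      rw [h0, fix_eword hF hTU]
      refine ⟨by omega, ?_⟩
      intro h
      omega
    refine ⟨Function.update s 1 [], ?_, ?_⟩
    · have e1 := exec_pop (fix T F Y) s 1
      rw [h1, List.tail_cons] at e1
      have e2 : Exec (fix T F Y) (Prog.ask 0 (Prog.pop 1)
          (Prog.seq (Prog.push 0 true) (Prog.push 0 true))) s (Function.update s 1 []) 2 := by
        apply exec_ask
        rw [if_pos hask]
        exact e1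
      exact exec_loop_cons h1 e2 (exec_loop_nil (by simp))
    · rw [Function.update_of_ne (by norm_num), h0]
      congr 1
      omega
  | succ d ih =>
    intro j s hj h0 h1
    have hask : ¬ fix T F Y (s 0) = true := by
      rw [h0, fix_eword hF hTU]
      rintro ⟨h, _⟩
      omega
    set s1 := Function.update s 0 (true :: true :: s 0) with hs1
    have e2 : Exec (fix T F Y) (Prog.ask 0 (Prog.pop 1)
        (Prog.seq (Prog.push 0 true) (Prog.push 0 true))) s s1 4 := by
      apply exec_ask
      rw [if_neg hask]
      have g1 := exec_push (fix T F Y) s 0 true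
      have g2 := exec_push (fix T F Y) (Function.update s 0 (true :: s 0)) 0 true
      rw [Function.update_self, Function.update_idem] at g2
      exact g1.seq g2
    obtain ⟨s2, e3, h2⟩ := ih (j + 1) s1 (by omega) (by
      rw [hs1, Function.update_self, h0]
      unfold eword
      rw [show 2 * (j + 1) = 2 * j + 1 + 1 by ring, List.replicate_succ, List.replicate_succ]
      rfl) (by rw [hs1, Function.update_of_ne (by norm_num), h1])
    refine ⟨s2, (exec_loop_cons h1 e2 e3).mono (by omega), h2⟩

theorem exec_easyProg {T U : ℕ → ℕ → ℕ} {F : ℕ → Oracle → List Bool → Prop} (hF : Use U F)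
    (hTU : ∀ i m, U i m ≤ T i m) (Y : Oracle) (i : ℕ) (x : List Bool) :
    ∃ s', Exec (fix T F Y) (easyProg i) (fun j => [x].getD j []) s'
      (5 * T i x.length + (2 * i + 30)) ∧ ((s' 0).head? = some true ↔ F i (fix T F Y) x) := by
  set A := fix T F Y with hA
  set s0 : ℕ → List Bool := fun j => [x].getD j [] with hs0
  have e1 := exec_push A s0 0 false
  set s1 := Function.update s0 0 (false :: s0 0) with hs1
  have a0 : s1 0 = false :: x := by rw [hs1, Function.update_self]; rfl
  have a1 : s1 1 = [] := by rw [hs1, Function.update_of_ne (by norm_num)]; rfl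
  obtain ⟨s2, e2, b0, b1⟩ := exec_pushes A 0 i s1
  rw [a0] at b0
  have b1' : s2 1 = [] := by rw [b1 1 (by norm_num), a1]
  have e3 := exec_push A s2 0 false
  have e4 := exec_push A (Function.update s2 0 (false :: s2 0)) 0 true
  rw [Function.update_self, Function.update_idem] at e4
  set s4 := Function.update s2 0 (true :: false :: s2 0) with hs4
  have c0 : s4 0 = eword (2 * 0) i x := by
    rw [hs4, Function.update_self, b0]
    rfl
  have c1 : s4 1 = [] := by rw [hs4, Function.update_of_ne (by norm_num), b1']
  have e5 := exec_push A s4 1 true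
  set s5 := Function.update s4 1 (true :: s4 1) with hs5
  have d0 : s5 0 = eword (2 * 0) i x := by rw [hs5, Function.update_of_ne (by norm_num), c0]
  have d1 : s5 1 = [true] := by rw [hs5, Function.update_self, c1]
  obtain ⟨s6, e6, f0⟩ := exec_padLoop hF hTU Y i x (T i x.length) 0 s5 (by omega) d0 d1
  have e7 := exec_push A s6 0 true
  set s7 := Function.update s6 0 (true :: s6 0) with hs7
  have g0 : s7 0 = eword (2 * T i x.length + 1) i x := by
    rw [hs7, Function.update_self, f0]
    rfl
  have hask : A (s7 0) = true ↔ F i A x := by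
    rw [g0, hA, fix_eword hF hTU]
    constructor
    · rintro ⟨_, h⟩
      exact h (by omega)
    · intro h
      exact ⟨by omega, fun _ => h⟩
  by_cases hx : F i A x
  · refine ⟨s7, ?_, ?_⟩
    · have e8 : Exec A (Prog.ask 0 Prog.skip (Prog.push 0 false)) s7 s7 2 := by
        apply exec_ask
        rw [if_pos (hask.2 hx)]
        exact exec_skip A s7
      refine (exec_seqs_cons e1 (exec_seqs_cons e2 (exec_seqs_cons e3 (exec_seqs_cons e4
        (exec_seqs_cons e5 (exec_seqs_cons e6 (exec_seqs_cons e7 (exec_seqs_cons e8
        (exec_seqs_nil _ _))))))))).mono ?_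
      omega
    · rw [g0]
      simp [hx, eword]
  · refine ⟨Function.update s7 0 (false :: s7 0), ?_, ?_⟩
    · have e8 : Exec A (Prog.ask 0 Prog.skip (Prog.push 0 false)) s7
          (Function.update s7 0 (false :: s7 0)) 2 := by
        apply exec_ask
        rw [if_neg (fun h => hx (hask.1 h))]
        exact exec_push A s7 0 false
      refine (exec_seqs_cons e1 (exec_seqs_cons e2 (exec_seqs_cons e3 (exec_seqs_cons e4
        (exec_seqs_cons e5 (exec_seqs_cons e6 (exec_seqs_cons e7 (exec_seqs_cons e8
        (exec_seqs_nil _ _))))))))).mono ?_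
      omega
    · simp [hx]

end Pool.Agent.H7
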