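import Mathlib
import Pool.Agent.H7.Easy
import Pool.Agent.H7.Classes

/-!
The stage construction.
-/

set_option autoImplicit false

namespace Pool.Agent.H7

open Pool.Agent.H9 Classical

/-- Choosing a sequence one element at a time. -/
theorem exists_seq {α : Type*} [Nonempty α] (P : ℕ → (ℕ → α) → Prop)
    (hloc : ∀ e (a b : ℕ → α), (∀ i ≤ e, a i = b i) → P e a → P e b)
    (hext : ∀ e (a : ℕ → α), ∃ v, P e (Function.update a e v)) : ∃ a, ∀ e, P e a := by
  choose v hv using hext
  let f : ℕ → (ℕ → α) := fun n => Nat.rec (fun _ => Classical.arbitrary α)
    (fun e a => Function.update a e (v e a)) n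
  have hf : ∀ e, f (e + 1) = Function.update (f e) e (v e (f e)) := fun e => rfl
  have hst : ∀ d e i, i < e → f (e + d) i = f e i := by
    intro d
    induction d with
    | zero => intro e i _; rfl
    | succ d ih =>
      intro e i hi
      rw [← add_assoc, hf, Function.update_of_ne (by omega)]
      exact ih e i hi
  refine ⟨fun i => f (i + 1) i, ?_⟩
  intro e
  apply hloc e (f (e + 1))
  · intro i hi
    show f (e + 1) i = f (i + 1) i
    have h1 := hst (e - i) (i + 1) i (Nat.lt_succ_self i)
    have h2 : i + 1 + (e - i) = e + 1 := by omega
    rw [h2] at h1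
    exact h1
  · rw [hf]
    exact hv e (f e)

/-- Choosing a sequence of lengths. -/
theorem exists_lengths (P : ℕ → ℕ → Prop) (L : ℕ → ℕ → ℕ) (hL : ∀ e n, n ≤ L e n)
    (hP : ∀ e n₀, ∃ n, n₀ ≤ n ∧ P e n) :
    ∃ N : ℕ → ℕ, (∀ e, P e (N e)) ∧ ∀ e e', e < e' → L e (N e) < N e' := by
  choose f hf1 hf2 using hP
  let N : ℕ → ℕ := fun n => Nat.rec (f 0 0) (fun e a => f (e + 1) (L e a + 1)) n
  have hN : ∀ e, N (e + 1) = f (e + 1) (L e (N e) + 1) := fun e => rfl
  refine ⟨N, ?_, ?_⟩
  · intro e
    cases e with
    | zero => exact hf2 0 0
    | succ e => rw [hN]; exact hf2 _ _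
  · intro e e' h
    induction e' with
    | zero => omega
    | succ e' ih =>
      have h1 : L e' (N e') < N (e' + 1) := by
        rw [hN]
        exact hf1 _ _
      rcases Nat.lt_succ_iff_lt_or_eq.1 h with h2 | h2
      · have h3 := ih h2
        have h4 := hL e' (N e')
        omega
      · subst h2
        exact h1

/-- The word, apart from its first letter, under which the table entry `us` for the tally input
`1^n` is stored. -/
def hword (x : List Bool) (us : List (List Bool)) : List Bool := (x ++ us.flatten).reverse

theorem flatten_length {us : List (List Bool)} {k n : ℕ}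
    (h : us.map List.length = List.replicate k n) : us.flatten.length = k * n := by
  rw [List.length_flatten, h, List.sum_replicate, smul_eq_mul]

theorem flatten_inj {k n : ℕ} : ∀ {us vs : List (List Bool)},
    us.map List.length = List.replicate k n → vs.map List.length = List.replicate k n →
    us.flatten = vs.flatten → us = vs := by
  induction k with
  | zero =>
    intro us vs h1 h2 _
    simp at h1 h2
    rw [h1, h2]
  | succ k ih =>
    intro us vs h1 h2 h
    match us, vs with
    | [], _ => simp at h1
    | _ :: _, [] => simp at h2
    | u :: us, v :: vs =>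
      simp only [List.map_cons, List.replicate_succ, List.cons.injEq] at h1 h2
      simp only [List.flatten_cons] at h
      obtain ⟨h3, h4⟩ := List.append_inj h (by rw [h1.1, h2.1])
      rw [h3, ih h1.2 h2.2 h4]

theorem hword_inj {x : List Bool} {us vs : List (List Bool)} {k n : ℕ}
    (h1 : us.map List.length = List.replicate k n) (h2 : vs.map List.length = List.replicate k n)
    (h : hword x us = hword x vs) : us = vs := by
  unfold hword at h
  have h3 := List.reverse_injective h
  have h4 := List.append_cancel_left h3
  exact flatten_inj h1 h2 h4

theorem hword_length {x : List Bool} {us : List (List Bool)} {k n : ℕ}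
    (h1 : us.map List.length = List.replicate k n) :
    (hword x us).length = x.length + k * n := by
  unfold hword
  rw [List.length_reverse, List.length_append, flatten_length h1]

/-- The data of a requirement: number of quantifier blocks, program, block length and running time
as functions of the input length. -/
abbrev Datum := ℕ × Prog × (ℕ → ℕ) × (ℕ → ℕ)

/-- Bound for the length of all words relevant for the requirement `d` at length `n`. -/
def bound (d : Datum) (n : ℕ) : ℕ := (d.1 + 2) * n + 1 + (n + d.1 * d.2.2.1 n + d.2.2.2 n)

theorem le_bound (d : Datum) (n : ℕ) : n ≤ bound d n := by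
  unfold bound
  nlinarith

/-- The table given by tables for all stages. -/
noncomputable def Ytab (R : ℕ → Datum) (N : ℕ → ℕ) (a : ℕ → (List (List Bool) → Bool)) : Oracle :=
  fun w => decide (∃ (e : ℕ) (us : List (List Bool)),
    us.map List.length = List.replicate ((R e).1 + 1) (N e) ∧
    w = hword (List.replicate (N e) true) us ∧ a e us = true)

section

variable {R : ℕ → Datum} {N : ℕ → ℕ} (hN : ∀ e e', e < e' → bound (R e) (N e) < N e')

include hN

theorem stage_unique {e e' : ℕ} {us vs : List (List Bool)}
    (h1 : us.map List.length = List.replicate ((R e).1 + 1) (N e))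
    (h2 : vs.map List.length = List.replicate ((R e').1 + 1) (N e'))
    (h : hword (List.replicate (N e) true) us = hword (List.replicate (N e') true) vs) :
    e = e' ∧ us = vs := by
  have hl := congrArg List.length h
  rw [hword_length h1, hword_length h2, List.length_replicate, List.length_replicate] at hl
  have key : ∀ i j, i < j → N i + ((R i).1 + 1) * N i < N j + ((R j).1 + 1) * N j := by
    intro i j hij
    have h3 := hN i j hij
    unfold bound at h3
    nlinarith
  have he : e = e' := by
    rcases Nat.lt_trichotomy e e' with h3 | h3 | h3
    · have := key e e' h3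
      omega
    · exact h3
    · have := key e' e h3
      omega
  subst he
  exact ⟨rfl, hword_inj h1 h2 h⟩

theorem Ytab_apply (a : ℕ → (List (List Bool) → Bool)) {e : ℕ} {us : List (List Bool)}
    (h1 : us.map List.length = List.replicate ((R e).1 + 1) (N e)) :
    Ytab R N a (hword (List.replicate (N e) true) us) = a e us := by
  have : (∃ (e' : ℕ) (vs : List (List Bool)),
      vs.map List.length = List.replicate ((R e').1 + 1) (N e') ∧
      hword (List.replicate (N e) true) us = hword (List.replicate (N e') true) vs ∧
      a e' vs = true) ↔ a e us = true := by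
    constructor
    · rintro ⟨e', vs, h2, h3, h4⟩
      obtain ⟨rfl, rfl⟩ := stage_unique hN h1 h2 h3
      exact h4
    · intro h
      exact ⟨e, us, h1, rfl, h⟩
  rw [Bool.eq_iff_iff, ← this]
  unfold Ytab
  rw [decide_eq_true_iff]

end

theorem Ytab_congr {R : ℕ → Datum} {N : ℕ → ℕ} {a b : ℕ → (List (List Bool) → Bool)}
    {w : List Bool} (h : ∀ (e : ℕ) (us : List (List Bool)),
      us.map List.length = List.replicate ((R e).1 + 1) (N e) →
      w = hword (List.replicate (N e) true) us → a e us = b e us) :
    Ytab R N a w = Ytab R N b w := by
  unfold Ytab
  apply decide_eq_decide.2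
  apply exists_congr; intro e
  apply exists_congr; intro us
  apply and_congr_right; intro h1
  apply and_congr_right; intro h2
  rw [h e us h1 h2]

theorem Ytab_local {R : ℕ → Datum} {N : ℕ → ℕ} {a b : ℕ → (List (List Bool) → Bool)}
    {w : List Bool} (h : ∀ e, N e ≤ w.length → a e = b e) :
    Ytab R N a w = Ytab R N b w := by
  apply Ytab_congr
  intro e us h1 h2
  rw [h e]
  rw [h2, hword_length h1, List.length_replicate]
  omega

/-- **The stage construction.** -/
theorem stage_construction (t : ℕ → ℕ → ℕ) (U : ℕ → ℕ → ℕ) (F : ℕ → Oracle → List Bool → Prop)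
    (hF : Use U F) (R : ℕ → Datum) (hU : ∀ i, ∃ D, ∀ m, U i m ≤ t i m + D)
    (hbig : ∀ e n₀, ∃ n, n₀ ≤ n ∧
      ((R e).2.2.1 n + (R e).2.2.2 n) * 2 ^ ((R e).1 + 5) ≤ 2 ^ (n / 4) ∧
      ((R e).1 + 1) * n + 3 ≤ 2 ^ (n / 4) ∧
      ∀ i ≤ e, ∀ m, n ≤ U i m → bound (R e) n < t i m) :
    ∃ A : Oracle,
      (∀ e, ∃ n, ¬ (Alt true ((R e).1 + 1) n
          (fun us => A (false :: hword (List.replicate n true) us) = true) ↔
        Alt true (R e).1 ((R e).2.2.1 n)
          (fun ws => AcceptsIn A (R e).2.1 (List.replicate n true :: ws) ((R e).2.2.2 n)))) ∧
      ∀ i, ∃ (c : ℕ) (p : Prog), ∀ x : List Bool,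
        (run A p [x] (c * t i x.length + c)).1 = [] ∧ (F i A x ↔ Accepts A p [x]) := by
  obtain ⟨N, hN1, hN2⟩ := exists_lengths _ (fun e n => bound (R e) n)
    (fun e n => le_bound (R e) n) hbig
  choose D hD using hU
  -- thresholds
  let T : ℕ → ℕ → ℕ := fun i m => t i m + (∑ e ∈ Finset.range i, (bound (R e) (N e) + 1) + D i)
  have hT1 : ∀ i m, U i m ≤ T i m := by
    intro i m
    have := hD i m
    show U i m ≤ t i m + (_ + D i)
    omega
  have hT2 : ∀ i m e, T i m ≤ bound (R e) (N e) → U i m < N e := by
    intro i m e h
    by_contra hcon
    have h1 : N e ≤ U i m := not_lt.1 hcon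
    rcases Nat.lt_or_ge e i with h2 | h2
    · have h3 : bound (R e) (N e) + 1 ≤ ∑ e ∈ Finset.range i, (bound (R e) (N e) + 1) :=
        Finset.single_le_sum (f := fun e => bound (R e) (N e) + 1)
          (fun _ _ => Nat.zero_le _) (Finset.mem_range.2 h2)
      have h4 : T i m = t i m + (∑ e ∈ Finset.range i, (bound (R e) (N e) + 1) + D i) := rfl
      omega
    · have h3 := (hN1 e).2.2 i h2 m h1
      have h4 : T i m = t i m + (∑ e ∈ Finset.range i, (bound (R e) (N e) + 1) + D i) := rfl
      omega
  have hNmono : ∀ e e', e < e' → N e < N e' := fun e e' h =>
    lt_of_le_of_lt (le_bound (R e) (N e)) (hN2 e e' h)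
  -- the choice of the tables
  obtain ⟨a, ha⟩ := exists_seq (α := List (List Bool) → Bool)
    (fun e a => ¬ (AltL true (List.replicate (R e).1 (N e) ++ [N e]) (fun us => a e us = true) ↔
      AltL true (List.replicate (R e).1 ((R e).2.2.1 (N e)))
        (fun ws => AcceptsIn (fix T F (Ytab R N a)) (R e).2.1
          (List.replicate (N e) true :: ws) ((R e).2.2.2 (N e))))) (by
      -- locality
      intro e a b hab h hcon
      apply h
      rw [hab e le_rfl, hcon]
      apply AltL_congr
      intro ws hws
      refine (dtp_acceptsIn (R e).2.1 (List.replicate (N e) true :: ws) ((R e).2.2.2 (N e))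
        (bound (R e) (N e)) ?_).depends ?_
      · have h1 : (List.map List.length ws).sum = (R e).1 * (R e).2.2.1 (N e) := by
          rw [hws, List.sum_replicate, smul_eq_mul]
        simp only [totalLength, List.map_cons, List.sum_cons, List.length_replicate, h1, bound]
        omega
      · intro v hv
        have hv' : v.length ≤ bound (R e) (N e) := hv
        refine fix_local hF hT1 (l := bound (R e) (N e)) ?_ _ v rfl hv'
        intro w hw
        apply Ytab_local
        intro e' he'
        rcases Nat.lt_or_ge e e' with h2 | h2
        · have := hN2 e e' h2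
          omega
        · exact (hab e' h2).symm) (by
      -- extension
      intro e a
      set k := (R e).1 with hk
      set n := N e with hn
      set ℓ := (R e).2.2.1 n with hℓ
      set τ := (R e).2.2.2 n with hτ
      obtain ⟨hb1, hb2, -⟩ := hN1 e
      have hσ : ∀ w : List Bool, w.length ≤ bound (R e) (N e) →
          DTP Set.univ 1 (fun v : List (List Bool) → Bool =>
            fix T F (Ytab R N (Function.update a e v)) w = true) := by
        intro w hw
        -- words whose value does not depend on the table of this stage
        have hconst : (∀ v v' : List (List Bool) → Bool,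
            fix T F (Ytab R N (Function.update a e v)) w =
            fix T F (Ytab R N (Function.update a e v')) w) →
            DTP Set.univ 1 (fun v : List (List Bool) → Bool =>
            fix T F (Ytab R N (Function.update a e v)) w = true) := by
          intro h
          refine (DTP.const (Q := Set.univ) 1
            (fix T F (Ytab R N (Function.update a e (fun _ => false))) w = true)).congr ?_
          intro v
          rw [h v (fun _ => false)]
        match w with
        | [] =>
          apply hconst
          intro v v'
          rw [fix_eq hF hT1, fix_eq hF hT1]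
          rfl
        | false :: w' =>
          by_cases hst : ∃ us : List (List Bool),
              us.map List.length = List.replicate ((R e).1 + 1) (N e) ∧
              w' = hword (List.replicate (N e) true) us
          · obtain ⟨us, h1, h2⟩ := hst
            refine (DTP.var (Q := Set.univ) us (Set.mem_univ _)).congr ?_
            intro v
            rw [fix_false hF hT1, h2, Ytab_apply hN2 _ h1, Function.update_self]
          · apply hconst
            intro v v'
            rw [fix_false hF hT1, fix_false hF hT1]
            apply Ytab_congr
            intro e' us h1 h2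
            have : e' ≠ e := by
              rintro rfl
              exact hst ⟨us, h1, h2⟩
            rw [Function.update_of_ne this, Function.update_of_ne this]
        | true :: w' =>
          apply hconst
          intro v v'
          rw [fix_eq hF hT1, fix_eq hF hT1]
          have : (∃ (N' i : ℕ) (x : List Bool), true :: w' = eword N' i x ∧
            T i x.length ≤ N' / 2 ∧ (N' % 2 = 1 →
              F i (fix T F (Ytab R N (Function.update a e v))) x)) ↔
            (∃ (N' i : ℕ) (x : List Bool), true :: w' = eword N' i x ∧
            T i x.length ≤ N' / 2 ∧ (N' % 2 = 1 →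
              F i (fix T F (Ytab R N (Function.update a e v'))) x)) := by
            apply exists_congr; intro N'
            apply exists_congr; intro i
            apply exists_congr; intro x
            apply and_congr_right; intro h1
            apply and_congr_right; intro h2
            apply imp_congr_right; intro _
            apply hF
            intro z hz
            have h3 : U i x.length < N e := by
              apply hT2
              rw [h1, eword_length] at hw
              omega
            refine fix_local hF hT1 (l := N e - 1) ?_ _ z rfl (by omega)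
            intro y hy
            apply Ytab_local
            intro e' he'
            have : e' ≠ e := by
              rintro rfl
              omega
            rw [Function.update_of_ne this, Function.update_of_ne this]
          simp only [G, this]
      obtain ⟨v, hv⟩ := hierarchy (q := ℓ) (T := ℓ + τ) (μ := n / 4) (K := k) (B := (k + 1) * n)
        hb2 (Nat.le_add_right _ _) hb1 k true (List.replicate k n) n
        (fun ws v => AcceptsIn (fix T F (Ytab R N (Function.update a e v))) (R e).2.1
          (List.replicate n true :: ws) τ) le_rfl (by simp)
        (fun x hx => by rw [List.eq_of_mem_replicate hx]; omega) (by omega)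
        (by rw [List.sum_replicate, smul_eq_mul]; linarith)
        (fun ws hws => by
          rw [mem_paths] at hws
          have h1 : (List.map List.length ws).sum = k * ℓ := by
            rw [hws, List.sum_replicate, smul_eq_mul]
          have hbd : bound (R e) n = (k + 2) * n + 1 + (n + k * ℓ + τ) := rfl
          have h2 := (dtp_acceptsIn (R e).2.1 (List.replicate n true :: ws) τ
            (bound (R e) n) (by
              rw [hbd]
              simp only [totalLength, List.map_cons, List.sum_cons, List.length_replicate, h1]
              omega)).comp (R := Set.univ) (m := 1)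
            (fun v : List (List Bool) → Bool => fix T F (Ytab R N (Function.update a e v)))
            (fun w hw => hσ w hw)
          exact h2.mono (by omega))
      refine ⟨v, ?_⟩
      rw [Function.update_self]
      exact hv)
  refine ⟨fix T F (Ytab R N a), ?_, ?_⟩
  · intro e
    refine ⟨N e, ?_⟩
    have h := ha e
    rw [← List.replicate_succ'] at h
    intro hcon
    apply h
    rw [← Alt_eq, ← Alt_eq, ← hcon, Alt_eq, Alt_eq]
    apply AltL_congr
    intro us hus
    rw [fix_false hF hT1, Ytab_apply hN2 _ hus]
  · intro i
    refine ⟨5 + 5 * (∑ e ∈ Finset.range i, (bound (R e) (N e) + 1) + D i) + (2 * i + 30),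
      easyProg i, ?_⟩
    intro x
    obtain ⟨s', h1, h2⟩ := exec_easyProg hF hT1 (Ytab R N a) i x
    have h3 := run_of_exec (h1.mono (M := (5 + 5 * (∑ e ∈ Finset.range i,
      (bound (R e) (N e) + 1) + D i) + (2 * i + 30)) * t i x.length +
      (5 + 5 * (∑ e ∈ Finset.range i, (bound (R e) (N e) + 1) + D i) + (2 * i + 30))) (by
        have h4 : T i x.length = t i x.length +
          (∑ e ∈ Finset.range i, (bound (R e) (N e) + 1) + D i) := rfl
        rw [h4]
        generalize (∑ e ∈ Finset.range i, (bound (R e) (N e) + 1) + D i) = Z
        generalize t i x.length = z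
        nlinarith [Nat.zero_le (Z * z), Nat.zero_le (i * z)]))
    have h4 : (run (fix T F (Ytab R N a)) (easyProg i) [x]
      ((5 + 5 * (∑ e ∈ Finset.range i,
      (bound (R e) (N e) + 1) + D i) + (2 * i + 30)) * t i x.length +
      (5 + 5 * (∑ e ∈ Finset.range i, (bound (R e) (N e) + 1) + D i) + (2 * i + 30)))).1 = [] := by
      rw [h3]
    refine ⟨h4, ?_⟩
    rw [accepts_iff_of_halted h4]
    unfold AcceptsIn
    rw [h3]
    simp only [true_and]
    exact h2.symm

end Pool.Agent.H7
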