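import Mathlib
import Pool.Agent.H7.Diag

/-!
The verifier of the table languages, and growth estimates.
-/

set_option autoImplicit false

namespace Pool.Agent.H7

open Pool.Agent.H9

/-- The verifier: query the table at the given tuple of strings. -/
def verifier (k : ℕ) : Prog :=
  seqs [moves (k + 2) (List.range (k + 2)), Prog.push (k + 2) false,
    Prog.ask (k + 2) (Prog.push 0 true) (Prog.push 0 false)]

theorem map_getD_range (xs : List (List Bool)) :
    (List.range xs.length).map (fun i => xs.getD i []) = xs := by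
  apply List.ext_getElem
  · simp
  · intro i h1 h2
    simp only [List.getElem_map, List.getElem_range]
    simp [List.getD_eq_getElem?_getD, h2]

theorem exec_verifier (A : Oracle) (k : ℕ) (x : List Bool) (us : List (List Bool))
    (hus : us.length = k + 1) :
    ∃ s', Exec A (verifier k) (fun i => (x :: us).getD i []) s'
      (totalLength (x :: us) * 5 + (2 * k + 20)) ∧
      ((s' 0).head? = some true ↔ A (false :: hword x us) = true) := by
  have hlen : (x :: us).length = k + 2 := by simp [hus]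
  obtain ⟨s1, e1, h1, h2⟩ := exec_moves A (k + 2) (List.range (k + 2)) List.nodup_range
    (by simp) (fun i => (x :: us).getD i [])
  have hmap : (List.range (k + 2)).map (fun i => (x :: us).getD i []) = x :: us := by
    rw [← hlen]; exact map_getD_range _
  rw [hmap] at e1 h1
  have hW : (x :: us).getD (k + 2) [] = [] := by
    rw [List.getD_eq_getElem?_getD, List.getElem?_eq_none (by rw [hlen])]
    rfl
  rw [hW, List.append_nil] at h1
  have e2 := exec_push A s1 (k + 2) false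
  set s2 := Function.update s1 (k + 2) (false :: s1 (k + 2)) with hs2
  have a1 : s2 (k + 2) = false :: hword x us := by
    rw [hs2, Function.update_self, h1]
    rfl
  by_cases hA : A (false :: hword x us) = true
  · refine ⟨Function.update s2 0 (true :: s2 0), ?_, ?_⟩
    · have e3 : Exec A (Prog.ask (k + 2) (Prog.push 0 true) (Prog.push 0 false)) s2
          (Function.update s2 0 (true :: s2 0)) 2 := by
        apply exec_ask
        rw [a1, if_pos hA]
        exact exec_push A s2 0 true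
      refine (exec_seqs_cons e1 (exec_seqs_cons e2 (exec_seqs_cons e3
        (exec_seqs_nil _ _)))).mono ?_
      simp only [totalLength, List.length_range]
      omega
    · simp [hA]
  · refine ⟨Function.update s2 0 (false :: s2 0), ?_, ?_⟩
    · have e3 : Exec A (Prog.ask (k + 2) (Prog.push 0 true) (Prog.push 0 false)) s2
          (Function.update s2 0 (false :: s2 0)) 2 := by
        apply exec_ask
        rw [a1, if_neg hA]
        exact exec_push A s2 0 false
      refine (exec_seqs_cons e1 (exec_seqs_cons e2 (exec_seqs_cons e3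
        (exec_seqs_nil _ _)))).mono ?_
      simp only [totalLength, List.length_range]
      omega
    · simp [hA]

/-- The language of the tables at level `k`. -/
def tableLang (A : Oracle) (k : ℕ) : Set (List Bool) :=
  {x | Alt true (k + 1) x.length (fun us => A (false :: hword x us) = true)}

theorem Alt_congr {ex : Bool} {k m : ℕ} {φ ψ : List (List Bool) → Prop}
    (h : ∀ us : List (List Bool), us.map List.length = List.replicate k m → (φ us ↔ ψ us)) :
    Alt ex k m φ ↔ Alt ex k m ψ := by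
  rw [Alt_eq, Alt_eq]
  exact AltL_congr h

theorem tableLang_mem (A : Oracle) (k : ℕ) : tableLang A k ∈ SigmaP A (k + 1) := by
  have hhalt : ∀ (x : List Bool) (us : List (List Bool)), us.length = k + 1 →
      (run A (verifier k) (x :: us) (totalLength (x :: us) * 5 + (2 * k + 20))).1 = [] ∧
      (AcceptsIn A (verifier k) (x :: us) (totalLength (x :: us) * 5 + (2 * k + 20)) ↔
        A (false :: hword x us) = true) := by
    intro x us hus
    obtain ⟨s', h1, h2⟩ := exec_verifier A k x us hus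
    have h3 := run_of_exec h1
    refine ⟨by rw [h3], ?_⟩
    unfold AcceptsIn
    rw [h3]
    simp only [true_and]
    exact h2
  refine ⟨Polynomial.X, verifier k, ⟨Polynomial.X * 5 + Polynomial.C (2 * k + 20), ?_⟩, ?_⟩
  · intro xs hxs
    match xs with
    | [] => simp at hxs
    | x :: us =>
      have := (hhalt x us (by simpa using hxs)).1
      simpa using this
  · intro x
    show Alt true (k + 1) x.length (fun us => A (false :: hword x us) = true) ↔ _
    rw [Polynomial.eval_X]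
    apply Alt_congr
    intro us hus
    have hl : us.length = k + 1 := by
      have := congrArg List.length hus
      simpa using this
    obtain ⟨h1, h2⟩ := hhalt x us hl
    rw [accepts_iff_of_halted h1, h2]

/-! ### Growth -/

theorem exists_poly_le_two_pow (C d : ℕ) : ∃ M, ∀ m, M ≤ m → C * m ^ d ≤ 2 ^ m := by
  have h := tendsto_pow_const_div_const_pow_of_one_lt d (r := (2 : ℝ)) (by norm_num)
  have h1 : ∀ᶠ n : ℕ in Filter.atTop, (n : ℝ) ^ d / 2 ^ n < 1 / (C + 1) :=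
    h.eventually_lt_const (by positivity)
  obtain ⟨M, hM⟩ := Filter.eventually_atTop.1 h1
  refine ⟨M, ?_⟩
  intro m hm
  have h2 := hM m hm
  rw [div_lt_div_iff₀ (by positivity) (by positivity)] at h2
  have h3 : (C : ℝ) * (m : ℝ) ^ d ≤ 2 ^ m := by
    have : (0 : ℝ) ≤ (m : ℝ) ^ d := by positivity
    nlinarith
  exact_mod_cast h3

section

variable {s t : ℕ → ℕ}

theorem smooth_pow {d : ℕ} (hd : ∀ n, 2 ≤ n → s (n ^ 2) ≤ s n ^ d) :
    ∀ (j n : ℕ), 2 ≤ n → s (n ^ 2 ^ j) ≤ s n ^ d ^ j := by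
  intro j
  induction j with
  | zero => intro n _; simp
  | succ j ih =>
    intro n hn
    have h1 : n ^ 2 ^ (j + 1) = (n ^ 2 ^ j) ^ 2 := by rw [← pow_mul, pow_succ]
    have h2 : 2 ≤ n ^ 2 ^ j := by
      calc 2 ≤ n := hn
        _ = n ^ 1 := (pow_one n).symm
        _ ≤ n ^ 2 ^ j := Nat.pow_le_pow_right (by omega) Nat.one_le_two_pow
    rw [h1]
    refine (hd _ h2).trans ?_
    refine (Nat.pow_le_pow_left (ih n hn) d).trans ?_
    rw [← pow_mul, pow_succ]

theorem smooth_subexp (hsm : Monotone s)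
    {d : ℕ} (hd : ∀ n, 2 ≤ n → s (n ^ 2) ≤ s n ^ d) (c : ℕ) :
    ∃ n₀, ∀ n, n₀ ≤ n → s n ^ c ≤ 2 ^ n := by
  obtain ⟨M, hM⟩ := exists_poly_le_two_pow (s 2 * c * 2 ^ d) d
  refine ⟨2 ^ (M + 1), ?_⟩
  intro n hn
  have hn2 : 2 ≤ n := by
    have : 2 ^ 1 ≤ 2 ^ (M + 1) := Nat.pow_le_pow_right (by norm_num) (by omega)
    omega
  set l := Nat.log 2 n with hl
  have hl1 : 2 ^ l ≤ n := Nat.pow_log_le_self 2 (by omega)
  have hl2 : n < 2 ^ (l + 1) := Nat.lt_pow_succ_log_self (by norm_num) n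
  have hlM : M ≤ l := by
    by_contra hcon
    have : 2 ^ (l + 1) ≤ 2 ^ (M + 1) := Nat.pow_le_pow_right (by norm_num) (by omega)
    omega
  have hl0 : 1 ≤ l := by
    by_contra hcon
    have : l = 0 := by omega
    rw [this] at hl2
    omega
  set j := Nat.log 2 l with hj
  have hj1 : 2 ^ j ≤ l := Nat.pow_log_le_self 2 (by omega)
  have hj2 : l < 2 ^ (j + 1) := Nat.lt_pow_succ_log_self (by norm_num) l
  have h1 : s n ≤ s (2 ^ 2 ^ (j + 1)) := by
    apply hsm
    exact hl2.le.trans (Nat.pow_le_pow_right (by norm_num) hj2)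
  have h2 := smooth_pow hd (j + 1) 2 le_rfl
  have h3 : s 2 ^ d ^ (j + 1) ≤ 2 ^ (s 2 * d ^ (j + 1)) := by
    rw [pow_mul]
    exact Nat.pow_le_pow_left Nat.lt_two_pow_self.le _
  have h4 : d ^ (j + 1) ≤ (2 * l) ^ d := by
    calc d ^ (j + 1) ≤ (2 ^ d) ^ (j + 1) := Nat.pow_le_pow_left Nat.lt_two_pow_self.le _
      _ = (2 ^ (j + 1)) ^ d := by rw [← pow_mul, ← pow_mul, mul_comm]
      _ ≤ (2 * l) ^ d := Nat.pow_le_pow_left (by rw [pow_succ]; omega) _
  have h5 : s 2 * d ^ (j + 1) * c ≤ n := by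
    calc s 2 * d ^ (j + 1) * c ≤ s 2 * (2 * l) ^ d * c := by gcongr
      _ = s 2 * c * 2 ^ d * l ^ d := by rw [mul_pow]; ring
      _ ≤ 2 ^ l := hM l hlM
      _ ≤ n := hl1
  calc s n ^ c ≤ (2 ^ (s 2 * d ^ (j + 1))) ^ c :=
        Nat.pow_le_pow_left ((h1.trans h2).trans h3) c
    _ = 2 ^ (s 2 * d ^ (j + 1) * c) := by rw [← pow_mul]
    _ ≤ 2 ^ n := Nat.pow_le_pow_right (by norm_num) h5

theorem poly_le_s (hs : ∀ n, n ≤ s n) (P : Polynomial ℕ) :
    ∃ c, ∀ n, 2 ≤ n → P.eval (s n) ≤ s n ^ c := by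
  obtain ⟨c, hc⟩ := poly_le_pow P
  refine ⟨2 * 2 ^ c, ?_⟩
  intro n hn
  have h1 : 2 ≤ s n := hn.trans (hs n)
  calc P.eval (s n) ≤ (s n + 2) ^ 2 ^ c := hc (s n)
    _ ≤ (s n ^ 2) ^ 2 ^ c := Nat.pow_le_pow_left (by nlinarith) _
    _ = s n ^ (2 * 2 ^ c) := by rw [← pow_mul]

theorem poly_le_two_pow (hs : ∀ n, n ≤ s n)
    (hs2 : ∀ c : ℕ, ∃ n₀, ∀ n, n₀ ≤ n → s n ^ c ≤ 2 ^ n) (P : Polynomial ℕ) :
    ∃ n₀, ∀ n, n₀ ≤ n → P.eval (s n) ≤ 2 ^ (n / 4) := by
  obtain ⟨c, hc⟩ := poly_le_s hs P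
  obtain ⟨n₀, hn₀⟩ := hs2 (c * 5)
  refine ⟨max n₀ 15, ?_⟩
  intro n hn
  have h1 := hn₀ n ((le_max_left _ _).trans hn)
  have h2 : 15 ≤ n := (le_max_right _ _).trans hn
  refine (hc n (by omega)).trans ?_
  have h3 : (s n ^ c) ^ 5 ≤ (2 ^ (n / 4)) ^ 5 := by
    rw [← pow_mul, ← pow_mul]
    exact h1.trans (Nat.pow_le_pow_right (by norm_num) (by omega))
  exact (Nat.pow_le_pow_iff_left (by norm_num)).1 h3

theorem exists_jump (htm : Monotone t) (hnb : ¬ ∃ d, ∀ n, t n ≤ s n ^ d + d) (c n₀ : ℕ) :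
    ∃ M, n₀ ≤ M ∧ s M ^ c < t M := by
  by_contra hcon
  push Not at hcon
  apply hnb
  refine ⟨c + t n₀ + 1, ?_⟩
  intro n
  rcases Nat.lt_or_ge n n₀ with h | h
  · have := htm h.le
    omega
  · have h1 := hcon n h
    rcases Nat.eq_zero_or_pos (s n) with h0 | h0
    · rw [h0] at h1
      have h2 : 0 ^ c ≤ 1 := by
        rcases Nat.eq_zero_or_pos c with h3 | h3
        · rw [h3]; norm_num
        · rw [Nat.zero_pow h3]; norm_num
      omega
    · have h2 : s n ^ c ≤ s n ^ (c + t n₀ + 1) := Nat.pow_le_pow_right h0 (by omega)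
      omega

theorem exists_stage_length (hsm : Monotone s) (htm : Monotone t) (hs : ∀ n, n ≤ s n)
    {d : ℕ} (hd : ∀ n, 2 ≤ n → s (n ^ 2) ≤ s n ^ d)
    (hnb : ¬ ∃ d, ∀ n, t n ≤ s n ^ d + d) (P : Polynomial ℕ) (C n₀ : ℕ) :
    ∃ n, n₀ ≤ n ∧ ∀ m, n ≤ (m + 2) ^ 2 ^ C → P.eval (s n) < t m := by
  obtain ⟨c, hc⟩ := poly_le_s hs P
  obtain ⟨M, hM1, hM2⟩ := exists_jump htm hnb (d ^ (C + 2) * c) (max n₀ 2)
  have hM3 : 2 ≤ M := (le_max_right _ _).trans hM1
  have hX : M + 2 ≤ (M + 2) ^ 2 ^ C := by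
    calc M + 2 = (M + 2) ^ 1 := (pow_one _).symm
      _ ≤ (M + 2) ^ 2 ^ C := Nat.pow_le_pow_right (by omega) Nat.one_le_two_pow
  refine ⟨(M + 2) ^ 2 ^ C + 1, ?_, ?_⟩
  · have := (le_max_left n₀ 2).trans hM1
    omega
  · intro m hm
    have h1 : M < m := by
      by_contra hcon
      have : (m + 2) ^ 2 ^ C ≤ (M + 2) ^ 2 ^ C := Nat.pow_le_pow_left (by omega) _
      omega
    have h2 : (M + 2) ^ 2 ^ C + 1 ≤ M ^ 2 ^ (C + 2) := by
      have h3 : (M + 2) ^ 2 ^ C ≤ M ^ 2 ^ (C + 1) := by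
        calc (M + 2) ^ 2 ^ C ≤ (M ^ 2) ^ 2 ^ C := Nat.pow_le_pow_left (by nlinarith) _
          _ = M ^ 2 ^ (C + 1) := by rw [← pow_mul, pow_succ, mul_comm]
      have h4 : M ^ 2 ^ (C + 2) = M ^ 2 ^ (C + 1) * M ^ 2 ^ (C + 1) := by
        rw [← pow_add, pow_succ 2 (C + 1), mul_two]
      rw [h4]
      generalize M ^ 2 ^ (C + 1) = Z at h3
      nlinarith
    have h5 : s ((M + 2) ^ 2 ^ C + 1) ≤ s M ^ d ^ (C + 2) :=
      (hsm h2).trans (smooth_pow hd _ _ hM3)
    calc P.eval (s ((M + 2) ^ 2 ^ C + 1)) ≤ s ((M + 2) ^ 2 ^ C + 1) ^ c := hc _ (by omega)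
      _ ≤ (s M ^ d ^ (C + 2)) ^ c := Nat.pow_le_pow_left h5 c
      _ = s M ^ (d ^ (C + 2) * c) := by rw [← pow_mul]
      _ < t M := hM2
      _ ≤ t m := htm h1.le

theorem time_bound (c a : ℕ) : ∃ d, ∀ m z : ℕ,
    c * (z + (m + 2) ^ a) + c ≤ (m + z) ^ d + d := by
  refine ⟨(c + 2 * a + 3) + (c * (1 + 3 ^ a) + c), ?_⟩
  intro m z
  rcases Nat.lt_or_ge (m + z) 2 with h | h
  · have h1 : (m + 2) ^ a ≤ 3 ^ a := Nat.pow_le_pow_left (by omega) a
    have h2 : c * (z + (m + 2) ^ a) ≤ c * (1 + 3 ^ a) :=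
      Nat.mul_le_mul_left c (by omega)
    omega
  · set X := m + z with hX
    have h1 : (m + 2) ^ a ≤ X ^ (2 * a) := by
      rw [pow_mul]
      exact Nat.pow_le_pow_left (by nlinarith) a
    have h2 : c ≤ X ^ c := Nat.lt_two_pow_self.le.trans (Nat.pow_le_pow_left h c)
    have h3 : X ^ (2 * a) ≤ X ^ (2 * a + 1) := Nat.pow_le_pow_right (by omega) (by omega)
    have h4 : X ≤ X ^ (2 * a + 1) := by
      calc X = X ^ 1 := (pow_one X).symm
        _ ≤ X ^ (2 * a + 1) := Nat.pow_le_pow_right (by omega) (by omega)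
    have h5 : 1 ≤ X ^ (2 * a + 1) := Nat.one_le_pow _ _ (by omega)
    have h6 : c * (z + (m + 2) ^ a) + c ≤ X ^ c * (X ^ 2 * X ^ (2 * a + 1)) := by
      have h7 : z + (m + 2) ^ a + 1 ≤ X ^ 2 * X ^ (2 * a + 1) := by
        have : 4 ≤ X ^ 2 := by nlinarith
        nlinarith
      calc c * (z + (m + 2) ^ a) + c = c * (z + (m + 2) ^ a + 1) := by ring
        _ ≤ X ^ c * (X ^ 2 * X ^ (2 * a + 1)) := Nat.mul_le_mul h2 h7
    have h8 : X ^ c * (X ^ 2 * X ^ (2 * a + 1)) = X ^ (c + 2 * a + 3) := by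
      rw [← pow_add, ← pow_add]
      congr 1
      ring
    rw [h8] at h6
    have h9 : X ^ (c + 2 * a + 3) ≤ X ^ ((c + 2 * a + 3) + (c * (1 + 3 ^ a) + c)) :=
      Nat.pow_le_pow_right (by omega) (by omega)
    omega

theorem time_bound' (c d : ℕ) : ∃ e, ∀ m z : ℕ,
    (m + (z ^ d + d)) ^ c + c ≤ (m + z) ^ e + e := by
  refine ⟨(d + 3) * c + ((1 + (1 + d)) ^ c + c) + c, ?_⟩
  intro m z
  rcases Nat.lt_or_ge (m + z) 2 with h | h
  · have h1 : z ^ d ≤ 1 := by
      calc z ^ d ≤ 1 ^ d := Nat.pow_le_pow_left (by omega) d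
        _ = 1 := one_pow d
    have h2 : (m + (z ^ d + d)) ^ c ≤ (1 + (1 + d)) ^ c := Nat.pow_le_pow_left (by omega) c
    omega
  · set X := m + z with hX
    have h1 : m + (z ^ d + d) ≤ X ^ (d + 3) := by
      have h2 : z ^ d ≤ X ^ d := Nat.pow_le_pow_left (by omega) d
      have h3 : d ≤ X ^ d := Nat.lt_two_pow_self.le.trans (Nat.pow_le_pow_left h d)
      have h4 : X ^ (d + 3) = X ^ d * (X * (X * X)) := by ring
      rw [h4]
      have h5 : 1 ≤ X ^ d := Nat.one_le_pow _ _ (by omega)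
      have h6 : m ≤ X := by omega
      generalize X ^ d = Z at h2 h3 h5
      have h7 : X + 2 ≤ X * (X * X) := by nlinarith [Nat.mul_le_mul h h]
      calc m + (z ^ d + d) ≤ X * Z + (Z + Z) := by nlinarith
        _ = Z * (X + 2) := by ring
        _ ≤ Z * (X * (X * X)) := Nat.mul_le_mul_left _ h7
    have h8 : (m + (z ^ d + d)) ^ c ≤ X ^ ((d + 3) * c) := by
      rw [pow_mul]
      exact Nat.pow_le_pow_left h1 c
    have h9 : X ^ ((d + 3) * c) ≤ X ^ ((d + 3) * c + ((1 + (1 + d)) ^ c + c) + c) :=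
      Nat.pow_le_pow_right (by omega) (by omega)
    omega

end

theorem dtime_mono {A : Oracle} {s t : ℕ → ℕ} {d : ℕ} (h : ∀ n, t n ≤ s n ^ d + d) :
    DTime A t ⊆ DTime A s := by
  rintro L ⟨c, p, hp⟩
  obtain ⟨e, he⟩ := time_bound' c d
  refine ⟨e, p, ?_⟩
  intro x
  obtain ⟨h1, h2⟩ := hp x
  refine ⟨?_, h2⟩
  have h3 : (x.length + t x.length) ^ c + c ≤ (x.length + s x.length) ^ e + e := by
    refine le_trans ?_ (he x.length (s x.length))
    have := Nat.pow_le_pow_left (Nat.add_le_add_left (h x.length) x.length) c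
    omega
  rw [run_of_halted h1 h3]
  exact h1

theorem dtime_subset_sigmaTime {A : Oracle} {s : ℕ → ℕ} (hs : ∀ n, n ≤ s n) :
    DTime A s ⊆ SigmaTime A s 0 := by
  rintro L ⟨d, p, hp⟩
  refine ⟨0, (Polynomial.X + Polynomial.X) ^ d + Polynomial.C d, p, ?_, ?_⟩
  · intro x us hus _
    obtain rfl : us = [] := List.length_eq_zero_iff.1 hus
    obtain ⟨h1, _⟩ := hp x
    have h3 : (x.length + s x.length) ^ d + d ≤
        ((Polynomial.X + Polynomial.X) ^ d + Polynomial.C d : Polynomial ℕ).eval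
          (s x.length) := by
      simp only [Polynomial.eval_add, Polynomial.eval_pow, Polynomial.eval_X,
        Polynomial.eval_C]
      have := Nat.pow_le_pow_left (Nat.add_le_add_right (hs x.length) (s x.length)) d
      omega
    rw [run_of_halted h1 h3]
    exact h1
  · intro x
    exact (hp x).2

theorem sigma_one_subset_ap (A : Oracle) : SigmaP A 1 ⊆ AP A := by
  rintro L ⟨q, p, hp, hL⟩
  refine ⟨1, q, p, hp, ?_⟩
  intro x
  rw [hL x, Polynomial.eval_one]
  simp [Alt]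

end Pool.Agent.H7
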