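import Mathlib
import Pool.Agent.H7.Verify
import Pool.Agent.H7.AUMachine
import Pool.Agent.H8.JoinMono

/-!
The test languages and the reduction of the all-levels unambiguity theorem to one diagonalisation
step.
-/

set_option autoImplicit false

namespace Pool.Agent.H8u

open Classical
open Pool.Agent.H9
open Pool.Agent.H7 (hword hword_length map_getD_range)

/-- The verifier: query the table at the given tuple of strings. -/
def verifier2 (k : ℕ) : Prog :=
  seqs [moves (k + 2) (List.range (k + 2)), Prog.push (k + 2) true, Prog.push (k + 2) false,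
    Prog.ask (k + 2) (Prog.push 0 true) (Prog.push 0 false)]

theorem exec_verifier2 (A : Oracle) (k : ℕ) (x : List Bool) (us : List (List Bool))
    (hus : us.length = k + 1) :
    ∃ s', Exec A (verifier2 k) (fun i => (x :: us).getD i []) s'
      (totalLength (x :: us) * 5 + (2 * k + 20)) ∧
      ((s' 0).head? = some true ↔ A (false :: true :: hword x us) = true) := by
  have hlen : (x :: us).length = k + 2 := by simp [hus]
  obtain ⟨s1, e1, h1, h2⟩ := exec_moves A (k + 2) (List.range (k + 2)) List.nodup_range
    (by simp) (fun i => (x :: us).getD i [])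
  have hmap : (List.range (k + 2)).map (fun i => (x :: us).getD i []) = x :: us := by
    rw [← hlen]; exact map_getD_range _
  rw [hmap] at e1 h1
  have hW : (x :: us).getD (k + 2) [] = [] := by
    rw [List.getD_eq_getElem?_getD, List.getElem?_eq_none (by rw [hlen])]
    rfl
  rw [hW, List.append_nil] at h1
  have e1' := exec_push A s1 (k + 2) true
  have e2 := exec_push A (Function.update s1 (k + 2) (true :: s1 (k + 2))) (k + 2) false
  rw [Function.update_self, Function.update_idem] at e2
  set s2 := Function.update s1 (k + 2) (false :: true :: s1 (k + 2)) with hs2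
  have a1 : s2 (k + 2) = false :: true :: hword x us := by
    rw [hs2, Function.update_self, h1]
    rfl
  by_cases hA : A (false :: true :: hword x us) = true
  · refine ⟨Function.update s2 0 (true :: s2 0), ?_, ?_⟩
    · have e3 : Exec A (Prog.ask (k + 2) (Prog.push 0 true) (Prog.push 0 false)) s2
          (Function.update s2 0 (true :: s2 0)) 2 := by
        apply exec_ask
        rw [a1, if_pos hA]
        exact exec_push A s2 0 true
      refine (exec_seqs_cons e1 (exec_seqs_cons e1' (exec_seqs_cons e2 (exec_seqs_cons e3
        (exec_seqs_nil _ _))))).mono ?_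
      simp only [totalLength, List.length_range]
      omega
    · simp [hA]
  · refine ⟨Function.update s2 0 (false :: s2 0), ?_, ?_⟩
    · have e3 : Exec A (Prog.ask (k + 2) (Prog.push 0 true) (Prog.push 0 false)) s2
          (Function.update s2 0 (false :: s2 0)) 2 := by
        apply exec_ask
        rw [a1, if_neg hA]
        exact exec_push A s2 0 false
      refine (exec_seqs_cons e1 (exec_seqs_cons e1' (exec_seqs_cons e2 (exec_seqs_cons e3
        (exec_seqs_nil _ _))))).mono ?_
      simp only [totalLength, List.length_range]
      omega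
    · simp [hA]

/-- The language of the tables at level `k`. -/
def tableLang2 (A : Oracle) (k : ℕ) : Set (List Bool) :=
  {x | Alt true (k + 1) x.length (fun us => A (false :: true :: hword x us) = true)}

theorem tableLang2_mem (A : Oracle) (k : ℕ) : tableLang2 A k ∈ SigmaP A (k + 1) := by
  have hhalt : ∀ (x : List Bool) (us : List (List Bool)), us.length = k + 1 →
      (run A (verifier2 k) (x :: us) (totalLength (x :: us) * 5 + (2 * k + 20))).1 = [] ∧
      (AcceptsIn A (verifier2 k) (x :: us) (totalLength (x :: us) * 5 + (2 * k + 20)) ↔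
        A (false :: true :: hword x us) = true) := by
    intro x us hus
    obtain ⟨s', h1, h2⟩ := exec_verifier2 A k x us hus
    have h3 := run_of_exec h1
    refine ⟨by rw [h3], ?_⟩
    unfold AcceptsIn
    rw [h3]
    simp only [true_and]
    exact h2
  refine ⟨Polynomial.X, verifier2 k, ⟨Polynomial.X * 5 + Polynomial.C (2 * k + 20), ?_⟩, ?_⟩
  · intro xs hxs
    match xs with
    | [] => simp at hxs
    | x :: us =>
      have := (hhalt x us (by simpa using hxs)).1
      simpa using this
  · intro x
    show Alt true (k + 1) x.length (fun us => A (false :: true :: hword x us) = true) ↔ _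
    rw [Polynomial.eval_X]
    apply Pool.Agent.H7.Alt_congr
    intro us hus
    have hl : us.length = k + 1 := by
      have := congrArg List.length hus
      simpa using this
    obtain ⟨h1, h2⟩ := hhalt x us hl
    rw [accepts_iff_of_halted h1, h2]

/-! ### The closure oracle depends locally on its parameters -/

theorem bitv_congr {F : Bool} {Y Y' : List Bool → List Bool} {c : Cd} {n : ℕ}
    (h : ∀ v : List Bool, v.length < n → Y v = Y' v) :
    ∀ ys : List (List Bool), (wrd c ys).length ≤ n → bitv F Y c ys = bitv F Y' c ys := by
  intro ys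
  induction ys with
  | nil => intro _; rfl
  | cons y ys ih =>
    intro hlen
    have h1 : (wrd c ys).length < (wrd c (y :: ys)).length := by
      rw [wrd_length, wrd_length]
      simp only [List.length_cons, List.reverse_cons, List.flatten_append, List.length_append,
        List.flatten_cons, List.flatten_nil, List.append_nil]
      omega
    simp only [bitv]
    rw [ih (by omega)]
    unfold hid
    rw [h (wrd c ys) (by omega)]

theorem orU_congr (g : Enum) {S S' : Oracle} {Y Y' : List Bool → List Bool} {n : ℕ}
    (hS : ∀ w : List Bool, w.length < n → S w = S' w)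
    (hY : ∀ w : List Bool, w.length < n → Y w = Y' w) :
    ∀ w : List Bool, w.length ≤ n → orU g S Y w = orU g S' Y' w := by
  intro w hw
  refine fixO_congr (opU_contr g S Y) (opU_contr g S' Y') n ?_ w.length w le_rfl hw
  intro A v hv
  match v with
  | [] => rfl
  | false :: v =>
    simp only [opU]
    exact hS v (by simpa using hv)
  | true :: v =>
    simp only [opU]
    congr 1
    apply propext
    apply exists_congr; intro c
    apply exists_congr; intro ys
    apply and_congr_right; intro hw
    apply and_congr_right; intro _
    apply and_congr_right; intro _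
    rw [bitv_congr hY ys]
    rw [← hw]
    simp only [List.length_cons] at hv
    omega

theorem orU_eq_join (g : Enum) (S : Oracle) (Y : List Bool → List Bool) :
    orU g S Y = join S (fun w => orU g S Y (true :: w)) := by
  funext w
  match w with
  | [] => rw [orU_nil]; rfl
  | false :: w => rw [orU_false]; rfl
  | true :: w => rfl

theorem sigmaP_below (g : Enum) (B S : Oracle) (Y : List Bool → List Bool) (k : ℕ) :
    SigmaP B k ⊆ SigmaP (orU g (join B S) Y) k := by
  rw [orU_eq_join]
  exact (Pool.Agent.H8j.sigmaP_join_left B S k).trans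
    (Pool.Agent.H8j.sigmaP_join_left (join B S) _ k)

/-! ### The diagonalisation -/

/-- A condition: data bits and hidden blocks. -/
abbrev Cond := List Bool → Bool × List Bool

/-- The oracle of a condition. -/
noncomputable def orD (g : Enum) (B : Oracle) (D : Cond) : Oracle :=
  orU g (join B (fun w => (D w).1)) (fun w => (D w).2)

theorem orD_congr (g : Enum) (B : Oracle) {D D' : Cond} {n : ℕ}
    (h : ∀ w : List Bool, w.length < n → D w = D' w) :
    ∀ w : List Bool, w.length ≤ n → orD g B D w = orD g B D' w := by
  apply orU_congr
  · intro w hw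
    match w with
    | [] => rfl
    | false :: w => rfl
    | true :: w =>
      show (D w).1 = (D' w).1
      rw [h w (by simp only [List.length_cons] at hw; omega)]
  · intro w hw
    rw [h w hw]

/-- A requirement: the `K`-block machine `(p, q, T)` errs on the test language of level `K + 1` on
the input `1^n`. -/
def Fails (g : Enum) (B : Oracle) (d : ℕ × Prog × Polynomial ℕ × Polynomial ℕ) (D : Cond)
    (n : ℕ) : Prop :=
  ¬ (Alt true (d.1 + 1) n
      (fun us => orD g B D (false :: true :: hword (List.replicate n true) us) = true) ↔
    Alt true d.1 (d.2.2.1.eval n)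
      (fun ws => AcceptsIn (orD g B D) d.2.1 (List.replicate n true :: ws)
        (d.2.2.2.eval (n + d.1 * d.2.2.1.eval n))))

theorem fails_local (g : Enum) (B : Oracle) (d : ℕ × Prog × Polynomial ℕ × Polynomial ℕ)
    (D : Cond) (n : ℕ) (h : Fails g B d D n) : ∃ n' : ℕ, ∀ D' : Cond,
      (∀ w : List Bool, w.length < n' → D' w = D w) → Fails g B d D' n := by
  refine ⟨(d.1 + 2) * n + 2 + (n + d.1 * d.2.2.1.eval n) +
    d.2.2.2.eval (n + d.1 * d.2.2.1.eval n), ?_⟩
  intro D' hD'
  have hA := orD_congr g B hD'
  unfold Fails at h ⊢
  have e1 : Alt true (d.1 + 1) n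
      (fun us => orD g B D' (false :: true :: hword (List.replicate n true) us) = true) ↔
      Alt true (d.1 + 1) n
      (fun us => orD g B D (false :: true :: hword (List.replicate n true) us) = true) := by
    apply Pool.Agent.H7.Alt_congr
    intro us hus
    rw [hA]
    simp only [List.length_cons]
    rw [hword_length hus, List.length_replicate]
    nlinarith
  have e2 : Alt true d.1 (d.2.2.1.eval n)
      (fun ws => AcceptsIn (orD g B D') d.2.1 (List.replicate n true :: ws)
        (d.2.2.2.eval (n + d.1 * d.2.2.1.eval n))) ↔
      Alt true d.1 (d.2.2.1.eval n)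
      (fun ws => AcceptsIn (orD g B D) d.2.1 (List.replicate n true :: ws)
        (d.2.2.2.eval (n + d.1 * d.2.2.1.eval n))) := by
    apply Pool.Agent.H7.Alt_congr
    intro ws hws
    refine (dtp_acceptsIn d.2.1 (List.replicate n true :: ws)
      (d.2.2.2.eval (n + d.1 * d.2.2.1.eval n))
      (n + d.1 * d.2.2.1.eval n + d.2.2.2.eval (n + d.1 * d.2.2.1.eval n)) ?_).depends ?_
    · rw [totalLength_cons_of hws, List.length_replicate]
    · intro v hv
      apply hA
      have hv' : v.length ≤ _ := hv
      omega
  rw [e1, e2]
  exact h

/-- **Reduction to one step of the diagonalisation.** -/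
theorem main_of_step (g : Enum) (hg : Function.Surjective g) (B : Oracle)
    (hstep : ∀ (d : ℕ × Prog × Polynomial ℕ × Polynomial ℕ) (D : Cond) (n₀ : ℕ),
      ∃ (D' : Cond) (n : ℕ), (∀ w : List Bool, w.length < n₀ → D' w = D w) ∧
        Fails g B d D' n) :
    ∃ A : Oracle, (∀ k, SigmaP B k ⊆ SigmaP A k) ∧ (∀ k, SigmaP A k ⊂ SigmaP A (k + 1)) ∧
      ∀ k, SigmaP A k = AUSigmaP A k := by
  have hcount : Countable (Polynomial ℕ) := by
    rw [← Cardinal.mk_le_aleph0_iff]
    refine (Polynomial.cardinalMk_le_max (R := ℕ)).trans ?_
    simp
  have hne : Nonempty (ℕ × Prog × Polynomial ℕ × Polynomial ℕ) := ⟨(0, Prog.skip, 0, 0)⟩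
  obtain ⟨r, hr⟩ := exists_surjective_nat (ℕ × Prog × Polynomial ℕ × Polynomial ℕ)
  obtain ⟨D, hD⟩ := diagonal (fun i D => ∃ n, Fails g B (r i) D n) (fun _ => (false, [])) (by
    intro i D n₀
    obtain ⟨D', n, h1, h2⟩ := hstep (r i) D n₀
    obtain ⟨n', h3⟩ := fails_local g B (r i) D' n h2
    exact ⟨D', n', h1, fun D'' hD'' => ⟨n, h3 D'' hD''⟩⟩)
  refine ⟨orD g B D, fun k => sigmaP_below g B _ _ k, ?_, fun k => sigmaP_eq_auSigmaP g hg _ _ k⟩
  intro k
  have hnot : tableLang2 (orD g B D) k ∉ SigmaP (orD g B D) k := by
    rintro ⟨q, p, ⟨T, hT⟩, hL⟩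
    obtain ⟨e, he⟩ := hr (k, p, q, T)
    obtain ⟨n, hn⟩ := hD e
    apply hn
    simp only [he]
    have h1 := hL (List.replicate n true)
    have h2 : List.replicate n true ∈ tableLang2 (orD g B D) k ↔ Alt true (k + 1) n
        (fun us => orD g B D (false :: true :: hword (List.replicate n true) us) = true) := by
      simp [tableLang2]
    rw [← h2, h1, List.length_replicate]
    apply Pool.Agent.H7.Alt_congr
    intro us hus
    have hl : us.length = k := by
      have := congrArg List.length hus
      simpa using this
    have htot : totalLength (List.replicate n true :: us) = n + k * q.eval n := by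
      rw [totalLength_cons_of hus, List.length_replicate]
    have h3 := hT (List.replicate n true :: us) (by simp [hl])
    rw [htot] at h3
    exact accepts_iff_of_halted h3
  exact (Set.ssubset_iff_of_subset (sigmaP_mono _ k)).2 ⟨_, tableLang2_mem _ k, hnot⟩

/-- An enumeration of all machines of all levels. -/
theorem exists_enumU : ∃ g : Enum, Function.Surjective g := by
  have hcount : Countable (Polynomial ℕ) := by
    rw [← Cardinal.mk_le_aleph0_iff]
    refine (Polynomial.cardinalMk_le_max (R := ℕ)).trans ?_
    simp
  have hne : Nonempty (ℕ × Prog × Polynomial ℕ × Polynomial ℕ) := ⟨(0, Prog.skip, 0, 0)⟩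
  exact exists_surjective_nat _

end Pool.Agent.H8u
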