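import Mathlib
import Pool.Agent.H9.Hier2

/-!
Counting functions with prescribed sets of values, and the lemma on forced hits.
-/

set_option autoImplicit false

namespace Pool.Agent.H7

open Pool.Agent.H9 Classical

/-- Functions with values in `V k` for `k ∈ Q` and equal to `f` off `Q`. -/
noncomputable def funs {κ β : Type*} (Q : Finset κ) (V : κ → Finset β) (f : κ → β) :
    Finset (κ → β) :=
  (Q.pi V).image (fun g k => if h : k ∈ Q then g k h else f k)

theorem mem_funs {κ β : Type*} {Q : Finset κ} {V : κ → Finset β} {f g : κ → β} :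
    g ∈ funs Q V f ↔ (∀ k ∈ Q, g k ∈ V k) ∧ ∀ k, k ∉ Q → g k = f k := by
  unfold funs
  rw [Finset.mem_image]
  constructor
  · rintro ⟨h, hh, rfl⟩
    rw [Finset.mem_pi] at hh
    refine ⟨?_, ?_⟩
    · intro k hk
      simp only [dif_pos hk]
      exact hh k hk
    · intro k hk
      simp only [dif_neg hk]
  · rintro ⟨h1, h2⟩
    refine ⟨fun k _ => g k, ?_, ?_⟩
    · rw [Finset.mem_pi]
      exact fun k hk => h1 k hk
    · funext k
      by_cases hk : k ∈ Q
      · simp only [dif_pos hk]
      · simp only [dif_neg hk]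
        exact (h2 k hk).symm

theorem card_funs {κ β : Type*} (Q : Finset κ) (V : κ → Finset β) (f : κ → β) :
    (funs Q V f).card = ∏ k ∈ Q, (V k).card := by
  unfold funs
  rw [Finset.card_image_of_injOn, Finset.card_pi]
  intro g _ h _ hgh
  funext k hk
  have := congrFun hgh k
  simpa [dif_pos hk] using this

/-- Splitting off a part of the domain. -/
theorem funs_split {κ β : Type*} {Q D : Finset κ} (hD : D ⊆ Q) (V : κ → Finset β)
    (f : κ → β) : funs Q V f ⊆ (funs (Q \ D) V f).biUnion (fun g => funs D V g) := by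
  intro h hh
  rw [mem_funs] at hh
  rw [Finset.mem_biUnion]
  refine ⟨fun k => if k ∈ D then f k else h k, ?_, ?_⟩
  · rw [mem_funs]
    refine ⟨?_, ?_⟩
    · intro k hk
      rw [Finset.mem_sdiff] at hk
      simp only [if_neg hk.2]
      exact hh.1 k hk.1
    · intro k hk
      by_cases h1 : k ∈ D
      · simp only [if_pos h1]
      · simp only [if_neg h1]
        apply hh.2
        intro h2
        exact hk (Finset.mem_sdiff.2 ⟨h2, h1⟩)
  · rw [mem_funs]
    refine ⟨fun k hk => hh.1 k (hD hk), ?_⟩
    intro k hk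
    simp only [if_neg hk]

/-- A bound on all fibres gives a bound on the whole set. -/
theorem card_filter_le_of_fibres {κ β : Type*} {Q D : Finset κ} (hD : D ⊆ Q)
    (V : κ → Finset β) (f : κ → β) (bad : (κ → β) → Prop) (ε : ℝ)
    (h : ∀ g, ((funs D V g).filter bad).card ≤ ε * (funs D V g).card) :
    (((funs Q V f).filter bad).card : ℝ) ≤ ε * (funs Q V f).card := by
  have h1 : (funs Q V f).filter bad ⊆
      (funs (Q \ D) V f).biUnion (fun g => (funs D V g).filter bad) := by
    intro z hz
    rw [Finset.mem_filter] at hz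
    have h2 := funs_split hD V f hz.1
    rw [Finset.mem_biUnion] at h2 ⊢
    obtain ⟨g, hg, hz2⟩ := h2
    exact ⟨g, hg, Finset.mem_filter.2 ⟨hz2, hz.2⟩⟩
  have h2 : ((funs Q V f).card : ℝ) = (funs (Q \ D) V f).card * ∏ k ∈ D, ((V k).card : ℝ) := by
    rw [card_funs, card_funs]
    push_cast
    exact (Finset.prod_sdiff hD).symm
  calc (((funs Q V f).filter bad).card : ℝ)
      ≤ (((funs (Q \ D) V f).biUnion (fun g => (funs D V g).filter bad)).card : ℝ) := by
        exact_mod_cast Finset.card_le_card h1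
    _ ≤ ∑ g ∈ funs (Q \ D) V f, (((funs D V g).filter bad).card : ℝ) := by
        exact_mod_cast Finset.card_biUnion_le
    _ ≤ ∑ g ∈ funs (Q \ D) V f, ε * ∏ k ∈ D, ((V k).card : ℝ) := by
        apply Finset.sum_le_sum
        intro g _
        have := h g
        rw [card_funs] at this
        push_cast at this
        exact this
    _ = ε * (funs Q V f).card := by
        rw [Finset.sum_const, nsmul_eq_mul, h2]
        ring

/-- If every nonempty subset `Q'` of `Q` is hit by a small set depending only on the values off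
`Q'`, then there are few functions. -/
theorem hit_count {κ β : Type*} (V : κ → Finset β) (T : ℕ) (bad : (κ → β) → Prop)
    (R : Finset κ → (κ → β) → Finset (κ × β))
    (hR : ∀ Q' Z, (R Q' Z).card ≤ T)
    (hloc : ∀ Q' Z Z', (∀ k, k ∉ Q' → Z k = Z' k) → R Q' Z = R Q' Z') :
    ∀ (n : ℕ) (Q : Finset κ), Q.card = n →
    (∀ Z, bad Z → ∀ Q' ⊆ Q, Q'.Nonempty → ∃ k ∈ Q', (k, Z k) ∈ R Q' Z) →
    ∀ Z0, ((funs Q V Z0).filter bad).card ≤ T ^ n := by
  intro n
  induction n with
  | zero =>
    intro Q hQ _ Z0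
    rw [pow_zero]
    refine (Finset.card_filter_le _ _).trans ?_
    rw [card_funs, Finset.card_eq_zero.1 hQ]
    simp
  | succ n ih =>
    intro Q hQ hhit Z0
    have hQne : Q.Nonempty := by
      rw [← Finset.card_pos]; omega
    have hsub : (funs Q V Z0).filter bad ⊆ ((R Q Z0).filter (fun p => p.1 ∈ Q)).biUnion
        (fun p => (funs (Q.erase p.1) V (Function.update Z0 p.1 p.2)).filter bad) := by
      intro Z hZ
      rw [Finset.mem_filter, mem_funs] at hZ
      obtain ⟨⟨h1, h2⟩, h3⟩ := hZ
      obtain ⟨k, hk, hkR⟩ := hhit Z h3 Q (Finset.Subset.refl _) hQne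
      rw [hloc Q Z Z0 h2] at hkR
      rw [Finset.mem_biUnion]
      refine ⟨(k, Z k), Finset.mem_filter.2 ⟨hkR, hk⟩, ?_⟩
      rw [Finset.mem_filter, mem_funs]
      refine ⟨⟨fun j hj => h1 j (Finset.mem_of_mem_erase hj), ?_⟩, h3⟩
      intro j hj
      by_cases hjk : j = k
      · subst hjk
        simp
      · rw [Function.update_of_ne hjk]
        apply h2
        intro hjQ
        exact hj (Finset.mem_erase.2 ⟨hjk, hjQ⟩)
    refine (Finset.card_le_card hsub).trans ?_
    refine Finset.card_biUnion_le.trans ?_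
    calc ∑ p ∈ (R Q Z0).filter (fun p => p.1 ∈ Q),
          ((funs (Q.erase p.1) V (Function.update Z0 p.1 p.2)).filter bad).card
        ≤ ∑ p ∈ (R Q Z0).filter (fun p => p.1 ∈ Q), T ^ n := by
          apply Finset.sum_le_sum
          intro p hp
          rw [Finset.mem_filter] at hp
          apply ih
          · rw [Finset.card_erase_of_mem hp.2, hQ]
            rfl
          · intro Z hZ Q' hQ' hne
            exact hhit Z hZ Q' (hQ'.trans (Finset.erase_subset _ _)) hne
      _ ≤ T * T ^ n := by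
          rw [Finset.sum_const, smul_eq_mul]
          exact Nat.mul_le_mul_right _ ((Finset.card_filter_le _ _).trans (hR Q Z0))
      _ = T ^ (n + 1) := by rw [pow_succ, mul_comm]

/-- A single hit is unlikely. -/
theorem single_hit {κ β : Type*} (V : κ → Finset β) (T : ℕ) (L : ℝ) (hL : 0 < L)
    (Q D : Finset κ) (hD : D ⊆ Q) (hV : ∀ k ∈ D, L ≤ (V k).card)
    (R : (κ → β) → Finset (κ × β)) (hR : ∀ Z, (R Z).card ≤ T)
    (hloc : ∀ Z Z', (∀ k, k ∉ D → Z k = Z' k) → R Z = R Z') (bad : (κ → β) → Prop)
    (hbad : ∀ Z, bad Z → ∃ k ∈ D, (k, Z k) ∈ R Z) (Z0 : κ → β) :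
    (((funs Q V Z0).filter bad).card : ℝ) ≤ T / L * (funs Q V Z0).card := by
  apply card_filter_le_of_fibres hD
  intro g
  have hsub : (funs D V g).filter bad ⊆
      ((R g).filter (fun p => p.1 ∈ D)).biUnion
      (fun p => funs (D.erase p.1) V (Function.update g p.1 p.2)) := by
    intro Z hZ
    rw [Finset.mem_filter, mem_funs] at hZ
    obtain ⟨⟨h1, h2⟩, h3⟩ := hZ
    obtain ⟨k, hk, hkR⟩ := hbad Z h3
    rw [hloc Z g h2] at hkR
    rw [Finset.mem_biUnion]
    refine ⟨(k, Z k), Finset.mem_filter.2 ⟨hkR, hk⟩, ?_⟩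
    rw [mem_funs]
    refine ⟨fun j hj => h1 j (Finset.mem_of_mem_erase hj), ?_⟩
    intro j hj
    by_cases hjk : j = k
    · subst hjk
      simp
    · rw [Function.update_of_ne hjk]
      apply h2
      intro hjQ
      exact hj (Finset.mem_erase.2 ⟨hjk, hjQ⟩)
  have h1 : ∀ p ∈ (R g).filter (fun p => p.1 ∈ D),
      ((funs (D.erase p.1) V (Function.update g p.1 p.2)).card : ℝ) ≤
        (funs D V g).card / L := by
    intro p hp
    rw [Finset.mem_filter] at hp
    rw [le_div_iff₀ hL, card_funs, card_funs, ← Finset.mul_prod_erase D _ hp.2]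
    push_cast
    rw [mul_comm]
    apply mul_le_mul_of_nonneg_right (hV _ hp.2)
    positivity
  calc (((funs D V g).filter bad).card : ℝ)
      ≤ ((((R g).filter (fun p => p.1 ∈ D)).biUnion
        (fun p => funs (D.erase p.1) V (Function.update g p.1 p.2))).card : ℝ) := by
        exact_mod_cast Finset.card_le_card hsub
    _ ≤ ∑ p ∈ (R g).filter (fun p => p.1 ∈ D),
        ((funs (D.erase p.1) V (Function.update g p.1 p.2)).card : ℝ) := by
        exact_mod_cast Finset.card_biUnion_le
    _ ≤ ∑ p ∈ (R g).filter (fun p => p.1 ∈ D), ((funs D V g).card / L : ℝ) :=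
        Finset.sum_le_sum h1
    _ ≤ T * ((funs D V g).card / L) := by
        rw [Finset.sum_const, nsmul_eq_mul]
        apply mul_le_mul_of_nonneg_right _ (by positivity)
        exact_mod_cast (Finset.card_filter_le _ _).trans (hR g)
    _ = T / L * (funs D V g).card := by ring

end Pool.Agent.H7
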