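import Mathlib
import Pool.Agent.H7.Funs

/-!
The combinatorial heart of the elimination of unique secrets: if no small set of certified names
protects against all moves of the opponent, then the secrets are badly distributed.
-/

set_option autoImplicit false

namespace Pool.Agent.H7

open Pool.Agent.H9 Classical

variable {V κ W : Type*}

/-- The assignment `b` in which the code variables (those with `P v = some (k, z)`) are answered
positively exactly if `k ∈ S` and `z` is the secret of `k`. -/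
noncomputable def comb (P : V → Option (κ × List Bool)) (b : V → Bool) (Z : κ → List Bool)
    (S : Finset κ) : V → Bool := fun v =>
  match P v with
  | some p => decide (p.1 ∈ S ∧ p.2 = Z p.1)
  | none => b v

/-- The pairs occurring in a set of variables. -/
noncomputable def hits (P : V → Option (κ × List Bool)) (R : Finset V) :
    Finset (κ × List Bool) :=
  R.biUnion (fun v => (P v).toFinset)

theorem mem_hits {P : V → Option (κ × List Bool)} {R : Finset V} {p : κ × List Bool} :
    p ∈ hits P R ↔ ∃ v ∈ R, P v = some p := by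
  unfold hits
  rw [Finset.mem_biUnion]
  constructor
  · rintro ⟨v, hv, h⟩
    exact ⟨v, hv, by simpa using h⟩
  · rintro ⟨v, hv, h⟩
    exact ⟨v, hv, by simpa using h⟩

theorem card_hits (P : V → Option (κ × List Bool)) (R : Finset V) :
    (hits P R).card ≤ R.card := by
  unfold hits
  refine Finset.card_biUnion_le.trans ?_
  calc ∑ v ∈ R, (P v).toFinset.card ≤ ∑ v ∈ R, 1 := by
        apply Finset.sum_le_sum
        intro v _
        cases P v <;> simp
    _ = R.card := by simp

theorem comb_agree {P : V → Option (κ × List Bool)} {b : V → Bool} {Z : κ → List Bool}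
    {S S' : Finset κ} {R : Finset V} (h : ∀ k, (k, Z k) ∈ hits P R → (k ∈ S ↔ k ∈ S')) :
    ∀ v ∈ R, comb P b Z S v = comb P b Z S' v := by
  intro v hv
  unfold comb
  cases hP : P v with
  | none => rfl
  | some p =>
    obtain ⟨k, z⟩ := p
    simp only
    by_cases hz : z = Z k
    · subst hz
      have := h k (mem_hits.2 ⟨v, hv, hP⟩)
      simp [this]
    · simp [hz]

theorem comb_local {P : V → Option (κ × List Bool)} {b : V → Bool} {Z Z' : κ → List Bool}
    {S : Finset κ} (h : ∀ k ∈ S, Z k = Z' k) : comb P b Z S = comb P b Z' S := by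
  funext v
  unfold comb
  cases hP : P v with
  | none => rfl
  | some p =>
    obtain ⟨k, z⟩ := p
    simp only
    apply decide_eq_decide.2
    apply and_congr_right
    intro hk
    rw [h k hk]

/-- A certificate set of a predicate at an assignment. -/
noncomputable def crt (T : ℕ) (f : (V → Bool) → Prop) (c : V → Bool) : Finset V :=
  if h : ∃ R : Finset V, R.card ≤ T ∧ ∀ b : V → Bool, (∀ q ∈ R, c q = b q) → (f c ↔ f b) then
    h.choose else ∅

theorem card_crt (T : ℕ) (f : (V → Bool) → Prop) (c : V → Bool) : (crt T f c).card ≤ T := by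
  unfold crt
  split_ifs with h
  · exact h.choose_spec.1
  · simp

theorem crt_spec {T : ℕ} {f : (V → Bool) → Prop} {Q : Set V} (hf : DTP Q T f) {c b : V → Bool}
    (h : ∀ q ∈ crt T f c, c q = b q) : f c ↔ f b := by
  have h1 := hf.cert c
  unfold crt at h
  rw [dif_pos h1] at h
  exact h1.choose_spec.2 b h

/-- The certificate set of the canonical winning move. -/
noncomputable def cans (T : ℕ) (𝒲 : Finset W) (Λ : W → (V → Bool) → Prop) (c : V → Bool) :
    Finset V :=
  if h : ∃ w ∈ 𝒲, Λ w c then crt T (Λ h.choose) c else ∅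

theorem card_cans (T : ℕ) (𝒲 : Finset W) (Λ : W → (V → Bool) → Prop) (c : V → Bool) :
    (cans T 𝒲 Λ c).card ≤ T := by
  unfold cans
  split_ifs with h
  · exact card_crt _ _ _
  · simp

theorem cans_spec {T : ℕ} {𝒲 : Finset W} {Λ : W → (V → Bool) → Prop}
    {c : V → Bool} (h : ∃ w ∈ 𝒲, Λ w c) :
    ∃ w ∈ 𝒲, Λ w c ∧ cans T 𝒲 Λ c = crt T (Λ w) c := by
  refine ⟨h.choose, h.choose_spec.1, h.choose_spec.2, ?_⟩
  unfold cans
  rw [dif_pos h]

/-- The names of block `i`. -/
noncomputable def block (Q : Finset κ) (lab : κ → ℕ) (i : ℕ) : Finset κ :=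
  Q.filter (fun k => lab k = i)

/-- The set of pairs looked at when the secrets of `Q'` are unknown. -/
noncomputable def look (P : V → Option (κ × List Bool)) (b : V → Bool) (T : ℕ) (𝒲 : Finset W)
    (Λ : W → (V → Bool) → Prop) (G Q : Finset κ) (lab : κ → ℕ) (Q' : Finset κ)
    (Z : κ → List Bool) : Finset (κ × List Bool) :=
  hits P (cans T 𝒲 Λ (comb P b Z (G \ (block Q lab (sInf (lab '' (Q' : Set κ))) ∪ Q'))))

theorem structure_of_bad (P : V → Option (κ × List Bool)) (b : V → Bool) (T m : ℕ)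
    (𝒲 : Finset W) (Λ : W → (V → Bool) → Prop) {QQ : Set V} (hΛ : ∀ w ∈ 𝒲, DTP QQ T (Λ w))
    (G : Finset κ) (Z : κ → List Bool) (h0 : ∀ w ∈ 𝒲, ¬ Λ w (comb P b Z G))
    (h1 : ∀ C ⊆ G, C.card ≤ m * T → ∃ S, C ⊆ S ∧ S ⊆ G ∧ ∃ w ∈ 𝒲, Λ w (comb P b Z S)) :
    ∃ Q ⊆ G, m ≤ Q.card ∧ ∃ lab ∈ funs Q (fun _ => Finset.range m) (fun _ => 0),
      ∀ Q' ⊆ Q, Q'.Nonempty → ∃ k ∈ Q', (k, Z k) ∈ look P b T 𝒲 Λ G Q lab Q' Z := by
  -- one step
  have step : ∀ C : Finset κ, C ⊆ G → C.card ≤ m * T → ∃ p : Finset κ × Finset κ,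
      p.2 ⊆ G ∧ p.2.card ≤ T ∧ p.1 ⊆ p.2 ∧ Disjoint p.1 C ∧
      (∀ S', S' ⊆ G → (∀ k ∈ p.2, (k ∈ S' ↔ k ∈ G \ p.1)) → ∃ w ∈ 𝒲, Λ w (comb P b Z S')) ∧
      ∀ F ⊆ p.1, F ≠ p.1 → ∀ w ∈ 𝒲, ¬ Λ w (comb P b Z (G \ F)) := by
    intro C hC hCc
    obtain ⟨S, hCS, hSG, w0, hw0, hS⟩ := h1 C hC hCc
    have hSe : G \ (G \ S) = S := by
      rw [Finset.sdiff_sdiff_eq_self hSG]
    obtain ⟨B, hB, hmin⟩ := Finset.exists_min_image
      ((G \ S).powerset.filter (fun F => ∃ w ∈ 𝒲, Λ w (comb P b Z (G \ F)))) Finset.card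
      ⟨G \ S, Finset.mem_filter.2 ⟨Finset.mem_powerset.2 (Finset.Subset.refl _),
        w0, hw0, by rw [hSe]; exact hS⟩⟩
    rw [Finset.mem_filter, Finset.mem_powerset] at hB
    obtain ⟨hB1, w, hw, hB2⟩ := hB
    have hmin' : ∀ F ⊆ B, F ≠ B → ∀ w ∈ 𝒲, ¬ Λ w (comb P b Z (G \ F)) := by
      intro F hF hne w hw hF2
      have h2 := hmin F (Finset.mem_filter.2 ⟨Finset.mem_powerset.2 (hF.trans hB1), w, hw, hF2⟩)
      exact hne (Finset.eq_of_subset_of_card_le hF h2)
    set R := crt T (Λ w) (comb P b Z (G \ B)) with hR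
    have hBG : B ⊆ G := hB1.trans Finset.sdiff_subset
    have hBH : B ⊆ G.filter (fun k => (k, Z k) ∈ hits P R) := by
      intro k hk
      rw [Finset.mem_filter]
      refine ⟨hBG hk, ?_⟩
      by_contra hcon
      apply hmin' (B.erase k) (Finset.erase_subset _ _) (Finset.erase_ne_self.2 hk) w hw
      rw [← crt_spec (hΛ w hw) (c := comb P b Z (G \ B))]
      · exact hB2
      · apply comb_agree
        intro j hj
        have hjk : j ≠ k := by
          rintro rfl
          exact hcon hj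
        simp [Finset.mem_sdiff, Finset.mem_erase, hjk]
    refine ⟨(B, G.filter (fun k => (k, Z k) ∈ hits P R)), Finset.filter_subset _ _, ?_, hBH, ?_,
      ?_, hmin'⟩
    · have h2 : (G.filter (fun k => (k, Z k) ∈ hits P R)).card ≤ (hits P R).card := by
        apply Finset.card_le_card_of_injOn (fun k => (k, Z k))
        · intro k hk
          exact (Finset.mem_filter.1 hk).2
        · intro k _ j _ hkj
          exact (Prod.ext_iff.1 hkj).1
      exact h2.trans ((card_hits P R).trans (card_crt _ _ _))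
    · rw [Finset.disjoint_left]
      intro k hk hkC
      have := hB1 hk
      rw [Finset.mem_sdiff] at this
      exact this.2 (hCS hkC)
    · intro S' hS' hagree
      refine ⟨w, hw, ?_⟩
      rw [← crt_spec (hΛ w hw) (c := comb P b Z (G \ B))]
      · exact hB2
      · apply comb_agree
        intro k hk
        by_cases hkG : k ∈ G
        · exact (hagree k (Finset.mem_filter.2 ⟨hkG, hk⟩)).symm
        · have e1 : k ∉ S' := fun h => hkG (hS' h)
          simp [e1, hkG]
  choose! nxt hnxt1 hnxt2 hnxt3 hnxt4 hnxt5 hnxt6 using step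
  let C : ℕ → Finset κ := fun n => Nat.rec ∅ (fun _ c => c ∪ (nxt c).2) n
  have hC0 : C 0 = ∅ := rfl
  have hCs : ∀ i, C (i + 1) = C i ∪ (nxt (C i)).2 := fun i => rfl
  have hC : ∀ i, i ≤ m → C i ⊆ G ∧ (C i).card ≤ i * T := by
    intro i
    induction i with
    | zero => intro _; rw [hC0]; simp
    | succ i ih =>
      intro hi
      obtain ⟨a1, a2⟩ := ih (by omega)
      have a3 : (C i).card ≤ m * T := a2.trans (Nat.mul_le_mul_right _ (by omega))
      rw [hCs]
      refine ⟨Finset.union_subset a1 (hnxt1 _ a1 a3), ?_⟩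
      refine (Finset.card_union_le _ _).trans ?_
      have := hnxt2 _ a1 a3
      rw [add_mul, one_mul]
      omega
  have hCm : ∀ i, i ≤ m → C i ⊆ G ∧ (C i).card ≤ m * T := fun i hi =>
    ⟨(hC i hi).1, (hC i hi).2.trans (Nat.mul_le_mul_right _ hi)⟩
  have hmono : ∀ i j, i ≤ j → C i ⊆ C j := by
    intro i j hij
    induction j with
    | zero =>
      obtain rfl : i = 0 := by omega
      exact Finset.Subset.refl _
    | succ j ih =>
      rcases Nat.lt_or_eq_of_le hij with h | h
      · exact (ih (by omega)).trans (by rw [hCs]; exact Finset.subset_union_left)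
      · rw [h]
  let B : ℕ → Finset κ := fun i => (nxt (C i)).1
  let H : ℕ → Finset κ := fun i => (nxt (C i)).2
  have hHC : ∀ i, H i ⊆ C (i + 1) := fun i => by
    rw [hCs]; exact Finset.subset_union_right
  have hBH : ∀ i, i < m → B i ⊆ H i := fun i hi => hnxt3 _ (hCm i hi.le).1 (hCm i hi.le).2
  have hBG : ∀ i, i < m → B i ⊆ G := fun i hi =>
    (hBH i hi).trans (hnxt1 _ (hCm i hi.le).1 (hCm i hi.le).2)
  have hdisj : ∀ i j, i < j → j < m → Disjoint (B j) (H i) := by
    intro i j hij hj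
    exact (hnxt4 _ (hCm j hj.le).1 (hCm j hj.le).2).mono_right
      ((hHC i).trans (hmono _ _ hij))
  have hBne : ∀ i, i < m → (B i).Nonempty := by
    intro i hi
    rw [Finset.nonempty_iff_ne_empty]
    intro he
    obtain ⟨w, hw, hL⟩ := hnxt5 _ (hCm i hi.le).1 (hCm i hi.le).2 G (Finset.Subset.refl _) (by
      intro k _
      have he' : (nxt (C i)).1 = ∅ := he
      rw [he']
      simp)
    exact h0 w hw hL
  -- labels
  let lab : κ → ℕ := fun k => if h : ∃ i, i < m ∧ k ∈ B i then h.choose else 0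
  have hlab : ∀ i, i < m → ∀ k ∈ B i, lab k = i := by
    intro i hi k hk
    have h : ∃ i, i < m ∧ k ∈ B i := ⟨i, hi, hk⟩
    have hl : lab k = h.choose := by simp only [lab, dif_pos h]
    obtain ⟨h2, h3⟩ := h.choose_spec
    rw [← hl] at h2 h3
    rcases Nat.lt_trichotomy (lab k) i with h4 | h4 | h4
    · exact absurd (hBH _ h2 h3) (Finset.disjoint_left.1 (hdisj _ _ h4 hi) hk)
    · exact h4
    · exact absurd (hBH _ hi hk) (Finset.disjoint_left.1 (hdisj _ _ h4 h2) h3)
  set Q := (Finset.range m).biUnion B with hQ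
  have hmemQ : ∀ k, k ∈ Q → lab k < m ∧ k ∈ B (lab k) := by
    intro k hk
    rw [hQ, Finset.mem_biUnion] at hk
    obtain ⟨i, hi, hki⟩ := hk
    rw [Finset.mem_range] at hi
    rw [hlab i hi k hki]
    exact ⟨hi, hki⟩
  have hblock : ∀ i, i < m → block Q lab i = B i := by
    intro i hi
    ext k
    unfold block
    rw [Finset.mem_filter]
    constructor
    · rintro ⟨h2, h3⟩
      rw [← h3]
      exact (hmemQ k h2).2
    · intro h2
      refine ⟨?_, hlab i hi k h2⟩
      rw [hQ, Finset.mem_biUnion]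
      exact ⟨i, Finset.mem_range.2 hi, h2⟩
  refine ⟨Q, ?_, ?_, fun k => if k ∈ Q then lab k else 0, ?_, ?_⟩
  · rw [hQ, Finset.biUnion_subset]
    intro i hi
    exact hBG i (Finset.mem_range.1 hi)
  · have h2 : Finset.range m ⊆ Q.image lab := by
      intro i hi
      rw [Finset.mem_range] at hi
      obtain ⟨k, hk⟩ := hBne i hi
      rw [Finset.mem_image]
      refine ⟨k, ?_, hlab i hi k hk⟩
      rw [hQ, Finset.mem_biUnion]
      exact ⟨i, Finset.mem_range.2 hi, hk⟩
    have h3 := (Finset.card_le_card h2).trans Finset.card_image_le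
    simpa using h3
  · rw [mem_funs]
    refine ⟨?_, ?_⟩
    · intro k hk
      simp only [if_pos hk]
      exact Finset.mem_range.2 (hmemQ k hk).1
    · intro k hk
      simp only [if_neg hk]
  · intro Q' hQ' hne
    -- the smallest label
    have hlab' : ∀ k ∈ Q', (if k ∈ Q then lab k else 0) = lab k := fun k hk => by
      rw [if_pos (hQ' hk)]
    have himg : ((fun k => if k ∈ Q then lab k else 0) '' (Q' : Set κ)) =
        lab '' (Q' : Set κ) := by
      apply Set.image_congr
      intro k hk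
      exact hlab' k hk
    have hblk' : ∀ i, block Q (fun k => if k ∈ Q then lab k else 0) i = block Q lab i := by
      intro i
      unfold block
      apply Finset.filter_congr
      intro k hk
      show (if k ∈ Q then lab k else 0) = i ↔ lab k = i
      rw [if_pos hk]
    unfold look
    rw [himg, hblk']
    set i := sInf (lab '' (Q' : Set κ)) with hi
    have hinf : i ∈ lab '' (Q' : Set κ) := by
      apply Nat.sInf_mem
      obtain ⟨k, hk⟩ := hne
      exact ⟨lab k, k, hk, rfl⟩
    obtain ⟨k0, hk0, hk0i⟩ := hinf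
    have hk0 : k0 ∈ Q' := hk0
    have hle : ∀ k ∈ Q', i ≤ lab k := fun k hk => Nat.sInf_le ⟨k, hk, rfl⟩
    have him : i < m := by
      rw [← hk0i]
      exact (hmemQ k0 (hQ' hk0)).1
    have hk0B : k0 ∈ B i := by
      rw [← hk0i]
      exact (hmemQ k0 (hQ' hk0)).2
    rw [hblock i him]
    set S := G \ (B i ∪ Q') with hS
    have hex : ∃ w ∈ 𝒲, Λ w (comb P b Z S) := by
      apply hnxt5 _ (hCm i him.le).1 (hCm i him.le).2 S (by rw [hS]; exact Finset.sdiff_subset)
      intro k hk
      rw [hS, Finset.mem_sdiff, Finset.mem_sdiff, Finset.mem_union]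
      constructor
      · rintro ⟨h2, h3⟩
        exact ⟨h2, fun h4 => h3 (Or.inl h4)⟩
      · rintro ⟨h2, h3⟩
        refine ⟨h2, ?_⟩
        rintro (h4 | h4)
        · exact h3 h4
        · have h5 := hle k h4
          have h6 := hmemQ k (hQ' h4)
          rcases Nat.lt_or_eq_of_le h5 with h7 | h7
          · exact Finset.disjoint_left.1 (hdisj i (lab k) h7 h6.1) h6.2 hk
          · rw [← h7] at h6
            exact h3 h6.2
    obtain ⟨w, hw, hL, hcan⟩ := cans_spec (T := T) hex
    rw [hcan]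
    by_contra hcon
    push Not at hcon
    apply hnxt6 _ (hCm i him.le).1 (hCm i him.le).2 (B i \ Q') Finset.sdiff_subset ?_ w hw
    · rw [← crt_spec (hΛ w hw) (c := comb P b Z S)]
      · exact hL
      · apply comb_agree
        intro k hk
        have hkQ' : k ∉ Q' := fun h => hcon k h hk
        rw [hS]
        simp only [Finset.mem_sdiff, Finset.mem_union, not_or, not_and, not_not]
        constructor
        · rintro ⟨h2, h3, h4⟩
          exact ⟨h2, fun h5 => absurd h5 h3⟩
        · rintro ⟨h2, h3⟩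
          exact ⟨h2, fun h5 => hkQ' (h3 h5), hkQ'⟩
    · intro he
      have : k0 ∈ B i \ Q' := by
        have he' : B i \ Q' = B i := he
        rw [he']
        exact hk0B
      exact (Finset.mem_sdiff.1 this).2 hk0

/-- Every set of unknown names is hit. -/
def BadQ (P : V → Option (κ × List Bool)) (b : V → Bool) (T : ℕ) (𝒲 : Finset W)
    (Λ : W → (V → Bool) → Prop) (G Q : Finset κ) (lab : κ → ℕ) (Z : κ → List Bool) : Prop :=
  ∀ Q' ⊆ Q, Q'.Nonempty → ∃ k ∈ Q', (k, Z k) ∈ look P b T 𝒲 Λ G Q lab Q' Z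

/-- The number of bad secret functions. -/
theorem claim (P : V → Option (κ × List Bool)) (b : V → Bool) (T m : ℕ)
    (𝒲 : Finset W) (Λ : W → (V → Bool) → Prop) {QQ : Set V} (hΛ : ∀ w ∈ 𝒲, DTP QQ T (Λ w))
    (G 𝒦 : Finset κ) (hG : G ⊆ 𝒦) (VV : κ → Finset (List Bool)) (L : ℝ) (hL : 0 < L)
    (hV : ∀ k ∈ 𝒦, L ≤ (VV k).card) (hnum : 2 * (𝒦.card : ℝ) * m * T ≤ L)
    (bad : (κ → List Bool) → Prop)
    (hbad : ∀ Z, bad Z → (∀ w ∈ 𝒲, ¬ Λ w (comb P b Z G)) ∧
      ∀ C ⊆ G, C.card ≤ m * T → ∃ S, C ⊆ S ∧ S ⊆ G ∧ ∃ w ∈ 𝒲, Λ w (comb P b Z S))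
    (Z0 : κ → List Bool) :
    (((funs 𝒦 VV Z0).filter bad).card : ℝ) ≤ 3 * (1 / 2) ^ m * (funs 𝒦 VV Z0).card := by
  set N : ℝ := ((funs 𝒦 VV Z0).card : ℝ) with hN
  have hsub : (funs 𝒦 VV Z0).filter bad ⊆
      (𝒦.powerset.filter (fun Q => m ≤ Q.card)).biUnion (fun Q =>
        (funs Q (fun _ => Finset.range m) (fun _ => 0)).biUnion (fun lab =>
          (funs 𝒦 VV Z0).filter (BadQ P b T 𝒲 Λ G Q lab))) := by
    intro Z hZ
    rw [Finset.mem_filter] at hZ
    obtain ⟨h1, h2⟩ := hbad Z hZ.2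
    obtain ⟨Q, hQG, hQm, lab, hlab, hQ⟩ := structure_of_bad P b T m 𝒲 Λ hΛ G Z h1 h2
    rw [Finset.mem_biUnion]
    refine ⟨Q, Finset.mem_filter.2 ⟨Finset.mem_powerset.2 (hQG.trans hG), hQm⟩, ?_⟩
    rw [Finset.mem_biUnion]
    exact ⟨lab, hlab, Finset.mem_filter.2 ⟨hZ.1, hQ⟩⟩
  have hone : ∀ Q ⊆ 𝒦, ∀ lab : κ → ℕ, (((funs 𝒦 VV Z0).filter (BadQ P b T 𝒲 Λ G Q lab)).card : ℝ) ≤
      (T / L) ^ Q.card * N := by
    intro Q hQ lab
    apply card_filter_le_of_fibres hQ
    intro g
    have h1 := hit_count VV T (BadQ P b T 𝒲 Λ G Q lab) (look P b T 𝒲 Λ G Q lab)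
      (fun Q' Z => (card_hits _ _).trans (card_cans _ _ _ _)) (by
        intro Q' Z Z' hZ
        unfold look
        rw [comb_local (Z := Z) (Z' := Z')]
        intro k hk
        apply hZ
        intro hk'
        rw [Finset.mem_sdiff, Finset.mem_union] at hk
        exact hk.2 (Or.inr hk')) Q.card Q rfl (fun Z hZ => hZ) g
    have h2 : L ^ Q.card ≤ ((funs Q VV g).card : ℝ) := by
      rw [card_funs]
      push_cast
      calc L ^ Q.card = ∏ k ∈ Q, L := by rw [Finset.prod_const]
        _ ≤ ∏ k ∈ Q, ((VV k).card : ℝ) :=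
          Finset.prod_le_prod (fun _ _ => hL.le) (fun k hk => hV k (hQ hk))
    calc (((funs Q VV g).filter (BadQ P b T 𝒲 Λ G Q lab)).card : ℝ) ≤ (T : ℝ) ^ Q.card := by
          exact_mod_cast h1
      _ = (T / L) ^ Q.card * L ^ Q.card := by
          rw [← mul_pow, div_mul_cancel₀ _ hL.ne']
      _ ≤ (T / L) ^ Q.card * (funs Q VV g).card :=
          mul_le_mul_of_nonneg_left h2 (by positivity)
  have hN0 : 0 ≤ N := by rw [hN]; positivity
  set x : ℝ := m * (T / L) with hx
  have hx0 : 0 ≤ x := by positivity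
  have hKx : 𝒦.card * (2 * x) ≤ 1 := by
    rw [hx]
    have : (𝒦.card : ℝ) * (2 * (m * (T / L))) = (2 * (𝒦.card : ℝ) * m * T) / L := by ring
    rw [this, div_le_one hL]
    exact hnum
  calc (((funs 𝒦 VV Z0).filter bad).card : ℝ)
      ≤ (((𝒦.powerset.filter (fun Q => m ≤ Q.card)).biUnion (fun Q =>
        (funs Q (fun _ => Finset.range m) (fun _ => 0)).biUnion (fun lab =>
          (funs 𝒦 VV Z0).filter (BadQ P b T 𝒲 Λ G Q lab)))).card : ℝ) := by
        exact_mod_cast Finset.card_le_card hsub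
    _ ≤ ∑ Q ∈ 𝒦.powerset.filter (fun Q => m ≤ Q.card),
          ((((funs Q (fun _ => Finset.range m) (fun _ => 0)).biUnion (fun lab =>
          (funs 𝒦 VV Z0).filter (BadQ P b T 𝒲 Λ G Q lab)))).card : ℝ) := by
        exact_mod_cast Finset.card_biUnion_le
    _ ≤ ∑ Q ∈ 𝒦.powerset.filter (fun Q => m ≤ Q.card), x ^ Q.card * N := by
        apply Finset.sum_le_sum
        intro Q hQ
        rw [Finset.mem_filter, Finset.mem_powerset] at hQ
        calc ((((funs Q (fun _ => Finset.range m) (fun _ => 0)).biUnion (fun lab =>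
              (funs 𝒦 VV Z0).filter (BadQ P b T 𝒲 Λ G Q lab)))).card : ℝ)
            ≤ ∑ lab ∈ funs Q (fun _ => Finset.range m) (fun _ => 0),
              (((funs 𝒦 VV Z0).filter (BadQ P b T 𝒲 Λ G Q lab)).card : ℝ) := by
              exact_mod_cast Finset.card_biUnion_le
          _ ≤ ∑ lab ∈ funs Q (fun _ => Finset.range m) (fun _ => 0), (T / L) ^ Q.card * N :=
              Finset.sum_le_sum fun lab _ => hone Q hQ.1 lab
          _ = x ^ Q.card * N := by
              rw [Finset.sum_const, nsmul_eq_mul, card_funs, Finset.prod_const,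
                Finset.card_range, hx, mul_pow]
              push_cast
              ring
    _ ≤ ∑ Q ∈ 𝒦.powerset.filter (fun Q => m ≤ Q.card), (1 / 2) ^ m * (2 * x) ^ Q.card * N := by
        apply Finset.sum_le_sum
        intro Q hQ
        rw [Finset.mem_filter] at hQ
        apply mul_le_mul_of_nonneg_right _ hN0
        have e1 : x ^ Q.card = (1 / 2) ^ Q.card * (2 * x) ^ Q.card := by
          rw [← mul_pow]
          congr 1
          ring
        rw [e1]
        apply mul_le_mul_of_nonneg_right _ (by positivity)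
        exact pow_le_pow_of_le_one (by norm_num) (by norm_num) hQ.2
    _ ≤ ∑ Q ∈ 𝒦.powerset, (1 / 2) ^ m * (2 * x) ^ Q.card * N := by
        apply Finset.sum_le_sum_of_subset_of_nonneg (Finset.filter_subset _ _)
        intro Q _ _
        positivity
    _ = (1 / 2) ^ m * (2 * x + 1) ^ 𝒦.card * N := by
        rw [← Finset.sum_mul, ← Finset.mul_sum]
        congr 2
        have := Finset.sum_pow_mul_eq_add_pow (2 * x) 1 𝒦
        simpa using this
    _ ≤ (1 / 2) ^ m * 3 * N := by
        apply mul_le_mul_of_nonneg_right _ hN0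
        apply mul_le_mul_of_nonneg_left _ (by positivity)
        have e2 : 2 * x + 1 ≤ Real.exp (2 * x) := by
          have := Real.add_one_le_exp (2 * x)
          linarith
        have e3 : (2 * x + 1) ^ 𝒦.card ≤ Real.exp (2 * x) ^ 𝒦.card :=
          pow_le_pow_left₀ (by positivity) e2 _
        rw [← Real.exp_nat_mul] at e3
        have e4 : Real.exp (𝒦.card * (2 * x)) ≤ Real.exp 1 := Real.exp_le_exp.2 hKx
        have e5 := Real.exp_one_lt_d9
        have e6 : (2.7182818286 : ℝ) ≤ 3 := by norm_num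
        linarith
    _ = 3 * (1 / 2) ^ m * N := by ring

end Pool.Agent.H7
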