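import Mathlib
import Pool.Agent.H7.Claim

/-!
Predicates given by alternating quantifier blocks over decision trees.
-/

set_option autoImplicit false

namespace Pool.Agent.H7

open Pool.Agent.H9 Classical

variable {V κ W : Type*}

/-- `Lev Q q T ex k f`: the predicate `f` is given by `k` alternating quantifier blocks over
strings of length `q`, the first one existential if `ex = true`, in front of decision trees of
depth `T` with queries in `Q`. -/
def Lev (Q : Set V) (q T : ℕ) : Bool → ℕ → ((V → Bool) → Prop) → Prop
  | _, 0, f => DTP Q T f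
  | ex, k + 1, f => ∃ g : List Bool → (V → Bool) → Prop,
      (∀ u ∈ strings q, Lev Q q T (!ex) k (g u)) ∧ ∀ a, f a ↔ qt ex q (fun u => g u a)

theorem not_qt {ex : Bool} {q : ℕ} {φ : List Bool → Prop} :
    ¬ qt ex q φ ↔ qt (!ex) q (fun u => ¬ φ u) := by
  cases ex
  · simp [qt]
  · simp [qt]

theorem Lev.congr {Q : Set V} {q T : ℕ} {ex : Bool} {k : ℕ} {f f' : (V → Bool) → Prop}
    (h : Lev Q q T ex k f) (hf : ∀ a, f a ↔ f' a) : Lev Q q T ex k f' := by
  have : f = f' := funext fun a => propext (hf a)
  exact this ▸ h

theorem Lev.not {Q : Set V} {q T : ℕ} : ∀ {k : ℕ} {ex : Bool} {f : (V → Bool) → Prop},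
    Lev Q q T ex k f → Lev Q q T (!ex) k (fun a => ¬ f a) := by
  intro k
  induction k with
  | zero => intro ex f h; exact DTP.not h
  | succ k ih =>
    rintro ex f ⟨g, hg, hf⟩
    refine ⟨fun u a => ¬ g u a, fun u hu => ih (hg u hu), ?_⟩
    intro a
    show ¬ f a ↔ _
    rw [hf a, not_qt]

theorem qt_take {ex : Bool} {q q' : ℕ} (hq : q ≤ q') {φ : List Bool → Prop} :
    qt ex q' (fun v => φ (v.take q)) ↔ qt ex q φ := by
  cases ex with
  | true =>
    constructor
    · rintro ⟨v, hv, h⟩
      exact ⟨v.take q, by simp [hv, hq], h⟩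
    · rintro ⟨u, hu, h⟩
      refine ⟨u ++ List.replicate (q' - q) true, by simp [hu, hq], ?_⟩
      have : (u ++ List.replicate (q' - q) true).take q = u := by
        rw [← hu, List.take_left]
      show φ ((u ++ List.replicate (q' - q) true).take q)
      rw [this]
      exact h
  | false =>
    constructor
    · intro h u hu
      have h1 := h (u ++ List.replicate (q' - q) true) (by simp [hu, hq])
      have : (u ++ List.replicate (q' - q) true).take q = u := by
        rw [← hu, List.take_left]
      have h1 : φ ((u ++ List.replicate (q' - q) true).take q) := h1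
      rw [this] at h1
      exact h1
    · intro h v hv
      exact h _ (by simp [hv, hq])

theorem Lev.mono {Q Q' : Set V} {q q' T T' : ℕ} (hQ : Q ⊆ Q') (hq : q ≤ q') (hT : T ≤ T') :
    ∀ {k : ℕ} {ex : Bool} {f : (V → Bool) → Prop},
    Lev Q q T ex k f → Lev Q' q' T' ex k f := by
  intro k
  induction k with
  | zero => intro ex f h; exact (DTP.mono h hT).mono_set hQ
  | succ k ih =>
    rintro ex f ⟨g, hg, hf⟩
    refine ⟨fun v a => g (v.take q) a, fun v hv => ih (hg _ ?_), ?_⟩
    · rw [mem_strings] at hv ⊢
      simp [hv, hq]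
    · intro a
      rw [hf a]
      exact (qt_take hq (φ := fun u => g u a)).symm

theorem Lev.comp {V' : Type*} {Q : Set V} {R : Set V'} {q T : ℕ}
    (σ : (V' → Bool) → V → Bool) (hσ : ∀ x ∈ Q, DTP R 1 (fun b => σ b x = true)) :
    ∀ {k : ℕ} {ex : Bool} {f : (V → Bool) → Prop},
    Lev Q q T ex k f → Lev R q T ex k (fun b => f (σ b)) := by
  intro k
  induction k with
  | zero =>
    intro ex f h
    have h1 := DTP.comp (R := R) (m := 1) h σ hσ
    rw [mul_one] at h1
    exact h1
  | succ k ih =>
    rintro ex f ⟨g, hg, hf⟩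
    exact ⟨fun u b => g u (σ b), fun u hu => ih (hg u hu), fun b => hf (σ b)⟩

/-- Alternating quantifiers over decision trees. -/
theorem lev_of_altL {Q : Set V} {q T : ℕ} : ∀ {k : ℕ} {ex : Bool}
    {D : List (List Bool) → (V → Bool) → Prop},
    (∀ ws ∈ paths (List.replicate k q), DTP Q T (D ws)) →
    Lev Q q T ex k (fun a => AltL ex (List.replicate k q) (fun ws => D ws a)) := by
  intro k
  induction k with
  | zero =>
    intro ex D h
    exact h [] (by simp [paths])
  | succ k ih =>
    intro ex D h
    refine ⟨fun u a => AltL (!ex) (List.replicate k q) (fun ws => D (u :: ws) a), ?_, ?_⟩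
    · intro u hu
      apply ih
      intro ws hws
      apply h
      rw [mem_paths] at hws ⊢
      rw [mem_strings] at hu
      simp [hws, hu, List.replicate_succ]
    · intro a
      rw [List.replicate_succ]
      rfl

theorem Lev.altL {Q : Set V} {q T : ℕ} : ∀ {k : ℕ} {ex : Bool} {f : (V → Bool) → Prop},
    Lev Q q T ex k f → ∃ D : List (List Bool) → (V → Bool) → Prop,
      (∀ ws ∈ paths (List.replicate k q), DTP Q T (D ws)) ∧
      ∀ a, f a ↔ AltL ex (List.replicate k q) (fun ws => D ws a) := by
  intro k
  induction k with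
  | zero =>
    intro ex f h
    refine ⟨fun _ => f, ?_, fun a => Iff.rfl⟩
    intro ws _
    exact h
  | succ k ih =>
    rintro ex f ⟨g, hg, hf⟩
    have h1 : ∀ u : List Bool, ∃ D : List (List Bool) → (V → Bool) → Prop, u ∈ strings q →
        (∀ ws ∈ paths (List.replicate k q), DTP Q T (D ws)) ∧
        ∀ a, g u a ↔ AltL (!ex) (List.replicate k q) (fun ws => D ws a) := by
      intro u
      by_cases hu : u ∈ strings q
      · obtain ⟨D, hD⟩ := ih (hg u hu)
        exact ⟨D, fun _ => hD⟩
      · exact ⟨fun _ _ => True, fun h => absurd h hu⟩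
    choose D hD using h1
    refine ⟨fun ws a => D (ws.headD []) ws.tail a, ?_, ?_⟩
    · intro ws hws
      rw [mem_paths] at hws
      match ws with
      | [] => simp at hws
      | w :: ws =>
        simp only [List.map_cons, List.replicate_succ, List.cons.injEq] at hws
        exact (hD w (mem_strings.2 hws.1)).1 ws (mem_paths.2 hws.2)
    · intro a
      rw [hf a, List.replicate_succ]
      apply qt_congr
      intro u hu
      exact (hD u (mem_strings.2 hu)).2 a

/-- The queries asked by a decision tree. -/
theorem dtp_path {Q : Set V} {n : ℕ} {f : (V → Bool) → Prop} (hf : DTP Q n f) :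
    ∃ R : (V → Bool) → Finset V, (∀ c, (R c).card ≤ n) ∧
      (∀ c c', (∀ q ∈ R c, c q = c' q) → R c' = R c ∧ (f c ↔ f c')) ∧
      ∀ F : Set V, DTP Q n (fun c => f c ∧ ∀ q ∈ R c, q ∉ F) := by
  induction hf with
  | const n P =>
    refine ⟨fun _ => ∅, fun _ => by simp, fun c c' _ => ⟨rfl, Iff.rfl⟩, ?_⟩
    intro F
    exact (DTP.const n P).congr (fun a => by simp)
  | node n q hq f g _ _ ihf ihg =>
    obtain ⟨R1, a1, a2, a3⟩ := ihf
    obtain ⟨R2, b1, b2, b3⟩ := ihg
    refine ⟨fun c => insert q (if c q = true then R1 c else R2 c), ?_, ?_, ?_⟩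
    · intro c
      refine (Finset.card_insert_le _ _).trans ?_
      split_ifs
      · exact Nat.succ_le_succ (a1 c)
      · exact Nat.succ_le_succ (b1 c)
    · intro c c' h
      have h0 : c q = c' q := h q (Finset.mem_insert_self _ _)
      cases hc : c q with
      | true =>
        have hc' : c' q = true := by rw [← h0]; exact hc
        have h1 := a2 c c' (fun x hx => h x (by
          rw [Finset.mem_insert, if_pos hc]; exact Or.inr hx))
        simp [hc, hc', h1.1, h1.2]
      | false =>
        have hc' : c' q = false := by rw [← h0]; exact hc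
        have h1 := b2 c c' (fun x hx => h x (by
          rw [Finset.mem_insert, if_neg (by simp [hc])]; exact Or.inr hx))
        simp [hc, hc', h1.1, h1.2]
    · intro F
      by_cases hqF : q ∈ F
      · refine (DTP.const _ False).congr ?_
        intro c
        simp only [false_iff, not_and]
        intro _ h
        exact h q (Finset.mem_insert_self _ _) hqF
      · refine (DTP.node n q hq _ _ (a3 F) (b3 F)).congr ?_
        intro c
        cases hc : c q with
        | true => simp [hqF, hc]
        | false => simp [hqF, hc]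

end Pool.Agent.H7
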