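import Mathlib
import Pool.Agent.H7.Lev

/-!
Elimination of one group of unique secrets from an alternating predicate.
-/

set_option autoImplicit false

namespace Pool.Agent.H7

open Pool.Agent.H9 Classical

variable {V κ : Type*}

/-- The name `k` has a certificate. -/
def Cert (q0 : ℕ) (E : κ → List Bool → (V → Bool) → Prop) (b : V → Bool) (k : κ) : Prop :=
  ∃ u ∈ strings q0, E k u b

/-- The names with a certificate. -/
noncomputable def Gset (𝒦 : Finset κ) (q0 : ℕ) (E : κ → List Bool → (V → Bool) → Prop)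
    (b : V → Bool) : Finset κ :=
  𝒦.filter (Cert q0 E b)

/-- The name `k` has a certificate in the list. -/
def Listed (q0 : ℕ) (E : κ → List Bool → (V → Bool) → Prop) (L : List (κ × List Bool))
    (b : V → Bool) (k : κ) : Prop :=
  ∃ u ∈ strings q0, (k, u) ∈ L ∧ E k u b

/-- The names certified by a list. -/
noncomputable def cset (𝒦 : Finset κ) (q0 : ℕ) (E : κ → List Bool → (V → Bool) → Prop)
    (L : List (κ × List Bool)) (b : V → Bool) : Finset κ :=
  𝒦.filter (Listed q0 E L b)

section

variable {𝒦 : Finset κ} {q0 : ℕ} {E : κ → List Bool → (V → Bool) → Prop}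

theorem cset_subset (L : List (κ × List Bool)) (b : V → Bool) :
    cset 𝒦 q0 E L b ⊆ Gset 𝒦 q0 E b := by
  intro k hk
  unfold cset at hk
  rw [Finset.mem_filter] at hk
  obtain ⟨h1, u, h2, _, h4⟩ := hk
  exact Finset.mem_filter.2 ⟨h1, u, h2, h4⟩

theorem mem_cset {L : List (κ × List Bool)} {b : V → Bool} {k : κ} {u : List Bool}
    (hk : k ∈ 𝒦) (hu : u ∈ strings q0) (hL : (k, u) ∈ L) (hE : E k u b) :
    k ∈ cset 𝒦 q0 E L b :=
  Finset.mem_filter.2 ⟨hk, u, hu, hL, hE⟩

/-- Case distinction on the set of certified names. -/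
theorem dtp_cset {Q' : Set V} {T0 T : ℕ}
    (hE : ∀ k ∈ 𝒦, ∀ u ∈ strings q0, DTP Q' T0 (E k u)) : ∀ (L : List (κ × List Bool))
    (Φ : Finset κ → (V → Bool) → Prop), (∀ S, DTP Q' T (Φ S)) →
    DTP Q' (L.length * T0 + T) (fun b => Φ (cset 𝒦 q0 E L b) b) := by
  intro L
  induction L with
  | nil =>
    intro Φ hΦ
    refine ((hΦ ∅).mono (by simp)).congr ?_
    intro b
    have : cset 𝒦 q0 E [] b = ∅ := by
      unfold cset
      rw [Finset.filter_eq_empty_iff]
      rintro k _ ⟨u, _, h, _⟩
      simp at h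
    rw [this]
  | cons p L ih =>
    intro Φ hΦ
    by_cases hp : p.1 ∈ 𝒦 ∧ p.2 ∈ strings q0
    · have h1 := DTP.ite (hE p.1 hp.1 p.2 hp.2)
        (ih (fun S b => Φ (insert p.1 S) b) (fun S => hΦ (insert p.1 S))) (ih Φ hΦ)
      refine (h1.mono (by simp only [List.length_cons]; ring_nf; omega)).congr ?_
      intro b
      by_cases hEb : E p.1 p.2 b
      · have h2 : cset 𝒦 q0 E (p :: L) b = insert p.1 (cset 𝒦 q0 E L b) := by
          ext k
          unfold cset
          rw [Finset.mem_insert, Finset.mem_filter, Finset.mem_filter]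
          constructor
          · rintro ⟨h3, u, h4, h5, h6⟩
            rcases List.mem_cons.1 h5 with h7 | h7
            · exact Or.inl (by rw [← h7])
            · exact Or.inr ⟨h3, u, h4, h7, h6⟩
          · rintro (h3 | ⟨h3, u, h4, h5, h6⟩)
            · subst h3
              exact ⟨hp.1, p.2, hp.2, by simp, hEb⟩
            · exact ⟨h3, u, h4, List.mem_cons_of_mem _ h5, h6⟩
        rw [h2]
        simp [hEb]
      · have h2 : cset 𝒦 q0 E (p :: L) b = cset 𝒦 q0 E L b := by
          ext k
          unfold cset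
          rw [Finset.mem_filter, Finset.mem_filter]
          constructor
          · rintro ⟨h3, u, h4, h5, h6⟩
            rcases List.mem_cons.1 h5 with h7 | h7
            · exfalso
              apply hEb
              rw [← h7]
              exact h6
            · exact ⟨h3, u, h4, h7, h6⟩
          · rintro ⟨h3, u, h4, h5, h6⟩
            exact ⟨h3, u, h4, List.mem_cons_of_mem _ h5, h6⟩
        rw [h2]
        simp [hEb]
    · refine ((ih Φ hΦ).mono (by simp only [List.length_cons]; ring_nf; omega)).congr ?_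
      intro b
      have h2 : cset 𝒦 q0 E (p :: L) b = cset 𝒦 q0 E L b := by
        ext k
        unfold cset
        rw [Finset.mem_filter, Finset.mem_filter]
        constructor
        · rintro ⟨h3, u, h4, h5, h6⟩
          rcases List.mem_cons.1 h5 with h7 | h7
          · exfalso
            apply hp
            rw [← h7]
            exact ⟨h3, h4⟩
          · exact ⟨h3, u, h4, h7, h6⟩
        · rintro ⟨h3, u, h4, h5, h6⟩
          exact ⟨h3, u, h4, List.mem_cons_of_mem _ h5, h6⟩
      rw [h2]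

end

/-! ### Coding of lists of certificates -/

theorem exists_chunks (B : ℕ) : ∀ (L : List (List Bool)), (∀ c ∈ L, c.length = B) → ∀ r,
    L.length ≤ r → ∃ s : List Bool, s.length = r * B ∧
      ∀ c ∈ L, ∃ i < r, (s.drop (i * B)).take B = c := by
  intro L
  induction L with
  | nil =>
    intro _ r _
    exact ⟨List.replicate (r * B) true, by simp, by simp⟩
  | cons c L ih =>
    intro hL r hr
    obtain ⟨r, rfl⟩ : ∃ r', r = r' + 1 := ⟨r - 1, by simp at hr; omega⟩
    obtain ⟨s, hs, h1⟩ := ih (fun c hc => hL c (List.mem_cons_of_mem _ hc)) r (by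
      simpa using hr)
    have hc : c.length = B := hL c (by simp)
    refine ⟨c ++ s, by rw [List.length_append, hs, hc]; ring, ?_⟩
    intro c' hc'
    rcases List.mem_cons.1 hc' with h2 | h2
    · subst h2
      refine ⟨0, by omega, ?_⟩
      rw [zero_mul, List.drop_zero, ← hc, List.take_left]
    · obtain ⟨i, hi, h3⟩ := h1 c' h2
      refine ⟨i + 1, by omega, ?_⟩
      have h4 : (c ++ s).drop ((i + 1) * B) = s.drop (i * B) := by
        have : (i + 1) * B = c.length + i * B := by rw [hc]; ring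
        rw [this, ← List.drop_drop, List.drop_left]
      rw [h4]
      exact h3

/-- The list of certificates coded by a string. -/
def dcd (nm : List Bool → κ) (q A q0 r : ℕ) (v : List Bool) : List (κ × List Bool) :=
  (List.range r).map (fun i => (nm (((v.drop (q + i * (A + q0))).take (A + q0)).take A),
    ((v.drop (q + i * (A + q0))).take (A + q0)).drop A))

theorem dcd_length (nm : List Bool → κ) (q A q0 r : ℕ) (v : List Bool) :
    (dcd nm q A q0 r v).length = r := by
  simp [dcd]

theorem exists_code {nm : List Bool → κ} {𝒦 : Finset κ} {A : ℕ}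
    (hnm : ∀ k ∈ 𝒦, ∃ s ∈ strings A, nm s = k) {q q0 r : ℕ} {w : List Bool}
    (hw : w ∈ strings q) {C : Finset κ} (hC : C ⊆ 𝒦) (hCr : C.card ≤ r)
    {u : κ → List Bool} (hu : ∀ k ∈ C, u k ∈ strings q0) :
    ∃ v ∈ strings (q + r * (A + q0)), v.take q = w ∧
      ∀ k ∈ C, (k, u k) ∈ dcd nm q A q0 r v := by
  choose! s hs1 hs2 using hnm
  obtain ⟨t, ht, h1⟩ := exists_chunks (A + q0) (C.toList.map (fun k => s k ++ u k)) (by
    intro c hc
    rw [List.mem_map] at hc
    obtain ⟨k, hk, rfl⟩ := hc
    rw [Finset.mem_toList] at hk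
    rw [List.length_append, mem_strings.1 (hs1 k (hC hk)), mem_strings.1 (hu k hk)]) r (by
    simpa using hCr)
  rw [mem_strings] at hw
  refine ⟨w ++ t, ?_, ?_, ?_⟩
  · rw [mem_strings, List.length_append, hw, ht]
  · rw [← hw, List.take_left]
  · intro k hk
    obtain ⟨i, hi, h2⟩ := h1 (s k ++ u k) (by
      rw [List.mem_map]
      exact ⟨k, Finset.mem_toList.2 hk, rfl⟩)
    unfold dcd
    rw [List.mem_map]
    refine ⟨i, List.mem_range.2 hi, ?_⟩
    have h3 : (w ++ t).drop (q + i * (A + q0)) = t.drop (i * (A + q0)) := by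
      rw [← List.drop_drop, ← hw, List.drop_left]
    rw [h3, h2]
    have h4 : (s k).length = A := mem_strings.1 (hs1 k (hC hk))
    have h5 : (s k ++ u k).take A = s k := by rw [← h4, List.take_left]
    have h6 : (s k ++ u k).drop A = u k := by rw [← h4, List.drop_left]
    rw [h5, h6, hs2 k (hC hk)]

/-! ### Elimination -/

/-- The predicate `f'` is wrong for the secrets `Z`. -/
def Wrong (P : V → Option (κ × List Bool)) (𝒦 : Finset κ) (q0 : ℕ)
    (E : κ → List Bool → (V → Bool) → Prop) (f : (V → Bool) → Prop)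
    (f' : (κ → List Bool) → (V → Bool) → Prop) (b : V → Bool) (Z : κ → List Bool) : Prop :=
  ¬ (f (comb P b Z (Gset 𝒦 q0 E b)) ↔ f' Z b)

/-- No small set of names protects the first player. -/
def BadW (P : V → Option (κ × List Bool)) (b : V → Bool) (D : List Bool → (V → Bool) → Prop)
    (q r : ℕ) (G : Finset κ) (Z : κ → List Bool) : Prop :=
  (∀ w' ∈ strings q, ¬ ¬ D w' (comb P b Z G)) ∧
    ∀ C ⊆ G, C.card ≤ r → ∃ S, C ⊆ S ∧ S ⊆ G ∧ ∃ w' ∈ strings q, ¬ D w' (comb P b Z S)

section

variable {P : V → Option (κ × List Bool)} {𝒦 : Finset κ} {nm : List Bool → κ} {A q0 : ℕ}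
  {E : κ → List Bool → (V → Bool) → Prop} {Q Q' : Set V} {T0 T q m : ℕ}
  {VV : κ → Finset (List Bool)} {L : ℝ}

theorem dtp_comb (hQ : ∀ x ∈ Q, P x = none → x ∈ Q') {f : (V → Bool) → Prop}
    (hf : DTP Q T f) (Z : κ → List Bool) (S : Finset κ) :
    DTP Q' T (fun b => f (comb P b Z S)) := by
  have h := DTP.comp (R := Q') (m := 1) hf (fun b => comb P b Z S) (by
    intro x hx
    cases hP : P x with
    | none =>
      refine (DTP.var x (hQ x hx hP)).congr ?_
      intro b
      simp [comb, hP]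
    | some p =>
      refine (DTP.const 1 (p.1 ∈ S ∧ p.2 = Z p.1)).congr ?_
      intro b
      simp [comb, hP])
  rw [mul_one] at h
  exact h

variable (hnm : ∀ k ∈ 𝒦, ∃ s ∈ strings A, nm s = k)
  (hE : ∀ k ∈ 𝒦, ∀ u ∈ strings q0, DTP Q' T0 (E k u))
  (hQ : ∀ x ∈ Q, P x = none → x ∈ Q') (hL : 0 < L) (hV : ∀ k ∈ 𝒦, L ≤ (VV k).card)
  (hnum : 2 * (𝒦.card : ℝ) * m * T ≤ L) (hm : 1 ≤ m)

include hQ hL hV in
theorem elim_zero {T' : ℕ} (hT' : T ≤ T') {f : (V → Bool) → Prop} (hf : DTP Q T f) :
    ∃ f' : (κ → List Bool) → (V → Bool) → Prop, (∀ Z, DTP Q' T' (f' Z)) ∧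
      ∀ b Z0, (((funs 𝒦 VV Z0).filter (Wrong P 𝒦 q0 E f f' b)).card : ℝ) ≤
        T / L * (funs 𝒦 VV Z0).card := by
  refine ⟨fun Z b => f (comb P b Z ∅), fun Z => (dtp_comb hQ hf Z ∅).mono hT', ?_⟩
  intro b Z0
  have hconst : ∀ Z Z' : κ → List Bool, comb P b Z ∅ = comb P b Z' ∅ := fun Z Z' =>
    comb_local (by simp)
  apply single_hit VV T L hL 𝒦 𝒦 (Finset.Subset.refl _) hV
    (fun Z => hits P (crt T f (comb P b Z ∅)))
  · intro Z
    exact (card_hits _ _).trans (card_crt _ _ _)
  · intro Z Z' _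
    rw [hconst Z Z']
  · intro Z hZ
    by_contra hcon
    push Not at hcon
    apply hZ
    symm
    apply crt_spec (T := T) hf
    apply comb_agree
    intro k hk
    by_cases hk' : k ∈ 𝒦
    · exact absurd hk (hcon k hk')
    · have : k ∉ Gset 𝒦 q0 E b := fun h => hk' (Finset.mem_filter.1 h).1
      simp [this]

include hnm hE hQ hL hV hm in
theorem elim_one {f : (V → Bool) → Prop} (hf : Lev Q q T true 1 f) :
    ∃ f' : (κ → List Bool) → (V → Bool) → Prop,
      (∀ Z, Lev Q' (q + m * T * (A + q0)) (2 * (m * T) * T0 + T) true 1 (f' Z)) ∧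
      ∀ b Z0, (((funs 𝒦 VV Z0).filter (Wrong P 𝒦 q0 E f f' b)).card : ℝ) ≤
        T / L * (funs 𝒦 VV Z0).card := by
  obtain ⟨g, hg, hfg⟩ := hf
  have hg' : ∀ w ∈ strings q, DTP Q T (g w) := hg
  -- the queries
  have hpath : ∀ w : List Bool, ∃ R : (V → Bool) → Finset V, w ∈ strings q →
      (∀ c, (R c).card ≤ T) ∧
      (∀ c c', (∀ q ∈ R c, c q = c' q) → R c' = R c ∧ (g w c ↔ g w c')) ∧
      ∀ F : Set V, DTP Q T (fun c => g w c ∧ ∀ q ∈ R c, q ∉ F) := by
    intro w
    by_cases hw : w ∈ strings q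
    · obtain ⟨R, hR⟩ := dtp_path (hg' w hw)
      exact ⟨R, fun _ => hR⟩
    · exact ⟨fun _ => ∅, fun h => absurd h hw⟩
  choose Rp hRp using hpath
  set r := m * T with hr
  have hTr : T ≤ r := by rw [hr]; nlinarith
  let F : (κ → List Bool) → Finset κ → Set V := fun Z S =>
    {x | ∃ k ∈ 𝒦, k ∉ S ∧ P x = some (k, Z k)}
  let f' : (κ → List Bool) → (V → Bool) → Prop := fun Z b =>
    qt true (q + r * (A + q0)) (fun v =>
      g (v.take q) (comb P b Z (cset 𝒦 q0 E (dcd nm q A q0 r v) b)) ∧
      ∀ x ∈ Rp (v.take q) (comb P b Z (cset 𝒦 q0 E (dcd nm q A q0 r v) b)),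
        x ∉ F Z (cset 𝒦 q0 E (dcd nm q A q0 r v) b))
  refine ⟨f', ?_, ?_⟩
  · intro Z
    refine ⟨fun v b => g (v.take q) (comb P b Z (cset 𝒦 q0 E (dcd nm q A q0 r v) b)) ∧
      ∀ x ∈ Rp (v.take q) (comb P b Z (cset 𝒦 q0 E (dcd nm q A q0 r v) b)),
        x ∉ F Z (cset 𝒦 q0 E (dcd nm q A q0 r v) b), ?_, fun b => Iff.rfl⟩
    intro v hv
    have hvq : v.take q ∈ strings q := by
      rw [mem_strings] at hv ⊢
      rw [List.length_take, hv]
      omega
    have h1 := dtp_cset (T := T) hE (dcd nm q A q0 r v) (fun S b =>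
      g (v.take q) (comb P b Z S) ∧ ∀ x ∈ Rp (v.take q) (comb P b Z S), x ∉ F Z S) (by
        intro S
        exact dtp_comb hQ ((hRp _ hvq).2.2 (F Z S)) Z S)
    rw [dcd_length] at h1
    exact h1.mono (by nlinarith)
  · intro b Z0
    set G := Gset 𝒦 q0 E b with hG
    have hGK : G ⊆ 𝒦 := Finset.filter_subset _ _
    let can : (V → Bool) → Finset V := fun c =>
      if h : ∃ w ∈ strings q, g w c then Rp h.choose c else ∅
    apply single_hit VV T L hL 𝒦 (𝒦 \ G) Finset.sdiff_subset
      (fun k hk => hV k (Finset.mem_sdiff.1 hk).1) (fun Z => hits P (can (comb P b Z G)))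
    · intro Z
      refine (card_hits _ _).trans ?_
      simp only [can]
      split_ifs with h
      · exact (hRp _ h.choose_spec.1).1 _
      · simp
    · intro Z Z' hZ
      rw [comb_local (Z := Z) (Z' := Z')]
      intro k hk
      apply hZ
      intro h
      exact (Finset.mem_sdiff.1 h).2 hk
    · intro Z hZ
      by_contra hcon
      push Not at hcon
      apply hZ
      rw [← hG]
      constructor
      · intro hfc
        rw [hfg] at hfc
        have hex : ∃ w ∈ strings q, g w (comb P b Z G) := by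
          obtain ⟨w, hw, h⟩ := hfc
          exact ⟨w, mem_strings.2 hw, h⟩
        have hcan : can (comb P b Z G) = Rp hex.choose (comb P b Z G) := by
          simp only [can, dif_pos hex]
        rw [hcan] at hcon
        obtain ⟨hw, hgw⟩ := hex.choose_spec
        generalize hex.choose = w at hw hgw hcan hcon
        set R := Rp w (comb P b Z G) with hR
        set C := G.filter (fun k => (k, Z k) ∈ hits P R) with hC
        have hCr : C.card ≤ r := by
          have h2 : C.card ≤ (hits P R).card := by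
            apply Finset.card_le_card_of_injOn (fun k => (k, Z k))
            · intro k hk
              exact (Finset.mem_filter.1 hk).2
            · intro k _ j _ hkj
              exact (Prod.ext_iff.1 hkj).1
          exact (h2.trans ((card_hits _ _).trans ((hRp w hw).1 _))).trans hTr
        have hcert : ∀ k ∈ G, ∃ u ∈ strings q0, E k u b := fun k hk =>
          (Finset.mem_filter.1 hk).2
        choose! u hu1 hu2 using hcert
        obtain ⟨v, hv, hvw, hvC⟩ := exists_code hnm hw (C := C)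
          ((Finset.filter_subset _ _).trans hGK) hCr (u := u)
          (fun k hk => hu1 k (Finset.mem_filter.1 hk).1)
        set S := cset 𝒦 q0 E (dcd nm q A q0 r v) b with hS
        have hSG : S ⊆ G := cset_subset _ _
        have hCS : C ⊆ S := by
          intro k hk
          have hkG := (Finset.mem_filter.1 hk).1
          exact mem_cset (hGK hkG) (hu1 k hkG) (hvC k hk) (hu2 k hkG)
        have hag : ∀ x ∈ R, comb P b Z G x = comb P b Z S x := by
          apply comb_agree
          intro k hk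
          constructor
          · intro hkG
            exact hCS (Finset.mem_filter.2 ⟨hkG, hk⟩)
          · intro hkS
            exact hSG hkS
        obtain ⟨e1, e2⟩ := (hRp w hw).2.1 _ _ hag
        refine ⟨v, mem_strings.1 hv, ?_⟩
        beta_reduce
        rw [hvw]
        refine ⟨e2.1 hgw, ?_⟩
        rw [e1]
        rintro x hx ⟨k, hk, hkS, hPx⟩
        have hhit : (k, Z k) ∈ hits P R := mem_hits.2 ⟨x, hx, hPx⟩
        by_cases hkG : k ∈ G
        · exact hkS (hCS (Finset.mem_filter.2 ⟨hkG, hhit⟩))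
        · exact hcon k (Finset.mem_sdiff.2 ⟨hk, hkG⟩) hhit
      · rintro ⟨v, hv, h1, h2⟩
        rw [hfg]
        have hvq : v.take q ∈ strings q := by
          rw [mem_strings, List.length_take, hv]
          omega
        refine ⟨v.take q, mem_strings.1 hvq, ?_⟩
        set S := cset 𝒦 q0 E (dcd nm q A q0 r v) b with hS
        have hSG : S ⊆ G := cset_subset _ _
        have hag : ∀ x ∈ Rp (v.take q) (comb P b Z S), comb P b Z S x = comb P b Z G x := by
          apply comb_agree
          intro k hk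
          constructor
          · intro hkS
            exact hSG hkS
          · intro hkG
            by_contra hkS
            rw [mem_hits] at hk
            obtain ⟨x, hx, hPx⟩ := hk
            exact h2 x hx ⟨k, hGK hkG, hkS, hPx⟩
        exact ((hRp _ hvq).2.1 _ _ hag).2.1 h1

include hnm hE hQ hL hV hnum hm in
theorem elim_two {f : (V → Bool) → Prop} (hf : Lev Q q T true 2 f) :
    ∃ f' : (κ → List Bool) → (V → Bool) → Prop,
      (∀ Z, Lev Q' (q + m * T * (A + q0)) (2 * (m * T) * T0 + T) true 2 (f' Z)) ∧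
      ∀ b Z0, (((funs 𝒦 VV Z0).filter (Wrong P 𝒦 q0 E f f' b)).card : ℝ) ≤
        2 ^ q * (3 * (1 / 2) ^ m) * (funs 𝒦 VV Z0).card := by
  obtain ⟨g, hg, hfg⟩ := hf
  have hD : ∀ w : List Bool, ∃ D : List Bool → (V → Bool) → Prop, w ∈ strings q →
      (∀ w' ∈ strings q, DTP Q T (D w')) ∧ ∀ a, g w a ↔ qt false q (fun u => D u a) := by
    intro w
    by_cases hw : w ∈ strings q
    · obtain ⟨D, hD1, hD2⟩ := hg w hw
      exact ⟨D, fun _ => ⟨hD1, hD2⟩⟩
    · exact ⟨fun _ _ => True, fun h => absurd h hw⟩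
  choose D hD using hD
  set r := m * T with hr
  have hTr : T ≤ r := by rw [hr]; nlinarith
  have hpre : ∀ v : List Bool, v.length = q + r * (A + q0) → v.take q ∈ strings q := by
    intro v hv
    rw [mem_strings, List.length_take, hv]
    omega
  let f' : (κ → List Bool) → (V → Bool) → Prop := fun Z b =>
    qt true (q + r * (A + q0)) (fun v => qt false (q + r * (A + q0)) (fun v' =>
      D (v.take q) (v'.take q)
        (comb P b Z (cset 𝒦 q0 E (dcd nm q A q0 r v ++ dcd nm q A q0 r v') b))))
  refine ⟨f', ?_, ?_⟩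
  · intro Z
    refine ⟨fun v b => qt false (q + r * (A + q0)) (fun v' =>
      D (v.take q) (v'.take q)
        (comb P b Z (cset 𝒦 q0 E (dcd nm q A q0 r v ++ dcd nm q A q0 r v') b))),
      ?_, fun b => Iff.rfl⟩
    intro v hv
    refine ⟨fun v' b => D (v.take q) (v'.take q)
        (comb P b Z (cset 𝒦 q0 E (dcd nm q A q0 r v ++ dcd nm q A q0 r v') b)),
      ?_, fun b => Iff.rfl⟩
    intro v' hv'
    have h1 := dtp_cset (T := T) hE (dcd nm q A q0 r v ++ dcd nm q A q0 r v') (fun S b =>
      D (v.take q) (v'.take q) (comb P b Z S)) (by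
        intro S
        exact dtp_comb hQ ((hD _ (hpre v (mem_strings.1 hv))).1 _
          (hpre v' (mem_strings.1 hv'))) Z S)
    rw [List.length_append, dcd_length, dcd_length] at h1
    exact h1.mono (by ring_nf; omega)
  · intro b Z0
    set G := Gset 𝒦 q0 E b with hG
    have hGK : G ⊆ 𝒦 := Finset.filter_subset _ _
    have hcert : ∀ k ∈ G, ∃ u ∈ strings q0, E k u b := fun k hk =>
      (Finset.mem_filter.1 hk).2
    choose! u hu1 hu2 using hcert
    have hsub : (funs 𝒦 VV Z0).filter (Wrong P 𝒦 q0 E f f' b) ⊆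
        (strings q).biUnion (fun w => (funs 𝒦 VV Z0).filter (BadW P b (D w) q (m * T) G)) := by
      intro Z hZ
      rw [Finset.mem_filter] at hZ
      obtain ⟨hZ1, hZ2⟩ := hZ
      by_contra hcon
      have hgood : ∀ w ∈ strings q, (∀ w' ∈ strings q, D w w' (comb P b Z G)) →
          ∃ C ⊆ G, C.card ≤ m * T ∧ ∀ S, C ⊆ S → S ⊆ G → ∀ w' ∈ strings q,
            D w w' (comb P b Z S) := by
        intro w hw h1
        by_contra h2
        apply hcon
        rw [Finset.mem_biUnion]
        refine ⟨w, hw, Finset.mem_filter.2 ⟨hZ1, fun w' hw' => not_not.2 (h1 w' hw'), ?_⟩⟩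
        intro C hC hCm
        by_contra h3
        apply h2
        refine ⟨C, hC, hCm, ?_⟩
        intro S hCS hSG w' hw'
        by_contra h4
        exact h3 ⟨S, hCS, hSG, w', hw', h4⟩
      apply hZ2
      rw [← hG]
      constructor
      · intro hfc
        rw [hfg] at hfc
        obtain ⟨w, hw, h1⟩ := hfc
        have hws := mem_strings.2 hw
        rw [(hD w hws).2] at h1
        obtain ⟨C, hC, hCm, h2⟩ := hgood w hws (fun w' hw' => h1 w' (mem_strings.1 hw'))
        obtain ⟨v, hv, hvw, hvC⟩ := exists_code hnm hws (hC.trans hGK) hCm (u := u)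
          (fun k hk => hu1 k (hC hk))
        refine ⟨v, mem_strings.1 hv, ?_⟩
        intro v' hv'
        rw [hvw]
        apply h2
        · intro k hk
          exact mem_cset (hGK (hC hk)) (hu1 k (hC hk))
            (List.mem_append_left _ (hvC k hk)) (hu2 k (hC hk))
        · exact cset_subset _ _
        · exact hpre v' hv'
      · rintro ⟨v, hv, h1⟩
        rw [hfg]
        have hws := hpre v hv
        refine ⟨v.take q, mem_strings.1 hws, ?_⟩
        beta_reduce
        rw [(hD _ hws).2]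
        intro w' hw'
        have hDT := (hD _ hws).1 w' (mem_strings.2 hw')
        set R := crt T (D (v.take q) w') (comb P b Z G) with hR
        set C := G.filter (fun k => (k, Z k) ∈ hits P R) with hC
        have hCr : C.card ≤ r := by
          have h2 : C.card ≤ (hits P R).card := by
            apply Finset.card_le_card_of_injOn (fun k => (k, Z k))
            · intro k hk
              exact (Finset.mem_filter.1 hk).2
            · intro k _ j _ hkj
              exact (Prod.ext_iff.1 hkj).1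
          exact (h2.trans ((card_hits _ _).trans (card_crt _ _ _))).trans hTr
        obtain ⟨v', hv', hvw', hvC'⟩ := exists_code hnm (mem_strings.2 hw') (C := C)
          ((Finset.filter_subset _ _).trans hGK) hCr (u := u)
          (fun k hk => hu1 k (Finset.mem_filter.1 hk).1)
        have h2 := h1 v' (mem_strings.1 hv')
        beta_reduce at h2
        rw [hvw'] at h2
        rw [crt_spec hDT]
        · exact h2
        · apply comb_agree
          intro k hk
          constructor
          · intro hkG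
            exact mem_cset (hGK hkG) (hu1 k hkG)
              (List.mem_append_right _ (hvC' k (Finset.mem_filter.2 ⟨hkG, hk⟩))) (hu2 k hkG)
          · intro hkS
            exact cset_subset _ _ hkS
    have hone : ∀ w ∈ strings q, (((funs 𝒦 VV Z0).filter (BadW P b (D w) q (m * T) G)).card : ℝ) ≤
        3 * (1 / 2) ^ m * (funs 𝒦 VV Z0).card := by
      intro w hw
      exact claim P b T m (strings q) (fun w' c => ¬ D w w' c)
        (fun w' hw' => ((hD w hw).1 w' hw').not) G 𝒦 hGK VV L hL hV hnum (BadW P b (D w) q (m * T) G)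
        (fun Z hZ => hZ) Z0
    calc (((funs 𝒦 VV Z0).filter (Wrong P 𝒦 q0 E f f' b)).card : ℝ)
        ≤ (((strings q).biUnion (fun w => (funs 𝒦 VV Z0).filter (BadW P b (D w) q (m * T) G))).card : ℝ) := by
          exact_mod_cast Finset.card_le_card hsub
      _ ≤ ∑ w ∈ strings q, (((funs 𝒦 VV Z0).filter (BadW P b (D w) q (m * T) G)).card : ℝ) := by
          exact_mod_cast Finset.card_biUnion_le
      _ ≤ ∑ w ∈ strings q, 3 * (1 / 2) ^ m * ((funs 𝒦 VV Z0).card : ℝ) :=
          Finset.sum_le_sum hone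
      _ = 2 ^ q * (3 * (1 / 2) ^ m) * (funs 𝒦 VV Z0).card := by
          rw [Finset.sum_const, card_strings, nsmul_eq_mul]
          push_cast
          ring

omit hnm hE hQ hL hV hnum hm in
theorem elim_neg {q' T' k : ℕ} {ex : Bool} {ε : ℝ}
    (h : ∀ f, Lev Q q T (!ex) k f → ∃ f' : (κ → List Bool) → (V → Bool) → Prop,
      (∀ Z, Lev Q' q' T' (!ex) k (f' Z)) ∧
      ∀ b Z0, (((funs 𝒦 VV Z0).filter (Wrong P 𝒦 q0 E f f' b)).card : ℝ) ≤
        ε * (funs 𝒦 VV Z0).card) :
    ∀ f, Lev Q q T ex k f → ∃ f' : (κ → List Bool) → (V → Bool) → Prop,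
      (∀ Z, Lev Q' q' T' ex k (f' Z)) ∧
      ∀ b Z0, (((funs 𝒦 VV Z0).filter (Wrong P 𝒦 q0 E f f' b)).card : ℝ) ≤
        ε * (funs 𝒦 VV Z0).card := by
  intro f hf
  obtain ⟨f', h1, h2⟩ := h _ hf.not
  refine ⟨fun Z b => ¬ f' Z b, ?_, ?_⟩
  · intro Z
    have := (h1 Z).not
    rw [Bool.not_not] at this
    exact this
  · intro b Z0
    refine le_trans ?_ (h2 b Z0)
    have hsub : (funs 𝒦 VV Z0).filter (Wrong P 𝒦 q0 E f (fun Z b => ¬ f' Z b) b) ⊆
        (funs 𝒦 VV Z0).filter (Wrong P 𝒦 q0 E (fun a => ¬ f a) f' b) := by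
      intro Z hZ
      rw [Finset.mem_filter] at hZ ⊢
      refine ⟨hZ.1, ?_⟩
      have h3 := hZ.2
      unfold Wrong at h3 ⊢
      tauto
    exact_mod_cast Finset.card_le_card hsub

include hnm hE hQ hL hV hnum hm in
theorem elim_add_two : ∀ (k : ℕ) (ex : Bool) (f : (V → Bool) → Prop), Lev Q q T ex (k + 2) f →
    ∃ f' : (κ → List Bool) → (V → Bool) → Prop,
      (∀ Z, Lev Q' (q + m * T * (A + q0)) (2 * (m * T) * T0 + T) ex (k + 2) (f' Z)) ∧
      ∀ b Z0, (((funs 𝒦 VV Z0).filter (Wrong P 𝒦 q0 E f f' b)).card : ℝ) ≤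
        2 ^ (q * (k + 1)) * (3 * (1 / 2) ^ m) * (funs 𝒦 VV Z0).card := by
  intro k
  induction k with
  | zero =>
    intro ex
    rw [zero_add 1, mul_one q]
    cases ex with
    | true => exact fun f hf => elim_two hnm hE hQ hL hV hnum hm hf
    | false => exact elim_neg (fun f hf => elim_two hnm hE hQ hL hV hnum hm hf)
  | succ k ih =>
    rintro ex f ⟨g, hg, hfg⟩
    have h1 : ∀ u : List Bool, ∃ f' : (κ → List Bool) → (V → Bool) → Prop, u ∈ strings q →
        (∀ Z, Lev Q' (q + m * T * (A + q0)) (2 * (m * T) * T0 + T) (!ex) (k + 2) (f' Z)) ∧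
      ∀ b Z0, (((funs 𝒦 VV Z0).filter (Wrong P 𝒦 q0 E (g u) f' b)).card : ℝ) ≤
        2 ^ (q * (k + 1)) * (3 * (1 / 2) ^ m) * (funs 𝒦 VV Z0).card := by
      intro u
      by_cases hu : u ∈ strings q
      · obtain ⟨f', hf'⟩ := ih (!ex) (g u) (hg u hu)
        exact ⟨f', fun _ => hf'⟩
      · exact ⟨fun _ _ => True, fun h => absurd h hu⟩
    choose g' hg' using h1
    set q' := q + m * T * (A + q0) with hq'
    refine ⟨fun Z b => qt ex q' (fun v => g' (v.take q) Z b), ?_, ?_⟩
    · intro Z
      refine ⟨fun v b => g' (v.take q) Z b, ?_, fun b => Iff.rfl⟩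
      intro v hv
      apply (hg' _ _).1
      rw [mem_strings] at hv ⊢
      rw [List.length_take, hv]
      omega
    · intro b Z0
      have hsub : (funs 𝒦 VV Z0).filter (Wrong P 𝒦 q0 E f
          (fun Z b => qt ex q' (fun v => g' (v.take q) Z b)) b) ⊆
          (strings q).biUnion (fun u => (funs 𝒦 VV Z0).filter
            (Wrong P 𝒦 q0 E (g u) (g' u) b)) := by
        intro Z hZ
        rw [Finset.mem_filter] at hZ
        by_contra hcon
        apply hZ.2
        rw [hfg]
        beta_reduce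
        rw [qt_take (by omega) (φ := fun u => g' u Z b)]
        apply qt_congr
        intro u hu
        by_contra h2
        apply hcon
        rw [Finset.mem_biUnion]
        exact ⟨u, mem_strings.2 hu, Finset.mem_filter.2 ⟨hZ.1, h2⟩⟩
      calc _ ≤ (((strings q).biUnion (fun u => (funs 𝒦 VV Z0).filter
            (Wrong P 𝒦 q0 E (g u) (g' u) b))).card : ℝ) := by
            exact_mod_cast Finset.card_le_card hsub
        _ ≤ ∑ u ∈ strings q, (((funs 𝒦 VV Z0).filter
            (Wrong P 𝒦 q0 E (g u) (g' u) b)).card : ℝ) := by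
            exact_mod_cast Finset.card_biUnion_le
        _ ≤ ∑ u ∈ strings q, 2 ^ (q * (k + 1)) * (3 * (1 / 2) ^ m) *
            ((funs 𝒦 VV Z0).card : ℝ) :=
            Finset.sum_le_sum fun u hu => (hg' u hu).2 b Z0
        _ = 2 ^ (q * (k + 1 + 1)) * (3 * (1 / 2) ^ m) * (funs 𝒦 VV Z0).card := by
            rw [Finset.sum_const, card_strings, nsmul_eq_mul]
            push_cast
            rw [mul_add q (k + 1) 1, mul_one, pow_add]
            ring

include hnm hE hQ hL hV hnum hm in
/-- **Elimination of a group of secrets.** -/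
theorem elim (k : ℕ) (ex : Bool) (f : (V → Bool) → Prop) (hf : Lev Q q T ex k f) :
    ∃ f' : (κ → List Bool) → (V → Bool) → Prop,
      (∀ Z, Lev Q' (q + m * T * (A + q0)) (2 * (m * T) * T0 + T) ex k (f' Z)) ∧
      ∀ b Z0, (((funs 𝒦 VV Z0).filter (Wrong P 𝒦 q0 E f f' b)).card : ℝ) ≤
        (T / L + 2 ^ (q * k) * (3 * (1 / 2) ^ m)) * (funs 𝒦 VV Z0).card := by
  have hTL : (0 : ℝ) ≤ T / L := by positivity
  match k, hf with
  | 0, hf =>
    obtain ⟨f', h1, h2⟩ := elim_zero (q0 := q0) (E := E) hQ hL hV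
      (T' := 2 * (m * T) * T0 + T) (by omega) (f := f) hf
    refine ⟨f', h1, ?_⟩
    intro b Z0
    refine (h2 b Z0).trans ?_
    apply mul_le_mul_of_nonneg_right _ (by positivity)
    have : (0 : ℝ) ≤ 2 ^ (q * 0) * (3 * (1 / 2) ^ m) := by positivity
    linarith
  | 1, hf =>
    have h : ∀ f, Lev Q q T ex 1 f → ∃ f' : (κ → List Bool) → (V → Bool) → Prop,
      (∀ Z, Lev Q' (q + m * T * (A + q0)) (2 * (m * T) * T0 + T) ex 1 (f' Z)) ∧
      ∀ b Z0, (((funs 𝒦 VV Z0).filter (Wrong P 𝒦 q0 E f f' b)).card : ℝ) ≤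
        T / L * (funs 𝒦 VV Z0).card := by
      cases ex with
      | true => exact fun f hf => elim_one hnm hE hQ hL hV hm hf
      | false => exact elim_neg (fun f hf => elim_one hnm hE hQ hL hV hm hf)
    obtain ⟨f', h1, h2⟩ := h f hf
    refine ⟨f', h1, ?_⟩
    intro b Z0
    refine (h2 b Z0).trans ?_
    apply mul_le_mul_of_nonneg_right _ (by positivity)
    have : (0 : ℝ) ≤ 2 ^ (q * 1) * (3 * (1 / 2) ^ m) := by positivity
    linarith
  | k + 2, hf =>
    obtain ⟨f', h1, h2⟩ := elim_add_two hnm hE hQ hL hV hnum hm k ex f hf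
    refine ⟨f', h1, ?_⟩
    intro b Z0
    refine (h2 b Z0).trans ?_
    apply mul_le_mul_of_nonneg_right _ (by positivity)
    have h3 : (2 : ℝ) ^ (q * (k + 1)) ≤ 2 ^ (q * (k + 2)) :=
      pow_le_pow_right₀ (by norm_num) (Nat.mul_le_mul_left q (by omega))
    have h4 : (2 : ℝ) ^ (q * (k + 1)) * (3 * (1 / 2) ^ m) ≤
        2 ^ (q * (k + 2)) * (3 * (1 / 2) ^ m) :=
      mul_le_mul_of_nonneg_right h3 (by positivity)
    linarith

end

end Pool.Agent.H7
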