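import Mathlib
import Pool.Agent.H9.Hier2

/-!
The depth hierarchy theorem on average: one Sipser tree is hard for a constant fraction of a family
of alternating predicates.
-/

set_option autoImplicit false

namespace Pool.Agent.H7

open Pool.Agent.H9 Classical

/-- Some member of the family is not collapsed to shallow decision trees. -/
def NotGood {ν ι κ ρ : Type*} (blk : ν → ι) (c : Bool) (K : Finset κ)
    (f : ρ → κ → (ν → Bool) → Prop) (s : ℕ) (r : ρ) (X : Finset (ν ⊕ ι)) : Prop :=
  ∃ k ∈ K, ¬ DTP Set.univ s (fun y => f r k (full blk c X (fun _ => !c) y))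

/-- Markov's inequality. -/
theorem pr_markov {α ρ : Type*} {p : ℝ} (h0 : 0 ≤ p) (h1 : p ≤ 1) (U : Finset α)
    (R : Finset ρ) (E : ρ → Finset α → Prop) (η : ℝ) (hη : 0 < η)
    (hE : ∀ r ∈ R, pr p U (E r) ≤ η / 4) :
    pr p U (fun X => η * R.card < ((R.filter (fun r => E r X)).card : ℝ)) ≤ 1 / 4 := by
  rcases Nat.eq_zero_or_pos R.card with hR | hR
  · have : R = ∅ := Finset.card_eq_zero.1 hR
    subst this
    unfold pr
    simp
  have hR' : (0 : ℝ) < R.card := by exact_mod_cast hR
  have hsum : ∑ X ∈ U.powerset, wt p U X * ((R.filter (fun r => E r X)).card : ℝ) =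
      ∑ r ∈ R, pr p U (E r) := by
    have e1 : ∀ X ∈ U.powerset, wt p U X * ((R.filter (fun r => E r X)).card : ℝ) =
        ∑ r ∈ R, if E r X then wt p U X else 0 := by
      intro X _
      rw [← Finset.sum_filter, Finset.sum_const, nsmul_eq_mul, mul_comm]
    rw [Finset.sum_congr rfl e1, Finset.sum_comm]
    apply Finset.sum_congr rfl
    intro r _
    unfold pr
    rw [Finset.sum_filter]
  have h2 : pr p U (fun X => η * R.card < ((R.filter (fun r => E r X)).card : ℝ)) *
      (η * R.card) ≤ ∑ X ∈ U.powerset, wt p U X * ((R.filter (fun r => E r X)).card : ℝ) := by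
    unfold pr
    rw [Finset.sum_mul]
    calc _ ≤ ∑ X ∈ U.powerset.filter
          (fun X => η * R.card < ((R.filter (fun r => E r X)).card : ℝ)),
          wt p U X * ((R.filter (fun r => E r X)).card : ℝ) := by
          apply Finset.sum_le_sum
          intro X hX
          rw [Finset.mem_filter] at hX
          exact mul_le_mul_of_nonneg_left hX.2.le (wt_nonneg h0 h1 U X)
      _ ≤ _ := by
          apply Finset.sum_le_sum_of_subset_of_nonneg (Finset.filter_subset _ _)
          intro X _ _
          exact mul_nonneg (wt_nonneg h0 h1 U X) (Nat.cast_nonneg _)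
  have h3 : ∑ r ∈ R, pr p U (E r) ≤ R.card * (η / 4) := by
    calc ∑ r ∈ R, pr p U (E r) ≤ ∑ r ∈ R, η / 4 := Finset.sum_le_sum hE
      _ = R.card * (η / 4) := by rw [Finset.sum_const, nsmul_eq_mul]
  rw [hsum] at h2
  have h4 : 0 < η * R.card := mul_pos hη hR'
  by_contra hcon
  push Not at hcon
  have h5 := mul_lt_mul_of_pos_right hcon h4
  have h6 : (1 / 4 : ℝ) * (η * R.card) = R.card * (η / 4) := by ring
  linarith

/-- A good restriction for most members of a family. -/
theorem collapse_avg {ν ι κ ρ : Type*} (blk : ν → ι) (c : Bool) (K : Finset κ) (R : Finset ρ)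
    (f : ρ → κ → (ν → Bool) → Prop) (W s : ℕ)
    (hf : ∀ r ∈ R, ∀ k ∈ K, ∃ F : List (List (ν × Bool)), (∀ t ∈ F, t.length ≤ W ∧ Cons t) ∧
      ∀ a, f r k a ↔ ∃ t ∈ F, Sat t a)
    (U : Finset (ν ⊕ ι)) (S : Finset (Finset (ν ⊕ ι))) (N : ℕ)
    (hS : ∀ B ∈ S, B ⊆ U ∧ N ≤ B.card) {p : ℝ} (hp0 : 0 < p) (hp1 : p < 1) {η : ℝ}
    (hη : 0 < η) (hnum1 : K.card * (4 * W * (p / (1 - p))) ^ (s + 1) ≤ η / 4)
    (hnum2 : S.card * (1 - p) ^ N ≤ 1 / 4) :
    ∃ X ⊆ U, ((R.filter (fun r => NotGood blk c K f s r X)).card : ℝ) ≤ η * R.card ∧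
      ∀ B ∈ S, ¬ Disjoint X B := by
  have h1 : ∀ r ∈ R, pr p U (NotGood blk c K f s r) ≤ η / 4 := by
    intro r hr
    refine le_trans ?_ hnum1
    apply pr_exists hp0.le hp1.le
    intro k hk
    obtain ⟨F, hF1, hF2⟩ := hf r hr k hk
    have h := switching (blk := blk) (c := c) hF1 hp0 hp1 U s
    refine le_trans (pr_mono hp0.le hp1.le U ?_) h
    intro X _ hX hD
    exact hX (hD.congr (fun y => (hF2 _).symm))
  have h2 : pr p U (fun X => ∃ B ∈ S, Disjoint X B) ≤ S.card * (1 - p) ^ N := by
    apply pr_exists hp0.le hp1.le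
    intro B hB
    rw [pr_disjoint U B (hS B hB).1]
    exact pow_le_pow_of_le_one (by linarith) (by linarith) (hS B hB).2
  have h3 := pr_markov hp0.le hp1.le U R (NotGood blk c K f s) η hη h1
  have h4 := pr_or hp0.le hp1.le U
    (fun X => η * R.card < ((R.filter (fun r => NotGood blk c K f s r X)).card : ℝ))
    (fun X => ∃ B ∈ S, Disjoint X B)
  obtain ⟨X, hXU, hX⟩ := exists_of_pr_lt_one U _ (lt_of_le_of_lt (h4.trans (add_le_add h3
    (h2.trans hnum2))) (by norm_num))
  push Not at hX
  exact ⟨X, hXU, hX.1, fun B hB => hX.2 B hB⟩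

/-- One stage: a restriction of the two bottom levels of a Sipser tree, good for most members of
a family. -/
theorem stage_avg {κ ρ : Type*} (ms : List ℕ) (μ h m2 B : ℕ) (e : Bool) (hh : 2 * μ ≤ h)
    (hm2 : 2 * μ ≤ m2) (hB : ms.sum + (2 * μ + h) ≤ B) (hBμ : B + 3 ≤ 2 ^ μ)
    (K : Finset κ) (R : Finset ρ) (f : ρ → κ → (List (List Bool) → Bool) → Prop) (W s : ℕ)
    (hf : ∀ r ∈ R, ∀ k ∈ K, ∃ F : List (List (List (List Bool) × Bool)),
      (∀ t ∈ F, t.length ≤ W ∧ Cons t) ∧ ∀ a, f r k a ↔ ∃ t ∈ F, Sat t a) {η : ℝ} (hη : 0 < η)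
    (hK : (K.card : ℝ) * (4 * W * ((1 / 2 : ℝ) ^ μ / (1 - (1 / 2 : ℝ) ^ μ))) ^ (s + 1) ≤ η / 4) :
    ∃ σ : (List (List Bool) → Bool) → (List (List Bool) → Bool),
      (∃ R' ⊆ R, (1 - η) * R.card ≤ R'.card ∧
        ∀ r ∈ R', ∀ k ∈ K, DTP Set.univ s (fun b => f r k (σ b))) ∧
      (∀ g ∈ paths ms, ∀ b : List (List Bool) → Bool,
        qt (!e) (2 * μ + h) (fun u => qt e m2 (fun w => σ b (g ++ [u] ++ [w]) = true)) ↔
          qt (!e) (2 * μ) (fun u => b (g ++ [u]) = true)) := by
  have hμ : 1 ≤ μ := by
    by_contra hcon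
    have : μ = 0 := by omega
    subst this
    simp at hBμ
  set p : ℝ := (1 / 2 : ℝ) ^ μ with hp
  have hp0 : 0 < p := by positivity
  have hp1 : p < 1 := by
    calc p ≤ (1 / 2 : ℝ) ^ 1 := pow_le_pow_of_le_one (by norm_num) (by norm_num) hμ
      _ < 1 := by norm_num
  let blk : List (List Bool) → List (List Bool) := List.dropLast
  have hblk : ∀ (i : List (List Bool)) (w : List Bool), blk (i ++ [w]) = i := fun i w => by
    simp [blk]
  -- the two families of sets to be hit
  let leafset : List (List Bool) → Finset (List (List Bool) ⊕ List (List Bool)) := fun i =>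
    (strings m2).image (fun w => Sum.inl (i ++ [w]))
  let groupset : List (List Bool) × List Bool → Finset (List (List Bool) ⊕ List (List Bool)) :=
    fun gu => (strings h).image (fun u'' => Sum.inr (gu.1 ++ [gu.2 ++ u'']))
  let S1 := (paths (ms ++ [2 * μ + h])).image leafset
  let S2 := (paths ms ×ˢ strings (2 * μ)).image groupset
  let U := (S1 ∪ S2).biUnion id
  have hc1 : ∀ i, (leafset i).card = 2 ^ m2 := by
    intro i
    simp only [leafset]
    rw [Finset.card_image_of_injective, card_strings]
    intro a b hab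
    have := Sum.inl.inj hab
    simpa using this
  have hc2 : ∀ gu, (groupset gu).card = 2 ^ h := by
    intro gu
    simp only [groupset]
    rw [Finset.card_image_of_injective, card_strings]
    intro a b hab
    have := Sum.inr.inj hab
    simpa using this
  have hN : ∀ n, 2 * μ ≤ n → 2 ^ (2 * μ) ≤ 2 ^ n := fun n hn =>
    Nat.pow_le_pow_right (by norm_num) hn
  have hScard : ((S1 ∪ S2).card : ℝ) ≤ 2 * 2 ^ B := by
    have h1 : S1.card ≤ 2 ^ B := by
      refine Finset.card_image_le.trans ?_
      rw [card_paths]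
      apply Nat.pow_le_pow_right (by norm_num)
      simpa using hB
    have h2 : S2.card ≤ 2 ^ B := by
      refine Finset.card_image_le.trans ?_
      rw [Finset.card_product, card_paths, card_strings, ← pow_add]
      apply Nat.pow_le_pow_right (by norm_num)
      omega
    have h3 := Finset.card_union_le S1 S2
    have h4 : (S1 ∪ S2).card ≤ 2 * 2 ^ B := by omega
    exact_mod_cast h4
  obtain ⟨X, hXU, hXf, hXS⟩ := collapse_avg blk (!e) K R f W s hf U (S1 ∪ S2)
    (2 ^ (2 * μ)) (by
      intro T hT
      refine ⟨?_, ?_⟩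
      · intro z hz
        simp only [U, Finset.mem_biUnion, id]
        exact ⟨T, hT, hz⟩
      · rcases Finset.mem_union.1 hT with hT | hT
        · simp only [S1, Finset.mem_image] at hT
          obtain ⟨i, _, rfl⟩ := hT
          rw [hc1]; exact hN _ hm2
        · simp only [S2, Finset.mem_image] at hT
          obtain ⟨gu, _, rfl⟩ := hT
          rw [hc2]; exact hN _ hh) hp0 hp1 hη hK (by
      have h1 := pow_estimate (μ := μ) (B := B) (N := 2 ^ (2 * μ)) hBμ le_rfl
      rw [← hp] at h1
      have h2 : ((S1 ∪ S2).card : ℝ) * (1 - p) ^ (2 ^ (2 * μ)) ≤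
          2 * 2 ^ B * (1 - p) ^ (2 ^ (2 * μ)) :=
        mul_le_mul_of_nonneg_right hScard (pow_nonneg (by linarith) _)
      have h3 : 2 * 2 ^ B * (1 - p) ^ (2 ^ (2 * μ)) ≤ 1 / 4 := by
        rw [mul_assoc]; linarith
      linarith)
  have hleaf : ∀ g ∈ paths ms, ∀ u : List Bool, u.length = 2 * μ + h →
      ∃ w : List Bool, w.length = m2 ∧ Sum.inl (g ++ [u] ++ [w]) ∈ X := by
    intro g hg u hu
    have h1 : leafset (g ++ [u]) ∈ S1 ∪ S2 := by
      apply Finset.mem_union_left
      simp only [S1, Finset.mem_image]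
      refine ⟨g ++ [u], ?_, rfl⟩
      rw [mem_paths] at hg ⊢
      simp [hg, hu]
    have h2 := hXS _ h1
    rw [Finset.not_disjoint_iff] at h2
    obtain ⟨z, hzX, hz⟩ := h2
    simp only [leafset, Finset.mem_image] at hz
    obtain ⟨w, hw, rfl⟩ := hz
    exact ⟨w, mem_strings.1 hw, hzX⟩
  have hgroup : ∀ g ∈ paths ms, ∀ u ∈ strings (2 * μ),
      ∃ u'' ∈ strings h, Sum.inr (g ++ [u ++ u'']) ∈ X := by
    intro g hg u hu
    have h1 : groupset (g, u) ∈ S1 ∪ S2 := by
      apply Finset.mem_union_right
      simp only [S2, Finset.mem_image]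
      exact ⟨(g, u), Finset.mem_product.2 ⟨hg, hu⟩, rfl⟩
    have h2 := hXS _ h1
    rw [Finset.not_disjoint_iff] at h2
    obtain ⟨z, hzX, hz⟩ := h2
    simp only [groupset, Finset.mem_image] at hz
    obtain ⟨w, hw, rfl⟩ := hz
    exact ⟨w, hw, hzX⟩
  -- the selected child of every group
  let sel : List (List Bool) → List Bool → List Bool := fun g u =>
    if hgu : ∃ u'' ∈ strings h, Sum.inr (g ++ [u ++ u'']) ∈ X then hgu.choose else []
  have hsel : ∀ g ∈ paths ms, ∀ u ∈ strings (2 * μ), sel g u ∈ strings h ∧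
      Sum.inr (g ++ [u ++ sel g u]) ∈ X := by
    intro g hg u hu
    have h1 := hgroup g hg u hu
    simp only [sel, dif_pos h1]
    exact h1.choose_spec
  -- block values as functions of the new variables
  let yv : (List (List Bool) → Bool) → List (List Bool) → Bool := fun b i =>
    if (i.getLastD []).drop (2 * μ) = sel i.dropLast ((i.getLastD []).take (2 * μ)) then
      b (i.dropLast ++ [(i.getLastD []).take (2 * μ)]) else e
  have hyv : ∀ b g u, yv b (g ++ [u]) =
      if u.drop (2 * μ) = sel g (u.take (2 * μ)) then b (g ++ [u.take (2 * μ)]) else e := by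
    intro b g u
    simp [yv]
  refine ⟨fun b => full blk (!e) X (fun _ => !(!e)) (yv b), ?_, ?_⟩
  · refine ⟨R.filter (fun r => ¬ NotGood blk (!e) K f s r X), Finset.filter_subset _ _, ?_, ?_⟩
    · have h1 := Finset.card_filter_add_card_filter_not (s := R)
        (fun r => NotGood blk (!e) K f s r X)
      have h2 : ((R.filter (fun r => NotGood blk (!e) K f s r X)).card : ℝ) +
          ((R.filter (fun r => ¬ NotGood blk (!e) K f s r X)).card : ℝ) = R.card := by
        exact_mod_cast h1
      linarith
    · intro r hr k hk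
      have hgood : DTP Set.univ s (fun y => f r k (full blk (!e) X (fun _ => !(!e)) y)) := by
        by_contra hcon
        exact (Finset.mem_filter.1 hr).2 ⟨k, hk, hcon⟩
      have h1 := hgood.comp (R := Set.univ) (m := 1) yv (by
        intro i _
        by_cases h3 : (i.getLastD []).drop (2 * μ) =
              sel i.dropLast ((i.getLastD []).take (2 * μ))
        · refine (DTP.var (i.dropLast ++ [(i.getLastD []).take (2 * μ)])
              (Set.mem_univ _)).congr ?_
          intro b
          simp only [yv, if_pos h3]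
        · refine (DTP.const 1 (e = true)).congr ?_
          intro b
          simp only [yv, if_neg h3])
      simpa using h1
  · intro g hg b
    have hval : ∀ u : List Bool, u.length = 2 * μ + h →
        (qt e m2 (fun w => full blk (!e) X (fun _ => !(!e)) (yv b) (g ++ [u] ++ [w]) = true) ↔
        (if Sum.inr (g ++ [u]) ∈ X then yv b (g ++ [u]) else e) = true) := by
      intro u hu
      exact block_value (hblk _) (hleaf g hg u hu)
    rw [qt_congr hval]
    -- values of the children
    have hv2 : ∀ u : List Bool, u.length = 2 * μ + h →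
        (if Sum.inr (g ++ [u]) ∈ X then yv b (g ++ [u]) else e) =
        if u.drop (2 * μ) = sel g (u.take (2 * μ)) then b (g ++ [u.take (2 * μ)]) else e := by
      intro u hu
      by_cases h1 : u.drop (2 * μ) = sel g (u.take (2 * μ))
      · have h2 : Sum.inr (g ++ [u]) ∈ X := by
          have h3 := (hsel g hg (u.take (2 * μ)) (mem_strings.2 (by simp [hu]))).2
          rw [← h1, List.take_append_drop] at h3
          exact h3
        rw [if_pos h2, hyv, if_pos h1]
      · rw [hyv, if_neg h1, ite_self]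
    cases e with
    | true =>
      simp only [qt, Bool.not_true]
      constructor
      · intro hall u hu
        have h1 := hsel g hg u (mem_strings.2 hu)
        have h2 : (u ++ sel g u).length = 2 * μ + h := by
          simp [hu, mem_strings.1 h1.1]
        have h3 := hall _ h2
        rw [hv2 _ h2] at h3
        have h4 : (u ++ sel g u).take (2 * μ) = u := by
          rw [← hu, List.take_left]
        have h5 : (u ++ sel g u).drop (2 * μ) = sel g u := by
          rw [← hu, List.drop_left]
        rw [h4, h5, if_pos rfl] at h3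
        exact h3
      · intro hall u hu
        rw [hv2 u hu]
        by_cases h1 : u.drop (2 * μ) = sel g (u.take (2 * μ))
        · rw [if_pos h1]
          exact hall _ (by simp [hu])
        · rw [if_neg h1]
    | false =>
      simp only [qt, Bool.not_false]
      constructor
      · rintro ⟨u, hu, h0⟩
        rw [hv2 u hu] at h0
        by_cases h1 : u.drop (2 * μ) = sel g (u.take (2 * μ))
        · rw [if_pos h1] at h0
          exact ⟨u.take (2 * μ), by simp [hu], h0⟩
        · rw [if_neg h1] at h0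
          exact absurd h0 (by simp)
      · rintro ⟨u, hu, h0⟩
        have h1 := hsel g hg u (mem_strings.2 hu)
        have h2 : (u ++ sel g u).length = 2 * μ + h := by
          simp [hu, mem_strings.1 h1.1]
        refine ⟨u ++ sel g u, h2, ?_⟩
        rw [hv2 _ h2]
        have h4 : (u ++ sel g u).take (2 * μ) = u := by
          rw [← hu, List.take_left]
        have h5 : (u ++ sel g u).drop (2 * μ) = sel g u := by
          rw [← hu, List.drop_left]
        rw [h4, h5, if_pos rfl]
        exact h0

/-- The predicate given by `D` differs from the Sipser tree with lengths `ms` on the table `a`. -/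
def Miss (ex : Bool) (ms : List ℕ) (k q : ℕ) (D : List (List Bool) → (List (List Bool) → Bool) → Prop)
    (a : List (List Bool) → Bool) : Prop :=
  ¬ (AltL ex ms (fun us => a us = true) ↔ AltL ex (List.replicate k q) (fun ws => D ws a))

theorem miss_zero {q T : ℕ} {ρ : Type*} (ex : Bool) (m : ℕ) (R : Finset ρ)
    (D : ρ → List (List Bool) → (List (List Bool) → Bool) → Prop) (hcard : 4 * T ≤ 2 ^ m)
    (hD : ∀ r ∈ R, DTP Set.univ T (D r [])) :
    ∃ a : List (List Bool) → Bool,
      (3 / 8 : ℝ) * R.card ≤ (R.filter (fun r => Miss ex [m] 0 q (D r) a)).card := by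
  have hcert : ∀ r, ∃ C : Finset (List (List Bool)), r ∈ R → C.card ≤ T ∧
      ∀ b : List (List Bool) → Bool, (∀ q ∈ C, (!ex) = b q) →
        (D r [] (fun _ => !ex) ↔ D r [] b) := by
    intro r
    by_cases hr : r ∈ R
    · obtain ⟨C, h1, h2⟩ := (hD r hr).cert (fun _ => !ex)
      exact ⟨C, fun _ => ⟨h1, h2⟩⟩
    · exact ⟨∅, fun h => absurd h hr⟩
  choose C hC using hcert
  have hsum : ∑ u ∈ strings m, ((R.filter (fun r => [u] ∈ C r)).card : ℝ) ≤
      ∑ u ∈ strings m, (1 / 4 : ℝ) * R.card := by
    have e1 : ∑ u ∈ strings m, (R.filter (fun r => [u] ∈ C r)).card =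
        ∑ r ∈ R, ((strings m).filter (fun u => [u] ∈ C r)).card := by
      simp only [Finset.card_filter]
      exact Finset.sum_comm
    have e2 : ∑ r ∈ R, ((strings m).filter (fun u => [u] ∈ C r)).card ≤ ∑ r ∈ R, T := by
      apply Finset.sum_le_sum
      intro r hr
      refine le_trans ?_ (hC r hr).1
      apply Finset.card_le_card_of_injOn (fun u => [u])
      · intro u hu
        exact (Finset.mem_filter.1 hu).2
      · intro u _ v _ huv
        simpa using huv
    have e3 : ∑ u ∈ strings m, (R.filter (fun r => [u] ∈ C r)).card ≤ R.card * T := by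
      rw [e1]
      refine e2.trans ?_
      rw [Finset.sum_const, smul_eq_mul]
    have e4 : (∑ u ∈ strings m, ((R.filter (fun r => [u] ∈ C r)).card : ℝ)) ≤ R.card * T := by
      exact_mod_cast e3
    refine e4.trans ?_
    rw [Finset.sum_const, card_strings, nsmul_eq_mul]
    have e5 : (4 : ℝ) * T ≤ 2 ^ m := by exact_mod_cast hcard
    push_cast
    have e6 : (0 : ℝ) ≤ R.card := Nat.cast_nonneg _
    nlinarith
  obtain ⟨u, hu, hle⟩ := Finset.exists_le_of_sum_le (s := strings m)
    ⟨List.replicate m true, mem_strings.2 (by simp)⟩ hsum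
  rw [mem_strings] at hu
  set a0 : List (List Bool) → Bool := fun _ => !ex with ha0
  set a1 : List (List Bool) → Bool := fun v => if v = [u] then ex else !ex with ha1
  have hsub : R.filter (fun r => ¬ [u] ∈ C r) ⊆
      R.filter (fun r => Miss ex [m] 0 q (D r) a0) ∪
        R.filter (fun r => Miss ex [m] 0 q (D r) a1) := by
    intro r hr
    rw [Finset.mem_filter] at hr
    by_contra hcon
    rw [Finset.mem_union, Finset.mem_filter, Finset.mem_filter, not_or] at hcon
    obtain ⟨c0, c1⟩ := hcon
    have h0 : AltL ex [m] (fun us => a0 us = true) ↔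
        AltL ex (List.replicate 0 q) (fun ws => D r ws a0) := by
      by_contra h
      exact c0 ⟨hr.1, h⟩
    have h1 : AltL ex [m] (fun us => a1 us = true) ↔
        AltL ex (List.replicate 0 q) (fun ws => D r ws a1) := by
      by_contra h
      exact c1 ⟨hr.1, h⟩
    have h2 := (hC r hr.1).2 a1 (by
      intro v hv
      have : v ≠ [u] := fun h => hr.2 (h ▸ hv)
      simp [ha1, this])
    simp only [List.replicate_zero, AltL] at h0 h1
    rw [← h0, ← h1] at h2
    cases ex with
    | true =>
      simp only [qt, ha0, ha1, Bool.not_true] at h2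
      have h3 : ∃ v : List Bool, v.length = m ∧ (if [v] = [u] then true else false) = true :=
        ⟨u, hu, by simp⟩
      obtain ⟨v, _, hv⟩ := h2.2 h3
      exact absurd hv (by simp)
    | false =>
      simp only [qt, ha0, ha1, Bool.not_false] at h2
      have h3 := h2.1 (fun _ _ => by simp) u hu
      simp at h3
  have hcard1 : ((R.filter (fun r => ¬ [u] ∈ C r)).card : ℝ) ≤
      (R.filter (fun r => Miss ex [m] 0 q (D r) a0)).card +
        (R.filter (fun r => Miss ex [m] 0 q (D r) a1)).card := by
    exact_mod_cast (Finset.card_le_card hsub).trans (Finset.card_union_le _ _)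
  have hcard2 : ((R.filter (fun r => [u] ∈ C r)).card : ℝ) +
      (R.filter (fun r => ¬ [u] ∈ C r)).card = R.card := by
    exact_mod_cast Finset.card_filter_add_card_filter_not (s := R) (fun r => [u] ∈ C r)
  by_cases hcase : (3 / 8 : ℝ) * R.card ≤ (R.filter (fun r => Miss ex [m] 0 q (D r) a0)).card
  · exact ⟨a0, hcase⟩
  · refine ⟨a1, ?_⟩
    push Not at hcase
    linarith

/-- **Depth hierarchy theorem, averaged version.** -/
theorem hierarchy_avg {q T μ K B : ℕ} (hBμ : B + 3 ≤ 2 ^ μ) (hq : q ≤ T) (hq1 : 1 ≤ q)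
    (hT : T * 2 ^ (2 * K + 8) ≤ 2 ^ μ) {ρ : Type*} :
    ∀ (k : ℕ) (ex : Bool) (ms : List ℕ) (m : ℕ) (R : Finset ρ)
      (D : ρ → List (List Bool) → (List (List Bool) → Bool) → Prop),
      k ≤ K → ms.length = k → (∀ x ∈ ms, 4 * μ ≤ x) → 2 * μ ≤ m → ms.sum + m ≤ B →
      (∀ r ∈ R, ∀ ws ∈ paths (List.replicate k q), DTP Set.univ T (D r ws)) →
      ∃ a : List (List Bool) → Bool, (3 / 8 - k * (1 / 2 : ℝ) ^ (K + 3)) * R.card ≤
        (R.filter (fun r => Miss ex (ms ++ [m]) k q (D r) a)).card := by
  intro k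
  induction k with
  | zero =>
    intro ex ms m R D _ hms _ hm _ hD
    obtain rfl : ms = [] := List.length_eq_zero_iff.1 hms
    have hcard : 4 * T ≤ 2 ^ m := by
      have h1 : 4 ≤ 2 ^ (2 * K + 8) := by
        calc 4 = 2 ^ 2 := by norm_num
          _ ≤ 2 ^ (2 * K + 8) := Nat.pow_le_pow_right (by norm_num) (by omega)
      have h2 : 2 ^ μ ≤ 2 ^ m := Nat.pow_le_pow_right (by norm_num) (by omega)
      nlinarith
    obtain ⟨a, ha⟩ := miss_zero (q := q) ex m R D hcard
      (fun r hr => hD r hr [] (by simp [paths]))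
    refine ⟨a, ?_⟩
    simpa using ha
  | succ k ih =>
    intro ex ms m R D hkK hms hms4 hm hsum hD
    obtain ⟨ms', m1, rfl⟩ : ∃ ms' m1, ms = ms' ++ [m1] := by
      have : ms ≠ [] := by
        intro h; rw [h] at hms; simp at hms
      exact ⟨ms.dropLast, ms.getLast this, (List.dropLast_append_getLast this).symm⟩
    have hms' : ms'.length = k := by simpa using hms
    have hm1 : 4 * μ ≤ m1 := hms4 m1 (by simp)
    obtain ⟨h, rfl⟩ : ∃ h, m1 = 2 * μ + h := ⟨m1 - 2 * μ, by omega⟩
    have hh : 2 * μ ≤ h := by omega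
    have hsum' : ms'.sum + (2 * μ + h) + m ≤ B := by simpa using hsum
    set e : Bool := ex ^^ (k + 1).bodd with he
    have he' : (ex ^^ k.bodd) = !e := by
      rw [he, xor_bodd_succ]; simp
    have hrep : List.replicate (k + 1) q = List.replicate k q ++ [q] := by
      rw [List.replicate_succ']
    set η : ℝ := (1 / 2 : ℝ) ^ (K + 3) with hη
    have hη0 : 0 < η := by positivity
    have hηK : (K : ℝ) * η ≤ 1 / 8 := by
      have h1 : (K : ℝ) ≤ 2 ^ K := by exact_mod_cast Nat.lt_two_pow_self.le
      have h2 : (2 : ℝ) ^ K * η = 1 / 8 := by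
        rw [hη, pow_add, ← mul_assoc, ← mul_pow]
        norm_num
      calc (K : ℝ) * η ≤ 2 ^ K * η := mul_le_mul_of_nonneg_right h1 hη0.le
        _ = 1 / 8 := h2
    -- the family of bottom functions
    have hDws : ∀ r ∈ R, ∀ ws ∈ paths (List.replicate k q), ∀ u ∈ strings q,
        DTP Set.univ T (D r (ws ++ [u])) := by
      intro r hr ws hws u hu
      apply hD r hr
      rw [mem_paths] at hws ⊢
      rw [hrep]
      simp [hws, mem_strings.1 hu]
    have hsw := switch_estimate (μ := μ) (k := 2 * K + 3) (q := q) (T := T) (by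
      refine le_trans (Nat.mul_le_mul_left T ?_) hT
      exact Nat.pow_le_pow_right (by norm_num) (by omega)) hq
    obtain ⟨σ, ⟨R', hR', hR'c, hσ2⟩, hσ3⟩ := stage_avg ms' μ h m B e hh hm (by omega) hBμ
      (paths (List.replicate k q)) R
      (fun r ws a => if e = true then ¬ qt (!e) q (fun u => D r (ws ++ [u]) a)
        else qt (!e) q (fun u => D r (ws ++ [u]) a)) T T
      (fun r hr ws hws => terms_of_qt (hDws r hr ws hws)) hη0 (by
        rw [card_paths]
        have : (List.replicate k q).sum = q * k := by simp [mul_comm]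
        rw [this]
        push_cast
        set Y : ℝ := (4 * T * ((1 / 2 : ℝ) ^ μ / (1 - (1 / 2 : ℝ) ^ μ))) ^ (T + 1) with hY
        have hμ1 : (1 / 2 : ℝ) ^ μ ≤ 1 := pow_le_one₀ (by norm_num) (by norm_num)
        have hY0 : 0 ≤ Y := by
          rw [hY]
          apply pow_nonneg
          apply mul_nonneg (by positivity)
          exact div_nonneg (by positivity) (by linarith)
        have h1 : (2 : ℝ) ^ (q * k) * 2 ^ (K + 3) ≤ 2 ^ (q * (2 * K + 3)) := by
          rw [← pow_add]
          apply pow_le_pow_right₀ (by norm_num)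
          have h2 : q * (2 * K + 3) = q * K + q * (K + 3) := by ring
          have h3 : q * k ≤ q * K := Nat.mul_le_mul_left q (by omega)
          have h4 : K + 3 ≤ q * (K + 3) := Nat.le_mul_of_pos_left _ (by omega)
          omega
        have h2 : (2 : ℝ) ^ (K + 3) * η = 1 := by
          rw [hη, ← mul_pow]
          norm_num
        calc (2 : ℝ) ^ (q * k) * Y = (2 : ℝ) ^ (q * k) * 2 ^ (K + 3) * Y * η := by
              rw [mul_right_comm _ (2 ^ (K + 3)) Y, mul_assoc _ (2 ^ (K + 3)) η, h2, mul_one]
          _ ≤ 2 ^ (q * (2 * K + 3)) * Y * η := by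
              apply mul_le_mul_of_nonneg_right _ hη0.le
              exact mul_le_mul_of_nonneg_right h1 hY0
          _ ≤ 1 / 4 * η := mul_le_mul_of_nonneg_right hsw hη0.le
          _ = η / 4 := by ring)
    have hD' : ∀ r ∈ R', ∀ ws ∈ paths (List.replicate k q),
        DTP Set.univ T (fun b => qt (!e) q (fun u => D r (ws ++ [u]) (σ b))) := by
      intro r hr ws hws
      have h1 := hσ2 r hr ws hws
      by_cases hee : e = true
      · refine h1.not.congr ?_
        intro b
        simp only [if_pos hee, not_not]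
      · refine h1.congr ?_
        intro b
        simp only [if_neg hee]
    obtain ⟨b, hb⟩ := ih ex ms' (2 * μ) R'
      (fun r ws b => qt (!e) q (fun u => D r (ws ++ [u]) (σ b))) (by omega) hms'
      (fun x hx => hms4 x (by simp [hx])) le_rfl (by omega) hD'
    refine ⟨σ b, ?_⟩
    have hsub : R'.filter (fun r => Miss ex (ms' ++ [2 * μ]) k q
        (fun ws b => qt (!e) q (fun u => D r (ws ++ [u]) (σ b))) b) ⊆
        R.filter (fun r => Miss ex (ms' ++ [2 * μ + h] ++ [m]) (k + 1) q (D r) (σ b)) := by
      intro r hr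
      rw [Finset.mem_filter] at hr ⊢
      refine ⟨hR' hr.1, ?_⟩
      intro hcon
      apply hr.2
      rw [AltL_snoc ex (ms' ++ [2 * μ + h]) m, AltL_snoc ex ms', hrep,
        AltL_snoc ex (List.replicate k q) q, List.length_append, List.length_singleton, hms',
        List.length_replicate, ← he, he'] at hcon
      rw [AltL_snoc, hms', he']
      rw [← hcon]
      apply AltL_congr
      intro g hg
      exact (hσ3 g (mem_paths.2 hg) b).symm
    have hk' : (k : ℝ) * η ≤ 1 / 8 := by
      have : (k : ℝ) ≤ K := by exact_mod_cast (by omega : k ≤ K)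
      exact (mul_le_mul_of_nonneg_right this hη0.le).trans hηK
    have hk0 : 0 ≤ (k : ℝ) * η := by positivity
    have hR0 : (0 : ℝ) ≤ R.card := Nat.cast_nonneg _
    calc (3 / 8 - ((k + 1 : ℕ) : ℝ) * η) * R.card
        ≤ (3 / 8 - k * η) * ((1 - η) * R.card) := by
          rw [← mul_assoc]
          apply mul_le_mul_of_nonneg_right _ hR0
          push_cast
          nlinarith [mul_nonneg hk0 hη0.le]
      _ ≤ (3 / 8 - k * η) * R'.card := mul_le_mul_of_nonneg_left hR'c (by linarith)
      _ ≤ _ := hb
      _ ≤ _ := by exact_mod_cast Finset.card_le_card hsub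

end Pool.Agent.H7
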