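import Mathlib
import Pool.Agent.H7.Elim

/-!
Elimination of all groups of secrets, from the last one to the first one.
-/

set_option autoImplicit false

namespace Pool.Agent.H7

open Pool.Agent.H9 Classical

variable {V κ Y : Type*}

/-- The growth of block length and depth under one elimination step. -/
def grow (A' T0 k c : ℕ) (p : ℕ × ℕ) : ℕ × ℕ :=
  (p.1 + (p.1 * k + c) * p.2 * A', 2 * ((p.1 * k + c) * p.2) * T0 + p.2)

/-- The union of the first groups. -/
noncomputable def groups (𝒦 : ℕ → Finset κ) (j : ℕ) : Finset κ := (Finset.range j).biUnion 𝒦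

theorem mem_groups {𝒦 : ℕ → Finset κ} {j : ℕ} {x : κ} :
    x ∈ groups 𝒦 j ↔ ∃ i < j, x ∈ 𝒦 i := by
  unfold groups
  rw [Finset.mem_biUnion]
  simp

/-- The family `fam` on the assignment `c` and the family `fam'` on the assignment `c'` differ. -/
def Differ (fam fam' : (κ → List Bool) → (V → Bool) → Prop) (c c' : (κ → List Bool) → V → Bool)
    (Z : κ → List Bool) : Prop :=
  ¬ (fam Z (c Z) ↔ fam' Z (c' Z))

/-- Elimination with a result depending only on the secrets of the group. -/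
theorem elim_restr {P : V → Option (κ × List Bool)} {𝒦 : Finset κ} {nm : List Bool → κ}
    {A q0 : ℕ} {E : κ → List Bool → (V → Bool) → Prop} {Q Q' : Set V} {T0 c : ℕ}
    {VV : κ → Finset (List Bool)} {L ε : ℝ} {k : ℕ} {ex : Bool} {p : ℕ × ℕ}
    (hnm : ∀ k ∈ 𝒦, ∃ s ∈ strings A, nm s = k)
    (hE : ∀ k ∈ 𝒦, ∀ u ∈ strings q0, DTP Q' T0 (E k u))
    (hQ : ∀ x ∈ Q, P x = none → x ∈ Q') (hL : 0 < L) (hV : ∀ k ∈ 𝒦, L ≤ (VV k).card)
    (hnum : 2 * (𝒦.card : ℝ) * ((p.1 * k + c : ℕ) : ℝ) * p.2 ≤ L) (hc : 1 ≤ c)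
    (hε : (p.2 : ℝ) / L + 3 * (1 / 2) ^ c ≤ ε)
    (f : (V → Bool) → Prop) (hf : Lev Q p.1 p.2 ex k f) :
    ∃ f' : (κ → List Bool) → (V → Bool) → Prop,
      (∀ Z, Lev Q' (grow (A + q0) T0 k c p).1 (grow (A + q0) T0 k c p).2 ex k (f' Z)) ∧
      (∀ Z Z', (∀ κ ∈ 𝒦, Z κ = Z' κ) → f' Z = f' Z') ∧
      ∀ b Z0, (((funs 𝒦 VV Z0).filter (Wrong P 𝒦 q0 E f f' b)).card : ℝ) ≤
        ε * (funs 𝒦 VV Z0).card := by
  obtain ⟨f', h1, h2⟩ := elim (q := p.1) (T := p.2) (m := p.1 * k + c) hnm hE hQ hL hV hnum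
    (by omega) k ex f hf
  let restr : (κ → List Bool) → (κ → List Bool) := fun Z j => if j ∈ 𝒦 then Z j else []
  refine ⟨fun Z => f' (restr Z), fun Z => h1 (restr Z), ?_, ?_⟩
  · intro Z Z' h
    have : restr Z = restr Z' := by
      funext j
      simp only [restr]
      split_ifs with hj
      · exact h j hj
      · rfl
    show f' (restr Z) = f' (restr Z')
    rw [this]
  · intro b Z0
    have h3 : ((funs 𝒦 VV Z0).filter (Wrong P 𝒦 q0 E f (fun Z => f' (restr Z)) b)).card ≤
        ((funs 𝒦 VV (fun _ => [])).filter (Wrong P 𝒦 q0 E f f' b)).card := by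
      apply Finset.card_le_card_of_injOn restr
      · intro Z hZ
        rw [Finset.mem_coe, Finset.mem_filter, mem_funs] at hZ
        obtain ⟨⟨h4, h5⟩, h6⟩ := hZ
        rw [Finset.mem_coe, Finset.mem_filter, mem_funs]
        refine ⟨⟨?_, ?_⟩, ?_⟩
        · intro j hj
          simp only [restr, if_pos hj]
          exact h4 j hj
        · intro j hj
          simp only [restr, if_neg hj]
        · intro hcon
          apply h6
          beta_reduce
          rw [← hcon, comb_local (Z := Z) (Z' := restr Z)]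
          intro j hj
          have hjK : j ∈ 𝒦 := (Finset.mem_filter.1 hj).1
          simp only [restr, if_pos hjK]
      · intro Z hZ Z' hZ' h
        rw [Finset.mem_coe, Finset.mem_filter, mem_funs] at hZ hZ'
        funext j
        by_cases hj : j ∈ 𝒦
        · have := congrFun h j
          simpa [restr, if_pos hj] using this
        · rw [hZ.1.2 j hj, hZ'.1.2 j hj]
    have h4 : ((funs 𝒦 VV (fun _ => [])).card : ℝ) = (funs 𝒦 VV Z0).card := by
      rw [card_funs, card_funs]
    have h5 : (p.2 : ℝ) / L + 2 ^ (p.1 * k) * (3 * (1 / 2) ^ (p.1 * k + c)) ≤ ε := by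
      have : (2 : ℝ) ^ (p.1 * k) * (3 * (1 / 2) ^ (p.1 * k + c)) = 3 * (1 / 2) ^ c := by
        rw [pow_add, ← mul_assoc, ← mul_assoc, mul_comm _ (3 : ℝ), mul_assoc 3, ← mul_pow]
        norm_num
      rw [this]
      exact hε
    calc (((funs 𝒦 VV Z0).filter (Wrong P 𝒦 q0 E f (fun Z => f' (restr Z)) b)).card : ℝ)
        ≤ (((funs 𝒦 VV (fun _ => [])).filter (Wrong P 𝒦 q0 E f f' b)).card : ℝ) := by
          exact_mod_cast h3
      _ ≤ (p.2 / L + 2 ^ (p.1 * k) * (3 * (1 / 2) ^ (p.1 * k + c))) *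
          (funs 𝒦 VV (fun _ => [])).card := h2 b _
      _ ≤ ε * (funs 𝒦 VV (fun _ => [])).card :=
          mul_le_mul_of_nonneg_right h5 (Nat.cast_nonneg _)
      _ = ε * (funs 𝒦 VV Z0).card := by rw [h4]

/-- **Elimination of all groups.** -/
theorem iterate_elim {P : ℕ → V → Option (κ × List Bool)} {𝒦 : ℕ → Finset κ}
    {nm : List Bool → κ} {A q0 : ℕ} {E : κ → List Bool → (V → Bool) → Prop} {Q : ℕ → Set V}
    {T0 c M : ℕ} {VV : κ → Finset (List Bool)} {L : ℕ → ℝ} {ε : ℝ} {k : ℕ} {ex : Bool} {J : ℕ}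
    {b : ℕ → Y → (κ → List Bool) → V → Bool}
    (hnm : ∀ j < J, ∀ k ∈ 𝒦 j, ∃ s ∈ strings A, nm s = k)
    (hE : ∀ j < J, ∀ k ∈ 𝒦 j, ∀ u ∈ strings q0, DTP (Q j) T0 (E k u))
    (hQ : ∀ j < J, ∀ x ∈ Q (j + 1), P j x = none → x ∈ Q j) (hL : ∀ j < J, 0 < L j)
    (hV : ∀ j < J, ∀ k ∈ 𝒦 j, L j ≤ (VV k).card)
    (hnum : ∀ j < J, 2 * ((𝒦 j).card : ℝ) * M ≤ L j) (hc : 1 ≤ c)
    (hε : ∀ j < J, (M : ℝ) / L j + 3 * (1 / 2) ^ c ≤ ε)
    (hdisj : ∀ i j, i < j → j < J → Disjoint (𝒦 i) (𝒦 j))
    (hb0 : ∀ y Z Z', b 0 y Z = b 0 y Z')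
    (hb : ∀ j < J, ∀ y Z, b (j + 1) y Z =
      comb (P j) (b j y Z) Z (Gset (𝒦 j) q0 E (b j y Z))) :
    ∀ j ≤ J, ∀ p : ℕ × ℕ,
    (∀ i < j, (((grow (A + q0) T0 k c)^[i] p).1 * k + c) *
      ((grow (A + q0) T0 k c)^[i] p).2 ≤ M) →
    ∀ fam : (κ → List Bool) → (V → Bool) → Prop,
      (∀ Z, Lev (Q j) p.1 p.2 ex k (fam Z)) →
      (∀ Z Z', (∀ x, x ∉ groups 𝒦 j → Z x = Z' x) → fam Z = fam Z') →
      ∃ fam0 : (κ → List Bool) → (V → Bool) → Prop,
        (∀ Z, Lev (Q 0) ((grow (A + q0) T0 k c)^[j] p).1 ((grow (A + q0) T0 k c)^[j] p).2 ex k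
          (fam0 Z)) ∧
        ∀ y Z0, (((funs (groups 𝒦 j) VV Z0).filter
          (Differ fam fam0 (b j y) (b 0 y))).card : ℝ) ≤
          j * ε * (funs (groups 𝒦 j) VV Z0).card := by
  -- dependence of the assignments on the secrets
  have hbdep : ∀ j ≤ J, ∀ y Z Z', (∀ x ∈ groups 𝒦 j, Z x = Z' x) → b j y Z = b j y Z' := by
    intro j
    induction j with
    | zero => intro _ y Z Z' _; exact hb0 y Z Z'
    | succ j ih =>
      intro hj y Z Z' h
      have h1 := ih (by omega) y Z Z' (by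
        intro x hx
        apply h
        unfold groups at hx ⊢
        rw [Finset.mem_biUnion] at hx ⊢
        obtain ⟨i, hi, hx⟩ := hx
        exact ⟨i, Finset.mem_range.2 (by have := Finset.mem_range.1 hi; omega), hx⟩)
      rw [hb j (by omega), hb j (by omega), h1]
      apply comb_local
      intro x hx
      apply h
      unfold groups
      rw [Finset.mem_biUnion]
      exact ⟨j, Finset.mem_range.2 (by omega), (Finset.mem_filter.1 hx).1⟩
  intro j
  induction j with
  | zero =>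
    intro _ p _ fam hfam hdep
    refine ⟨fam, fun Z => hfam Z, ?_⟩
    intro y Z0
    have : (funs (groups 𝒦 0) VV Z0).filter (Differ fam fam (b 0 y) (b 0 y)) = ∅ := by
      rw [Finset.filter_eq_empty_iff]
      intro Z _ h
      exact h Iff.rfl
    rw [this]
    simp
  | succ j ih =>
    intro hj p hM fam hfam hdep
    have hjJ : j < J := by omega
    have hM0 : (p.1 * k + c) * p.2 ≤ M := hM 0 (by omega)
    have hp2 : p.2 ≤ M := by
      refine le_trans ?_ hM0
      exact Nat.le_mul_of_pos_left _ (by omega)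
    have hstep : ∀ f, ∃ f' : (κ → List Bool) → (V → Bool) → Prop,
        Lev (Q (j + 1)) p.1 p.2 ex k f →
        (∀ Z, Lev (Q j) (grow (A + q0) T0 k c p).1 (grow (A + q0) T0 k c p).2 ex k (f' Z)) ∧
        (∀ Z Z', (∀ κ ∈ 𝒦 j, Z κ = Z' κ) → f' Z = f' Z') ∧
        ∀ b Z0, (((funs (𝒦 j) VV Z0).filter (Wrong (P j) (𝒦 j) q0 E f f' b)).card : ℝ) ≤
          ε * (funs (𝒦 j) VV Z0).card := by
      intro f
      by_cases hf : Lev (Q (j + 1)) p.1 p.2 ex k f
      · obtain ⟨f', hf'⟩ := elim_restr (p := p) (hnm j hjJ) (hE j hjJ) (hQ j hjJ) (hL j hjJ)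
          (hV j hjJ) (by
            refine le_trans ?_ (hnum j hjJ)
            rw [mul_assoc]
            apply mul_le_mul_of_nonneg_left _ (by positivity)
            exact_mod_cast hM0) hc (by
            refine le_trans ?_ (hε j hjJ)
            have h1 : (p.2 : ℝ) / L j ≤ M / L j := by
              apply div_le_div_of_nonneg_right _ (hL j hjJ).le
              exact_mod_cast hp2
            linarith) f hf
        exact ⟨f', fun _ => hf'⟩
      · exact ⟨fun _ _ => True, fun h => absurd h hf⟩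
    choose EE hEE using hstep
    have hsub : ∀ x ∈ groups 𝒦 j, x ∈ groups 𝒦 (j + 1) := by
      intro x hx
      unfold groups at hx ⊢
      rw [Finset.mem_biUnion] at hx ⊢
      obtain ⟨i, hi, hx⟩ := hx
      exact ⟨i, Finset.mem_range.2 (by have := Finset.mem_range.1 hi; omega), hx⟩
    have hKsub : 𝒦 j ⊆ groups 𝒦 (j + 1) := by
      intro x hx
      unfold groups
      rw [Finset.mem_biUnion]
      exact ⟨j, Finset.mem_range.2 (by omega), hx⟩
    have hKdis : ∀ x ∈ 𝒦 j, x ∉ groups 𝒦 j := by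
      intro x hx hx'
      unfold groups at hx'
      rw [Finset.mem_biUnion] at hx'
      obtain ⟨i, hi, hxi⟩ := hx'
      exact Finset.disjoint_left.1 (hdisj i j (Finset.mem_range.1 hi) hjJ) hxi hx
    obtain ⟨fam0, h1, h2⟩ := ih (by omega) (grow (A + q0) T0 k c p) (by
        intro i hi
        have := hM (i + 1) (by omega)
        rw [Function.iterate_succ_apply] at this
        exact this) (fun Z => EE (fam Z) Z) (fun Z => (hEE (fam Z) (hfam Z)).1 Z) (by
        intro Z Z' h
        have e1 : fam Z = fam Z' := hdep Z Z' (fun x hx => h x (fun hx' => hx (hsub x hx')))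
        show EE (fam Z) Z = EE (fam Z') Z'
        rw [e1]
        exact (hEE (fam Z') (hfam Z')).2.1 Z Z' (fun x hx => h x (hKdis x hx)))
    refine ⟨fam0, ?_, ?_⟩
    · intro Z
      rw [Function.iterate_succ_apply]
      exact h1 Z
    · intro y Z0
      have hb1 : (((funs (groups 𝒦 (j + 1)) VV Z0).filter
          (Differ fam (fun Z => EE (fam Z) Z) (b (j + 1) y) (b j y))).card : ℝ) ≤
          ε * (funs (groups 𝒦 (j + 1)) VV Z0).card := by
        apply card_filter_le_of_fibres hKsub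
        intro g
        refine le_trans ?_ ((hEE (fam g) (hfam g)).2.2 (b j y g) g)
        have hs : (funs (𝒦 j) VV g).filter
            (Differ fam (fun Z => EE (fam Z) Z) (b (j + 1) y) (b j y)) ⊆
            (funs (𝒦 j) VV g).filter (Wrong (P j) (𝒦 j) q0 E (fam g) (EE (fam g)) (b j y g)) := by
          intro Z hZ
          rw [Finset.mem_filter] at hZ ⊢
          obtain ⟨hZ1, hZ2⟩ := hZ
          refine ⟨hZ1, ?_⟩
          rw [mem_funs] at hZ1
          have e1 : fam Z = fam g := hdep Z g (fun x hx => hZ1.2 x (fun hx' => hx (hKsub hx')))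
          have e2 : b j y Z = b j y g := hbdep j hjJ.le y Z g (fun x hx => hZ1.2 x
            (fun hx' => hKdis x hx' hx))
          unfold Differ at hZ2
          unfold Wrong
          beta_reduce at hZ2
          rw [hb j hjJ, e1, e2] at hZ2
          exact hZ2
        exact_mod_cast Finset.card_le_card hs
      have hb2 : (((funs (groups 𝒦 (j + 1)) VV Z0).filter
          (Differ (fun Z => EE (fam Z) Z) fam0 (b j y) (b 0 y))).card : ℝ) ≤
          j * ε * (funs (groups 𝒦 (j + 1)) VV Z0).card := by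
        apply card_filter_le_of_fibres (D := groups 𝒦 j) hsub
        intro g
        exact h2 y g
      have hs : (funs (groups 𝒦 (j + 1)) VV Z0).filter (Differ fam fam0 (b (j + 1) y) (b 0 y)) ⊆
          (funs (groups 𝒦 (j + 1)) VV Z0).filter
          (Differ fam (fun Z => EE (fam Z) Z) (b (j + 1) y) (b j y)) ∪
          (funs (groups 𝒦 (j + 1)) VV Z0).filter
          (Differ (fun Z => EE (fam Z) Z) fam0 (b j y) (b 0 y)) := by
        intro Z hZ
        rw [Finset.mem_filter] at hZ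
        rw [Finset.mem_union, Finset.mem_filter, Finset.mem_filter]
        by_contra hcon
        rw [not_or] at hcon
        obtain ⟨c1, c2⟩ := hcon
        apply hZ.2
        have d1 : fam Z (b (j + 1) y Z) ↔ EE (fam Z) Z (b j y Z) := by
          by_contra h
          exact c1 ⟨hZ.1, h⟩
        have d2 : EE (fam Z) Z (b j y Z) ↔ fam0 Z (b 0 y Z) := by
          by_contra h
          exact c2 ⟨hZ.1, h⟩
        exact d1.trans d2
      have h3 : (((funs (groups 𝒦 (j + 1)) VV Z0).filter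
          (Differ fam fam0 (b (j + 1) y) (b 0 y))).card : ℝ) ≤
          (((funs (groups 𝒦 (j + 1)) VV Z0).filter
          (Differ fam (fun Z => EE (fam Z) Z) (b (j + 1) y) (b j y))).card : ℝ) +
          (((funs (groups 𝒦 (j + 1)) VV Z0).filter
          (Differ (fun Z => EE (fam Z) Z) fam0 (b j y) (b 0 y))).card : ℝ) := by
        exact_mod_cast (Finset.card_le_card hs).trans (Finset.card_union_le _ _)
      push_cast
      have : ((j : ℝ) + 1) * ε * ((funs (groups 𝒦 (j + 1)) VV Z0).card : ℝ) =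
        ε * (funs (groups 𝒦 (j + 1)) VV Z0).card +
        j * ε * (funs (groups 𝒦 (j + 1)) VV Z0).card := by ring
      rw [this]
      linarith

end Pool.Agent.H7
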