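import Mathlib
import Pool.Agent.H7.Iter
import Pool.Agent.H7.HierAvg

/-!
A table and secrets fooling one alternating machine.
-/

set_option autoImplicit false

namespace Pool.Agent.H7

open Pool.Agent.H9 Classical

variable {V κ : Type*}

theorem le_grow_fst (A' T0 k c : ℕ) (p : ℕ × ℕ) : p.1 ≤ (grow A' T0 k c p).1 :=
  Nat.le_add_right _ _

/-- **The fooling lemma.** -/
theorem exists_fool {P : ℕ → V → Option (κ × List Bool)} {𝒦 : ℕ → Finset κ}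
    {nm : List Bool → κ} {A q0 : ℕ} {E : κ → List Bool → (V → Bool) → Prop} {Q : ℕ → Set V}
    {T0 c M : ℕ} {VV : κ → Finset (List Bool)} {L : ℕ → ℝ} {ε : ℝ} {k : ℕ} {ex : Bool} {J : ℕ}
    {b : ℕ → (List (List Bool) → Bool) → (κ → List Bool) → V → Bool}
    (hnm : ∀ j < J, ∀ k ∈ 𝒦 j, ∃ s ∈ strings A, nm s = k)
    (hE : ∀ j < J, ∀ k ∈ 𝒦 j, ∀ u ∈ strings q0, DTP (Q j) T0 (E k u))
    (hQ : ∀ j < J, ∀ x ∈ Q (j + 1), P j x = none → x ∈ Q j) (hL : ∀ j < J, 0 < L j)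
    (hV : ∀ j < J, ∀ k ∈ 𝒦 j, L j ≤ (VV k).card)
    (hnum : ∀ j < J, 2 * ((𝒦 j).card : ℝ) * M ≤ L j) (hc : 1 ≤ c)
    (hε : ∀ j < J, (M : ℝ) / L j + 3 * (1 / 2) ^ c ≤ ε)
    (hdisj : ∀ i j, i < j → j < J → Disjoint (𝒦 i) (𝒦 j))
    (hb0 : ∀ y Z Z', b 0 y Z = b 0 y Z')
    (hb : ∀ j < J, ∀ y Z, b (j + 1) y Z =
      comb (P j) (b j y Z) Z (Gset (𝒦 j) q0 E (b j y Z)))
    (hJε : J * ε < 1 / 4)
    (hbase : ∀ x ∈ Q 0, ∀ Z, DTP Set.univ 1 (fun y => b 0 y Z x = true))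
    (p : ℕ × ℕ) (hp : 1 ≤ p.1)
    (hM : ∀ i < J, (((grow (A + q0) T0 k c)^[i] p).1 * k + c) *
      ((grow (A + q0) T0 k c)^[i] p).2 ≤ M)
    (f : (V → Bool) → Prop) (hf : Lev (Q J) p.1 p.2 ex k f)
    {μ B m : ℕ} {ms : List ℕ} (hBμ : B + 3 ≤ 2 ^ μ)
    (hT : (((grow (A + q0) T0 k c)^[J] p).1 + ((grow (A + q0) T0 k c)^[J] p).2) *
      2 ^ (2 * k + 8) ≤ 2 ^ μ) (hms : ms.length = k) (hms4 : ∀ x ∈ ms, 4 * μ ≤ x)
    (hm : 2 * μ ≤ m) (hsum : ms.sum + m ≤ B) (Z0 : κ → List Bool) :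
    ∃ (y : List (List Bool) → Bool), ∃ Z ∈ funs (groups 𝒦 J) VV Z0,
      ¬ (AltL ex (ms ++ [m]) (fun us => y us = true) ↔ f (b J y Z)) := by
  obtain ⟨fam0, h1, h2⟩ := iterate_elim (Y := List (List Bool) → Bool) hnm hE hQ hL hV hnum hc hε
    hdisj hb0 hb J le_rfl p hM (fun _ => f) (fun _ => hf) (fun _ _ _ => rfl)
  set q' := ((grow (A + q0) T0 k c)^[J] p).1 with hq'
  set T' := ((grow (A + q0) T0 k c)^[J] p).2 with hT'
  have hq1 : 1 ≤ q' := by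
    have : ∀ i, 1 ≤ ((grow (A + q0) T0 k c)^[i] p).1 := by
      intro i
      induction i with
      | zero => exact hp
      | succ i ih =>
        rw [Function.iterate_succ_apply']
        exact ih.trans (le_grow_fst _ _ _ _ _)
    exact this J
  have h3 : ∀ Z, ∃ D : List (List Bool) → ((List (List Bool) → Bool)) → Prop,
      (∀ ws ∈ paths (List.replicate k q'), DTP Set.univ (q' + T') (D ws)) ∧
      ∀ a, fam0 Z (b 0 a Z) ↔ AltL ex (List.replicate k q') (fun ws => D ws a) := by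
    intro Z
    have h4 := (h1 Z).comp (R := Set.univ)
      (fun y : List (List Bool) → Bool => b 0 y Z) (fun x hx => hbase x hx Z)
    exact (Lev.mono (Set.Subset.refl _) le_rfl (Nat.le_add_left T' q') h4).altL
  choose D hD1 hD2 using h3
  obtain ⟨y, hy⟩ := hierarchy_avg (K := k) hBμ (Nat.le_add_right q' T') hq1 hT k ex ms m
    (funs (groups 𝒦 J) VV Z0) D le_rfl hms hms4 hm hsum (fun Z _ => hD1 Z)
  have hpos : (0 : ℝ) < (funs (groups 𝒦 J) VV Z0).card := by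
    rw [card_funs]
    push_cast
    apply Finset.prod_pos
    intro x hx
    unfold groups at hx
    rw [Finset.mem_biUnion] at hx
    obtain ⟨j, hj, hx⟩ := hx
    rw [Finset.mem_range] at hj
    exact lt_of_lt_of_le (hL j hj) (hV j hj x hx)
  have h4 := h2 y Z0
  have h5 : (1 / 4 : ℝ) ≤ 3 / 8 - k * (1 / 2 : ℝ) ^ (k + 3) := by
    have e1 : (k : ℝ) ≤ 2 ^ k := by exact_mod_cast Nat.lt_two_pow_self.le
    have e2 : (2 : ℝ) ^ k * (1 / 2) ^ (k + 3) = 1 / 8 := by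
      rw [pow_add, ← mul_assoc, ← mul_pow]
      norm_num
    have e3 : (k : ℝ) * (1 / 2) ^ (k + 3) ≤ 2 ^ k * (1 / 2) ^ (k + 3) :=
      mul_le_mul_of_nonneg_right e1 (by positivity)
    linarith
  refine ⟨y, ?_⟩
  by_contra hcon
  push Not at hcon
  have hsub : (funs (groups 𝒦 J) VV Z0).filter (fun Z => Miss ex (ms ++ [m]) k q' (D Z) y) ⊆
      (funs (groups 𝒦 J) VV Z0).filter (Differ (fun _ => f) fam0 (b J y) (b 0 y)) := by
    intro Z hZ
    rw [Finset.mem_filter] at hZ ⊢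
    refine ⟨hZ.1, ?_⟩
    intro h6
    apply hZ.2
    rw [← hD2]
    exact (hcon Z hZ.1).trans h6
  have h6 : (((funs (groups 𝒦 J) VV Z0).filter
      (fun Z => Miss ex (ms ++ [m]) k q' (D Z) y)).card : ℝ) ≤
      ((funs (groups 𝒦 J) VV Z0).filter (Differ (fun _ => f) fam0 (b J y) (b 0 y))).card := by
    exact_mod_cast Finset.card_le_card hsub
  have h7 : (1 / 4 : ℝ) * (funs (groups 𝒦 J) VV Z0).card ≤
      (3 / 8 - k * (1 / 2 : ℝ) ^ (k + 3)) * (funs (groups 𝒦 J) VV Z0).card :=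
    mul_le_mul_of_nonneg_right h5 hpos.le
  have h8 : (J : ℝ) * ε * (funs (groups 𝒦 J) VV Z0).card <
      1 / 4 * (funs (groups 𝒦 J) VV Z0).card := mul_lt_mul_of_pos_right hJε hpos
  linarith

end Pool.Agent.H7
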