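import Mathlib
import Pool.Agent.H9.Classes

/-!
Oracles defined by recursion on the length of words, and the words reserved for the unique
witnesses.
-/

set_option autoImplicit false

namespace Pool.Agent.H7

open Pool.Agent.H9 Classical

/-- The value of the operator at a word depends only on shorter words. -/
def LocalOp (Γ : Oracle → Oracle) : Prop :=
  ∀ (A B : Oracle) (w : List Bool), (∀ v : List Bool, v.length < w.length → A v = B v) →
    Γ A w = Γ B w

/-- The oracle defined by the operator. -/
def lfix (Γ : Oracle → Oracle) : Oracle := fun w => Γ^[w.length + 1] (fun _ => false) w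

theorem lfix_iter {Γ : Oracle → Oracle} (h : LocalOp Γ) : ∀ (n m : ℕ) (w : List Bool),
    w.length < n → w.length < m → Γ^[n] (fun _ => false) w = Γ^[m] (fun _ => false) w := by
  intro n
  induction n with
  | zero => intro m w h; omega
  | succ n ih =>
    intro m w hn hm
    obtain ⟨m, rfl⟩ : ∃ m', m = m' + 1 := ⟨m - 1, by omega⟩
    rw [Function.iterate_succ_apply', Function.iterate_succ_apply']
    exact h _ _ w (fun v hv => ih m v (by omega) (by omega))

theorem lfix_eq {Γ : Oracle → Oracle} (h : LocalOp Γ) (w : List Bool) :
    lfix Γ w = Γ (lfix Γ) w := by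
  unfold lfix
  rw [Function.iterate_succ_apply']
  exact h _ _ w (fun v hv => lfix_iter h _ _ v hv (Nat.lt_succ_self _))

/-- Two operators that agree on short words define oracles that agree on short words. -/
theorem lfix_congr {Γ Γ' : Oracle → Oracle} (h : LocalOp Γ) (h' : LocalOp Γ') {l : ℕ}
    (hl : ∀ w : List Bool, w.length ≤ l → ∀ A, Γ A w = Γ' A w) :
    ∀ w : List Bool, w.length ≤ l → lfix Γ w = lfix Γ' w := by
  suffices ∀ (n : ℕ) (w : List Bool), w.length = n → n ≤ l → lfix Γ w = lfix Γ' w from
    fun w hw => this _ w rfl hw
  intro n
  induction n using Nat.strong_induction_on with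
  | _ n ih =>
    intro w hw hn
    rw [lfix_eq h, lfix_eq h', hl w (by omega)]
    exact h' _ _ w (fun v hv => ih v.length (by omega) v rfl (by omega))

/-! ### Words reserved for unique witnesses -/

/-- The word asking whether `z` is the unique witness of the name `(i, x)`. -/
def ucode (i : ℕ) (x z : List Bool) : List Bool :=
  true :: (List.replicate i true ++ false :: (x ++ z).reverse)

theorem ucode_length (i : ℕ) (x z : List Bool) :
    (ucode i x z).length = i + 2 + x.length + z.length := by
  simp [ucode]
  omega

theorem ucode_inj {l : ℕ → ℕ → ℕ} (hl : ∀ i, Monotone (l i)) {i i' : ℕ}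
    {x x' z z' : List Bool} (hz : z.length = l i x.length) (hz' : z'.length = l i' x'.length)
    (h : ucode i x z = ucode i' x' z') : i = i' ∧ x = x' ∧ z = z' := by
  unfold ucode at h
  rw [List.cons.injEq] at h
  obtain ⟨h1, h2⟩ := replicate_append_false_inj h.2
  subst h1
  have h3 := List.reverse_injective h2
  have h4 : x.length = x'.length := by
    have h5 := congrArg List.length h3
    rw [List.length_append, List.length_append, hz, hz'] at h5
    rcases Nat.lt_trichotomy x.length x'.length with h6 | h6 | h6
    · have := hl i h6.le
      omega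
    · exact h6
    · have := hl i h6.le
      omega
  obtain ⟨h5, h6⟩ := List.append_inj h3 h4
  exact ⟨rfl, h5, h6⟩

/-- The name coded by a string. -/
noncomputable def nm (s : List Bool) : ℕ × List Bool :=
  if h : ∃ p : ℕ × ℕ × List Bool,
      s = List.replicate p.1 true ++ false :: (List.replicate p.2.1 true ++ false :: p.2.2) then
    (h.choose.2.1, h.choose.2.2) else (0, [])

theorem nm_spec (a i : ℕ) (x : List Bool) :
    nm (List.replicate a true ++ false :: (List.replicate i true ++ false :: x)) = (i, x) := by
  have h : ∃ p : ℕ × ℕ × List Bool,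
      List.replicate a true ++ false :: (List.replicate i true ++ false :: x) =
      List.replicate p.1 true ++ false :: (List.replicate p.2.1 true ++ false :: p.2.2) :=
    ⟨(a, i, x), rfl⟩
  unfold nm
  rw [dif_pos h]
  obtain ⟨h1, h2⟩ := replicate_append_false_inj h.choose_spec
  obtain ⟨h3, h4⟩ := replicate_append_false_inj h2
  rw [← h3, ← h4]

theorem exists_nm {A i : ℕ} {x : List Bool} (h : i + x.length + 2 ≤ A) :
    ∃ s ∈ strings A, nm s = (i, x) := by
  refine ⟨List.replicate (A - (i + x.length + 2)) true ++
    false :: (List.replicate i true ++ false :: x), ?_, nm_spec _ _ _⟩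
  rw [mem_strings]
  simp
  omega

end Pool.Agent.H7
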