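import Mathlib
import Pool.Agent.H7.LFix
import Pool.Agent.H7.Easy

/-!
The oracle in which the existential statements of a family of machines have unique witnesses.
-/

set_option autoImplicit false

namespace Pool.Agent.H7

open Pool.Agent.H9 Classical

/-- A family of nondeterministic machines: programs, lengths of certificates and running times as
functions of the length of the input. -/
structure Fam where
  pr : ℕ → Prog
  qf : ℕ → ℕ → ℕ
  tf : ℕ → ℕ → ℕ
  qf_mono : ∀ i, Monotone (qf i)
  tf_mono : ∀ i, Monotone (tf i)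

namespace Fam

variable (Φ : Fam)

/-- The `i`-th machine accepts `x`. -/
def F (i : ℕ) (A : Oracle) (x : List Bool) : Prop :=
  ∃ u : List Bool, u.length = Φ.qf i x.length ∧
    AcceptsIn A (Φ.pr i) [x, u] (Φ.tf i x.length)

/-- Bound for the queries. -/
def use (i m : ℕ) : ℕ := m + Φ.qf i m + Φ.tf i m

/-- The length of the unique witnesses. -/
def wl (i m : ℕ) : ℕ := (Φ.use i m + m + i + 2) ^ 4

theorem wl_mono (i : ℕ) : Monotone (Φ.wl i) := by
  intro m n h
  unfold wl use
  have h1 := Φ.qf_mono i h
  have h2 := Φ.tf_mono i h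
  apply Nat.pow_le_pow_left
  omega

theorem base_le_wl (i m : ℕ) : Φ.use i m + m + i + 2 ≤ Φ.wl i m := by
  unfold wl
  exact Nat.le_self_pow (by norm_num) _

theorem dtp_accepts (i : ℕ) (x u : List Bool) (hu : u.length = Φ.qf i x.length) :
    DTP {w : List Bool | w.length ≤ Φ.use i x.length} (Φ.tf i x.length)
      (fun A => AcceptsIn A (Φ.pr i) [x, u] (Φ.tf i x.length)) := by
  apply dtp_acceptsIn
  simp only [totalLength, List.map_cons, List.map_nil, List.sum_cons, List.sum_nil, hu, use]
  omega

theorem F_local (i : ℕ) (x : List Bool) {A B : Oracle}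
    (h : ∀ w : List Bool, w.length ≤ Φ.use i x.length → A w = B w) :
    Φ.F i A x ↔ Φ.F i B x := by
  apply exists_congr
  intro u
  apply and_congr_right
  intro hu
  exact (Φ.dtp_accepts i x u hu).depends (fun w hw => h w hw)

/-- One step of the definition of the oracle with table `Y` and witnesses `Z`. -/
noncomputable def op (Y : Oracle) (Z : ℕ × List Bool → List Bool) (A : Oracle) : Oracle :=
  fun w =>
  match w with
  | [] => false
  | false :: v => Y v
  | true :: v => decide (∃ (i : ℕ) (x z : List Bool), true :: v = ucode i x z ∧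
      z.length = Φ.wl i x.length ∧ z = Z (i, x) ∧ Φ.F i A x)

theorem op_true_congr {Y Y' A B : Oracle} {Z Z' : ℕ × List Bool → List Bool} {v : List Bool}
    (h : ∀ (i : ℕ) (x z : List Bool), true :: v = ucode i x z → z.length = Φ.wl i x.length →
      ((z = Z (i, x) ∧ Φ.F i A x) ↔ (z = Z' (i, x) ∧ Φ.F i B x))) :
    Φ.op Y Z A (true :: v) = Φ.op Y' Z' B (true :: v) := by
  have : (∃ (i : ℕ) (x z : List Bool), true :: v = ucode i x z ∧
      z.length = Φ.wl i x.length ∧ z = Z (i, x) ∧ Φ.F i A x) ↔
      (∃ (i : ℕ) (x z : List Bool), true :: v = ucode i x z ∧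
      z.length = Φ.wl i x.length ∧ z = Z' (i, x) ∧ Φ.F i B x) := by
    apply exists_congr; intro i
    apply exists_congr; intro x
    apply exists_congr; intro z
    apply and_congr_right; intro h1
    apply and_congr_right; intro h2
    exact h i x z h1 h2
  simp only [op, this]

theorem use_lt_ucode {i : ℕ} {x z : List Bool} (hz : z.length = Φ.wl i x.length) :
    Φ.use i x.length < (ucode i x z).length := by
  rw [ucode_length, hz]
  have := Φ.base_le_wl i x.length
  omega

theorem op_local (Y : Oracle) (Z : ℕ × List Bool → List Bool) : LocalOp (Φ.op Y Z) := by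
  intro A B w h
  match w with
  | [] => rfl
  | false :: v => rfl
  | true :: v =>
    apply op_true_congr
    intro i x z h1 h2
    apply and_congr_right
    intro _
    apply Φ.F_local
    intro w hw
    apply h
    rw [h1]
    have := Φ.use_lt_ucode h2
    omega

/-- The oracle. -/
noncomputable def orc (Y : Oracle) (Z : ℕ × List Bool → List Bool) : Oracle := lfix (Φ.op Y Z)

theorem orc_nil (Y : Oracle) (Z : ℕ × List Bool → List Bool) : Φ.orc Y Z [] = false := by
  unfold orc
  rw [lfix_eq (Φ.op_local Y Z)]
  rfl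

theorem orc_false (Y : Oracle) (Z : ℕ × List Bool → List Bool) (v : List Bool) :
    Φ.orc Y Z (false :: v) = Y v := by
  unfold orc
  rw [lfix_eq (Φ.op_local Y Z)]
  rfl

theorem orc_ucode (Y : Oracle) (Z : ℕ × List Bool → List Bool) {i : ℕ} {x z : List Bool}
    (hz : z.length = Φ.wl i x.length) :
    Φ.orc Y Z (ucode i x z) = decide (z = Z (i, x) ∧ Φ.F i (Φ.orc Y Z) x) := by
  have h1 : Φ.orc Y Z (ucode i x z) = Φ.op Y Z (Φ.orc Y Z) (ucode i x z) :=
    lfix_eq (Φ.op_local Y Z) _
  rw [h1]
  have h : Φ.op Y Z (Φ.orc Y Z) (ucode i x z) =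
      decide (∃ (i' : ℕ) (x' z' : List Bool), ucode i x z = ucode i' x' z' ∧
      z'.length = Φ.wl i' x'.length ∧ z' = Z (i', x') ∧ Φ.F i' (Φ.orc Y Z) x') := rfl
  rw [h]
  apply decide_eq_decide.2
  constructor
  · rintro ⟨i', x', z', e1, e2, e3, e4⟩
    obtain ⟨rfl, rfl, rfl⟩ := ucode_inj Φ.wl_mono hz e2 e1
    exact ⟨e3, e4⟩
  · rintro ⟨e3, e4⟩
    exact ⟨i, x, z, rfl, hz, e3, e4⟩

/-- Agreement of two oracles on short words. -/
theorem orc_congr {Y Y' : Oracle} {Z Z' : ℕ × List Bool → List Bool} {l : ℕ}
    (hY : ∀ v : List Bool, v.length < l → Y v = Y' v)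
    (hZ : ∀ (i : ℕ) (x : List Bool), Φ.use i x.length < l → i + 2 + x.length +
      Φ.wl i x.length ≤ l → Z (i, x) = Z' (i, x)) :
    ∀ w : List Bool, w.length ≤ l → Φ.orc Y Z w = Φ.orc Y' Z' w := by
  apply lfix_congr (Φ.op_local Y Z) (Φ.op_local Y' Z')
  intro w hw A
  match w with
  | [] => rfl
  | false :: v => exact hY v (by simpa using hw)
  | true :: v =>
    apply op_true_congr
    intro i x z h1 h2
    rw [h1, ucode_length, h2] at hw
    have h3 := Φ.base_le_wl i x.length
    rw [hZ i x (by omega) (by omega)]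

/-! ### The program -/

/-- The program verifying a unique witness. -/
def uprog (i : ℕ) : Prog :=
  seqs [moves 2 (List.range 2), Prog.push 2 false, seqs (List.replicate i (Prog.push 2 true)),
    Prog.push 2 true, Prog.ask 2 (Prog.push 0 true) (Prog.push 0 false)]

theorem exec_uprog (A : Oracle) (i : ℕ) (x z : List Bool) :
    ∃ s', Exec A (uprog i) (fun j => [x, z].getD j []) s'
      ((x.length + z.length) * 5 + (2 * i + 30)) ∧
      ((s' 0).head? = some true ↔ A (ucode i x z) = true) := by
  obtain ⟨s1, e1, h1, _⟩ := exec_moves A 2 (List.range 2) List.nodup_range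
    (by simp) (fun j => [x, z].getD j [])
  have hmap : (List.range 2).map (fun j => [x, z].getD j []) = [x, z] := by
    simp [List.range_succ]
  rw [hmap] at e1 h1
  have hW : [x, z].getD 2 [] = [] := rfl
  rw [hW, List.append_nil] at h1
  have h1' : s1 2 = (x ++ z).reverse := by
    rw [h1]
    simp
  have e2 := exec_push A s1 2 false
  set s2 := Function.update s1 2 (false :: s1 2) with hs2
  have a2 : s2 2 = false :: (x ++ z).reverse := by rw [hs2, Function.update_self, h1']
  obtain ⟨s3, e3, b3, _⟩ := exec_pushes A 2 i s2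
  rw [a2] at b3
  have e4 := exec_push A s3 2 true
  set s4 := Function.update s3 2 (true :: s3 2) with hs4
  have a4 : s4 2 = ucode i x z := by
    rw [hs4, Function.update_self, b3]
    rfl
  by_cases hA : A (ucode i x z) = true
  · refine ⟨Function.update s4 0 (true :: s4 0), ?_, ?_⟩
    · have e5 : Exec A (Prog.ask 2 (Prog.push 0 true) (Prog.push 0 false)) s4
          (Function.update s4 0 (true :: s4 0)) 2 := by
        apply exec_ask
        rw [a4, if_pos hA]
        exact exec_push A s4 0 true
      refine (exec_seqs_cons e1 (exec_seqs_cons e2 (exec_seqs_cons e3 (exec_seqs_cons e4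
        (exec_seqs_cons e5 (exec_seqs_nil _ _)))))).mono ?_
      simp only [List.length_range, List.map_cons, List.map_nil, List.sum_cons, List.sum_nil]
      omega
    · simp [hA]
  · refine ⟨Function.update s4 0 (false :: s4 0), ?_, ?_⟩
    · have e5 : Exec A (Prog.ask 2 (Prog.push 0 true) (Prog.push 0 false)) s4
          (Function.update s4 0 (false :: s4 0)) 2 := by
        apply exec_ask
        rw [a4, if_neg hA]
        exact exec_push A s4 0 false
      refine (exec_seqs_cons e1 (exec_seqs_cons e2 (exec_seqs_cons e3 (exec_seqs_cons e4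
        (exec_seqs_cons e5 (exec_seqs_nil _ _)))))).mono ?_
      simp only [List.length_range, List.map_cons, List.map_nil, List.sum_cons, List.sum_nil]
      omega
    · simp [hA]

theorem uprog_spec (A : Oracle) (i : ℕ) (x z : List Bool) :
    (run A (uprog i) [x, z] ((x.length + z.length) * 5 + (2 * i + 30))).1 = [] ∧
      (Accepts A (uprog i) [x, z] ↔ A (ucode i x z) = true) := by
  obtain ⟨s', h1, h2⟩ := exec_uprog A i x z
  have h3 := run_of_exec h1
  have h4 : (run A (uprog i) [x, z] ((x.length + z.length) * 5 + (2 * i + 30))).1 = [] := by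
    rw [h3]
  refine ⟨h4, ?_⟩
  rw [accepts_iff_of_halted h4]
  unfold AcceptsIn
  rw [h3]
  simp only [true_and]
  exact h2

end Fam

end Pool.Agent.H7
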