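import Mathlib
import Pool.Agent.H7.UFam
import Pool.Agent.H7.Fool
import Pool.Agent.H7.Diag

/-!
The groups of names active at one stage.
-/

set_option autoImplicit false

namespace Pool.Agent.H7

open Pool.Agent.H9 Classical

/-- Names of existential statements. -/
abbrev Name := ℕ × List Bool

/-- The thresholds between the groups. -/
def thr (n j : ℕ) : ℕ := (n ^ 4) ^ 2 ^ j

theorem thr_succ (n j : ℕ) : thr n (j + 1) = thr n j ^ 2 := by
  unfold thr
  rw [← pow_mul (n ^ 4) (2 ^ j) 2, ← pow_succ 2 j]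

theorem thr_zero (n : ℕ) : thr n 0 = n ^ 4 := by
  unfold thr
  rw [pow_zero, pow_one]

theorem thr_mono (n : ℕ) {i j : ℕ} (h : i ≤ j) : thr n i ≤ thr n j := by
  unfold thr
  rcases Nat.eq_zero_or_pos n with h0 | h0
  · subst h0
    rw [zero_pow (by norm_num), zero_pow (by positivity), zero_pow (by positivity)]
  · exact Nat.pow_le_pow_right (by positivity) (Nat.pow_le_pow_right (by norm_num) h)

namespace Fam

variable (Φ : Fam) (n Λ : ℕ)

/-- The length of the words asking for a name. -/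
def cl (κ : Name) : ℕ := κ.1 + 2 + κ.2.length + Φ.wl κ.1 κ.2.length

/-- The name is active at the stage with parameters `n` and `Λ`. -/
def Act (κ : Name) : Prop := n ≤ Φ.use κ.1 κ.2.length ∧ Φ.cl κ ≤ Λ

/-- The name is in group `j`. -/
def InGrp (j : ℕ) (κ : Name) : Prop :=
  Φ.Act n Λ κ ∧ thr n j < Φ.cl κ ∧ Φ.cl κ ≤ thr n (j + 1)

/-- Group `j`. -/
noncomputable def grp (j : ℕ) : Finset Name :=
  ((Finset.range (Λ + 1)) ×ˢ ((Finset.range (Λ + 1)).biUnion strings)).filter (Φ.InGrp n Λ j)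

variable {Φ n Λ}

theorem mem_grp {j : ℕ} {κ : Name} : κ ∈ Φ.grp n Λ j ↔ Φ.InGrp n Λ j κ := by
  unfold grp
  rw [Finset.mem_filter]
  constructor
  · exact fun h => h.2
  · intro h
    refine ⟨?_, h⟩
    have h1 := h.1.2
    unfold cl at h1
    rw [Finset.mem_product, Finset.mem_biUnion]
    refine ⟨Finset.mem_range.2 (by omega), κ.2.length, Finset.mem_range.2 (by omega), ?_⟩
    exact mem_strings.2 rfl

theorem base_le_cl (κ : Name) : (Φ.use κ.1 κ.2.length + κ.2.length + κ.1 + 2) ^ 4 < Φ.cl κ := by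
  have : Φ.wl κ.1 κ.2.length = (Φ.use κ.1 κ.2.length + κ.2.length + κ.1 + 2) ^ 4 := rfl
  unfold cl
  rw [this]
  omega

theorem cl_le (κ : Name) : Φ.cl κ ≤ 2 * Φ.wl κ.1 κ.2.length := by
  have := Φ.base_le_wl κ.1 κ.2.length
  unfold cl
  omega

/-- The names of group `j` use only words of length at most `thr n j`. -/
theorem use_le_thr {j : ℕ} {κ : Name} (h : κ ∈ Φ.grp n Λ j) :
    Φ.use κ.1 κ.2.length ≤ thr n j := by
  rw [mem_grp] at h
  obtain ⟨_, _, h3⟩ := h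
  by_contra hcon
  push Not at hcon
  have h4 := base_le_cl (Φ := Φ) κ
  have h5 : thr n (j + 1) ≤ (Φ.use κ.1 κ.2.length + κ.2.length + κ.1 + 2) ^ 4 := by
    rw [thr_succ]
    calc thr n j ^ 2 ≤ (Φ.use κ.1 κ.2.length + κ.2.length + κ.1 + 2) ^ 2 :=
          Nat.pow_le_pow_left (by omega) 2
      _ ≤ _ := Nat.pow_le_pow_right (by omega) (by norm_num)
  omega

theorem thr_zero_lt {κ : Name} (h : Φ.Act n Λ κ) : thr n 0 < Φ.cl κ := by
  rw [thr_zero]
  refine lt_of_le_of_lt ?_ (base_le_cl κ)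
  apply Nat.pow_le_pow_left
  have := h.1
  omega

/-- The sum of index and input length is small in group `j`. -/
theorem small_name {j : ℕ} {κ : Name} (h : κ ∈ Φ.grp n Λ j) :
    κ.1 + κ.2.length + 2 ≤ n ^ 2 ^ (j + 1) := by
  rw [mem_grp] at h
  obtain ⟨_, _, h3⟩ := h
  have h4 := base_le_cl (Φ := Φ) κ
  have h5 : thr n (j + 1) = (n ^ 2 ^ (j + 1)) ^ 4 := by
    unfold thr
    rw [← pow_mul, ← pow_mul, mul_comm]
  by_contra hcon
  push Not at hcon
  have h6 : (n ^ 2 ^ (j + 1)) ^ 4 < (Φ.use κ.1 κ.2.length + κ.2.length + κ.1 + 2) ^ 4 :=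
    Nat.pow_lt_pow_left (by omega) (by norm_num)
  omega

theorem card_grp (j : ℕ) : (Φ.grp n Λ j).card ≤ 2 ^ n ^ 2 ^ (j + 1) := by
  have h : Φ.grp n Λ j ⊆ (strings (n ^ 2 ^ (j + 1))).image nm := by
    intro κ hκ
    obtain ⟨s, hs, h1⟩ := exists_nm (small_name hκ)
    exact Finset.mem_image.2 ⟨s, hs, h1⟩
  refine (Finset.card_le_card h).trans (Finset.card_image_le.trans ?_)
  rw [card_strings]

theorem wl_ge {j : ℕ} {κ : Name} (h : κ ∈ Φ.grp n Λ j) :
    thr n j / 2 ≤ Φ.wl κ.1 κ.2.length := by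
  rw [mem_grp] at h
  have h1 := h.2.1
  have h2 := cl_le (Φ := Φ) κ
  omega

theorem grp_disjoint {i j : ℕ} (h : i < j) : Disjoint (Φ.grp n Λ i) (Φ.grp n Λ j) := by
  rw [Finset.disjoint_left]
  intro κ h1 h2
  rw [mem_grp] at h1 h2
  have h3 := h1.2.2
  have h4 := h2.2.1
  have h5 := thr_mono n (Nat.succ_le_of_lt h)
  have h6 : i + 1 = Nat.succ i := rfl
  rw [h6] at h3
  omega

theorem exists_grp {κ : Name} (h : Φ.Act n Λ κ) {J : ℕ} (hJ : Λ ≤ thr n J) :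
    ∃ j < J, κ ∈ Φ.grp n Λ j := by
  have h1 : ∃ j, Φ.cl κ ≤ thr n (j + 1) := by
    refine ⟨J, ?_⟩
    exact (h.2.trans hJ).trans (thr_mono n (Nat.le_succ J))
  set j := Nat.find h1 with hj
  have h2 := Nat.find_spec h1
  rw [← hj] at h2
  have h3 : thr n j < Φ.cl κ := by
    rcases Nat.eq_zero_or_pos j with h0 | h0
    · rw [h0]
      exact thr_zero_lt h
    · have h4 := Nat.find_min h1 (m := j - 1) (by omega)
      rw [Nat.sub_add_cancel h0] at h4
      omega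
  refine ⟨j, ?_, mem_grp.2 ⟨h, h3, h2⟩⟩
  by_contra hcon
  push Not at hcon
  have h4 := thr_mono n hcon
  have h5 := h.2
  omega

variable (Φ n Λ)

/-- The decoder of words for group `j`. -/
noncomputable def cdP (j : ℕ) (w : List Bool) : Option (Name × List Bool) :=
  if h : ∃ p : Name × List Bool, w = ucode p.1.1 p.1.2 p.2 ∧
      p.2.length = Φ.wl p.1.1 p.1.2.length ∧ p.1 ∈ Φ.grp n Λ j then some h.choose else none

variable {Φ n Λ}

theorem cdP_some {j : ℕ} {w : List Bool} {p : Name × List Bool} :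
    Φ.cdP n Λ j w = some p ↔ w = ucode p.1.1 p.1.2 p.2 ∧
      p.2.length = Φ.wl p.1.1 p.1.2.length ∧ p.1 ∈ Φ.grp n Λ j := by
  unfold cdP
  constructor
  · intro h
    split_ifs at h with hex
    have h1 := hex.choose_spec
    rw [Option.some.inj h] at h1
    exact h1
  · intro h
    have hex : ∃ p : Name × List Bool, w = ucode p.1.1 p.1.2 p.2 ∧
      p.2.length = Φ.wl p.1.1 p.1.2.length ∧ p.1 ∈ Φ.grp n Λ j := ⟨p, h⟩
    rw [dif_pos hex]
    congr 1
    have h1 := hex.choose_spec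
    obtain ⟨a1, a2, a3⟩ := ucode_inj Φ.wl_mono h1.2.1 h.2.1 (h1.1.symm.trans h.1)
    exact Prod.ext (Prod.ext a1 a2) a3

theorem cdP_none {j : ℕ} {w : List Bool} : Φ.cdP n Λ j w = none ↔
    ∀ p : Name × List Bool, ¬ (w = ucode p.1.1 p.1.2 p.2 ∧
      p.2.length = Φ.wl p.1.1 p.1.2.length ∧ p.1 ∈ Φ.grp n Λ j) := by
  rw [Option.eq_none_iff_forall_ne_some]
  exact forall_congr' fun p => not_congr cdP_some

variable (Φ n Λ)

/-- The word asks for an active name of group at least `j`. -/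
def Exc (j : ℕ) (w : List Bool) : Prop :=
  ∃ (κ : Name) (z : List Bool), w = ucode κ.1 κ.2 z ∧ z.length = Φ.wl κ.1 κ.2.length ∧
    Φ.Act n Λ κ ∧ thr n j < w.length

/-- The relevant words not asking for an active name of group at least `j`. -/
def QQ (j : ℕ) : Set (List Bool) := {w | w.length ≤ Λ ∧ ¬ Φ.Exc n Λ j w}

/-- The oracle without the words asking for active names of group at least `j`. -/
noncomputable def bb (j : ℕ) (A : Oracle) : Oracle := fun w =>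
  if w ∈ Φ.QQ n Λ j then A w else false

/-- The certificates. -/
def EE (κ : Name) (u : List Bool) (A : Oracle) : Prop :=
  AcceptsIn A (Φ.pr κ.1) [κ.2, u.take (Φ.qf κ.1 κ.2.length)] (Φ.tf κ.1 κ.2.length)

variable {Φ n Λ}

theorem short_mem_QQ {j : ℕ} {κ : Name} (h : κ ∈ Φ.grp n Λ j) {w : List Bool}
    (hw : w.length ≤ Φ.use κ.1 κ.2.length) : w ∈ Φ.QQ n Λ j := by
  have h1 := use_le_thr h
  have h2 := (mem_grp.1 h).1.2
  have h3 := Φ.base_le_wl κ.1 κ.2.length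
  refine ⟨?_, ?_⟩
  · unfold cl at h2
    omega
  · rintro ⟨_, _, _, _, _, h4⟩
    omega

theorem cert_iff {j : ℕ} {κ : Name} (h : κ ∈ Φ.grp n Λ j) (A : Oracle) :
    Cert Λ Φ.EE (Φ.bb n Λ j A) κ ↔ Φ.F κ.1 A κ.2 := by
  have h2 := (mem_grp.1 h).1.2
  have h3 := Φ.base_le_wl κ.1 κ.2.length
  have h4 : Φ.qf κ.1 κ.2.length ≤ Λ := by
    unfold cl at h2
    unfold use at h3
    omega
  have h5 : Φ.F κ.1 A κ.2 ↔ Φ.F κ.1 (Φ.bb n Λ j A) κ.2 := by
    apply Φ.F_local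
    intro w hw
    unfold bb
    rw [if_pos (short_mem_QQ h hw)]
  rw [h5]
  constructor
  · rintro ⟨u, hu, hE⟩
    rw [mem_strings] at hu
    exact ⟨u.take (Φ.qf κ.1 κ.2.length), by simp [hu, h4], hE⟩
  · rintro ⟨u, hu, hE⟩
    refine ⟨u ++ List.replicate (Λ - Φ.qf κ.1 κ.2.length) true, ?_, ?_⟩
    · rw [mem_strings]
      simp [hu, h4]
    · unfold EE
      have : (u ++ List.replicate (Λ - Φ.qf κ.1 κ.2.length) true).take
          (Φ.qf κ.1 κ.2.length) = u := by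
        rw [← hu, List.take_left]
      rw [this]
      exact hE

theorem dtp_EE {j : ℕ} {κ : Name} (h : κ ∈ Φ.grp n Λ j) {u : List Bool} (hu : u ∈ strings Λ) :
    DTP (Φ.QQ n Λ j) Λ (Φ.EE κ u) := by
  have h2 := (mem_grp.1 h).1.2
  have h3 := Φ.base_le_wl κ.1 κ.2.length
  have h4 : Φ.qf κ.1 κ.2.length ≤ Λ ∧ Φ.tf κ.1 κ.2.length ≤ Λ := by
    unfold cl at h2
    unfold use at h3
    omega
  have h5 := Φ.dtp_accepts κ.1 κ.2 (u.take (Φ.qf κ.1 κ.2.length)) (by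
    rw [mem_strings] at hu
    simp [hu, h4.1])
  exact (h5.mono h4.2).mono_set (fun w hw => short_mem_QQ h hw)

theorem QQ_step {j : ℕ} {w : List Bool} (hw : w ∈ Φ.QQ n Λ (j + 1))
    (hP : Φ.cdP n Λ j w = none) : w ∈ Φ.QQ n Λ j := by
  refine ⟨hw.1, ?_⟩
  rintro ⟨κ, z, h1, h2, h3, h4⟩
  rw [cdP_none] at hP
  apply hP (κ, z)
  refine ⟨h1, h2, ?_⟩
  rw [mem_grp]
  have h5 : w.length = Φ.cl κ := by
    rw [h1, ucode_length, h2]
    rfl
  refine ⟨h3, by rw [← h5]; exact h4, ?_⟩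
  by_contra hcon
  push Not at hcon
  exact hw.2 ⟨κ, z, h1, h2, h3, by rw [h5]; exact hcon⟩

theorem QQ_mono {j : ℕ} {w : List Bool} (hw : w ∈ Φ.QQ n Λ j) : w ∈ Φ.QQ n Λ (j + 1) := by
  refine ⟨hw.1, ?_⟩
  rintro ⟨κ, z, h1, h2, h3, h4⟩
  exact hw.2 ⟨κ, z, h1, h2, h3, lt_of_le_of_lt (thr_mono n (Nat.le_succ j)) h4⟩

/-- Adding the words of one group. -/
theorem bb_step (Y : Oracle) (Z : Name → List Bool) (j : ℕ) :
    Φ.bb n Λ (j + 1) (Φ.orc Y Z) = comb (Φ.cdP n Λ j) (Φ.bb n Λ j (Φ.orc Y Z)) Z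
      (Gset (Φ.grp n Λ j) Λ Φ.EE (Φ.bb n Λ j (Φ.orc Y Z))) := by
  funext w
  unfold comb
  cases hP : Φ.cdP n Λ j w with
  | none =>
    simp only
    unfold bb
    by_cases hw : w ∈ Φ.QQ n Λ (j + 1)
    · rw [if_pos hw, if_pos (QQ_step hw hP)]
    · rw [if_neg hw, if_neg (fun h => hw (QQ_mono h))]
  | some p =>
    simp only
    obtain ⟨h1, h2, h3⟩ := cdP_some.1 hP
    have hw : w ∈ Φ.QQ n Λ (j + 1) := by
      have h5 : w.length = Φ.cl p.1 := by
        rw [h1, ucode_length, h2]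
        rfl
      have h6 := mem_grp.1 h3
      refine ⟨by rw [h5]; exact h6.1.2, ?_⟩
      rintro ⟨κ, z, a1, a2, a3, a4⟩
      rw [h5] at a4
      have := h6.2.2
      omega
    have h4 : Φ.bb n Λ (j + 1) (Φ.orc Y Z) w = Φ.orc Y Z w := by
      unfold bb
      rw [if_pos hw]
    rw [h4, h1, Φ.orc_ucode Y Z h2]
    apply decide_eq_decide.2
    have h5 : p.1 ∈ Gset (Φ.grp n Λ j) Λ Φ.EE (Φ.bb n Λ j (Φ.orc Y Z)) ↔
        Φ.F p.1.1 (Φ.orc Y Z) p.1.2 := by
      unfold Gset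
      rw [Finset.mem_filter, cert_iff h3]
      exact ⟨fun h => h.2, fun h => ⟨h3, h⟩⟩
    rw [h5]
    exact and_comm

theorem mem_QQ_top {J : ℕ} (hJ : Λ ≤ thr n J) {w : List Bool} (hw : w.length ≤ Λ) :
    w ∈ Φ.QQ n Λ J := by
  refine ⟨hw, ?_⟩
  rintro ⟨_, _, _, _, _, h⟩
  omega

/-- Words not asking for an active name. -/
theorem not_act_of_QQ_zero {w : List Bool} (hw : w ∈ Φ.QQ n Λ 0) {i : ℕ} {x z : List Bool}
    (h1 : w = ucode i x z) (h2 : z.length = Φ.wl i x.length) :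
    ¬ Φ.Act n Λ (i, x) ∧ Φ.use i x.length < n := by
  have h5 : w.length = Φ.cl (i, x) := by
    rw [h1, ucode_length, h2]
    rfl
  have h3 : ¬ Φ.Act n Λ (i, x) := by
    intro hA
    exact hw.2 ⟨(i, x), z, h1, h2, hA, by rw [h5]; exact thr_zero_lt hA⟩
  refine ⟨h3, ?_⟩
  by_contra hcon
  push Not at hcon
  exact h3 ⟨hcon, by rw [← h5]; exact hw.1⟩

end Fam

end Pool.Agent.H7
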