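import Mathlib
import Pool.Agent.H7.HierAvg
import Pool.Agent.H7.Lev
import Pool.Agent.H8.Form

/-!
The depth hierarchy theorem on average, against alternating predicates with the same number of
blocks starting with the opposite quantifier.
-/

set_option autoImplicit false

namespace Pool.Agent.H7

open Pool.Agent.H9 Classical

/-- The predicate given by `D` (blocks starting with the opposite quantifier) differs from the
Sipser tree with lengths `ms` on the table `a`. -/
def Miss2 (ex : Bool) (ms : List ℕ) (j q : ℕ)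
    (D : List (List Bool) → (List (List Bool) → Bool) → Prop)
    (a : List (List Bool) → Bool) : Prop :=
  ¬ (AltL ex ms (fun us => a us = true) ↔ AltL (!ex) (List.replicate j q) (fun ws => D ws a))

theorem qt_false_of {e : Bool} {q : ℕ} {φ : List Bool → Prop} (h : ¬ (qt e q φ ↔ e = true)) :
    ∀ u : List Bool, u.length = q → ¬ (φ u ↔ e = true) := by
  intro u hu hu2
  apply h
  cases e with
  | true => exact ⟨fun _ => rfl, fun _ => ⟨u, hu, hu2.2 rfl⟩⟩
  | false =>
    simp only [qt, Bool.false_eq_true, iff_false] at *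
    intro hall
    exact hu2 (hall u hu)

theorem miss_one {q T : ℕ} {ρ : Type*} (ex : Bool) (m : ℕ) (R : Finset ρ)
    (D : ρ → List (List Bool) → (List (List Bool) → Bool) → Prop) (hcard : 4 * T ≤ 2 ^ m)
    (hD : ∀ r ∈ R, ∀ w ∈ strings q, DTP Set.univ T (D r [w])) :
    ∃ a : List (List Bool) → Bool,
      (3 / 8 : ℝ) * R.card ≤ (R.filter (fun r => Miss2 ex [m] 1 q (D r) a)).card := by
  set a0 : List (List Bool) → Bool := fun _ => !ex with ha0
  -- the value of the tree at the constant table
  have htree0 : AltL ex [m] (fun us => a0 us = true) ↔ ¬ ex = true := by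
    cases ex with
    | true => simp [AltL, qt, ha0]
    | false =>
      simp [AltL, qt, ha0]
  have hform : ∀ (r : ρ) (a : List (List Bool) → Bool),
      (AltL (!ex) (List.replicate 1 q) (fun ws => D r ws a) ↔
        qt (!ex) q (fun w => D r [w] a)) := fun r a => Iff.rfl
  have hcert : ∀ r, ∃ C : Finset (List (List Bool)), r ∈ R →
      ¬ Miss2 ex [m] 1 q (D r) a0 → C.card ≤ T ∧
      ∀ b : List (List Bool) → Bool, (∀ q ∈ C, a0 q = b q) →
        (AltL (!ex) (List.replicate 1 q) (fun ws => D r ws b) ↔ ¬ ex = true) := by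
    intro r
    by_cases hr : r ∈ R
    · by_cases hm : Miss2 ex [m] 1 q (D r) a0
      · exact ⟨∅, fun _ h => absurd hm h⟩
      · -- there is a witness
        unfold Miss2 at hm
        rw [not_not, htree0, hform] at hm
        have hwit : ∃ w : List Bool, w.length = q ∧ (D r [w] a0 ↔ ¬ ex = true) := by
          cases ex with
          | true =>
            simp only [not_true_eq_false, false_iff, Bool.not_true, qt, not_forall] at hm
            obtain ⟨w, hw, h⟩ := hm
            exact ⟨w, hw, by simpa using h⟩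
          | false =>
            simp only [Bool.false_eq_true, not_false_eq_true, true_iff, Bool.not_false, qt] at hm
            obtain ⟨w, hw, h⟩ := hm
            exact ⟨w, hw, by simpa using h⟩
        obtain ⟨w, hw, hw2⟩ := hwit
        obtain ⟨C, h1, h2⟩ := (hD r hr w (mem_strings.2 hw)).cert a0
        refine ⟨C, fun _ _ => ⟨h1, ?_⟩⟩
        intro b hb
        rw [hform]
        have h3 : D r [w] b ↔ ¬ ex = true := (h2 b hb).symm.trans hw2
        cases ex with
        | true =>
          simp only [not_true_eq_false, iff_false, Bool.not_true, qt, not_forall] at h3 ⊢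
          exact ⟨w, hw, h3⟩
        | false =>
          simp only [Bool.false_eq_true, not_false_eq_true, iff_true, Bool.not_false, qt]
            at h3 ⊢
          exact ⟨w, hw, h3⟩
    · exact ⟨∅, fun h => absurd h hr⟩
  choose C hC using hcert
  -- the exceptional pairs
  let P : List Bool → ρ → Prop := fun u r => ¬ Miss2 ex [m] 1 q (D r) a0 ∧ [u] ∈ C r
  have hsum : ∑ u ∈ strings m, ((R.filter (fun r => P u r)).card : ℝ) ≤
      ∑ u ∈ strings m, (1 / 4 : ℝ) * R.card := by
    have e1 : ∑ u ∈ strings m, (R.filter (fun r => P u r)).card =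
        ∑ r ∈ R, ((strings m).filter (fun u => P u r)).card := by
      simp only [Finset.card_filter]
      exact Finset.sum_comm
    have e2 : ∑ r ∈ R, ((strings m).filter (fun u => P u r)).card ≤ ∑ r ∈ R, T := by
      apply Finset.sum_le_sum
      intro r hr
      by_cases hm : Miss2 ex [m] 1 q (D r) a0
      · have : (strings m).filter (fun u => P u r) = ∅ := by
          rw [Finset.filter_eq_empty_iff]
          intro u _ hu
          exact hu.1 hm
        rw [this]
        simp
      · refine le_trans ?_ (hC r hr hm).1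
        apply Finset.card_le_card_of_injOn (fun u => [u])
        · intro u hu
          exact ((Finset.mem_filter.1 hu).2).2
        · intro u _ v _ huv
          simpa using huv
    have e3 : ∑ u ∈ strings m, (R.filter (fun r => P u r)).card ≤ R.card * T := by
      rw [e1]
      refine e2.trans ?_
      rw [Finset.sum_const, smul_eq_mul]
    have e4 : (∑ u ∈ strings m, ((R.filter (fun r => P u r)).card : ℝ)) ≤ R.card * T := by
      exact_mod_cast e3
    refine e4.trans ?_
    rw [Finset.sum_const, card_strings, nsmul_eq_mul]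
    have e5 : (4 : ℝ) * T ≤ 2 ^ m := by exact_mod_cast hcard
    push_cast
    have e6 : (0 : ℝ) ≤ R.card := Nat.cast_nonneg _
    nlinarith
  obtain ⟨u, hu, hle⟩ := Finset.exists_le_of_sum_le (s := strings m)
    ⟨List.replicate m true, mem_strings.2 (by simp)⟩ hsum
  rw [mem_strings] at hu
  set a1 : List (List Bool) → Bool := fun v => if v = [u] then ex else !ex with ha1
  have htree1 : AltL ex [m] (fun us => a1 us = true) ↔ ex = true := by
    cases ex with
    | true =>
      simp only [AltL, qt, ha1, iff_true]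
      exact ⟨u, hu, by simp⟩
    | false =>
      simp only [AltL, qt, ha1, Bool.false_eq_true, iff_false, not_forall]
      exact ⟨u, hu, by simp⟩
  have hsub : R.filter (fun r => ¬ P u r) ⊆
      R.filter (fun r => Miss2 ex [m] 1 q (D r) a0) ∪
        R.filter (fun r => Miss2 ex [m] 1 q (D r) a1) := by
    intro r hr
    rw [Finset.mem_filter] at hr
    rw [Finset.mem_union, Finset.mem_filter, Finset.mem_filter]
    by_cases hm : Miss2 ex [m] 1 q (D r) a0
    · exact Or.inl ⟨hr.1, hm⟩
    · refine Or.inr ⟨hr.1, ?_⟩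
      have hnot : ¬ [u] ∈ C r := fun h => hr.2 ⟨hm, h⟩
      have h2 := (hC r hr.1 hm).2 a1 (by
        intro v hv
        have : v ≠ [u] := fun h => hnot (h ▸ hv)
        simp [ha0, ha1, this])
      unfold Miss2
      rw [h2, htree1]
      cases ex <;> simp
  have hcard1 : ((R.filter (fun r => ¬ P u r)).card : ℝ) ≤
      (R.filter (fun r => Miss2 ex [m] 1 q (D r) a0)).card +
        (R.filter (fun r => Miss2 ex [m] 1 q (D r) a1)).card := by
    exact_mod_cast (Finset.card_le_card hsub).trans (Finset.card_union_le _ _)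
  have hcard2 : ((R.filter (fun r => P u r)).card : ℝ) +
      (R.filter (fun r => ¬ P u r)).card = R.card := by
    exact_mod_cast Finset.card_filter_add_card_filter_not (s := R) (fun r => P u r)
  by_cases hcase : (3 / 8 : ℝ) * R.card ≤ (R.filter (fun r => Miss2 ex [m] 1 q (D r) a0)).card
  · exact ⟨a0, hcase⟩
  · refine ⟨a1, ?_⟩
    push Not at hcase
    linarith

/-- **Depth hierarchy theorem, averaged version, opposite quantifiers.** -/
theorem hierarchy_avg2 {q T μ K B : ℕ} (hBμ : B + 3 ≤ 2 ^ μ) (hq : q ≤ T) (hq1 : 1 ≤ q)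
    (hT : T * 2 ^ (2 * K + 8) ≤ 2 ^ μ) {ρ : Type*} :
    ∀ (k : ℕ) (ex : Bool) (ms : List ℕ) (m : ℕ) (R : Finset ρ)
      (D : ρ → List (List Bool) → (List (List Bool) → Bool) → Prop),
      k ≤ K → ms.length = k → (∀ x ∈ ms, 4 * μ ≤ x) → 2 * μ ≤ m → ms.sum + m ≤ B →
      (∀ r ∈ R, ∀ ws ∈ paths (List.replicate (k + 1) q), DTP Set.univ T (D r ws)) →
      ∃ a : List (List Bool) → Bool, (3 / 8 - k * (1 / 2 : ℝ) ^ (K + 3)) * R.card ≤
        (R.filter (fun r => Miss2 ex (ms ++ [m]) (k + 1) q (D r) a)).card := by
  intro k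
  induction k with
  | zero =>
    intro ex ms m R D _ hms _ hm _ hD
    obtain rfl : ms = [] := List.length_eq_zero_iff.1 hms
    have hcard : 4 * T ≤ 2 ^ m := by
      have h1 : 4 ≤ 2 ^ (2 * K + 8) := by
        calc 4 = 2 ^ 2 := by norm_num
          _ ≤ 2 ^ (2 * K + 8) := Nat.pow_le_pow_right (by norm_num) (by omega)
      have h2 : 2 ^ μ ≤ 2 ^ m := Nat.pow_le_pow_right (by norm_num) (by omega)
      nlinarith
    obtain ⟨a, ha⟩ := miss_one (q := q) ex m R D hcard
      (fun r hr w hw => hD r hr [w] (by
        rw [mem_paths]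
        simp [mem_strings.1 hw]))
    refine ⟨a, ?_⟩
    simpa using ha
  | succ k ih =>
    intro ex ms m R D hkK hms hms4 hm hsum hD
    obtain ⟨ms', m1, rfl⟩ : ∃ ms' m1, ms = ms' ++ [m1] := by
      have : ms ≠ [] := by
        intro h; rw [h] at hms; simp at hms
      exact ⟨ms.dropLast, ms.getLast this, (List.dropLast_append_getLast this).symm⟩
    have hms' : ms'.length = k := by simpa using hms
    have hm1 : 4 * μ ≤ m1 := hms4 m1 (by simp)
    obtain ⟨h, rfl⟩ : ∃ h, m1 = 2 * μ + h := ⟨m1 - 2 * μ, by omega⟩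
    have hh : 2 * μ ≤ h := by omega
    have hsum' : ms'.sum + (2 * μ + h) + m ≤ B := by simpa using hsum
    set e : Bool := ex ^^ (k + 1).bodd with he
    have he' : (ex ^^ k.bodd) = !e := by
      rw [he, xor_bodd_succ]; simp
    have he2 : (!ex ^^ (k + 1).bodd) = !e := by
      rw [he]; cases ex <;> cases (k + 1).bodd <;> rfl
    have hrep : List.replicate (k + 1 + 1) q = List.replicate (k + 1) q ++ [q] := by
      rw [List.replicate_succ']
    set η : ℝ := (1 / 2 : ℝ) ^ (K + 3) with hη
    have hη0 : 0 < η := by positivity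
    have hηK : (K : ℝ) * η ≤ 1 / 8 := by
      have h1 : (K : ℝ) ≤ 2 ^ K := by exact_mod_cast Nat.lt_two_pow_self.le
      have h2 : (2 : ℝ) ^ K * η = 1 / 8 := by
        rw [hη, pow_add, ← mul_assoc, ← mul_pow]
        norm_num
      calc (K : ℝ) * η ≤ 2 ^ K * η := mul_le_mul_of_nonneg_right h1 hη0.le
        _ = 1 / 8 := h2
    -- the family of bottom functions
    have hDws : ∀ r ∈ R, ∀ ws ∈ paths (List.replicate (k + 1) q), ∀ u ∈ strings q,
        DTP Set.univ T (D r (ws ++ [u])) := by
      intro r hr ws hws u hu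
      apply hD r hr
      rw [mem_paths] at hws ⊢
      rw [hrep]
      simp [hws, mem_strings.1 hu]
    have hsw := switch_estimate (μ := μ) (k := 2 * K + 3) (q := q) (T := T) (by
      refine le_trans (Nat.mul_le_mul_left T ?_) hT
      exact Nat.pow_le_pow_right (by norm_num) (by omega)) hq
    obtain ⟨σ, ⟨R', hR', hR'c, hσ2⟩, hσ3⟩ := stage_avg ms' μ h m B e hh hm (by omega) hBμ
      (paths (List.replicate (k + 1) q)) R
      (fun r ws a => if e = true then ¬ qt (!e) q (fun u => D r (ws ++ [u]) a)
        else qt (!e) q (fun u => D r (ws ++ [u]) a)) T T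
      (fun r hr ws hws => terms_of_qt (hDws r hr ws hws)) hη0 (by
        rw [card_paths]
        have : (List.replicate (k + 1) q).sum = q * (k + 1) := by simp [mul_comm]
        rw [this]
        push_cast
        set Y : ℝ := (4 * T * ((1 / 2 : ℝ) ^ μ / (1 - (1 / 2 : ℝ) ^ μ))) ^ (T + 1) with hY
        have hμ1 : (1 / 2 : ℝ) ^ μ ≤ 1 := pow_le_one₀ (by norm_num) (by norm_num)
        have hY0 : 0 ≤ Y := by
          rw [hY]
          apply pow_nonneg
          apply mul_nonneg (by positivity)
          exact div_nonneg (by positivity) (by linarith)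
        have h1 : (2 : ℝ) ^ (q * (k + 1)) * 2 ^ (K + 3) ≤ 2 ^ (q * (2 * K + 3)) := by
          rw [← pow_add]
          apply pow_le_pow_right₀ (by norm_num)
          have h2 : q * (2 * K + 3) = q * K + q * (K + 3) := by ring
          have h3 : q * (k + 1) ≤ q * K := Nat.mul_le_mul_left q (by omega)
          have h4 : K + 3 ≤ q * (K + 3) := Nat.le_mul_of_pos_left _ (by omega)
          omega
        have h2 : (2 : ℝ) ^ (K + 3) * η = 1 := by
          rw [hη, ← mul_pow]
          norm_num
        calc (2 : ℝ) ^ (q * (k + 1)) * Y = (2 : ℝ) ^ (q * (k + 1)) * 2 ^ (K + 3) * Y * η := by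
              rw [mul_right_comm _ (2 ^ (K + 3)) Y, mul_assoc _ (2 ^ (K + 3)) η, h2, mul_one]
          _ ≤ 2 ^ (q * (2 * K + 3)) * Y * η := by
              apply mul_le_mul_of_nonneg_right _ hη0.le
              exact mul_le_mul_of_nonneg_right h1 hY0
          _ ≤ 1 / 4 * η := mul_le_mul_of_nonneg_right hsw hη0.le
          _ = η / 4 := by ring)
    have hD' : ∀ r ∈ R', ∀ ws ∈ paths (List.replicate (k + 1) q),
        DTP Set.univ T (fun b => qt (!e) q (fun u => D r (ws ++ [u]) (σ b))) := by
      intro r hr ws hws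
      have h1 := hσ2 r hr ws hws
      by_cases hee : e = true
      · refine h1.not.congr ?_
        intro b
        simp only [if_pos hee, not_not]
      · refine h1.congr ?_
        intro b
        simp only [if_neg hee]
    obtain ⟨b, hb⟩ := ih ex ms' (2 * μ) R'
      (fun r ws b => qt (!e) q (fun u => D r (ws ++ [u]) (σ b))) (by omega) hms'
      (fun x hx => hms4 x (by simp [hx])) le_rfl (by omega) hD'
    refine ⟨σ b, ?_⟩
    have hsub : R'.filter (fun r => Miss2 ex (ms' ++ [2 * μ]) (k + 1) q
        (fun ws b => qt (!e) q (fun u => D r (ws ++ [u]) (σ b))) b) ⊆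
        R.filter (fun r => Miss2 ex (ms' ++ [2 * μ + h] ++ [m]) (k + 1 + 1) q (D r) (σ b)) := by
      intro r hr
      rw [Finset.mem_filter] at hr ⊢
      refine ⟨hR' hr.1, ?_⟩
      intro hcon
      apply hr.2
      rw [AltL_snoc ex (ms' ++ [2 * μ + h]) m, AltL_snoc ex ms', hrep,
        AltL_snoc (!ex) (List.replicate (k + 1) q) q, List.length_append, List.length_singleton,
        hms', List.length_replicate, ← he, he', he2] at hcon
      rw [AltL_snoc, hms', he']
      rw [← hcon]
      apply AltL_congr
      intro g hg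
      exact (hσ3 g (mem_paths.2 hg) b).symm
    have hk' : (k : ℝ) * η ≤ 1 / 8 := by
      have : (k : ℝ) ≤ K := by exact_mod_cast (by omega : k ≤ K)
      exact (mul_le_mul_of_nonneg_right this hη0.le).trans hηK
    have hk0 : 0 ≤ (k : ℝ) * η := by positivity
    have hR0 : (0 : ℝ) ≤ R.card := Nat.cast_nonneg _
    calc (3 / 8 - ((k + 1 : ℕ) : ℝ) * η) * R.card
        ≤ (3 / 8 - k * η) * ((1 - η) * R.card) := by
          rw [← mul_assoc]
          apply mul_le_mul_of_nonneg_right _ hR0
          push_cast
          nlinarith [mul_nonneg hk0 hη0.le]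
      _ ≤ (3 / 8 - k * η) * R'.card := mul_le_mul_of_nonneg_left hR'c (by linarith)
      _ ≤ _ := hb
      _ ≤ _ := by exact_mod_cast Finset.card_le_card hsub

/-! ### The form for formulas -/

theorem DTP.and {V : Type*} {Q : Set V} {n m : ℕ} {f g : (V → Bool) → Prop} (hf : DTP Q n f)
    (hg : DTP Q m g) : DTP Q (n + m) (fun a => f a ∧ g a) := by
  induction hf with
  | const n P =>
    by_cases hP : P
    · exact (DTP.mono hg (Nat.le_add_left m n)).congr (fun a => by simp [hP])
    · exact (DTP.const _ False).congr (fun a => by simp [hP])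
  | node n q hq f1 f2 _ _ ih1 ih2 =>
    have h := DTP.node (n + m) q hq _ _ ih1 ih2
    have e : n + 1 + m = n + m + 1 := by omega
    rw [e]
    refine h.congr ?_
    intro a
    tauto

theorem DTP.forall_finset {V ι : Type*} {Q : Set V} (s : Finset ι) (f : ι → (V → Bool) → Prop)
    (hf : ∀ i ∈ s, DTP Q 1 (f i)) : DTP Q s.card (fun a => ∀ i ∈ s, f i a) := by
  induction s using Finset.induction_on with
  | empty => exact (DTP.const _ True).congr (fun a => by simp)
  | insert i s hi ih =>
    rw [Finset.card_insert_of_notMem hi, add_comm]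
    refine (DTP.and (hf i (Finset.mem_insert_self i s))
      (ih (fun j hj => hf j (Finset.mem_insert_of_mem hj)))).congr ?_
    intro a
    simp

theorem qt_and {e : Bool} {q : ℕ} {c : Prop} {φ : List Bool → Prop} :
    qt e q (fun u => c ∧ φ u) ↔ (c ∧ qt e q φ) := by
  cases e with
  | true =>
    simp only [qt]
    constructor
    · rintro ⟨u, h1, h2, h3⟩
      exact ⟨h2, u, h1, h3⟩
    · rintro ⟨h2, u, h1, h3⟩
      exact ⟨u, h1, h2, h3⟩
  | false =>
    simp only [qt]
    constructor
    · intro h
      exact ⟨(h (List.replicate q true) (by simp)).1, fun u hu => (h u hu).2⟩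
    · rintro ⟨h1, h2⟩ u hu
      exact ⟨h1, h2 u hu⟩

theorem Lev.and_dtp {V : Type*} {Q : Set V} {q T t : ℕ} {c : (V → Bool) → Prop}
    (hc : DTP Q t c) : ∀ {k : ℕ} {ex : Bool} {f : (V → Bool) → Prop},
    Lev Q q T ex k f → Lev Q q (t + T) ex k (fun a => c a ∧ f a) := by
  intro k
  induction k with
  | zero =>
    intro ex f h
    exact DTP.and hc h
  | succ k ih =>
    rintro ex f ⟨g, hg, hf⟩
    refine ⟨fun u a => c a ∧ g u a, fun u hu => ih (hg u hu), ?_⟩
    intro a
    show (c a ∧ f a) ↔ _
    rw [qt_and, hf a]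

theorem Lev.const {V : Type*} {Q : Set V} {q T : ℕ} (P : Prop) : ∀ {k : ℕ} {ex : Bool},
    Lev Q q T ex k (fun _ => P) := by
  intro k
  induction k with
  | zero => intro ex; exact DTP.const T P
  | succ k ih =>
    intro ex
    refine ⟨fun _ _ => P, fun _ _ => ih, ?_⟩
    intro a
    cases ex with
    | true =>
      simp only [qt]
      exact ⟨fun h => ⟨List.replicate q true, by simp, h⟩, fun ⟨_, _, h⟩ => h⟩
    | false =>
      simp only [qt]
      exact ⟨fun h _ _ => h, fun h => h (List.replicate q true) (by simp)⟩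

open Pool.Agent.H8h in
/-- Formulas with resolved atoms are alternating predicates. -/
theorem lev_of_cl {V α : Type} {ok : ℕ → α → Bool → Prop} {w S q H : ℕ} (hS : S ≤ 2 ^ q)
    (σ : (V → Bool) → α → Bool) (hσ : ∀ h a s, 1 ≤ h → h ≤ H → ok h a s →
      DTP Set.univ 1 (fun b => σ b a = true)) {h : ℕ} {f : (α → Bool) → Prop}
    (hf : Cl ok w S h f) (hh : h ≤ H) :
    Lev Set.univ q (h * w) true h (fun b => f (σ b)) := by
  induction hf with
  | bot => exact DTP.const _ False
  | @node h ι D as g hD has _ ih =>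
    have hDq : D.card ≤ (strings q).card := by rw [card_strings]; exact hD.trans hS
    -- index the disjunction by strings
    obtain ⟨φ, hφ⟩ : ∃ φ : List Bool → Option ι, (∀ u i, φ u = some i → i ∈ D) ∧
        ∀ i ∈ D, ∃ u : List Bool, u.length = q ∧ φ u = some i := by
      obtain ⟨F, hF⟩ := Finset.exists_subset_card_eq hDq
      let e := Finset.equivOfCardEq (s := F) (t := D) hF.2
      refine ⟨fun u => if hu : u ∈ F then some (e ⟨u, hu⟩).1 else none, ?_, ?_⟩
      · intro u i hi
        by_cases hu : u ∈ F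
        · simp only [dif_pos hu, Option.some.injEq] at hi
          rw [← hi]
          exact (e ⟨u, hu⟩).2
        · simp [dif_neg hu] at hi
      · intro i hi
        refine ⟨(e.symm ⟨i, hi⟩).1, mem_strings.1 (hF.1 (e.symm ⟨i, hi⟩).2), ?_⟩
        have h1 : (e.symm ⟨i, hi⟩).1 ∈ F := (e.symm ⟨i, hi⟩).2
        simp only [dif_pos h1]
        congr 1
        simp
    refine ⟨fun u b => match φ u with
      | none => False
      | some i => (∀ l ∈ as i, σ b l.1 = l.2) ∧ ¬ g i (σ b), ?_, ?_⟩
    · intro u _
      cases hu : φ u with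
      | none =>
        refine (Lev.const False).congr ?_
        intro b
        simp only [hu]
      | some i =>
        have hi : i ∈ D := hφ.1 u i hu
        have h1 : DTP Set.univ (as i).card (fun b => ∀ l ∈ as i, σ b l.1 = l.2) := by
          apply DTP.forall_finset
          intro l hl
          have h2 := hσ (h + 1) l.1 l.2 (by omega) hh ((has i hi).2 l hl)
          cases hl2 : l.2 with
          | true => exact h2
          | false =>
            refine h2.not.congr ?_
            intro b
            simp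
        have h2 := Lev.not (ih i hi (by omega))
        have h3 := Lev.and_dtp (h1.mono (has i hi).1) h2
        have e : (h + 1) * w = w + h * w := by ring
        rw [e]
        refine h3.congr ?_
        intro b
        simp only [hu]
    · intro b
      simp only [qt]
      constructor
      · rintro ⟨i, hi, h1⟩
        obtain ⟨u, hu1, hu2⟩ := hφ.2 i hi
        refine ⟨u, hu1, ?_⟩
        rw [hu2]
        exact h1
      · rintro ⟨u, _, h1⟩
        cases hu2 : φ u with
        | none => rw [hu2] at h1; exact h1.elim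
        | some i =>
          rw [hu2] at h1
          exact ⟨i, hφ.1 u i hu2, h1⟩

open Pool.Agent.H8h in
/-- **Averaged hierarchy theorem, final form**: for every family of predicates with `k + 1` blocks
starting with the quantifier opposite to `ex` there is one table on which at least a quarter of
the family differs from the Sipser tree. -/
theorem hier_lev {q T μ B : ℕ} (k : ℕ) (hBμ : B + 3 ≤ 2 ^ μ) (hq : q ≤ T) (hq1 : 1 ≤ q)
    (hT : T * 2 ^ (2 * k + 8) ≤ 2 ^ μ) (ex : Bool) (ms : List ℕ) (hms : ms.length = k + 1)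
    (hms4 : ∀ x ∈ ms, 4 * μ ≤ x) (hsum : ms.sum ≤ B) {Ω : Type} [Fintype Ω] [Nonempty Ω]
    (f : Ω → (List (List Bool) → Bool) → Prop)
    (hf : ∀ ω, Lev Set.univ q T (!ex) (k + 1) (f ω)) :
    ∃ a : List (List Bool) → Bool,
      1 / 4 ≤ pr (fun ω => ¬ (AltL ex ms (fun us => a us = true) ↔ f ω a)) := by
  obtain ⟨ms', m, rfl⟩ : ∃ ms' m, ms = ms' ++ [m] := by
    have : ms ≠ [] := by
      intro h; rw [h] at hms; simp at hms
    exact ⟨ms.dropLast, ms.getLast this, (List.dropLast_append_getLast this).symm⟩
  choose D hD1 hD2 using fun ω => (hf ω).altL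
  obtain ⟨a, ha⟩ := hierarchy_avg2 (K := k) hBμ hq hq1 hT k ex ms' m (Finset.univ : Finset Ω) D
    le_rfl (by simpa using hms) (fun x hx => hms4 x (by simp [hx]))
    (by have := hms4 m (by simp); omega) (by simpa using hsum) (fun ω _ ws hws => hD1 ω ws hws)
  refine ⟨a, ?_⟩
  have hcard : (0 : ℝ) < Fintype.card Ω := by exact_mod_cast Fintype.card_pos
  have h1 : (1 / 4 : ℝ) * Fintype.card Ω ≤
      ((Finset.univ.filter (fun r => Miss2 ex (ms' ++ [m]) (k + 1) q (D r) a)).card : ℝ) := by
    refine le_trans ?_ ha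
    rw [Finset.card_univ]
    apply mul_le_mul_of_nonneg_right _ hcard.le
    have h2 : (k : ℝ) * (1 / 2 : ℝ) ^ (k + 3) ≤ 1 / 8 := by
      have h3 : (k : ℝ) ≤ 2 ^ k := by exact_mod_cast Nat.lt_two_pow_self.le
      have h4 : (2 : ℝ) ^ k * (1 / 2 : ℝ) ^ (k + 3) = 1 / 8 := by
        rw [pow_add, ← mul_assoc, ← mul_pow]
        norm_num
      calc (k : ℝ) * (1 / 2 : ℝ) ^ (k + 3) ≤ 2 ^ k * (1 / 2 : ℝ) ^ (k + 3) :=
            mul_le_mul_of_nonneg_right h3 (by positivity)
        _ = 1 / 8 := h4
    linarith
  have h2 : pr (fun ω => ¬ (AltL ex (ms' ++ [m]) (fun us => a us = true) ↔ f ω a)) =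
      pr (fun r => Miss2 ex (ms' ++ [m]) (k + 1) q (D r) a) := by
    apply pr_congr
    intro ω
    unfold Miss2
    rw [hD2 ω a]
  rw [h2, pr_eq, le_div_iff₀ hcard]
  exact h1

end Pool.Agent.H7
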