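import Mathlib
import Pool.Agent.H7.HierAvg2

/-!
The averaged depth hierarchy theorem against alternating predicates with one block less.
-/

set_option autoImplicit false

namespace Pool.Agent.H7

open Pool.Agent.H9 Classical

open Pool.Agent.H8h in
/-- **Averaged hierarchy theorem, one block less**: for every family of predicates with `k` blocks
starting with the quantifier `ex` there is one table on which at least a quarter of the family
differs from the Sipser tree with `k + 1` levels. -/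
theorem hier_lev_same {q T μ B : ℕ} (k : ℕ) (hBμ : B + 3 ≤ 2 ^ μ) (hq : q ≤ T) (hq1 : 1 ≤ q)
    (hT : T * 2 ^ (2 * k + 8) ≤ 2 ^ μ) (ex : Bool) (ms : List ℕ) (hms : ms.length = k + 1)
    (hms4 : ∀ x ∈ ms, 4 * μ ≤ x) (hsum : ms.sum ≤ B) {Ω : Type} [Fintype Ω] [Nonempty Ω]
    (f : Ω → (List (List Bool) → Bool) → Prop)
    (hf : ∀ ω, Lev Set.univ q T ex k (f ω)) :
    ∃ a : List (List Bool) → Bool,
      1 / 4 ≤ pr (fun ω => ¬ (AltL ex ms (fun us => a us = true) ↔ f ω a)) := by
  obtain ⟨ms', m, rfl⟩ : ∃ ms' m, ms = ms' ++ [m] := by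
    have : ms ≠ [] := by
      intro h; rw [h] at hms; simp at hms
    exact ⟨ms.dropLast, ms.getLast this, (List.dropLast_append_getLast this).symm⟩
  choose D hD1 hD2 using fun ω => (hf ω).altL
  obtain ⟨a, ha⟩ := hierarchy_avg (K := k) hBμ hq hq1 hT k ex ms' m (Finset.univ : Finset Ω) D
    le_rfl (by simpa using hms) (fun x hx => hms4 x (by simp [hx]))
    (by have := hms4 m (by simp); omega) (by simpa using hsum) (fun ω _ ws hws => hD1 ω ws hws)
  refine ⟨a, ?_⟩
  have hcard : (0 : ℝ) < Fintype.card Ω := by exact_mod_cast Fintype.card_pos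
  have h1 : (1 / 4 : ℝ) * Fintype.card Ω ≤
      ((Finset.univ.filter (fun r => Miss ex (ms' ++ [m]) k q (D r) a)).card : ℝ) := by
    refine le_trans ?_ ha
    rw [Finset.card_univ]
    apply mul_le_mul_of_nonneg_right _ hcard.le
    have h2 : (k : ℝ) * (1 / 2 : ℝ) ^ (k + 3) ≤ 1 / 8 := by
      have h3 : (k : ℝ) ≤ 2 ^ k := by exact_mod_cast Nat.lt_two_pow_self.le
      have h4 : (2 : ℝ) ^ k * (1 / 2 : ℝ) ^ (k + 3) = 1 / 8 := by
        rw [pow_add, ← mul_assoc, ← mul_pow]
        norm_num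
      calc (k : ℝ) * (1 / 2 : ℝ) ^ (k + 3) ≤ 2 ^ k * (1 / 2 : ℝ) ^ (k + 3) :=
            mul_le_mul_of_nonneg_right h3 (by positivity)
        _ = 1 / 8 := h4
    linarith
  have h2 : pr (fun ω => ¬ (AltL ex (ms' ++ [m]) (fun us => a us = true) ↔ f ω a)) =
      pr (fun r => Miss ex (ms' ++ [m]) k q (D r) a) := by
    apply pr_congr
    intro ω
    unfold Miss
    rw [hD2 ω a]
  rw [h2, pr_eq, le_div_iff₀ hcard]
  exact h1

end Pool.Agent.H7
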