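import Mathlib
import Pool.Agent.H8.VDef
import Pool.Agent.H7.AUMachine

/-!
Unambiguous machines relative to the closure oracle with prescribed depths.
-/

set_option autoImplicit false

namespace Pool.Agent.H8v

open Classical
open Pool.Agent.H9
open Pool.Agent.H8u (Cd wrd hid hid_length bitv wrd_inj wrd_length bitv_cons totalLength_cons_of
  alt_bitv Unamb Unamb_congr AUSigmaP auProg auTime auProg_spec polyTime_auProg)

theorem uap_subset_ap (A : Oracle) : UAP A ⊆ AP A := by
  rintro L ⟨t, q, p, hp, h⟩
  exact ⟨t, q, p, hp, fun x => (h x).1⟩

theorem auSigmaP_subset (A : Oracle) (k : ℕ) : AUSigmaP A k ⊆ SigmaP A k := by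
  rintro L ⟨q, p, hp, h⟩
  exact ⟨q, p, hp, fun x => (h x).1⟩

/-- A description with sufficient padding computes the language. -/
theorem exists_code (g : Enum) (A : Oracle) {fl : Bool} {t d : Polynomial ℕ} {p : Prog}
    {q T : Polynomial ℕ} {e : ℕ} (he : g e = (fl, t, d, p, q, T)) {L : Set (List Bool)}
    (hT : ∀ (x : List Bool) (us : List (List Bool)),
      us.map List.length = List.replicate (t.eval x.length) (q.eval x.length) →
      (run A p (inp fl x us) (T.eval (totalLength (inp fl x us)))).1 = [])
    (hL : ∀ x : List Bool, x ∈ L ↔ Alt true (t.eval x.length) (q.eval x.length)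
      (fun us => Accepts A p (inp fl x us))) :
    ∃ κ : ℕ, ∀ x : List Bool,
      (KP g A (e, x, (x.length + 2) ^ 2 ^ κ) ↔ x ∈ L) ∧
        dp g (e, x, (x.length + 2) ^ 2 ^ κ) = d.eval x.length := by
  obtain ⟨κ, hκ⟩ := poly_le_pow ((T.comp (Polynomial.X + t * (2 * q + 1)) + (Polynomial.X +
    t * (2 * q + 1)) + 2) ^ 2)
  have htp : ∀ (x : List Bool) (N : ℕ), tp g (e, x, N) = t.eval x.length := by
    intro x N
    unfold tp
    simp only
    rw [he]
  have hdp : ∀ (x : List Bool) (N : ℕ), dp g (e, x, N) = d.eval x.length := by
    intro x N
    unfold dp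
    simp only
    rw [he]
  have hql : ∀ (x : List Bool) (N : ℕ), ql g (e, x, N) = q.eval x.length := by
    intro x N
    unfold ql
    simp only
    rw [he]
  have hil : ∀ (x : List Bool) (N : ℕ),
      il g (e, x, N) = x.length + t.eval x.length * (2 * q.eval x.length + 1) := by
    intro x N
    unfold il
    rw [htp, hql]
  have hrt : ∀ (x : List Bool) (N : ℕ), rt g (e, x, N) = T.eval (il g (e, x, N)) := by
    intro x N
    unfold rt
    simp only
    rw [he]
  refine ⟨κ, ?_⟩
  intro x
  refine ⟨?_, hdp x _⟩
  set N := (x.length + 2) ^ 2 ^ κ with hN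
  have hlive : Live g (e, x, N) := by
    unfold Live
    rw [hrt, hil]
    have := hκ x.length
    simpa [Polynomial.eval_comp] using this
  rw [hL x]
  unfold KP
  simp only [hlive, true_and]
  rw [htp, hql, Alt_eq, Alt_eq]
  apply AltL_congr
  intro us hus
  have hpg : pg g (e, x, N) = p := by
    unfold pg
    simp only
    rw [he]
  rw [hpg, he, hrt]
  simp only
  have h1 := hT x us hus
  have h2 : totalLength (inp fl x us) ≤ il g (e, x, N) := by
    rw [hil]
    exact totalLength_inp_le hus
  have h3 : (run A p (inp fl x us) (T.eval (il g (e, x, N)))).1 = [] := by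
    rw [run_of_halted h1 (poly_mono T h2)]
    exact h1
  exact (accepts_iff_of_halted h3).symm

/-- Languages described by an entry of constant depth `d` are in `AUSigma_d`. -/
theorem entry_sub_au (g : Enum) (S : Oracle) (Y : List Bool → List Bool) {fl : Bool}
    {t : Polynomial ℕ} (d : ℕ) {p : Prog} {q T : Polynomial ℕ} {e : ℕ}
    (he : g e = (fl, t, Polynomial.C d, p, q, T)) {L : Set (List Bool)}
    (hT : ∀ (x : List Bool) (us : List (List Bool)),
      us.map List.length = List.replicate (t.eval x.length) (q.eval x.length) →
      (run (orU g S Y) p (inp fl x us) (T.eval (totalLength (inp fl x us)))).1 = [])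
    (hL : ∀ x : List Bool, x ∈ L ↔ Alt true (t.eval x.length) (q.eval x.length)
      (fun us => Accepts (orU g S Y) p (inp fl x us))) :
    L ∈ AUSigmaP (orU g S Y) d := by
  obtain ⟨κ, hκ⟩ := exists_code g (orU g S Y) he hT hL
  set A := orU g S Y with hA
  refine ⟨(Polynomial.X + 2) ^ 2 ^ κ, auProg d e κ, polyTime_auProg A d e κ, ?_⟩
  intro x
  obtain ⟨hKP, hdp⟩ := hκ x
  rw [Polynomial.eval_C] at hdp
  set N := (x.length + 2) ^ 2 ^ κ with hN
  have hqe : ((Polynomial.X + 2 : Polynomial ℕ) ^ 2 ^ κ).eval x.length = N := by
    simp [hN]
  rw [hqe]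
  set c : Cd := (e, x, N) with hc
  have hbit : ∀ us : List (List Bool), us.map List.length = List.replicate d N →
      (Accepts A (auProg d e κ) (x :: us) ↔
        bitv (decide (KP g A c)) Y c (us.reverse ++ []) = (true ^^ !d.bodd)) := by
    intro us hus
    have hlen : us.length = d := by
      have := congrArg List.length hus
      simpa using this
    have hall : ∀ y ∈ us, y.length = N := by
      intro y hy
      have h1 : y.length ∈ us.map List.length := List.mem_map_of_mem hy
      rw [hus] at h1
      exact List.eq_of_mem_replicate h1
    rw [(auProg_spec A d e κ x us hlen).2, List.append_nil]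
    have hw : List.replicate d true ++ false :: (us.flatten ++ code e x N) =
        wrd c us.reverse := by
      unfold wrd
      rw [List.length_reverse, hlen, List.reverse_reverse]
    rw [hw, hA, orU_wrd g S Y c us.reverse (by rw [List.length_reverse, hlen, hdp])
      (fun y hy => by
        rw [hc]
        exact hall y (List.mem_reverse.1 hy))]
    rw [← hA]
    simp
  have hmain := alt_bitv (decide (KP g A c)) Y c d true []
  have hcN : c.2.2 = N := rfl
  rw [hcN] at hmain
  constructor
  · rw [← hKP, Alt_eq]
    rw [AltL_congr (fun us hus => hbit us hus), ← Alt_eq, hmain.1]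
    simp [bitv]
  · rw [Unamb_congr N d true _ _ hbit]
    exact hmain.2

theorem sigmaP_sub_au (g : Enum) (S : Oracle) (Y : List Bool → List Bool) (t d : ℕ)
    (hg : ∀ (p : Prog) (q T : Polynomial ℕ), ∃ e, g e =
      (false, Polynomial.C t, Polynomial.C d, p, q, T)) :
    SigmaP (orU g S Y) t ⊆ AUSigmaP (orU g S Y) d := by
  rintro L ⟨q, p, ⟨T, hT⟩, hL⟩
  obtain ⟨e, he⟩ := hg p q T
  refine entry_sub_au g S Y d he ?_ ?_
  · intro x us hus
    rw [Polynomial.eval_C] at hus
    have hlen : us.length = t := by
      have := congrArg List.length hus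
      simpa using this
    exact hT (x :: us) (by simp [hlen])
  · intro x
    rw [Polynomial.eval_C]
    exact hL x

theorem ap_sub_au (g : Enum) (S : Oracle) (Y : List Bool → List Bool) (d : ℕ)
    (hg : ∀ (t : Polynomial ℕ) (p : Prog) (q T : Polynomial ℕ), ∃ e, g e =
      (true, t, Polynomial.C d, p, q, T)) :
    AP (orU g S Y) ⊆ AUSigmaP (orU g S Y) d := by
  rintro L ⟨t, q, p, ⟨T, hT⟩, hL⟩
  obtain ⟨e, he⟩ := hg t p q T
  refine entry_sub_au g S Y d he ?_ hL
  intro x us _
  exact hT [x, enc us] rfl

/-! ### The machine for `UAP` -/

/-- Result of decoding: the reversed concatenation of the blocks and the number of separators.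
The first argument says whether a data bit is expected. -/
def res : Bool → List Bool → List Bool → ℕ → List Bool × ℕ
  | _, [], w, n => (w, n)
  | false, false :: l, w, n => res false l w (n + 1)
  | false, true :: l, w, n => res true l w n
  | true, b :: l, w, n => res false l (b :: w) n

theorem res_dbl (u l w : List Bool) (n : ℕ) :
    res false (u.flatMap (fun b => [true, b]) ++ l) w n = res false l (u.reverse ++ w) n := by
  induction u generalizing w with
  | nil => simp
  | cons b u ih =>
    simp only [List.flatMap_cons, List.cons_append, List.nil_append, res]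
    rw [ih]
    simp

theorem res_enc (us : List (List Bool)) (w : List Bool) (n : ℕ) :
    res false (enc us) w n = (us.flatten.reverse ++ w, n + us.length) := by
  induction us generalizing w n with
  | nil => simp [enc, res]
  | cons u us ih =>
    rw [enc_cons, res_dbl]
    simp only [res]
    rw [ih]
    simp only [List.flatten_cons, List.reverse_append, List.append_assoc, List.length_cons]
    congr 1
    omega

theorem res_length (f : Bool) (l w : List Bool) (n : ℕ) :
    (res f l w n).1.length + (res f l w n).2 ≤ l.length + w.length + n := by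
  induction l generalizing f w n with
  | nil => cases f <;> simp [res]
  | cons b l ih =>
    cases f with
    | false =>
      cases b with
      | false =>
        have := ih false w (n + 1)
        simp only [res, List.length_cons]
        omega
      | true =>
        have := ih true w n
        simp only [res, List.length_cons]
        omega
    | true =>
      have := ih false (b :: w) n
      simp only [res, List.length_cons] at this ⊢
      omega

/-- Decoding of stack 1: blocks to stack 7, separators to stack 6, their parity to stack 9;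
stack 8 is the flag for a data bit. -/
def decProg : Prog :=
  Prog.loop 1 (Prog.cond 8
    (Prog.cond 1 Prog.skip
      (seqs [Prog.pop 1, Prog.push 6 true, Prog.cond 9 (Prog.push 9 true) (Prog.pop 9)
        (Prog.pop 9)])
      (seqs [Prog.pop 1, Prog.push 8 true]))
    Prog.skip
    (Prog.cond 1 Prog.skip
      (seqs [Prog.pop 1, Prog.push 7 false, Prog.pop 8])
      (seqs [Prog.pop 1, Prog.push 7 true, Prog.pop 8])))

theorem exec_decProg (A : Oracle) (s : ℕ → List Bool) (h6 : s 6 = []) (h7 : s 7 = [])
    (h8 : s 8 = []) (h9 : s 9 = []) :
    ∃ s', Exec A decProg s s' ((s 1).length * 11 + 1) ∧ s' 1 = [] ∧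
      s' 7 = (res false (s 1) [] 0).1 ∧ s' 6 = List.replicate (res false (s 1) [] 0).2 true ∧
      s' 9 = (if (res false (s 1) [] 0).2.bodd then [true] else []) ∧
      ∀ m, m ≠ 1 → m ≠ 6 → m ≠ 7 → m ≠ 8 → m ≠ 9 → s' m = s m := by
  obtain ⟨s', h1, h2, h3⟩ := exec_loop_inv (A := A) (i := 1) (N := 10)
    (p := Prog.cond 8
      (Prog.cond 1 Prog.skip
        (seqs [Prog.pop 1, Prog.push 6 true, Prog.cond 9 (Prog.push 9 true) (Prog.pop 9)
          (Prog.pop 9)])
        (seqs [Prog.pop 1, Prog.push 8 true]))
      Prog.skip
      (Prog.cond 1 Prog.skip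
        (seqs [Prog.pop 1, Prog.push 7 false, Prog.pop 8])
        (seqs [Prog.pop 1, Prog.push 7 true, Prog.pop 8])))
    (Inv := fun l t => ∃ (f : Bool) (n : ℕ), res f l (t 7) n = res false (s 1) [] 0 ∧
      t 6 = List.replicate n true ∧ t 8 = (if f then [true] else []) ∧
      t 9 = (if n.bodd then [true] else []) ∧
      ∀ m, m ≠ 1 → m ≠ 6 → m ≠ 7 → m ≠ 8 → m ≠ 9 → t m = s m) (by
      rintro b l t ht ⟨f, n, hres, t6, t8, t9, hoth⟩
      cases f with
      | false =>
        simp only [Bool.false_eq_true, if_false] at t8
        cases b with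
        | false =>
          -- a separator
          have e1 := exec_pop A t 1
          rw [ht, List.tail_cons] at e1
          have e2 := exec_push A (Function.update t 1 l) 6 true
          rw [Function.update_of_ne (by norm_num)] at e2
          set t2 := Function.update (Function.update t 1 l) 6 (true :: t 6) with ht2
          have t29 : t2 9 = t 9 := by
            rw [ht2, Function.update_of_ne (by norm_num), Function.update_of_ne (by norm_num)]
          obtain ⟨t3, e3, k3, o3⟩ : ∃ t3, Exec A (Prog.cond 9 (Prog.push 9 true) (Prog.pop 9)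
              (Prog.pop 9)) t2 t3 2 ∧ t3 9 = (if (n + 1).bodd then [true] else []) ∧
              ∀ m, m ≠ 9 → t3 m = t2 m := by
            cases hn : n.bodd with
            | false =>
              have h29 : t2 9 = [] := by rw [t29, t9, hn]; rfl
              refine ⟨Function.update t2 9 (true :: t2 9), exec_cond_nil h29 (exec_push A t2 9 true),
                ?_, fun m hm => Function.update_of_ne hm _ _⟩
              rw [Function.update_self, h29, Nat.bodd_succ, hn]
              rfl
            | true =>
              have h29 : t2 9 = [true] := by rw [t29, t9, hn]; rfl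
              refine ⟨Function.update t2 9 (t2 9).tail, exec_cond_cons h29 (exec_pop A t2 9),
                ?_, fun m hm => Function.update_of_ne hm _ _⟩
              rw [Function.update_self, h29, Nat.bodd_succ, hn]
              rfl
          refine ⟨t3, ?_, ?_, false, n + 1, ?_, ?_, ?_, k3, ?_⟩
          · refine (exec_cond_nil t8 (exec_cond_cons (b := false) ht
              (exec_seqs_cons e1 (exec_seqs_cons e2 (exec_seqs_cons e3
                (exec_seqs_nil _ _)))))).mono ?_
            norm_num
          · rw [o3 1 (by norm_num), ht2, Function.update_of_ne (by norm_num),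
              Function.update_self]
          · rw [o3 7 (by norm_num), ht2, Function.update_of_ne (by norm_num),
              Function.update_of_ne (by norm_num), ← hres]
            rfl
          · rw [o3 6 (by norm_num), ht2, Function.update_self, t6, List.replicate_succ]
          · rw [o3 8 (by norm_num), ht2, Function.update_of_ne (by norm_num),
              Function.update_of_ne (by norm_num), t8]
            rfl
          · intro m m1 m6 m7 m8 m9
            rw [o3 m m9, ht2, Function.update_of_ne m6, Function.update_of_ne m1]
            exact hoth m m1 m6 m7 m8 m9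
        | true =>
          have e1 := exec_pop A t 1
          rw [ht, List.tail_cons] at e1
          have e2 := exec_push A (Function.update t 1 l) 8 true
          rw [Function.update_of_ne (by norm_num)] at e2
          refine ⟨_, (exec_cond_nil t8 (exec_cond_cons (b := true) ht
              (exec_seqs_cons e1 (exec_seqs_cons e2 (exec_seqs_nil _ _))))).mono (by norm_num),
              ?_, true, n, ?_, ?_, ?_, ?_, ?_⟩
          · rw [Function.update_of_ne (by norm_num), Function.update_self]
          · rw [Function.update_of_ne (by norm_num), Function.update_of_ne (by norm_num),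
              ← hres]
            rfl
          · rw [Function.update_of_ne (by norm_num), Function.update_of_ne (by norm_num), t6]
          · rw [Function.update_self, t8]
            rfl
          · rw [Function.update_of_ne (by norm_num), Function.update_of_ne (by norm_num), t9]
          · intro m m1 m6 m7 m8 m9
            rw [Function.update_of_ne m8, Function.update_of_ne m1]
            exact hoth m m1 m6 m7 m8 m9
      | true =>
        simp only [if_true] at t8
        have e1 := exec_pop A t 1
        rw [ht, List.tail_cons] at e1
        have e2 := exec_push A (Function.update t 1 l) 7 b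
        rw [Function.update_of_ne (by norm_num)] at e2
        have e3 := exec_pop A (Function.update (Function.update t 1 l) 7 (b :: t 7)) 8
        rw [Function.update_of_ne (by norm_num), Function.update_of_ne (by norm_num), t8,
          List.tail_cons] at e3
        have e4 := exec_seqs_cons e1 (exec_seqs_cons e2 (exec_seqs_cons e3
          (exec_seqs_nil A _)))
        refine ⟨Function.update (Function.update (Function.update t 1 l) 7 (b :: t 7)) 8 [],
            (exec_cond_cons (b := true) t8 (exec_cond_cons ht (by
              cases b
              · simpa using e4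
              · simpa using e4))).mono (by norm_num), ?_, false, n, ?_, ?_, ?_, ?_, ?_⟩
        · rw [Function.update_of_ne (by norm_num), Function.update_of_ne (by norm_num),
            Function.update_self]
        · rw [Function.update_of_ne (by norm_num), Function.update_self, ← hres]
          simp only [res]
        · rw [Function.update_of_ne (by norm_num), Function.update_of_ne (by norm_num),
            Function.update_of_ne (by norm_num), t6]
        · rw [Function.update_self]
          rfl
        · rw [Function.update_of_ne (by norm_num), Function.update_of_ne (by norm_num),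
            Function.update_of_ne (by norm_num), t9]
        · intro m m1 m6 m7 m8 m9
          rw [Function.update_of_ne m8, Function.update_of_ne m7, Function.update_of_ne m1]
          exact hoth m m1 m6 m7 m8 m9) (s 1) s rfl
    ⟨false, 0, by rw [h7], by rw [h6]; rfl, by rw [h8]; rfl, by rw [h9]; rfl,
      fun _ _ _ _ _ _ => rfl⟩
  obtain ⟨f, n, hres, t6, t8, t9, hoth⟩ := h3
  have hr : res false (s 1) [] 0 = (s' 7, n) := by
    rw [← hres]
    cases f <;> rfl
  refine ⟨s', h1, h2, ?_, ?_, ?_, hoth⟩
  · rw [hr]
  · rw [hr, t6]
  · rw [hr, t9]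

/-- The program of the unambiguous machine for a language in `AP`. -/
def uapProg (e κ : ℕ) : Prog :=
  seqs [decProg, mkCode e κ, moveAll 7 2, Prog.push 2 false, moveAll 6 2, Prog.push 2 true,
    Prog.ask 2 (Prog.cond 9 (Prog.push 0 false) (Prog.push 0 true) (Prog.push 0 true))
      (Prog.cond 9 (Prog.push 0 true) (Prog.push 0 false) (Prog.push 0 false))]

theorem exec_uapProg (A : Oracle) (e κ : ℕ) (x v : List Bool) :
    ∃ s', Exec A (uapProg e κ) (fun j => [x, v].getD j []) s'
      (30 * totalLength [x, v] + 40 + codeTime e κ (totalLength [x, v])) ∧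
      ((s' 0).head? = some true ↔
        A (true :: (List.replicate (res false v [] 0).2 true ++ false ::
          ((res false v [] 0).1.reverse ++ code e x ((x.length + 2) ^ 2 ^ κ)))) =
            (res false v [] 0).2.bodd) := by
  set s0 : ℕ → List Bool := fun j => [x, v].getD j [] with hs0
  have hs00 : s0 0 = x := rfl
  have hs01 : s0 1 = v := rfl
  have hsm : ∀ m, 2 ≤ m → s0 m = [] := by
    intro m hm
    rw [hs0]
    simp only
    rw [List.getD_eq_default]
    simpa using hm
  obtain ⟨s1, e1, a1, a7, a6, a9, ao⟩ := exec_decProg A s0 (hsm 6 (by norm_num))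
    (hsm 7 (by norm_num)) (hsm 8 (by norm_num)) (hsm 9 (by norm_num))
  rw [hs01] at e1 a7 a6 a9
  set r := res false v [] 0 with hr
  have b0 : s1 0 = x := by
    rw [ao 0 (by norm_num) (by norm_num) (by norm_num) (by norm_num) (by norm_num), hs00]
  have bs : ∀ m, 2 ≤ m → m ≤ 5 → s1 m = [] := by
    intro m h1 h2
    rw [ao m (by omega) (by omega) (by omega) (by omega) (by omega)]
    exact hsm m h1
  obtain ⟨s2, e2, c2, c0⟩ := exec_mkCode A e κ s1 a1 (bs 2 (by norm_num) (by norm_num))
    (bs 3 (by norm_num) (by norm_num)) (bs 4 (by norm_num) (by norm_num))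
    (bs 5 (by norm_num) (by norm_num))
  have hav : ∀ i, 6 ≤ i → s2 i = s1 i := fun i hi =>
    Pool.Agent.H8d.exec_avoids e2 (Pool.Agent.H8d.avoids_mkCode hi e κ)
  rw [b0] at e2 c2
  obtain ⟨s3, e3, _, d2, d3⟩ := exec_moveAll A (show (7 : ℕ) ≠ 2 by norm_num) s2
  rw [hav 7 (by norm_num), a7] at e3 d2
  rw [c2] at d2
  have e4 := exec_push A s3 2 false
  set s4 := Function.update s3 2 (false :: s3 2) with hs4
  have f6 : s4 6 = List.replicate r.2 true := by
    rw [hs4, Function.update_of_ne (by norm_num), d3 6 (by norm_num) (by norm_num),
      hav 6 (by norm_num), a6]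
  have f2 : s4 2 = false :: (r.1.reverse ++ code e x ((x.length + 2) ^ 2 ^ κ)) := by
    rw [hs4, Function.update_self, d2]
  have f9 : s4 9 = (if r.2.bodd then [true] else []) := by
    rw [hs4, Function.update_of_ne (by norm_num), d3 9 (by norm_num) (by norm_num),
      hav 9 (by norm_num), a9]
  obtain ⟨s5, e5, _, g2, g3⟩ := exec_moveAll A (show (6 : ℕ) ≠ 2 by norm_num) s4
  rw [f6] at e5 g2
  rw [f2, List.reverse_replicate] at g2
  have e6 := exec_push A s5 2 true
  set s6 := Function.update s5 2 (true :: s5 2) with hs6
  have k2 : s6 2 = true :: (List.replicate r.2 true ++ false ::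
      (r.1.reverse ++ code e x ((x.length + 2) ^ 2 ^ κ))) := by
    rw [hs6, Function.update_self, g2]
  have k9 : s6 9 = (if r.2.bodd then [true] else []) := by
    rw [hs6, Function.update_of_ne (by norm_num), g3 9 (by norm_num) (by norm_num), f9]
  -- the last instruction
  have hlast : ∃ (s7 : ℕ → List Bool) (b : Bool), Exec A (Prog.ask 2
      (Prog.cond 9 (Prog.push 0 false) (Prog.push 0 true) (Prog.push 0 true))
      (Prog.cond 9 (Prog.push 0 true) (Prog.push 0 false) (Prog.push 0 false))) s6 s7 3 ∧
      s7 0 = b :: s6 0 ∧ (b = true ↔ A (s6 2) = r.2.bodd) := by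
    cases hA : A (s6 2) with
    | true =>
      cases hb : r.2.bodd with
      | true =>
        rw [hb] at k9
        refine ⟨Function.update s6 0 (true :: s6 0), true, exec_ask ?_, Function.update_self .., by simp⟩
        rw [if_pos hA]
        exact exec_cond_cons (b := true) (l := []) k9 (exec_push A s6 0 true)
      | false =>
        rw [hb] at k9
        refine ⟨Function.update s6 0 (false :: s6 0), false, exec_ask ?_, Function.update_self .., by simp⟩
        rw [if_pos hA]
        exact exec_cond_nil k9 (exec_push A s6 0 false)
    | false =>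
      cases hb : r.2.bodd with
      | true =>
        rw [hb] at k9
        refine ⟨Function.update s6 0 (false :: s6 0), false, exec_ask ?_, Function.update_self .., by simp⟩
        rw [if_neg (by rw [hA]; simp)]
        exact exec_cond_cons (b := true) (l := []) k9 (exec_push A s6 0 false)
      | false =>
        rw [hb] at k9
        refine ⟨Function.update s6 0 (true :: s6 0), true, exec_ask ?_, Function.update_self .., by simp⟩
        rw [if_neg (by rw [hA]; simp)]
        exact exec_cond_nil k9 (exec_push A s6 0 true)
  obtain ⟨s7, b, e7, m0, mb⟩ := hlast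
  refine ⟨s7, ?_, ?_⟩
  · refine (exec_seqs_cons e1 (exec_seqs_cons e2 (exec_seqs_cons e3 (exec_seqs_cons e4
        (exec_seqs_cons e5 (exec_seqs_cons e6 (exec_seqs_cons e7
          (exec_seqs_nil _ _)))))))).mono ?_
    have h1 : r.1.length + r.2 ≤ v.length := by
      have := res_length false v [] 0
      simpa using this
    have h2 : totalLength [x, v] = x.length + v.length := by simp [totalLength]
    have h3 : codeTime e κ x.length ≤ codeTime e κ (totalLength [x, v]) := by
      apply Pool.Agent.H8u.codeTime_mono
      omega
    rw [List.length_replicate, h2]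
    rw [h2] at h3
    omega
  · rw [m0, ← k2]
    simp only [List.head?_cons, Option.some.injEq]
    exact mb

theorem uapProg_spec (A : Oracle) (e κ : ℕ) (x v : List Bool) :
    (run A (uapProg e κ) [x, v]
      (30 * totalLength [x, v] + 40 + codeTime e κ (totalLength [x, v]))).1 = [] ∧
      (Accepts A (uapProg e κ) [x, v] ↔
        A (true :: (List.replicate (res false v [] 0).2 true ++ false ::
          ((res false v [] 0).1.reverse ++ code e x ((x.length + 2) ^ 2 ^ κ)))) =
            (res false v [] 0).2.bodd) := by
  obtain ⟨s', h1, h2⟩ := exec_uapProg A e κ x v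
  have h3 := run_of_exec h1
  have h4 : (run A (uapProg e κ) [x, v]
      (30 * totalLength [x, v] + 40 + codeTime e κ (totalLength [x, v]))).1 = [] := by
    rw [h3]
  refine ⟨h4, ?_⟩
  rw [accepts_iff_of_halted h4]
  unfold AcceptsIn
  rw [h3]
  simp only [true_and]
  exact h2

theorem polyTime_uapProg (A : Oracle) (e κ : ℕ) : PolyTime A 2 (uapProg e κ) := by
  refine ⟨30 * Polynomial.X + Polynomial.C 40 + (Polynomial.C κ *
    (20 * ((Polynomial.X + 2) ^ 2 ^ κ + 1) * ((Polynomial.X + 2) ^ 2 ^ κ + 1) + 1) +
    20 * Polynomial.X + Polynomial.C (2 * e + 30)), ?_⟩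
  intro xs hxs
  match xs, hxs with
  | [x, v], _ =>
    have h := (uapProg_spec A e κ x v).1
    rw [run_of_halted h]
    · exact h
    · simp only [Polynomial.eval_add, Polynomial.eval_mul, Polynomial.eval_X,
        Polynomial.eval_ofNat, Polynomial.eval_C, Polynomial.eval_pow, Polynomial.eval_one,
        codeTime]
      omega

theorem ap_sub_uap (g : Enum) (S : Oracle) (Y : List Bool → List Bool)
    (hg : ∀ (t : Polynomial ℕ) (p : Prog) (q T : Polynomial ℕ), ∃ e, g e =
      (true, t, t + 1, p, q, T)) :
    AP (orU g S Y) ⊆ UAP (orU g S Y) := by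
  rintro L ⟨t, q, p, ⟨T, hT⟩, hL⟩
  obtain ⟨e, he⟩ := hg t p q T
  obtain ⟨κ, hκ⟩ := exists_code g (orU g S Y) he (fun x us _ => hT [x, enc us] rfl) hL
  set A := orU g S Y with hA
  refine ⟨t + 1, (Polynomial.X + 2) ^ 2 ^ κ, uapProg e κ, polyTime_uapProg A e κ, ?_⟩
  intro x
  obtain ⟨hKP, hdp⟩ := hκ x
  set N := (x.length + 2) ^ 2 ^ κ with hN
  have hqe : ((Polynomial.X + 2 : Polynomial ℕ) ^ 2 ^ κ).eval x.length = N := by
    simp [hN]
  rw [hqe]
  set c : Cd := (e, x, N) with hc
  set d : ℕ := (t + 1 : Polynomial ℕ).eval x.length with hd
  have hbit : ∀ us : List (List Bool), us.map List.length = List.replicate d N →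
      (Accepts A (uapProg e κ) [x, enc us] ↔
        bitv (decide (KP g A c)) Y c (us.reverse ++ []) = (true ^^ !d.bodd)) := by
    intro us hus
    have hlen : us.length = d := by
      have := congrArg List.length hus
      simpa using this
    have hall : ∀ y ∈ us, y.length = N := by
      intro y hy
      have h1 : y.length ∈ us.map List.length := List.mem_map_of_mem hy
      rw [hus] at h1
      exact List.eq_of_mem_replicate h1
    rw [(uapProg_spec A e κ x (enc us)).2, res_enc, List.append_nil]
    simp only [List.append_nil, List.reverse_reverse, Nat.zero_add]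
    rw [hlen]
    have hw : List.replicate d true ++ false :: (us.flatten ++ code e x N) =
        wrd c us.reverse := by
      unfold wrd
      rw [List.length_reverse, hlen, List.reverse_reverse]
    rw [hw, hA, orU_wrd g S Y c us.reverse (by rw [List.length_reverse, hlen, hdp])
      (fun y hy => by
        rw [hc]
        exact hall y (List.mem_reverse.1 hy))]
    rw [← hA]
    simp
  have hmain := alt_bitv (decide (KP g A c)) Y c d true []
  have hcN : c.2.2 = N := rfl
  rw [hcN] at hmain
  constructor
  · rw [← hKP, Alt_eq]
    rw [AltL_congr (fun us hus => hbit us hus), ← Alt_eq, hmain.1]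
    simp [bitv]
  · rw [Unamb_congr N d true _ _ hbit]
    exact hmain.2

end Pool.Agent.H8v
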