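import Mathlib
import Pool.Agent.H7.VMachine

/-!
The polynomial hierarchy is contained in alternating polynomial time, relative to every oracle.
-/

set_option autoImplicit false

namespace Pool.Agent.H8v

open Classical
open Pool.Agent.H9

/-- One pass of the decoding: the bits of the first block (reversed) and the rest (reversed).
The flags say whether a data bit is expected and whether the block is finished. -/
def ps : Bool → Bool → List Bool → List Bool → List Bool → List Bool × List Bool
  | _, _, [], a, r => (a, r)
  | f, true, b :: l, a, r => ps f true l a (b :: r)
  | false, false, false :: l, a, r => ps false true l a r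
  | false, false, true :: l, a, r => ps true false l a r
  | true, false, b :: l, a, r => ps false false l (b :: a) r

theorem ps_done (f : Bool) (l a r : List Bool) : ps f true l a r = (a, l.reverse ++ r) := by
  induction l generalizing r with
  | nil => simp [ps]
  | cons b l ih =>
    simp only [ps]
    rw [ih]
    simp

theorem ps_dbl (u l a r : List Bool) :
    ps false false (u.flatMap (fun b => [true, b]) ++ false :: l) a r =
      (u.reverse ++ a, l.reverse ++ r) := by
  induction u generalizing a with
  | nil =>
    simp only [List.flatMap_nil, List.nil_append, ps]
    rw [ps_done]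
    simp
  | cons b u ih =>
    simp only [List.flatMap_cons, List.cons_append, List.nil_append, ps]
    rw [ih]
    simp

theorem ps_length (l : List Bool) : ∀ (f1 f2 : Bool) (a r : List Bool),
    (ps f1 f2 l a r).1.length + (ps f1 f2 l a r).2.length ≤ l.length + a.length + r.length := by
  induction l with
  | nil => intro f1 f2 a r; simp [ps]
  | cons b l ih =>
    intro f1 f2 a r
    cases f2 with
    | true =>
      have := ih f1 true a (b :: r)
      simp only [ps, List.length_cons] at this ⊢
      omega
    | false =>
      cases f1 with
      | true =>
        have := ih false false (b :: a) r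
        simp only [ps, List.length_cons] at this ⊢
        omega
      | false =>
        cases b with
        | true =>
          have := ih true false a r
          simp only [ps, List.length_cons]
          omega
        | false =>
          have := ih false true a r
          simp only [ps, List.length_cons]
          omega

/-- the first block -/
def hdb (l : List Bool) : List Bool := (ps false false l [] []).1.reverse

/-- the rest -/
def tlb (l : List Bool) : List Bool := (ps false false l [] []).2.reverse

theorem hdb_enc (u : List Bool) (us : List (List Bool)) : hdb (enc (u :: us)) = u := by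
  unfold hdb
  rw [enc_cons, ps_dbl]
  simp

theorem tlb_enc (u : List Bool) (us : List (List Bool)) : tlb (enc (u :: us)) = enc us := by
  unfold tlb
  rw [enc_cons, ps_dbl]
  simp

theorem length_hdb_tlb (l : List Bool) : (hdb l).length + (tlb l).length ≤ l.length := by
  have := ps_length l false false [] []
  simpa [hdb, tlb] using this

/-- the first blocks -/
def blks : ℕ → List Bool → List (List Bool)
  | 0, _ => []
  | n + 1, l => hdb l :: blks n (tlb l)

/-- the rest after several blocks -/
def rst : ℕ → List Bool → List Bool
  | 0, l => l
  | n + 1, l => rst n (tlb l)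

theorem blks_length (n : ℕ) (l : List Bool) : (blks n l).length = n := by
  induction n generalizing l with
  | zero => rfl
  | succ n ih => simp [blks, ih]

theorem blks_enc (us : List (List Bool)) : blks us.length (enc us) = us := by
  induction us with
  | nil => rfl
  | cons u us ih => rw [List.length_cons, blks, hdb_enc, tlb_enc, ih]

theorem totalLength_blks (n : ℕ) (l : List Bool) :
    totalLength (blks n l) + (rst n l).length ≤ l.length := by
  induction n generalizing l with
  | zero => simp [blks, rst, totalLength]
  | succ n ih =>
    have h1 := ih (tlb l)
    have h2 := length_hdb_tlb l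
    simp only [blks, rst, totalLength, List.map_cons, List.sum_cons] at h1 ⊢
    omega

/-- the body of the loop of a pass -/
def passBody (b : ℕ) : Prog :=
  Prog.cond (b + 4)
    (Prog.cond (b + 3)
      (Prog.cond b Prog.skip
        (seqs [Prog.pop b, Prog.push (b + 4) true])
        (seqs [Prog.pop b, Prog.push (b + 3) true]))
      Prog.skip
      (Prog.cond b Prog.skip
        (seqs [Prog.pop b, Prog.push (b + 1) false, Prog.pop (b + 3)])
        (seqs [Prog.pop b, Prog.push (b + 1) true, Prog.pop (b + 3)])))
    Prog.skip
    (Prog.cond b Prog.skip
      (seqs [Prog.pop b, Prog.push (b + 2) false])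
      (seqs [Prog.pop b, Prog.push (b + 2) true]))

theorem exec_passLoop (A : Oracle) (b : ℕ) (s : ℕ → List Bool) (h1 : s (b + 1) = [])
    (h2 : s (b + 2) = []) (h3 : s (b + 3) = []) (h4 : s (b + 4) = []) :
    ∃ s', Exec A (Prog.loop b (passBody b)) s s' ((s b).length * 11 + 1) ∧ s' b = [] ∧
      s' (b + 1) = (hdb (s b)).reverse ∧ s' (b + 2) = (tlb (s b)).reverse ∧
      (s' (b + 3)).length ≤ 1 ∧ (s' (b + 4)).length ≤ 1 ∧
      ∀ m, (m < b ∨ b + 4 < m) → s' m = s m := by
  obtain ⟨s', e1, e2, e3⟩ := exec_loop_inv (A := A) (i := b) (N := 10) (p := passBody b)
    (Inv := fun l t => ∃ (f1 f2 : Bool),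
      ps f1 f2 l (t (b + 1)) (t (b + 2)) = ps false false (s b) [] [] ∧
      t (b + 3) = (if f1 then [true] else []) ∧ t (b + 4) = (if f2 then [true] else []) ∧
      ∀ m, (m < b ∨ b + 4 < m) → t m = s m) (by
      rintro c l t ht ⟨f1, f2, hps, t3, t4, hoth⟩
      have p1 := exec_pop A t b
      rw [ht, List.tail_cons] at p1
      cases f2 with
      | true =>
        simp only [if_true] at t4
        have p2 := exec_push A (Function.update t b l) (b + 2) c
        rw [Function.update_of_ne (by omega)] at p2
        have p3 := exec_seqs_cons p1 (exec_seqs_cons p2 (exec_seqs_nil A _))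
        refine ⟨Function.update (Function.update t b l) (b + 2) (c :: t (b + 2)),
          (exec_cond_cons (b := true) t4 (exec_cond_cons (b := c) ht (by
          cases c
          · simpa using p3
          · simpa using p3))).mono (by norm_num), ?_, f1, true, ?_, ?_, ?_, ?_⟩
        · rw [Function.update_of_ne (by omega), Function.update_self]
        · rw [Function.update_of_ne (by omega), Function.update_of_ne (by omega),
            Function.update_self, ← hps]
          cases f1 <;> simp only [ps]
        · rw [Function.update_of_ne (by omega), Function.update_of_ne (by omega), t3]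
        · rw [Function.update_of_ne (by omega), Function.update_of_ne (by omega), t4]
          rfl
        · intro m hm
          rw [Function.update_of_ne (by omega), Function.update_of_ne (by omega)]
          exact hoth m hm
      | false =>
        simp only [Bool.false_eq_true, if_false] at t4
        cases f1 with
        | false =>
          simp only [Bool.false_eq_true, if_false] at t3
          cases c with
          | false =>
            have p2 := exec_push A (Function.update t b l) (b + 4) true
            rw [Function.update_of_ne (by omega)] at p2
            have p3 := exec_seqs_cons p1 (exec_seqs_cons p2 (exec_seqs_nil A _))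
            refine ⟨_, (exec_cond_nil t4 (exec_cond_nil t3
              (exec_cond_cons (b := false) ht p3))).mono (by norm_num), ?_, false, true, ?_, ?_,
              ?_, ?_⟩
            · rw [Function.update_of_ne (by omega), Function.update_self]
            · rw [Function.update_of_ne (by omega), Function.update_of_ne (by omega),
                Function.update_of_ne (by omega), Function.update_of_ne (by omega), ← hps]
              simp only [ps]
            · rw [Function.update_of_ne (by omega), Function.update_of_ne (by omega), t3]
              rfl
            · rw [Function.update_self, t4]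
              rfl
            · intro m hm
              rw [Function.update_of_ne (by omega), Function.update_of_ne (by omega)]
              exact hoth m hm
          | true =>
            have p2 := exec_push A (Function.update t b l) (b + 3) true
            rw [Function.update_of_ne (by omega)] at p2
            have p3 := exec_seqs_cons p1 (exec_seqs_cons p2 (exec_seqs_nil A _))
            refine ⟨_, (exec_cond_nil t4 (exec_cond_nil t3
              (exec_cond_cons (b := true) ht p3))).mono (by norm_num), ?_, true, false, ?_, ?_,
              ?_, ?_⟩
            · rw [Function.update_of_ne (by omega), Function.update_self]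
            · rw [Function.update_of_ne (by omega), Function.update_of_ne (by omega),
                Function.update_of_ne (by omega), Function.update_of_ne (by omega), ← hps]
              simp only [ps]
            · rw [Function.update_self, t3]
              rfl
            · rw [Function.update_of_ne (by omega), Function.update_of_ne (by omega), t4]
              rfl
            · intro m hm
              rw [Function.update_of_ne (by omega), Function.update_of_ne (by omega)]
              exact hoth m hm
        | true =>
          simp only [if_true] at t3
          have p2 := exec_push A (Function.update t b l) (b + 1) c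
          rw [Function.update_of_ne (by omega)] at p2
          have p2' := exec_pop A (Function.update (Function.update t b l) (b + 1)
            (c :: t (b + 1))) (b + 3)
          rw [Function.update_of_ne (by omega), Function.update_of_ne (by omega), t3,
            List.tail_cons] at p2'
          have p3 := exec_seqs_cons p1 (exec_seqs_cons p2 (exec_seqs_cons p2'
            (exec_seqs_nil A _)))
          refine ⟨Function.update (Function.update (Function.update t b l) (b + 1)
            (c :: t (b + 1))) (b + 3) [], (exec_cond_nil t4 (exec_cond_cons (b := true) t3
            (exec_cond_cons (b := c) ht (by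
            cases c
            · simpa using p3
            · simpa using p3)))).mono (by norm_num), ?_, false, false, ?_, ?_, ?_, ?_⟩
          · rw [Function.update_of_ne (by omega), Function.update_of_ne (by omega),
              Function.update_self]
          · rw [Function.update_of_ne (by omega), Function.update_self,
              Function.update_of_ne (by omega), Function.update_of_ne (by omega),
              Function.update_of_ne (by omega), ← hps]
            simp only [ps]
          · rw [Function.update_self]
            rfl
          · rw [Function.update_of_ne (by omega), Function.update_of_ne (by omega),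
              Function.update_of_ne (by omega), t4]
            rfl
          · intro m hm
            rw [Function.update_of_ne (by omega), Function.update_of_ne (by omega),
              Function.update_of_ne (by omega)]
            exact hoth m hm) (s b) s rfl
    ⟨false, false, by rw [h1, h2], by rw [h3]; rfl, by rw [h4]; rfl, fun _ _ => rfl⟩
  obtain ⟨f1, f2, hps, t3, t4, hoth⟩ := e3
  have hr : (s' (b + 1), s' (b + 2)) = ps false false (s b) [] [] := by
    rw [← hps]
    cases f1 <;> cases f2 <;> simp only [ps]
  refine ⟨s', e1, e2, ?_, ?_, ?_, ?_, hoth⟩
  · unfold hdb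
    rw [← hr, List.reverse_reverse]
  · unfold tlb
    rw [← hr, List.reverse_reverse]
  · rw [t3]
    cases f1 <;> simp
  · rw [t4]
    cases f2 <;> simp

/-- one pass -/
def pass (b i : ℕ) : Prog :=
  seqs [Prog.loop b (passBody b), Prog.loop (b + 3) (Prog.pop (b + 3)),
    Prog.loop (b + 4) (Prog.pop (b + 4)), moveAll (b + 1) i, moveAll (b + 2) b]

theorem exec_pass (A : Oracle) (b i : ℕ) (hi : i < b) (s : ℕ → List Bool)
    (hs : ∀ m, b + 1 ≤ m → m ≤ b + 4 → s m = []) (hsi : s i = []) :
    ∃ s', Exec A (pass b i) s s' ((s b).length * 16 + 15) ∧ s' b = tlb (s b) ∧
      s' i = hdb (s b) ∧ (∀ m, b + 1 ≤ m → m ≤ b + 4 → s' m = []) ∧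
      ∀ m, m ≠ i → (m < b ∨ b + 4 < m) → s' m = s m := by
  obtain ⟨s1, e1, a0, a1, a2, a3, a4, ao⟩ := exec_passLoop A b s (hs _ (by omega) (by omega))
    (hs _ (by omega) (by omega)) (hs _ (by omega) (by omega)) (hs _ (by omega) (by omega))
  have e2 := exec_clear A (b + 3) _ s1 rfl
  set s2 := Function.update s1 (b + 3) [] with hs2
  have b4 : s2 (b + 4) = s1 (b + 4) := by rw [hs2, Function.update_of_ne (by omega)]
  have e3 := exec_clear A (b + 4) _ s2 rfl
  set s3 := Function.update s2 (b + 4) [] with hs3
  have c1 : s3 (b + 1) = (hdb (s b)).reverse := by
    rw [hs3, Function.update_of_ne (by omega), hs2, Function.update_of_ne (by omega), a1]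
  have c2 : s3 (b + 2) = (tlb (s b)).reverse := by
    rw [hs3, Function.update_of_ne (by omega), hs2, Function.update_of_ne (by omega), a2]
  have c3 : s3 (b + 3) = [] := by
    rw [hs3, Function.update_of_ne (by omega), hs2, Function.update_self]
  have c4 : s3 (b + 4) = [] := by rw [hs3, Function.update_self]
  have ci : s3 i = [] := by
    rw [hs3, Function.update_of_ne (by omega), hs2, Function.update_of_ne (by omega),
      ao i (by omega), hsi]
  have cb : s3 b = [] := by
    rw [hs3, Function.update_of_ne (by omega), hs2, Function.update_of_ne (by omega), a0]
  obtain ⟨s4, e4, d1, d2, d3⟩ := exec_moveAll A (show b + 1 ≠ i by omega) s3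
  rw [c1] at e4 d2
  rw [List.reverse_reverse, ci, List.append_nil] at d2
  obtain ⟨s5, e5, f1, f2, f3⟩ := exec_moveAll A (show b + 2 ≠ b by omega) s4
  have g2 : s4 (b + 2) = (tlb (s b)).reverse := by rw [d3 _ (by omega) (by omega), c2]
  have gb : s4 b = [] := by rw [d3 _ (by omega) (by omega), cb]
  rw [g2] at e5 f2
  rw [List.reverse_reverse, gb, List.append_nil] at f2
  refine ⟨s5, ?_, f2, ?_, ?_, ?_⟩
  · refine (exec_seqs_cons e1 (exec_seqs_cons e2 (exec_seqs_cons e3 (exec_seqs_cons e4
      (exec_seqs_cons e5 (exec_seqs_nil _ _)))))).mono ?_
    have h1 := length_hdb_tlb (s b)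
    rw [b4, List.length_reverse, List.length_reverse]
    omega
  · rw [f3 i (by omega) (by omega), d2]
  · intro m h1 h2
    rcases Nat.lt_or_ge m (b + 2) with h3 | h3
    · have : m = b + 1 := by omega
      subst this
      rw [f3 _ (by omega) (by omega), d1]
    · rcases Nat.lt_or_ge m (b + 3) with h4 | h4
      · have : m = b + 2 := by omega
        subst this
        exact f1
      · rw [f3 _ (by omega) (by omega), d3 _ (by omega) (by omega)]
        rcases Nat.lt_or_ge m (b + 4) with h5 | h5
        · have : m = b + 3 := by omega
          subst this
          exact c3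
        · have : m = b + 4 := by omega
          subst this
          exact c4
  · intro m hm1 hm2
    rw [f3 _ (by omega) (by omega), d3 _ (by omega) (by omega), hs3,
      Function.update_of_ne (by omega), hs2, Function.update_of_ne (by omega), ao m hm2]

/-- several passes -/
def passes (b : ℕ) : ℕ → ℕ → Prog
  | _, 0 => Prog.skip
  | i, n + 1 => Prog.seq (pass b i) (passes b (i + 1) n)

theorem exec_passes (A : Oracle) (b : ℕ) : ∀ (n i : ℕ), i + n ≤ b → ∀ s : ℕ → List Bool,
    (∀ m, b + 1 ≤ m → m ≤ b + 4 → s m = []) → (∀ m, i ≤ m → m < i + n → s m = []) →
    ∃ s', Exec A (passes b i n) s s' (n * ((s b).length * 16 + 16) + 1) ∧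
      s' b = rst n (s b) ∧ (∀ j, j < n → s' (i + j) = (blks n (s b)).getD j []) ∧
      (∀ m, b + 1 ≤ m → m ≤ b + 4 → s' m = []) ∧
      ∀ m, (m < i ∨ i + n ≤ m) → (m < b ∨ b + 4 < m) → s' m = s m := by
  intro n
  induction n with
  | zero =>
    intro i _ s hs _
    refine ⟨s, (exec_skip A s).mono (by simp), rfl, fun j hj => absurd hj (by omega), hs,
      fun _ _ _ => rfl⟩
  | succ n ih =>
    intro i hib s hs hsi
    obtain ⟨s1, e1, a1, a2, a3, a4⟩ := exec_pass A b i (by omega) s hs
      (hsi i le_rfl (by omega))
    obtain ⟨s2, e2, b1, b2, b3, b4⟩ := ih (i + 1) (by omega) s1 a3 (by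
      intro m h1 h2
      rw [a4 m (by omega) (by omega)]
      exact hsi m (by omega) (by omega))
    rw [a1] at e2 b1 b2
    refine ⟨s2, (e1.seq e2).mono ?_, b1, ?_, b3, ?_⟩
    · have h1 := length_hdb_tlb (s b)
      have h2 : n * ((tlb (s b)).length * 16 + 16) ≤ n * ((s b).length * 16 + 16) :=
        Nat.mul_le_mul_left n (by omega)
      have h3 : (n + 1) * ((s b).length * 16 + 16) =
          n * ((s b).length * 16 + 16) + ((s b).length * 16 + 16) := by ring
      omega
    · intro j hj
      cases j with
      | zero =>
        rw [Nat.add_zero, b4 i (by omega) (by omega), a2]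
        rfl
      | succ j =>
        have h1 := b2 j (by omega)
        rw [show i + 1 + j = i + (j + 1) by omega] at h1
        rw [h1]
        rfl
    · intro m hm1 hm2
      rw [b4 m (by omega) hm2, a4 m (by omega) hm2]

/-- conversion of the inputs -/
def conv (k : ℕ) : Prog :=
  seqs [moveAll 1 (k + 3), moveAll (k + 3) (k + 2), passes (k + 2) 1 k,
    Prog.loop (k + 2) (Prog.pop (k + 2))]

theorem exec_conv (A : Oracle) (k : ℕ) (x v : List Bool) :
    Exec A (conv k) (fun i => [x, v].getD i []) (fun i => (x :: blks k v).getD i [])
      ((k + 2) * (v.length * 16 + 16) + 10) := by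
  set s0 : ℕ → List Bool := fun i => [x, v].getD i [] with hs0
  have h01 : s0 1 = v := rfl
  have h00 : s0 0 = x := rfl
  have h0m : ∀ m, 2 ≤ m → s0 m = [] := by
    intro m hm
    rw [hs0]
    simp only
    rw [List.getD_eq_default]
    simpa using hm
  obtain ⟨s1, e1, a1, a2, a3⟩ := exec_moveAll A (show 1 ≠ k + 3 by omega) s0
  rw [h01] at e1 a2
  rw [h0m (k + 3) (by omega), List.append_nil] at a2
  obtain ⟨s2, e2, b1, b2, b3⟩ := exec_moveAll A (show k + 3 ≠ k + 2 by omega) s1
  rw [a2] at e2 b2
  rw [List.reverse_reverse, a3 (k + 2) (by omega) (by omega), h0m (k + 2) (by omega),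
    List.append_nil] at b2
  obtain ⟨s3, e3, c1, c2, c3, c4⟩ := exec_passes A (k + 2) k 1 (by omega) s2 (by
    intro m h1 h2
    rcases Nat.lt_or_ge m (k + 4) with h3 | h3
    · have : m = k + 3 := by omega
      subst this
      exact b1
    · rw [b3 m (by omega) (by omega), a3 m (by omega) (by omega), h0m m (by omega)]) (by
    intro m h1 h2
    rw [b3 m (by omega) (by omega)]
    rcases Nat.lt_or_ge m 2 with h3 | h3
    · have : m = 1 := by omega
      subst this
      exact a1
    · rw [a3 m (by omega) (by omega), h0m m h3])
  rw [b2] at e3 c1 c2
  have e4 := exec_clear A (k + 2) _ s3 rfl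
  rw [c1] at e4
  have hfin : Function.update s3 (k + 2) [] = fun i => (x :: blks k v).getD i [] := by
    funext i
    rcases Nat.eq_zero_or_pos i with hi | hi
    · subst hi
      rw [Function.update_of_ne (by omega), c4 0 (by omega) (by omega),
        b3 0 (by omega) (by omega), a3 0 (by omega) (by omega), h00]
      rfl
    · obtain ⟨j, rfl⟩ : ∃ j, i = j + 1 := ⟨i - 1, by omega⟩
      rw [List.getD_cons_succ]
      rcases Nat.lt_or_ge j k with hj | hj
      · rw [Function.update_of_ne (by omega), Nat.add_comm j 1, c2 j hj]
      · have hnil : (blks k v).getD j [] = [] := by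
          rw [List.getD_eq_default]
          rw [blks_length]
          exact hj
        rw [hnil]
        rcases Nat.lt_or_ge (j + 1) (k + 2) with h1 | h1
        · rw [Function.update_of_ne (by omega)]
          have : j = k := by omega
          subst this
          rw [c4 (j + 1) (by omega) (by omega), b3 _ (by omega) (by omega)]
          rcases Nat.eq_zero_or_pos j with h2 | h2
          · subst h2
            exact a1
          · rw [a3 _ (by omega) (by omega), h0m _ (by omega)]
        · rcases Nat.eq_or_lt_of_le h1 with h2 | h2
          · rw [← h2, Function.update_self]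
          · rw [Function.update_of_ne (by omega)]
            rcases Nat.lt_or_ge (j + 1) (k + 7) with h3 | h3
            · exact c3 _ (by omega) (by omega)
            · rw [c4 _ (by omega) (by omega), b3 _ (by omega) (by omega),
                a3 _ (by omega) (by omega), h0m _ (by omega)]
  have hlen := totalLength_blks k v
  rw [← hfin]
  refine (exec_seqs_cons e1 (exec_seqs_cons e2 (exec_seqs_cons e3 (exec_seqs_cons e4
    (exec_seqs_nil _ _))))).mono ?_
  rw [List.length_reverse]
  have h3 : (k + 2) * (v.length * 16 + 16) =
      k * (v.length * 16 + 16) + 2 * (v.length * 16 + 16) := by ring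
  omega

theorem sigmaP_sub_ap (A : Oracle) (k : ℕ) : SigmaP A k ⊆ AP A := by
  rintro L ⟨q, p, ⟨T, hT⟩, hL⟩
  refine ⟨Polynomial.C k, q, Prog.seq (conv k) p, ?_, ?_⟩
  · refine ⟨T + (Polynomial.C (k + 2) * (Polynomial.X * 16 + 16) + 10) + 1, ?_⟩
    intro xs hxs
    match xs, hxs with
    | [x, v], _ =>
      have h1 := halts_seq (exec_conv A k x v) (hT (x :: blks k v) (by simp [blks_length]))
      rw [run_of_halted h1]
      · exact h1
      · have h2 : totalLength (x :: blks k v) ≤ totalLength [x, v] := by
          have := totalLength_blks k v
          simp only [totalLength, List.map_cons, List.map_nil, List.sum_cons, List.sum_nil]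
            at this ⊢
          omega
        have h3 := poly_mono T h2
        have h4 : v.length ≤ totalLength [x, v] := by simp [totalLength]
        have h5 : (k + 2) * (v.length * 16 + 16) ≤
            (k + 2) * (totalLength [x, v] * 16 + 16) := Nat.mul_le_mul_left _ (by omega)
        simp only [Polynomial.eval_add, Polynomial.eval_mul, Polynomial.eval_X,
          Polynomial.eval_ofNat, Polynomial.eval_C, Polynomial.eval_one]
        omega
  · intro x
    rw [hL x, Polynomial.eval_C, Alt_eq, Alt_eq]
    apply AltL_congr
    intro us hus
    have hlen : us.length = k := by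
      have := congrArg List.length hus
      simpa using this
    have h1 := exec_conv A k x (enc us)
    have h2 : blks k (enc us) = us := by
      rw [← hlen]
      exact blks_enc us
    rw [h2] at h1
    exact (accepts_seq h1).symm

end Pool.Agent.H8v
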