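import Mathlib
import Pool.Agent.H9.Machine

/-!
The counting class `SPP` relative to an oracle.
-/

set_option autoImplicit false

namespace Pool.Agent.H7s

open Pool.Agent.H9

/-- The number of certificates of length `m` which the machine `p` accepts together with the
input `x`. The functions `x ↦ cnt A p (q(|x|)) x`, for polynomial-time `p`, form `#P^A`. -/
noncomputable def cnt (A : Oracle) (p : Prog) (m : ℕ) (x : List Bool) : ℕ :=
  {u : List Bool | u.length = m ∧ Accepts A p [x, u]}.ncard

/-- The class `SPP^A`: the characteristic function of the language is the difference of two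
functions in `#P^A`. -/
def SPP (A : Oracle) : Set (Set (List Bool)) :=
  {L | ∃ (q q' : Polynomial ℕ) (p p' : Prog), PolyTime A 2 p ∧ PolyTime A 2 p' ∧
    ∀ x : List Bool,
      (x ∈ L → cnt A p (q.eval x.length) x = cnt A p' (q'.eval x.length) x + 1) ∧
      (x ∉ L → cnt A p (q.eval x.length) x = cnt A p' (q'.eval x.length) x)}

end Pool.Agent.H7s
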