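import Mathlib
import Pool.Agent.H7.SppDef
import Pool.Agent.H7.VMachine

/-!
`PSPACE` is contained in `SPP` relative to the closure oracle.
-/

set_option autoImplicit false

namespace Pool.Agent.H7s

open Classical
open Pool.Agent.H9
open Pool.Agent.H8v
open Pool.Agent.H8u (Cd wrd hid hid_length bitv wrd_inj wrd_length bitv_cons totalLength_cons_of
  codeTime_mono)
open Pool.Agent.H8d (exec_avoids avoids_mkCode)

/-! ### A loop with exactly `N` rounds -/

/-- the body of the loop: counter on stack 7, flag on stack 8 -/
def iterBody (rp : Prog) : Prog :=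
  Prog.cond 8 (Prog.cond 7 Prog.skip (Prog.seq (Prog.pop 7) (Prog.push 8 true))
    (Prog.seq (Prog.pop 7) rp)) (Prog.pop 7) (Prog.pop 7)

theorem exec_iterLoop (O : Oracle) (rp : Prog) (φ : List Bool → List Bool)
    (hrp : ∀ s : ℕ → List Bool, Exec O rp s (Function.update s 2 (φ (s 2))) 20)
    (N : ℕ) (rest z : List Bool) (s : ℕ → List Bool)
    (h7 : s 7 = List.replicate N true ++ false :: rest) (h8 : s 8 = []) (h2 : s 2 = z)
    (h0 : s 0 = []) :
    ∃ s', Exec O (Prog.loop 7 (iterBody rp)) s s' ((s 7).length * (25 + 1) + 1) ∧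
      s' 2 = φ^[N] z ∧ s' 0 = [] := by
  obtain ⟨s', h3, h4, h5⟩ := exec_loop_inv (A := O) (i := 7) (N := 25) (p := iterBody rp)
    (Inv := fun l t => t 0 = [] ∧
      ((∃ i j, l = List.replicate j true ++ false :: rest ∧ i + j = N ∧
        t 2 = φ^[i] z ∧ t 8 = []) ∨ (t 8 = [true] ∧ t 2 = φ^[N] z))) (by
      rintro b l t ht ⟨ht0, hI⟩
      rcases hI with ⟨i, j, hl, hij, ht2, ht8⟩ | ⟨ht8, ht2⟩
      · cases j with
        | zero =>
          simp only [List.replicate_zero, List.nil_append, List.cons.injEq] at hl
          obtain ⟨rfl, rfl⟩ := hl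
          have g1 := exec_pop O t 7
          rw [ht, List.tail_cons] at g1
          have g2 := exec_push O (Function.update t 7 l) 8 true
          rw [Function.update_of_ne (show (8 : ℕ) ≠ 7 by norm_num), ht8] at g2
          refine ⟨Function.update (Function.update t 7 l) 8 [true], ?_, ?_, ?_, Or.inr ⟨?_, ?_⟩⟩
          · have g3 : Exec O (Prog.cond 7 Prog.skip (Prog.seq (Prog.pop 7) (Prog.push 8 true))
                (Prog.seq (Prog.pop 7) rp)) t
                (Function.update (Function.update t 7 l) 8 [true]) (3 + 1) := by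
              apply exec_cond_cons ht
              simpa using g1.seq g2
            exact (exec_cond_nil ht8 g3).mono (by norm_num)
          · simp [Function.update_of_ne]
          · simp [Function.update_of_ne, ht0]
          · simp
          · rw [Function.update_of_ne (by norm_num), Function.update_of_ne (by norm_num), ht2]
            have : i = N := by omega
            rw [this]
        | succ j =>
          simp only [List.replicate_succ, List.cons_append, List.cons.injEq] at hl
          obtain ⟨rfl, rfl⟩ := hl
          have g1 := exec_pop O t 7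
          rw [ht, List.tail_cons] at g1
          set t1 := Function.update t 7 (List.replicate j true ++ false :: rest) with ht1
          have g2 := hrp t1
          have a12 : t1 2 = φ^[i] z := by
            rw [ht1, Function.update_of_ne (by norm_num), ht2]
          refine ⟨Function.update t1 2 (φ (t1 2)), ?_, ?_, ?_, Or.inl ⟨i + 1, j, rfl, by omega,
            ?_, ?_⟩⟩
          · have g3 : Exec O (Prog.cond 7 Prog.skip (Prog.seq (Prog.pop 7) (Prog.push 8 true))
                (Prog.seq (Prog.pop 7) rp)) t
                (Function.update t1 2 (φ (t1 2))) ((1 + 20 + 1) + 1) := by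
              apply exec_cond_cons ht
              simpa using g1.seq g2
            exact (exec_cond_nil ht8 g3).mono (by norm_num)
          · rw [Function.update_of_ne (by norm_num), ht1, Function.update_self]
          · rw [Function.update_of_ne (by norm_num), ht1, Function.update_of_ne (by norm_num),
              ht0]
          · rw [Function.update_self, a12, Function.iterate_succ_apply']
          · rw [Function.update_of_ne (by norm_num), ht1, Function.update_of_ne (by norm_num),
              ht8]
      · have g1 := exec_pop O t 7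
        rw [ht, List.tail_cons] at g1
        refine ⟨Function.update t 7 l, ?_, ?_, ?_, Or.inr ⟨?_, ?_⟩⟩
        · refine (exec_cond_cons (b := true) (l := []) ht8 ?_).mono (show 1 + 1 ≤ 25 by norm_num)
          simpa using g1
        · simp
        · simp [Function.update_of_ne, ht0]
        · simp [Function.update_of_ne, ht8]
        · simp [Function.update_of_ne, ht2]) (s 7) s rfl
      ⟨h0, Or.inl ⟨0, N, h7, by omega, h2, h8⟩⟩
  refine ⟨s', h3, ?_, h5.1⟩
  rcases h5.2 with ⟨i, j, hl, _⟩ | ⟨_, h6⟩
  · exact absurd hl (by simp)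
  · exact h6

/-- push two ones on stack 2 -/
def two : Prog := seqs [Prog.push 2 true, Prog.push 2 true]

theorem exec_two (O : Oracle) (s : ℕ → List Bool) :
    Exec O two s (Function.update s 2 (true :: true :: s 2)) 20 := by
  have e1 := exec_push O s 2 true
  have e2 := exec_push O (Function.update s 2 (true :: s 2)) 2 true
  rw [Function.update_self, Function.update_idem] at e2
  exact (exec_seqs_cons e1 (exec_seqs_cons e2 (exec_seqs_nil _ _))).mono (by norm_num)

theorem iterate_two (N : ℕ) (z : List Bool) :
    (fun z : List Bool => true :: true :: z)^[N] z = List.replicate (2 * N) true ++ z := by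
  induction N generalizing z with
  | zero => simp
  | succ N ih =>
    rw [Function.iterate_succ_apply, ih]
    have : 2 * (N + 1) = (2 * N) + 1 + 1 := by ring
    rw [this, List.replicate_succ', List.replicate_succ', List.append_assoc, List.append_assoc]
    rfl

/-! ### The program -/

/-- write `true :: 1^{2N} 0 u code(e,x,N)` and query the oracle -/
def sppProg (e κ : ℕ) : Prog :=
  seqs [moveAll 1 6, mkCode e κ,
    Prog.loop 2 (Prog.cond 2 Prog.skip
      (seqs [Prog.pop 2, Prog.push 9 false, Prog.push 7 false])
      (seqs [Prog.pop 2, Prog.push 9 true, Prog.push 7 true])),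
    moveAll 9 2, moveAll 6 2, Prog.push 2 false, Prog.loop 7 (iterBody two), Prog.push 2 true,
    Prog.ask 2 (Prog.push 0 true) (Prog.push 0 false)]

/-- time bound -/
def sppTime (e κ n : ℕ) : ℕ :=
  codeTime e κ n + 50 * (e + 2 * n + (n + 2) ^ 2 ^ κ + 2) + 20 * n + 100

theorem exec_sppProg (O : Oracle) (e κ : ℕ) (x v : List Bool) :
    ∃ s', Exec O (sppProg e κ) (fun j => [x, v].getD j []) s'
      (sppTime e κ (totalLength [x, v])) ∧
      ((s' 0).head? = some true ↔
        O (true :: (List.replicate (2 * (x.length + 2) ^ 2 ^ κ) true ++ false ::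
          (v ++ code e x ((x.length + 2) ^ 2 ^ κ)))) = true) := by
  set s0 : ℕ → List Bool := fun j => [x, v].getD j [] with hs0
  have hsmall : ∀ i, 2 ≤ i → s0 i = [] := by
    intro i hi
    rw [hs0]
    simp only
    rw [List.getD_eq_default]
    simpa using hi
  have h00 : s0 0 = x := rfl
  have h01 : s0 1 = v := rfl
  set N := (x.length + 2) ^ 2 ^ κ with hN
  obtain ⟨s1, e1, a1, a6, ao⟩ := exec_moveAll O (show (1 : ℕ) ≠ 6 by norm_num) s0
  rw [h01, hsmall 6 (by norm_num), List.append_nil] at a6
  rw [h01] at e1
  have a0 : s1 0 = x := by rw [ao 0 (by norm_num) (by norm_num), h00]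
  have as : ∀ i, 2 ≤ i → i ≠ 6 → s1 i = [] := by
    intro i h1 h2
    rw [ao i (by omega) h2]
    exact hsmall i h1
  obtain ⟨s2, e2, b2, b0⟩ := exec_mkCode O e κ s1 a1 (as 2 (by omega) (by omega))
    (as 3 (by omega) (by omega)) (as 4 (by omega) (by omega)) (as 5 (by omega) (by omega))
  rw [a0] at e2 b2
  rw [← hN] at b2
  have hav : ∀ i, 6 ≤ i → s2 i = s1 i := fun i hi =>
    exec_avoids e2 (avoids_mkCode hi e κ)
  -- the copy loop
  obtain ⟨s3, e3, c2, c9, c7, c8, c0, c6⟩ := exec_loop_inv (A := O) (i := 2) (N := 8)
    (p := Prog.cond 2 Prog.skip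
      (seqs [Prog.pop 2, Prog.push 9 false, Prog.push 7 false])
      (seqs [Prog.pop 2, Prog.push 9 true, Prog.push 7 true]))
    (Inv := fun l t => l.reverse ++ t 9 = (s2 2).reverse ∧ l.reverse ++ t 7 = (s2 2).reverse ∧
      t 8 = [] ∧ t 0 = [] ∧ t 6 = v.reverse) (by
      rintro b l t ht ⟨hI6, hI7, hI8, hI0, hIv⟩
      refine ⟨Function.update (Function.update (Function.update t 2 l) 9 (b :: t 9)) 7
        (b :: t 7), ?_, ?_, ?_, ?_, ?_, ?_, ?_⟩
      · apply exec_cond_cons ht
        have g1 := exec_pop O t 2
        rw [ht, List.tail_cons] at g1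
        have g2 := exec_push O (Function.update t 2 l) 9 b
        have g3 := exec_push O (Function.update (Function.update t 2 l) 9 (b :: t 9)) 7 b
        simp only [Function.update_of_ne (show (9 : ℕ) ≠ 2 by norm_num)] at g2
        simp only [Function.update_of_ne (show (7 : ℕ) ≠ 9 by norm_num),
          Function.update_of_ne (show (7 : ℕ) ≠ 2 by norm_num)] at g3
        have g4 := exec_seqs_cons g1 (exec_seqs_cons g2 (exec_seqs_cons g3 (exec_seqs_nil _ _)))
        cases b
        · simpa using g4
        · simpa using g4
      · simp [Function.update_of_ne]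
      · rw [Function.update_of_ne (by norm_num), Function.update_self]
        rw [← hI6]
        simp
      · rw [Function.update_self]
        rw [← hI7]
        simp
      · simp [Function.update_of_ne, hI8]
      · simp [Function.update_of_ne, hI0]
      · simp [Function.update_of_ne, hIv]) (s2 2) s2 rfl
      ⟨by rw [hav 9 (by norm_num), as 9 (by norm_num) (by norm_num), List.append_nil],
        by rw [hav 7 (by norm_num), as 7 (by norm_num) (by norm_num), List.append_nil],
        by rw [hav 8 (by norm_num), as 8 (by norm_num) (by norm_num)], b0,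
        by rw [hav 6 (by norm_num), a6]⟩
  simp only [List.reverse_nil, List.nil_append] at c9 c7
  -- move back
  obtain ⟨s4, e4, _, d2, do'⟩ := exec_moveAll O (show (9 : ℕ) ≠ 2 by norm_num) s3
  rw [c9, c2, List.append_nil, List.reverse_reverse] at d2
  have d7 : s4 7 = (s2 2).reverse := by rw [do' 7 (by norm_num) (by norm_num), c7]
  have d8 : s4 8 = [] := by rw [do' 8 (by norm_num) (by norm_num), c8]
  have d0 : s4 0 = [] := by rw [do' 0 (by norm_num) (by norm_num), c0]
  have d6 : s4 6 = v.reverse := by rw [do' 6 (by norm_num) (by norm_num), c6]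
  obtain ⟨s5, e5, _, f2, fo⟩ := exec_moveAll O (show (6 : ℕ) ≠ 2 by norm_num) s4
  rw [d6, List.reverse_reverse, d2, b2] at f2
  rw [d6] at e5
  have f7 : s5 7 = (s2 2).reverse := by rw [fo 7 (by norm_num) (by norm_num), d7]
  have f8 : s5 8 = [] := by rw [fo 8 (by norm_num) (by norm_num), d8]
  have f0 : s5 0 = [] := by rw [fo 0 (by norm_num) (by norm_num), d0]
  have e6 := exec_push O s5 2 false
  set s6 := Function.update s5 2 (false :: s5 2) with hs6
  have g2 : s6 2 = false :: (v ++ code e x N) := by rw [hs6, Function.update_self, f2]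
  have g7 : s6 7 = List.replicate N true ++ false ::
      ((x.flatMap (fun b => [true, b])).reverse ++ false :: List.replicate e true) := by
    rw [hs6, Function.update_of_ne (by norm_num), f7, b2]
    simp [code]
  have g8 : s6 8 = [] := by rw [hs6, Function.update_of_ne (by norm_num), f8]
  have g0 : s6 0 = [] := by rw [hs6, Function.update_of_ne (by norm_num), f0]
  obtain ⟨s7, e7, k2, k0⟩ := exec_iterLoop O two (fun z => true :: true :: z) (exec_two O) N _
    (false :: (v ++ code e x N)) s6 g7 g8 g2 g0
  rw [iterate_two] at k2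
  have e8 := exec_push O s7 2 true
  set s8 := Function.update s7 2 (true :: s7 2) with hs8
  have m2 : s8 2 = true :: (List.replicate (2 * N) true ++ false :: (v ++ code e x N)) := by
    rw [hs8, Function.update_self, k2]
  have hlen6 : (s6 7).length = e + 2 * x.length + N + 2 := by
    rw [hs6, Function.update_of_ne (by norm_num), f7, b2, List.length_reverse, code_length]
  have htot : totalLength [x, v] = x.length + v.length := by simp [totalLength]
  have hct : codeTime e κ x.length ≤ codeTime e κ (x.length + v.length) :=
    codeTime_mono e κ (by omega)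
  have hNle : N ≤ (x.length + v.length + 2) ^ 2 ^ κ := by
    rw [hN]
    exact Nat.pow_le_pow_left (by omega) _
  have htime : (v.length * 5 + 1) + (codeTime e κ x.length + (((s2 2).length * (8 + 1) + 1) +
      (((s3 9).length * 5 + 1) + ((v.reverse.length * 5 + 1) + (1 + (((s6 7).length * (25 + 1) + 1)
      + (1 + (2 + 1 + 1) + 1) + 1) + 1) + 1) + 1) + 1) + 1) + 1 ≤
      sppTime e κ (totalLength [x, v]) := by
    rw [c9, List.length_reverse, List.length_reverse, b2, code_length, hlen6, htot]
    unfold sppTime
    omega
  by_cases hA : O (true :: (List.replicate (2 * N) true ++ false :: (v ++ code e x N))) = true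
  · refine ⟨Function.update s8 0 (true :: s8 0), ?_, ?_⟩
    · have e9 : Exec O (Prog.ask 2 (Prog.push 0 true) (Prog.push 0 false)) s8
          (Function.update s8 0 (true :: s8 0)) 2 := by
        apply exec_ask
        rw [m2, if_pos hA]
        exact exec_push O s8 0 true
      exact (exec_seqs_cons e1 (exec_seqs_cons e2 (exec_seqs_cons e3 (exec_seqs_cons e4
        (exec_seqs_cons e5 (exec_seqs_cons e6 (exec_seqs_cons e7 (exec_seqs_cons e8
          (exec_seqs_cons e9 (exec_seqs_nil _ _)))))))))).mono htime
    · simp [hA]
  · refine ⟨Function.update s8 0 (false :: s8 0), ?_, ?_⟩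
    · have e9 : Exec O (Prog.ask 2 (Prog.push 0 true) (Prog.push 0 false)) s8
          (Function.update s8 0 (false :: s8 0)) 2 := by
        apply exec_ask
        rw [m2, if_neg hA]
        exact exec_push O s8 0 false
      exact (exec_seqs_cons e1 (exec_seqs_cons e2 (exec_seqs_cons e3 (exec_seqs_cons e4
        (exec_seqs_cons e5 (exec_seqs_cons e6 (exec_seqs_cons e7 (exec_seqs_cons e8
          (exec_seqs_cons e9 (exec_seqs_nil _ _)))))))))).mono htime
    · simp [hA]

theorem sppProg_spec (O : Oracle) (e κ : ℕ) (x v : List Bool) :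
    (run O (sppProg e κ) [x, v] (sppTime e κ (totalLength [x, v]))).1 = [] ∧
      (Accepts O (sppProg e κ) [x, v] ↔
        O (true :: (List.replicate (2 * (x.length + 2) ^ 2 ^ κ) true ++ false ::
          (v ++ code e x ((x.length + 2) ^ 2 ^ κ)))) = true) := by
  obtain ⟨s', h1, h2⟩ := exec_sppProg O e κ x v
  have h3 := run_of_exec h1
  have h4 : (run O (sppProg e κ) [x, v] (sppTime e κ (totalLength [x, v]))).1 = [] := by
    rw [h3]
  refine ⟨h4, ?_⟩
  rw [accepts_iff_of_halted h4]
  unfold AcceptsIn
  rw [h3]
  simp only [true_and]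
  exact h2

theorem polyTime_sppProg (O : Oracle) (e κ : ℕ) : PolyTime O 2 (sppProg e κ) := by
  refine ⟨(Polynomial.C κ *
    (20 * ((Polynomial.X + 2) ^ 2 ^ κ + 1) * ((Polynomial.X + 2) ^ 2 ^ κ + 1) + 1) +
    20 * Polynomial.X + Polynomial.C (2 * e + 30)) +
    50 * (Polynomial.C (e + 2) + 2 * Polynomial.X + (Polynomial.X + 2) ^ 2 ^ κ) +
    20 * Polynomial.X + 100, ?_⟩
  intro xs hxs
  match xs, hxs with
  | [x, v], _ =>
    have h := (sppProg_spec O e κ x v).1
    rw [run_of_halted h]
    · exact h
    · simp only [Polynomial.eval_add, Polynomial.eval_mul, Polynomial.eval_X,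
        Polynomial.eval_ofNat, Polynomial.eval_C, Polynomial.eval_pow, Polynomial.eval_one,
        sppTime, codeTime]
      omega

end Pool.Agent.H7s
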