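import Mathlib
import Pool.Agent.H7.SppMachine

/-!
Counting the true leaves of the trees of hidden blocks.
-/

set_option autoImplicit false

namespace Pool.Agent.H7s

open Classical
open Pool.Agent.H9
open Pool.Agent.H8v
open Pool.Agent.H8u (Cd wrd hid hid_length bitv wrd_inj wrd_length bitv_cons totalLength_cons_of)

/-- all paths of length `j` -/
def Al (N j : ℕ) : Set (List (List Bool)) := {ys | ys.length = j ∧ ∀ y ∈ ys, y.length = N}

/-- the paths of length `j` with bit `b` -/
def Bs (F : Bool) (Y : List Bool → List Bool) (c : Cd) (j : ℕ) (b : Bool) :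
    Set (List (List Bool)) := {ys | ys ∈ Al c.2.2 j ∧ bitv F Y c ys = b}

theorem al_finite (N : ℕ) : ∀ j, (Al N j).Finite := by
  intro j
  induction j with
  | zero =>
    apply Set.Finite.subset (Set.finite_singleton ([] : List (List Bool)))
    rintro ys ⟨h, _⟩
    simpa using h
  | succ j ih =>
    have h1 : {y : List Bool | y.length = N}.Finite := List.finite_length_eq Bool N
    apply Set.Finite.subset (Set.Finite.image2 (fun y ys => y :: ys) h1 ih)
    rintro ys ⟨h, h2⟩
    cases ys with
    | nil => simp at h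
    | cons y ys =>
      exact Set.mem_image2_of_mem (h2 y List.mem_cons_self)
        ⟨by simpa using h, fun z hz => h2 z (List.mem_cons_of_mem _ hz)⟩

theorem bs_sum (F : Bool) (Y : List Bool → List Bool) (c : Cd) (j : ℕ) :
    (Bs F Y c j true).ncard + (Bs F Y c j false).ncard = (Al c.2.2 j).ncard := by
  rw [← Set.ncard_union_eq (hs := (al_finite _ j).subset (fun ys h => h.1))
    (ht := (al_finite _ j).subset (fun ys h => h.1))]
  · congr 1
    ext ys
    simp only [Bs, Set.mem_union, Set.mem_ofPred_eq]
    constructor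
    · rintro (h | h)
      · exact h.1
      · exact h.1
    · intro h
      cases hb : bitv F Y c ys
      · exact Or.inr ⟨h, rfl⟩
      · exact Or.inl ⟨h, rfl⟩
  · rw [Set.disjoint_left]
    intro ys h1 h2
    have := h1.2.symm.trans h2.2
    simp at this

theorem bs_succ (F : Bool) (Y : List Bool → List Bool) (c : Cd) (j : ℕ) :
    (Bs F Y c (j + 1) true).ncard = (Bs F Y c j false).ncard := by
  rw [← Set.InjOn.ncard_image (f := fun ys => hid Y c.2.2 (wrd c ys) :: ys)
    (s := Bs F Y c j false) (fun a _ b _ h => by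
      simp only [List.cons.injEq] at h
      exact h.2)]
  congr 1
  ext ys
  simp only [Bs, Set.mem_ofPred_eq, Set.mem_image]
  constructor
  · rintro ⟨⟨h1, h2⟩, h3⟩
    cases ys with
    | nil => simp at h1
    | cons y ys =>
      rw [bitv_cons] at h3
      refine ⟨ys, ⟨⟨by simpa using h1, fun z hz => h2 z (List.mem_cons_of_mem _ hz)⟩, h3.2⟩, ?_⟩
      rw [← h3.1]
  · rintro ⟨zs, ⟨⟨h1, h2⟩, h3⟩, rfl⟩
    refine ⟨⟨by simp [h1], ?_⟩, ?_⟩
    · intro y hy
      rcases List.mem_cons.1 hy with rfl | hy
      · exact hid_length _ _ _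
      · exact h2 y hy
    · rw [bitv_cons]
      exact ⟨rfl, h3⟩

theorem bs_zero (F : Bool) (Y : List Bool → List Bool) (c : Cd) :
    (Bs F Y c 0 true).ncard = (!F).toNat := by
  cases F with
  | false =>
    have : Bs false Y c 0 true = {[]} := by
      ext ys
      simp only [Bs, Al, Set.mem_ofPred_eq, Set.mem_singleton_iff]
      constructor
      · rintro ⟨⟨h, _⟩, _⟩
        simpa using h
      · rintro rfl
        simp [bitv]
    rw [this]
    simp
  | true =>
    have : Bs true Y c 0 true = ∅ := by
      ext ys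
      simp only [Bs, Al, Set.mem_ofPred_eq, Set.mem_empty_iff_false, iff_false]
      rintro ⟨⟨h, _⟩, h2⟩
      have : ys = [] := by simpa using h
      subst this
      simp [bitv] at h2
    rw [this]
    simp

/-- The difference of the numbers of true leaves of two trees of the same depth. -/
theorem count_diff (F : Bool) (Y : List Bool → List Bool) (c c0 : Cd) (hN : c.2.2 = c0.2.2) :
    ∀ j : ℕ, (j.bodd = false →
        (Bs false Y c0 j true).ncard = (Bs F Y c j true).ncard + F.toNat) ∧
      (j.bodd = true →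
        (Bs F Y c j true).ncard = (Bs false Y c0 j true).ncard + F.toNat) := by
  intro j
  induction j with
  | zero =>
    constructor
    · intro _
      rw [bs_zero, bs_zero]
      cases F <;> rfl
    · intro h
      simp at h
  | succ j ih =>
    rw [Nat.bodd_succ, bs_succ, bs_succ]
    have h1 := bs_sum F Y c j
    have h2 := bs_sum false Y c0 j
    rw [hN] at h1
    constructor
    · intro h
      have h3 := ih.2 (by simpa using h)
      omega
    · intro h
      have h3 := ih.1 (by simpa using h)
      omega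

/-- every string of length `j N` is the concatenation of `j` strings of length `N` -/
theorem chunks (N : ℕ) : ∀ (j : ℕ) (u : List Bool), u.length = j * N →
    ∃ l : List (List Bool), l.length = j ∧ (∀ y ∈ l, y.length = N) ∧ l.flatten = u := by
  intro j
  induction j with
  | zero =>
    intro u hu
    rw [Nat.zero_mul] at hu
    have : u = [] := List.length_eq_zero_iff.1 hu
    subst this
    exact ⟨[], rfl, by simp, rfl⟩
  | succ j ih =>
    intro u hu
    obtain ⟨l, h1, h2, h3⟩ := ih (u.drop N) (by
      rw [List.length_drop, hu, Nat.succ_mul]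
      omega)
    refine ⟨u.take N :: l, by simp [h1], ?_, ?_⟩
    · intro y hy
      rcases List.mem_cons.1 hy with rfl | hy
      · rw [List.length_take, hu, Nat.succ_mul]
        omega
      · exact h2 y hy
    · rw [List.flatten_cons, h3, List.take_append_drop]

theorem flatten_length_of {l : List (List Bool)} {N : ℕ} (h : ∀ y ∈ l, y.length = N) :
    l.flatten.length = l.length * N := by
  induction l with
  | nil => simp
  | cons a l ih =>
    rw [List.flatten_cons, List.length_append, h a List.mem_cons_self,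
      ih (fun y hy => h y (List.mem_cons_of_mem _ hy)), List.length_cons]
    ring

/-- Counting accepted certificates is counting true leaves. -/
theorem cnt_eq (g : Enum) (S : Oracle) (Y : List Bool → List Bool) (e κ : ℕ) (x : List Bool)
    (hdp : dp g (e, x, (x.length + 2) ^ 2 ^ κ) = 2 * (x.length + 2) ^ 2 ^ κ) :
    cnt (orU g S Y) (sppProg e κ)
        (2 * (x.length + 2) ^ 2 ^ κ * (x.length + 2) ^ 2 ^ κ) x =
      (Bs (decide (KP g (orU g S Y) (e, x, (x.length + 2) ^ 2 ^ κ))) Y
        (e, x, (x.length + 2) ^ 2 ^ κ) (2 * (x.length + 2) ^ 2 ^ κ) true).ncard := by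
  set A := orU g S Y with hA
  set N := (x.length + 2) ^ 2 ^ κ with hN
  set c : Cd := (e, x, N) with hc
  have hcN : c.2.2 = N := rfl
  have hbit : ∀ ys ∈ Al N (2 * N), (Accepts A (sppProg e κ) [x, ys.reverse.flatten] ↔
      bitv (decide (KP g A c)) Y c ys = true) := by
    rintro ys ⟨h1, h2⟩
    rw [(sppProg_spec A e κ x _).2, ← hN]
    have hw : List.replicate (2 * N) true ++ false :: (ys.reverse.flatten ++ code e x N) =
        wrd c ys := by
      unfold wrd
      rw [h1]
    rw [hw, hA, orU_wrd g S Y c ys (by rw [h1, hdp]) h2, ← hA]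
  unfold cnt
  rw [← Set.InjOn.ncard_image (f := fun ys : List (List Bool) => ys.reverse.flatten)
    (s := Bs (decide (KP g A c)) Y c (2 * N) true)]
  · congr 1
    ext u
    simp only [Set.mem_ofPred_eq, Set.mem_image]
    constructor
    · rintro ⟨h1, h2⟩
      obtain ⟨l, h3, h4, h5⟩ := chunks N (2 * N) u h1
      have hmem : l.reverse ∈ Al N (2 * N) :=
        ⟨by simpa using h3, fun y hy => h4 y (List.mem_reverse.1 hy)⟩
      have h6 : l.reverse.reverse.flatten = u := by rw [List.reverse_reverse, h5]
      refine ⟨l.reverse, ⟨hmem, ?_⟩, h6⟩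
      rw [← hbit _ hmem, h6]
      exact h2
    · rintro ⟨ys, ⟨h1, h2⟩, rfl⟩
      refine ⟨?_, (hbit ys h1).2 h2⟩
      rw [flatten_length_of (fun y hy => h1.2 y (List.mem_reverse.1 hy)), List.length_reverse,
        h1.1]
  · rintro ys ⟨h1, _⟩ zs ⟨h2, _⟩ h
    simp only at h
    have hw : wrd c ys = wrd c zs := by
      unfold wrd
      rw [h1.1, h2.1, h]
    exact (wrd_inj h1.2 h2.2 hw).2

/-- The padding for a language in `AP`. -/
theorem exists_kappa (t q T : Polynomial ℕ) : ∃ κ : ℕ, (∀ n, t.eval n ≤ (n + 2) ^ 2 ^ κ) ∧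
    ∀ (g : Enum) (A : Oracle) (d : Polynomial ℕ) (p : Prog) (e : ℕ),
      g e = (true, t, d, p, q, T) → ∀ L : Set (List Bool),
      (∀ xs : List (List Bool), xs.length = 2 → (run A p xs (T.eval (totalLength xs))).1 = []) →
      (∀ x : List Bool, x ∈ L ↔ Alt true (t.eval x.length) (q.eval x.length)
        (fun us => Accepts A p [x, enc us])) →
      ∀ x : List Bool, KP g A (e, x, (x.length + 2) ^ 2 ^ κ) ↔ x ∈ L := by
  obtain ⟨κ, hκ⟩ := poly_le_pow ((T.comp (Polynomial.X + t * (2 * q + 1)) + (Polynomial.X +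
    t * (2 * q + 1)) + 2) ^ 2 + t)
  refine ⟨κ, ?_, ?_⟩
  · intro n
    refine le_trans ?_ (hκ n)
    simp only [Polynomial.eval_add]
    omega
  intro g A d p e he L hT hL x
  set N := (x.length + 2) ^ 2 ^ κ with hN
  have htp : tp g (e, x, N) = t.eval x.length := by
    unfold tp
    simp only
    rw [he]
  have hql : ql g (e, x, N) = q.eval x.length := by
    unfold ql
    simp only
    rw [he]
  have hil : il g (e, x, N) = x.length + t.eval x.length * (2 * q.eval x.length + 1) := by
    unfold il
    rw [htp, hql]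
  have hrt : rt g (e, x, N) = T.eval (il g (e, x, N)) := by
    unfold rt
    simp only
    rw [he]
  have hlive : Live g (e, x, N) := by
    unfold Live
    rw [hrt, hil]
    have := hκ x.length
    simp only [Polynomial.eval_add, Polynomial.eval_pow, Polynomial.eval_comp,
      Polynomial.eval_mul, Polynomial.eval_X, Polynomial.eval_ofNat, Polynomial.eval_one] at this
    simp only
    omega
  rw [hL x]
  unfold KP
  simp only [hlive, true_and]
  rw [htp, hql, Alt_eq, Alt_eq]
  apply AltL_congr
  intro us hus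
  have hpg : pg g (e, x, N) = p := by
    unfold pg
    simp only
    rw [he]
  rw [hpg, he, hrt]
  simp only
  have h1 := hT [x, enc us] rfl
  have h2 : totalLength [x, enc us] ≤ il g (e, x, N) := by
    rw [hil]
    exact totalLength_inp_le (fl := true) hus
  have h3 : (run A p [x, enc us] (T.eval (il g (e, x, N)))).1 = [] := by
    rw [run_of_halted h1 (poly_mono T h2)]
    exact h1
  exact (accepts_iff_of_halted h3).symm

/-- the program which rejects everything -/
theorem not_acceptsIn_rej (A : Oracle) (xs : List (List Bool)) (t : ℕ) :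
    ¬ AcceptsIn A (Prog.push 0 false) xs t := by
  rintro ⟨h1, h2⟩
  cases t with
  | zero =>
    simp [run, start] at h1
  | succ t =>
    have h3 : run A (Prog.push 0 false) xs (t + 1) =
        run A (Prog.push 0 false) xs 1 := by
      apply run_of_halted (n := 1) (m := t + 1) _ (by omega)
      rfl
    rw [h3] at h2
    have h4 : ((run A (Prog.push 0 false) xs 1).2 0).head? = some false := by
      simp [run, start, step]
    rw [h4] at h2
    simp at h2

/-- **`PSPACE` is contained in `SPP`** relative to the closure oracle. -/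
theorem ap_sub_spp (g : Enum) (S : Oracle) (Y : List Bool → List Bool)
    (hg : ∀ (t : Polynomial ℕ) (p : Prog) (q T : Polynomial ℕ) (κ : ℕ),
      (∀ n, t.eval n ≤ (n + 2) ^ 2 ^ κ) → ∃ e, g e =
      (true, t, 2 * (Polynomial.X + 2) ^ 2 ^ κ, p, q, T)) :
    AP (orU g S Y) ⊆ SPP (orU g S Y) := by
  rintro L ⟨t, q, p, ⟨T, hT⟩, hL⟩
  obtain ⟨κ, hκ, hKP⟩ := exists_kappa t q T
  obtain ⟨e, he⟩ := hg t p q T κ hκ
  obtain ⟨e0, he0⟩ := hg 0 (Prog.push 0 false) 0 0 κ (by simp)
  have hmain := hKP g (orU g S Y) _ p e he L hT hL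
  set A := orU g S Y with hA
  refine ⟨2 * (Polynomial.X + 2) ^ 2 ^ κ * (Polynomial.X + 2) ^ 2 ^ κ,
    2 * (Polynomial.X + 2) ^ 2 ^ κ * (Polynomial.X + 2) ^ 2 ^ κ,
    sppProg e0 κ, sppProg e κ, polyTime_sppProg A e0 κ, polyTime_sppProg A e κ, ?_⟩
  intro x
  have hx := hmain x
  have hq : (2 * (Polynomial.X + 2) ^ 2 ^ κ * (Polynomial.X + 2) ^ 2 ^ κ :
      Polynomial ℕ).eval x.length = 2 * (x.length + 2) ^ 2 ^ κ * (x.length + 2) ^ 2 ^ κ := by
    simp
  rw [hq]
  have hd1 : dp g (e, x, (x.length + 2) ^ 2 ^ κ) = 2 * (x.length + 2) ^ 2 ^ κ := by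
    unfold dp
    simp only
    rw [he]
    simp
  have hd0 : dp g (e0, x, (x.length + 2) ^ 2 ^ κ) = 2 * (x.length + 2) ^ 2 ^ κ := by
    unfold dp
    simp only
    rw [he0]
    simp
  have hF0 : ¬ KP g A (e0, x, (x.length + 2) ^ 2 ^ κ) := by
    rintro ⟨_, h⟩
    have h1 : tp g (e0, x, (x.length + 2) ^ 2 ^ κ) = 0 := by
      unfold tp
      simp only
      rw [he0]
      simp
    rw [h1] at h
    simp only [Alt] at h
    have h2 : pg g (e0, x, (x.length + 2) ^ 2 ^ κ) = Prog.push 0 false := by
      unfold pg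
      simp only
      rw [he0]
    rw [h2] at h
    exact not_acceptsIn_rej _ _ _ h
  have h1 := cnt_eq g S Y e κ x hd1
  have h0 := cnt_eq g S Y e0 κ x hd0
  rw [← hA] at h1 h0
  have hdec0 : decide (KP g A (e0, x, (x.length + 2) ^ 2 ^ κ)) = false := by simpa using hF0
  rw [hdec0] at h0
  have hdiff := (count_diff (decide (KP g A (e, x, (x.length + 2) ^ 2 ^ κ))) Y
    (e, x, (x.length + 2) ^ 2 ^ κ) (e0, x, (x.length + 2) ^ 2 ^ κ) rfl
    (2 * (x.length + 2) ^ 2 ^ κ)).1 (by simp [Nat.bodd_mul])
  rw [← h1, ← h0] at hdiff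
  constructor
  · intro hxL
    have h2 : decide (KP g A (e, x, (x.length + 2) ^ 2 ^ κ)) = true := by
      simpa using hx.2 hxL
    rw [h2] at hdiff
    exact hdiff
  · intro hxL
    have h2 : decide (KP g A (e, x, (x.length + 2) ^ 2 ^ κ)) = false := by
      simpa using fun h => hxL (hx.1 h)
    rw [h2] at hdiff
    exact hdiff

end Pool.Agent.H7s
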