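import Mathlib
import Pool.Agent.H8.VDef
import Pool.Agent.H7.AUTest
import Pool.Agent.H7.SigAP
import Pool.Agent.H7.SppCount

/-!
The reduction of the theorem on all heights to one diagonalisation step.
-/

set_option autoImplicit false

namespace Pool.Agent.H8v

open Classical
open Pool.Agent.H9
open Pool.Agent.H7 (hword hword_length)
open Pool.Agent.H8u (Cd wrd wrd_length bitv totalLength_cons_of Cond AUSigmaP tableLang2
  tableLang2_mem)

theorem orU_congr (g : Enum) {S S' : Oracle} {Y Y' : List Bool → List Bool} {n : ℕ}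
    (hS : ∀ w : List Bool, w.length < n → S w = S' w)
    (hY : ∀ w : List Bool, w.length < n → Y w = Y' w) :
    ∀ w : List Bool, w.length ≤ n → orU g S Y w = orU g S' Y' w := by
  intro w hw
  refine fixO_congr (opU_contr g S Y) (opU_contr g S' Y') n ?_ w.length w le_rfl hw
  intro A v hv
  match v with
  | [] => rfl
  | false :: v =>
    simp only [opU]
    exact hS v (by simpa using hv)
  | true :: v =>
    simp only [opU]
    congr 1
    apply propext
    apply exists_congr; intro c
    apply exists_congr; intro ys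
    apply and_congr_right; intro hw
    apply and_congr_right; intro _
    apply and_congr_right; intro _
    rw [Pool.Agent.H8u.bitv_congr hY ys]
    rw [← hw]
    simp only [List.length_cons] at hv
    omega

theorem orU_eq_join (g : Enum) (S : Oracle) (Y : List Bool → List Bool) :
    orU g S Y = join S (fun w => orU g S Y (true :: w)) := by
  funext w
  match w with
  | [] => rw [orU_nil]; rfl
  | false :: w => rw [orU_false]; rfl
  | true :: w => rfl

theorem sigmaP_below (g : Enum) (B S : Oracle) (Y : List Bool → List Bool) (k : ℕ) :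
    SigmaP B k ⊆ SigmaP (orU g (join B S) Y) k := by
  rw [orU_eq_join]
  exact (Pool.Agent.H8j.sigmaP_join_left B S k).trans
    (Pool.Agent.H8j.sigmaP_join_left (join B S) _ k)

/-- The oracle of a condition. -/
noncomputable def orD (g : Enum) (B : Oracle) (D : Cond) : Oracle :=
  orU g (join B (fun w => (D w).1)) (fun w => (D w).2)

theorem orD_congr (g : Enum) (B : Oracle) {D D' : Cond} {n : ℕ}
    (h : ∀ w : List Bool, w.length < n → D w = D' w) :
    ∀ w : List Bool, w.length ≤ n → orD g B D w = orD g B D' w := by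
  apply orU_congr
  · intro w hw
    match w with
    | [] => rfl
    | false :: w => rfl
    | true :: w =>
      show (D w).1 = (D' w).1
      rw [h w (by simp only [List.length_cons] at hw; omega)]
  · intro w hw
    rw [h w hw]

/-- A requirement: the `K`-block machine `(p, q, T)` errs on the test language of level `K + 1` on
the input `1^n`. -/
def Fails (g : Enum) (B : Oracle) (d : ℕ × Prog × Polynomial ℕ × Polynomial ℕ) (D : Cond)
    (n : ℕ) : Prop :=
  ¬ (Alt true (d.1 + 1) n
      (fun us => orD g B D (false :: true :: hword (List.replicate n true) us) = true) ↔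
    Alt true d.1 (d.2.2.1.eval n)
      (fun ws => AcceptsIn (orD g B D) d.2.1 (List.replicate n true :: ws)
        (d.2.2.2.eval (n + d.1 * d.2.2.1.eval n))))

theorem fails_local (g : Enum) (B : Oracle) (d : ℕ × Prog × Polynomial ℕ × Polynomial ℕ)
    (D : Cond) (n : ℕ) (h : Fails g B d D n) : ∃ n' : ℕ, ∀ D' : Cond,
      (∀ w : List Bool, w.length < n' → D' w = D w) → Fails g B d D' n := by
  refine ⟨(d.1 + 2) * n + 2 + (n + d.1 * d.2.2.1.eval n) +
    d.2.2.2.eval (n + d.1 * d.2.2.1.eval n), ?_⟩
  intro D' hD'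
  have hA := orD_congr g B hD'
  unfold Fails at h ⊢
  have e1 : Alt true (d.1 + 1) n
      (fun us => orD g B D' (false :: true :: hword (List.replicate n true) us) = true) ↔
      Alt true (d.1 + 1) n
      (fun us => orD g B D (false :: true :: hword (List.replicate n true) us) = true) := by
    apply Pool.Agent.H7.Alt_congr
    intro us hus
    rw [hA]
    simp only [List.length_cons]
    rw [hword_length hus, List.length_replicate]
    nlinarith
  have e2 : Alt true d.1 (d.2.2.1.eval n)
      (fun ws => AcceptsIn (orD g B D') d.2.1 (List.replicate n true :: ws)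
        (d.2.2.2.eval (n + d.1 * d.2.2.1.eval n))) ↔
      Alt true d.1 (d.2.2.1.eval n)
      (fun ws => AcceptsIn (orD g B D) d.2.1 (List.replicate n true :: ws)
        (d.2.2.2.eval (n + d.1 * d.2.2.1.eval n))) := by
    apply Pool.Agent.H7.Alt_congr
    intro ws hws
    refine (dtp_acceptsIn d.2.1 (List.replicate n true :: ws)
      (d.2.2.2.eval (n + d.1 * d.2.2.1.eval n))
      (n + d.1 * d.2.2.1.eval n + d.2.2.2.eval (n + d.1 * d.2.2.1.eval n)) ?_).depends ?_
    · rw [totalLength_cons_of hws, List.length_replicate]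
    · intro v hv
      apply hA
      have hv' : v.length ≤ _ := hv
      omega
  rw [e1, e2]
  exact h

/-- An entry of the enumeration which is allowed for the height `h`: the depth is positive (unless
`h = 0`) and at least the number of blocks or at least `h`. -/
def Valid (h : ℕ∞) (E : Bool × Polynomial ℕ × Polynomial ℕ × Prog × Polynomial ℕ ×
    Polynomial ℕ) : Prop :=
  ∀ n : ℕ, (h ≠ 0 → 1 ≤ E.2.2.1.eval n) ∧
    (E.2.1.eval n ≤ E.2.2.1.eval n ∨ h ≤ ((E.2.2.1.eval n : ℕ) : ℕ∞))

theorem exists_enumV (h : ℕ∞) : ∃ g : Enum, (∀ e, Valid h (g e)) ∧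
    ∀ E, Valid h E → ∃ e, g e = E := by
  have hcount : Countable (Polynomial ℕ) := by
    rw [← Cardinal.mk_le_aleph0_iff]
    refine (Polynomial.cardinalMk_le_max (R := ℕ)).trans ?_
    simp
  have hne : Nonempty {E : Bool × Polynomial ℕ × Polynomial ℕ × Prog × Polynomial ℕ ×
      Polynomial ℕ // Valid h E} := by
    refine ⟨⟨(false, 1, 1, Prog.skip, 0, 0), ?_⟩⟩
    intro n
    simp
  obtain ⟨r, hr⟩ := exists_surjective_nat {E : Bool × Polynomial ℕ × Polynomial ℕ × Prog ×
    Polynomial ℕ × Polynomial ℕ // Valid h E}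
  refine ⟨fun e => (r e).1, fun e => (r e).2, ?_⟩
  intro E hE
  obtain ⟨e, he⟩ := hr ⟨E, hE⟩
  exact ⟨e, congrArg Subtype.val he⟩

/-- **Reduction to one step of the diagonalisation**: heights, unambiguity, `PSPACE`. -/
theorem main_of_step (h : ℕ∞) (B : Oracle)
    (hstep : ∀ (g : Enum), (∀ e, Valid h (g e)) →
      ∀ (d : ℕ × Prog × Polynomial ℕ × Polynomial ℕ), (d.1 : ℕ∞) < h → ∀ (D : Cond) (n₀ : ℕ),
      ∃ (D' : Cond) (n : ℕ), (∀ w : List Bool, w.length < n₀ → D' w = D w) ∧
        Fails g B d D' n) :
    ∃ A : Oracle, (∀ k, SigmaP B k ⊆ SigmaP A k) ∧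
      (∀ k : ℕ, (k : ℕ∞) < h → SigmaP A k ⊂ SigmaP A (k + 1)) ∧
      (∀ k : ℕ, h ≤ (k : ℕ∞) → SigmaP A k = AP A) ∧
      (∀ k, SigmaP A k = AUSigmaP A k) ∧ AP A = UAP A ∧ AP A ⊆ Pool.Agent.H7s.SPP A := by
  obtain ⟨g, hg1, hg2⟩ := exists_enumV h
  have hcount : Countable (Polynomial ℕ) := by
    rw [← Cardinal.mk_le_aleph0_iff]
    refine (Polynomial.cardinalMk_le_max (R := ℕ)).trans ?_
    simp
  have hne : Nonempty (ℕ × Prog × Polynomial ℕ × Polynomial ℕ) := ⟨(0, Prog.skip, 0, 0)⟩
  obtain ⟨r, hr⟩ := exists_surjective_nat (ℕ × Prog × Polynomial ℕ × Polynomial ℕ)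
  obtain ⟨D, hD⟩ := diagonal (fun i D => ((r i).1 : ℕ∞) < h → ∃ n, Fails g B (r i) D n)
    (fun _ => (false, [])) (by
    intro i D n₀
    by_cases hi : ((r i).1 : ℕ∞) < h
    · obtain ⟨D', n, h1, h2⟩ := hstep g hg1 (r i) hi D n₀
      obtain ⟨n', h3⟩ := fails_local g B (r i) D' n h2
      exact ⟨D', n', h1, fun D'' hD'' _ => ⟨n, h3 D'' hD''⟩⟩
    · exact ⟨D, 0, fun _ _ => rfl, fun _ _ hcon => absurd hcon hi⟩)
  refine ⟨orD g B D, fun k => sigmaP_below g B _ _ k, ?_, ?_, ?_, ?_, ?_⟩
  · intro k hk
    have hnot : tableLang2 (orD g B D) k ∉ SigmaP (orD g B D) k := by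
      rintro ⟨q, p, ⟨T, hT⟩, hL⟩
      obtain ⟨e, he⟩ := hr (k, p, q, T)
      obtain ⟨n, hn⟩ := hD e (by rw [he]; exact hk)
      apply hn
      simp only [he]
      have h1 := hL (List.replicate n true)
      have h2 : List.replicate n true ∈ tableLang2 (orD g B D) k ↔ Alt true (k + 1) n
          (fun us => orD g B D (false :: true :: hword (List.replicate n true) us) = true) := by
        simp [tableLang2]
      rw [← h2, h1, List.length_replicate]
      apply Pool.Agent.H7.Alt_congr
      intro us hus
      have hl : us.length = k := by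
        have := congrArg List.length hus
        simpa using this
      have htot : totalLength (List.replicate n true :: us) = n + k * q.eval n := by
        rw [totalLength_cons_of hus, List.length_replicate]
      have h3 := hT (List.replicate n true :: us) (by simp [hl])
      rw [htot] at h3
      exact accepts_iff_of_halted h3
    exact (Set.ssubset_iff_of_subset (sigmaP_mono _ k)).2 ⟨_, tableLang2_mem _ k, hnot⟩
  · intro k hk
    apply Set.Subset.antisymm (sigmaP_sub_ap _ k)
    refine (ap_sub_au g _ _ k ?_).trans (auSigmaP_subset _ k)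
    intro t p q T
    apply hg2
    intro n
    simp only [Polynomial.eval_C]
    refine ⟨?_, Or.inr hk⟩
    intro h0
    rcases Nat.eq_zero_or_pos k with hk0 | hk0
    · subst hk0
      exact absurd (le_antisymm hk (by simp)) h0
    · exact hk0
  · intro k
    apply Set.Subset.antisymm _ (auSigmaP_subset _ k)
    cases k with
    | zero =>
      rintro L ⟨q, p, hp, hL⟩
      exact ⟨q, p, hp, fun x => ⟨hL x, trivial⟩⟩
    | succ k =>
      apply sigmaP_sub_au g _ _ (k + 1) (k + 1)
      intro p q T
      apply hg2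
      intro n
      simp only [Polynomial.eval_C]
      exact ⟨fun _ => by omega, Or.inl le_rfl⟩
  · apply Set.Subset.antisymm _ (uap_subset_ap _)
    apply ap_sub_uap g
    intro t p q T
    apply hg2
    intro n
    simp only [Polynomial.eval_add, Polynomial.eval_one]
    exact ⟨fun _ => by omega, Or.inl (by omega)⟩
  · apply Pool.Agent.H7s.ap_sub_spp g
    intro t p q T κ hκ
    apply hg2
    intro n
    have h1 := hκ n
    have h2 : 1 ≤ (n + 2) ^ 2 ^ κ := Nat.one_le_pow _ _ (by omega)
    have h3 : (2 * (Polynomial.X + 2) ^ 2 ^ κ : Polynomial ℕ).eval n = 2 * (n + 2) ^ 2 ^ κ := by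
      simp
    simp only
    rw [h3]
    exact ⟨fun _ => by omega, Or.inl (by omega)⟩

end Pool.Agent.H8v
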