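import Mathlib
import Pool.Agent.H8.PDef
import Pool.Agent.H7.AUMachine
import Pool.Agent.H7.Verify

/-!
Reading the truth value of a query description from its hidden tree: a language at level `k`.
-/

set_option autoImplicit false

namespace Pool.Agent.H7p

open Classical
open Pool.Agent.H9
open Pool.Agent.H8p
open Pool.Agent.H8u (Cd hid hid_length totalLength_cons_of exec_moves_empty)

/-- The value read off the tree with root string `z` and depth `k`. -/
noncomputable def redO (A : Oracle) (k : ℕ) : Oracle := fun z =>
  decide (Alt true k z.length (fun us =>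
    A (true :: (List.replicate k true ++ false :: (z :: us).flatten.reverse)) = k.bodd))

/-- The program. -/
def redProg (k : ℕ) : Prog :=
  seqs [moves (k + 1) (List.range (k + 1)), Prog.push (k + 1) false,
    seqs (List.replicate k (Prog.push (k + 1) true)), Prog.push (k + 1) true,
    Prog.ask (k + 1) (Prog.push 0 k.bodd) (Prog.push 0 (!k.bodd))]

theorem exec_redProg (A : Oracle) (k : ℕ) (x : List Bool) (us : List (List Bool))
    (hus : us.length = k) :
    ∃ s', Exec A (redProg k) (fun i => (x :: us).getD i []) s'
      (totalLength (x :: us) * 5 + (4 * k + 20)) ∧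
      ((s' 0).head? = some true ↔
        A (true :: (List.replicate k true ++ false :: (x :: us).flatten.reverse)) = k.bodd) := by
  have hlen : (x :: us).length = k + 1 := by simp [hus]
  obtain ⟨s1, e1, h1, h2, h3⟩ := exec_moves_empty A (k + 1) (List.range (k + 1)) List.nodup_range
    (by simp) (fun i => (x :: us).getD i [])
  have hmap : (List.range (k + 1)).map (fun i => (x :: us).getD i []) = x :: us := by
    rw [← hlen]; exact Pool.Agent.H7.map_getD_range _
  rw [hmap] at e1 h1
  have hW : (x :: us).getD (k + 1) [] = [] := by
    rw [List.getD_eq_getElem?_getD, List.getElem?_eq_none (by rw [hlen])]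
    rfl
  rw [hW, List.append_nil] at h1
  have e4 := exec_push A s1 (k + 1) false
  set s4 := Function.update s1 (k + 1) (false :: s1 (k + 1)) with hs4
  have a4 : s4 (k + 1) = false :: (x :: us).flatten.reverse := by
    rw [hs4, Function.update_self, h1]
  obtain ⟨s5, e5, a5, c5⟩ := exec_pushes A (k + 1) k s4
  rw [a4] at a5
  have e6 := exec_push A s5 (k + 1) true
  set s6 := Function.update s5 (k + 1) (true :: s5 (k + 1)) with hs6
  have a6 : s6 (k + 1) = true :: (List.replicate k true ++ false ::
      (x :: us).flatten.reverse) := by
    rw [hs6, Function.update_self, a5]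
  have htime : ((((x :: us).map List.length).sum * 5 + 2 * (List.range (k + 1)).length + 1) +
      (1 + ((2 * k + 1) + (1 + (2 + 1 + 1) + 1) + 1) + 1) + 1) ≤
      totalLength (x :: us) * 5 + (4 * k + 20) := by
    rw [List.length_range]
    simp only [totalLength]
    omega
  by_cases hA : A (s6 (k + 1)) = true
  · refine ⟨Function.update s6 0 (k.bodd :: s6 0), ?_, ?_⟩
    · have e7 : Exec A (Prog.ask (k + 1) (Prog.push 0 k.bodd) (Prog.push 0 (!k.bodd))) s6
          (Function.update s6 0 (k.bodd :: s6 0)) 2 := by
        apply exec_ask
        rw [if_pos hA]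
        exact exec_push A s6 0 _
      exact (exec_seqs_cons e1 (exec_seqs_cons e4 (exec_seqs_cons e5 (exec_seqs_cons e6
        (exec_seqs_cons e7 (exec_seqs_nil _ _)))))).mono htime
    · rw [← a6, hA, Function.update_self]
      simp only [List.head?_cons, Option.some.injEq]
      exact eq_comm
  · refine ⟨Function.update s6 0 ((!k.bodd) :: s6 0), ?_, ?_⟩
    · have e7 : Exec A (Prog.ask (k + 1) (Prog.push 0 k.bodd) (Prog.push 0 (!k.bodd))) s6
          (Function.update s6 0 ((!k.bodd) :: s6 0)) 2 := by
        apply exec_ask
        rw [if_neg hA]
        exact exec_push A s6 0 _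
      exact (exec_seqs_cons e1 (exec_seqs_cons e4 (exec_seqs_cons e5 (exec_seqs_cons e6
        (exec_seqs_cons e7 (exec_seqs_nil _ _)))))).mono htime
    · rw [← a6]
      simp only [Bool.not_eq_true] at hA
      rw [hA, Function.update_self]
      simp only [List.head?_cons, Option.some.injEq]
      cases k.bodd <;> simp

theorem redProg_spec (A : Oracle) (k : ℕ) (x : List Bool) (us : List (List Bool))
    (hus : us.length = k) :
    (run A (redProg k) (x :: us) (totalLength (x :: us) * 5 + (4 * k + 20))).1 = [] ∧
      (Accepts A (redProg k) (x :: us) ↔
        A (true :: (List.replicate k true ++ false :: (x :: us).flatten.reverse)) = k.bodd) := by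
  obtain ⟨s', h1, h2⟩ := exec_redProg A k x us hus
  have h3 := run_of_exec h1
  have h4 : (run A (redProg k) (x :: us) (totalLength (x :: us) * 5 + (4 * k + 20))).1 = [] := by
    rw [h3]
  refine ⟨h4, ?_⟩
  rw [accepts_iff_of_halted h4]
  unfold AcceptsIn
  rw [h3]
  simp only [true_and]
  exact h2

/-- **The values read off the trees of depth `k` form a language at level `k`.** -/
theorem redO_mem (A : Oracle) (k : ℕ) : {z | redO A k z = true} ∈ SigmaP A k := by
  refine ⟨Polynomial.X, redProg k, ⟨Polynomial.X * 5 + Polynomial.C (4 * k + 20), ?_⟩, ?_⟩
  · intro xs hxs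
    match xs with
    | [] => simp at hxs
    | x :: us =>
      have := (redProg_spec A k x us (by simpa using hxs)).1
      simpa using this
  · intro x
    rw [Polynomial.eval_X]
    simp only [Set.mem_setOf_eq, redO, decide_eq_true_eq]
    apply Pool.Agent.H7.Alt_congr
    intro us hus
    have hl : us.length = k := by
      have := congrArg List.length hus
      simpa using this
    exact (redProg_spec A k x us hl).2.symm

/-- **The value read off the tree of a query description.** -/
theorem redO_zz (g : Enum) (act : ℕ → Finset ℕ) (S : Oracle) (Y : List Bool → List Bool)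
    (V : List Bool → ℕ) (q : Qd) (hq : q.1.length ≤ q.2.2.2 + 1) :
    redO (orP g act S Y V) (dp g q.2) (zz q) = Fv g act V (orP g act S Y V) q := by
  set A := orP g act S Y V with hA
  set k := dp g q.2 with hk
  rw [Bool.eq_iff_iff]
  simp only [redO, decide_eq_true_eq]
  have hmain := alt_bitv (Fv g act V A q) Y q k true []
  have hbit : ∀ us : List (List Bool), us.map List.length = List.replicate k (zz q).length →
      (A (true :: (List.replicate k true ++ false :: (zz q :: us).flatten.reverse)) = k.bodd ↔
        bitv (Fv g act V A q) Y q (us.reverse ++ []) = (true ^^ !k.bodd)) := by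
    intro us hus
    have hlen : us.length = k := by
      have := congrArg List.length hus
      simpa using this
    have hall : ∀ y ∈ us, y.length = (zz q).length := by
      intro y hy
      have h1 : y.length ∈ us.map List.length := List.mem_map_of_mem hy
      rw [hus] at h1
      exact List.eq_of_mem_replicate h1
    have hw : List.replicate k true ++ false :: (zz q :: us).flatten.reverse =
        wd q us.reverse := by
      unfold wd
      rw [List.length_reverse, hlen]
      congr 2
      rw [List.flatten_cons, List.reverse_append, List.reverse_flatten, List.flatMap_def,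
        List.map_reverse]
    rw [List.append_nil, hw, hA, orP_wd g act S Y V q us.reverse
      (by rw [List.length_reverse, hlen]) ⟨hq, fun y hy => hall y (List.mem_reverse.1 hy)⟩,
      ← hA]
    simp
  rw [Pool.Agent.H7.Alt_congr (fun us hus => hbit us hus), hmain]
  simp [bitv]

end Pool.Agent.H7p
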