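import Mathlib
import Pool.Agent.H8.PDef
import Pool.Agent.H7.AUMachine
import Pool.Agent.H7.PRed

/-!
Binary search for the hidden number of a code, with an oracle for the truth values.
-/

set_option autoImplicit false

namespace Pool.Agent.H7p

open Classical
open Pool.Agent.H9
open Pool.Agent.H8p
open Pool.Agent.H8u (Cd hid hid_length totalLength_cons_of exec_moves_empty)
open Pool.Agent.H8d (Avoids exec_avoids avoids_mkCode)

/-- the effect of one round of the binary search -/
def rnd (O : Oracle) (z : List Bool) : List Bool :=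
  if O (true :: true :: z) = true then true :: true :: z else true :: false :: z

/-- one round -/
def rndProg : Prog :=
  seqs [Prog.push 2 true, Prog.push 2 true, Prog.ask 2 Prog.skip
    (seqs [Prog.pop 2, Prog.pop 2, Prog.push 2 false, Prog.push 2 true])]

theorem exec_rndProg (O : Oracle) (s : ℕ → List Bool) :
    Exec O rndProg s (Function.update s 2 (rnd O (s 2))) 20 := by
  have e1 := exec_push O s 2 true
  have e2 := exec_push O (Function.update s 2 (true :: s 2)) 2 true
  rw [Function.update_self, Function.update_idem] at e2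
  set s2 := Function.update s 2 (true :: true :: s 2) with hs2
  have a2 : s2 2 = true :: true :: s 2 := by rw [hs2, Function.update_self]
  by_cases hA : O (true :: true :: s 2) = true
  · have e3 : Exec O (Prog.ask 2 Prog.skip
        (seqs [Prog.pop 2, Prog.pop 2, Prog.push 2 false, Prog.push 2 true])) s2 s2 2 := by
      apply exec_ask
      rw [a2, if_pos hA]
      exact exec_skip O s2
    have h4 : rnd O (s 2) = true :: true :: s 2 := by
      unfold rnd
      rw [if_pos hA]
    rw [h4]
    exact (exec_seqs_cons e1 (exec_seqs_cons e2 (exec_seqs_cons e3 (exec_seqs_nil _ _)))).mono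
      (by norm_num)
  · have h4 : rnd O (s 2) = true :: false :: s 2 := by
      unfold rnd
      rw [if_neg hA]
    have f1 := exec_pop O s2 2
    rw [a2, List.tail_cons, hs2, Function.update_idem] at f1
    have f2 := exec_pop O (Function.update s 2 (true :: s 2)) 2
    rw [Function.update_self, List.tail_cons, Function.update_idem, Function.update_eq_self] at f2
    have f3 := exec_push O s 2 false
    have f4 := exec_push O (Function.update s 2 (false :: s 2)) 2 true
    rw [Function.update_self, Function.update_idem] at f4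
    have e3 : Exec O (Prog.ask 2 Prog.skip
        (seqs [Prog.pop 2, Prog.pop 2, Prog.push 2 false, Prog.push 2 true])) s2
        (Function.update s 2 (true :: false :: s 2))
        ((1 + (1 + (1 + (1 + 1 + 1) + 1) + 1) + 1) + 1) := by
      apply exec_ask
      rw [a2, if_neg hA]
      exact exec_seqs_cons f1 (exec_seqs_cons f2 (exec_seqs_cons f3 (exec_seqs_cons f4
        (exec_seqs_nil _ _))))
    rw [h4]
    exact (exec_seqs_cons e1 (exec_seqs_cons e2 (exec_seqs_cons e3 (exec_seqs_nil _ _)))).mono
      (by norm_num)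

/-- the body of the main loop -/
def bodyProg : Prog :=
  Prog.cond 8 (Prog.cond 7 Prog.skip (Prog.seq (Prog.pop 7) (Prog.push 8 true))
    (Prog.seq (Prog.pop 7) rndProg)) (Prog.pop 7) (Prog.pop 7)

theorem exec_mainLoop (O : Oracle) (N : ℕ) (rest z : List Bool) (s : ℕ → List Bool)
    (h7 : s 7 = List.replicate N true ++ false :: rest) (h8 : s 8 = []) (h2 : s 2 = z)
    (h0 : s 0 = []) :
    ∃ s', Exec O (Prog.loop 7 bodyProg) s s' ((s 7).length * (25 + 1) + 1) ∧
      s' 2 = (rnd O)^[N] z ∧ s' 0 = [] := by
  obtain ⟨s', h3, h4, h5⟩ := exec_loop_inv (A := O) (i := 7) (N := 25) (p := bodyProg)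
    (Inv := fun l t => t 0 = [] ∧
      ((∃ i j, l = List.replicate j true ++ false :: rest ∧ i + j = N ∧
        t 2 = (rnd O)^[i] z ∧ t 8 = []) ∨ (t 8 = [true] ∧ t 2 = (rnd O)^[N] z))) (by
      rintro b l t ht ⟨ht0, hI⟩
      rcases hI with ⟨i, j, hl, hij, ht2, ht8⟩ | ⟨ht8, ht2⟩
      · cases j with
        | zero =>
          simp only [List.replicate_zero, List.nil_append, List.cons.injEq] at hl
          obtain ⟨rfl, rfl⟩ := hl
          have g1 := exec_pop O t 7
          rw [ht, List.tail_cons] at g1
          have g2 := exec_push O (Function.update t 7 l) 8 true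
          rw [Function.update_of_ne (show (8 : ℕ) ≠ 7 by norm_num), ht8] at g2
          refine ⟨Function.update (Function.update t 7 l) 8 [true], ?_, ?_, ?_, Or.inr ⟨?_, ?_⟩⟩
          · have g3 : Exec O (Prog.cond 7 Prog.skip (Prog.seq (Prog.pop 7) (Prog.push 8 true))
                (Prog.seq (Prog.pop 7) rndProg)) t
                (Function.update (Function.update t 7 l) 8 [true]) (3 + 1) := by
              apply exec_cond_cons ht
              simpa using g1.seq g2
            exact (exec_cond_nil ht8 g3).mono (by norm_num)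
          · simp [Function.update_of_ne]
          · simp [Function.update_of_ne, ht0]
          · simp
          · rw [Function.update_of_ne (by norm_num), Function.update_of_ne (by norm_num), ht2]
            have : i = N := by omega
            rw [this]
        | succ j =>
          simp only [List.replicate_succ, List.cons_append, List.cons.injEq] at hl
          obtain ⟨rfl, rfl⟩ := hl
          have g1 := exec_pop O t 7
          rw [ht, List.tail_cons] at g1
          set t1 := Function.update t 7 (List.replicate j true ++ false :: rest) with ht1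
          have g2 := exec_rndProg O t1
          have a12 : t1 2 = (rnd O)^[i] z := by
            rw [ht1, Function.update_of_ne (by norm_num), ht2]
          refine ⟨Function.update t1 2 (rnd O (t1 2)), ?_, ?_, ?_, Or.inl ⟨i + 1, j, rfl, by omega,
            ?_, ?_⟩⟩
          · have g3 : Exec O (Prog.cond 7 Prog.skip (Prog.seq (Prog.pop 7) (Prog.push 8 true))
                (Prog.seq (Prog.pop 7) rndProg)) t
                (Function.update t1 2 (rnd O (t1 2))) ((1 + 20 + 1) + 1) := by
              apply exec_cond_cons ht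
              simpa using g1.seq g2
            exact (exec_cond_nil ht8 g3).mono (by norm_num)
          · rw [Function.update_of_ne (by norm_num), ht1, Function.update_self]
          · rw [Function.update_of_ne (by norm_num), ht1, Function.update_of_ne (by norm_num),
              ht0]
          · rw [Function.update_self, a12, Function.iterate_succ_apply']
          · rw [Function.update_of_ne (by norm_num), ht1, Function.update_of_ne (by norm_num),
              ht8]
      · have g1 := exec_pop O t 7
        rw [ht, List.tail_cons] at g1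
        refine ⟨Function.update t 7 l, ?_, ?_, ?_, Or.inr ⟨?_, ?_⟩⟩
        · refine (exec_cond_cons (b := true) (l := []) ht8 ?_).mono (show 1 + 1 ≤ 25 by norm_num)
          simpa using g1
        · simp
        · simp [Function.update_of_ne, ht0]
        · simp [Function.update_of_ne, ht8]
        · simp [Function.update_of_ne, ht2]) (s 7) s rfl
      ⟨h0, Or.inl ⟨0, N, h7, by omega, h2, h8⟩⟩
  refine ⟨s', h3, ?_, h5.1⟩
  rcases h5.2 with ⟨i, j, hl, _⟩ | ⟨_, h6⟩
  · exact absurd hl (by simp)
  · exact h6

/-- the search program -/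
def srchProg (e κ : ℕ) : Prog :=
  seqs [mkCode e κ,
    Prog.loop 2 (Prog.cond 2 Prog.skip
      (seqs [Prog.pop 2, Prog.push 6 false, Prog.push 7 false])
      (seqs [Prog.pop 2, Prog.push 6 true, Prog.push 7 true])),
    moveAll 6 2, Prog.push 2 false, Prog.loop 7 bodyProg, Prog.push 2 true, Prog.push 2 true,
    Prog.ask 2 (Prog.push 0 true) (Prog.push 0 false)]

/-- time bound -/
def srchTime (e κ n : ℕ) : ℕ :=
  codeTime e κ n + 50 * (e + 2 * n + (n + 2) ^ 2 ^ κ + 2) + 60

theorem exec_srchProg (O : Oracle) (e κ : ℕ) (x : List Bool) :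
    ∃ s', Exec O (srchProg e κ) (fun j => [x].getD j []) s' (srchTime e κ x.length) ∧
      ((s' 0).head? = some true ↔
        O (true :: true :: (rnd O)^[(x.length + 2) ^ 2 ^ κ]
          (false :: code e x ((x.length + 2) ^ 2 ^ κ))) = true) := by
  set s0 : ℕ → List Bool := fun j => [x].getD j [] with hs0
  have hsmall : ∀ i, 1 ≤ i → s0 i = [] := by
    intro i hi
    rw [hs0]
    simp only
    rw [List.getD_eq_default]
    simpa using hi
  have h00 : s0 0 = x := rfl
  set N := (x.length + 2) ^ 2 ^ κ with hN
  obtain ⟨s1, e1, a2, a0⟩ := exec_mkCode O e κ s0 (hsmall 1 (by omega)) (hsmall 2 (by omega))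
    (hsmall 3 (by omega)) (hsmall 4 (by omega)) (hsmall 5 (by omega))
  rw [h00] at e1 a2
  rw [← hN] at a2
  have a6 : s1 6 = [] := by
    rw [exec_avoids e1 (avoids_mkCode (by omega) e κ), hsmall 6 (by omega)]
  have a7 : s1 7 = [] := by
    rw [exec_avoids e1 (avoids_mkCode (by omega) e κ), hsmall 7 (by omega)]
  have a8 : s1 8 = [] := by
    rw [exec_avoids e1 (avoids_mkCode (by omega) e κ), hsmall 8 (by omega)]
  -- the copy loop
  obtain ⟨s2, e2, b2, b6, b7, b8, b0⟩ := exec_loop_inv (A := O) (i := 2) (N := 8)
    (p := Prog.cond 2 Prog.skip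
      (seqs [Prog.pop 2, Prog.push 6 false, Prog.push 7 false])
      (seqs [Prog.pop 2, Prog.push 6 true, Prog.push 7 true]))
    (Inv := fun l t => l.reverse ++ t 6 = (s1 2).reverse ∧ l.reverse ++ t 7 = (s1 2).reverse ∧
      t 8 = [] ∧ t 0 = []) (by
      rintro b l t ht ⟨hI6, hI7, hI8, hI0⟩
      refine ⟨Function.update (Function.update (Function.update t 2 l) 6 (b :: t 6)) 7
        (b :: t 7), ?_, ?_, ?_, ?_, ?_, ?_⟩
      · apply exec_cond_cons ht
        have g1 := exec_pop O t 2
        rw [ht, List.tail_cons] at g1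
        have g2 := exec_push O (Function.update t 2 l) 6 b
        have g3 := exec_push O (Function.update (Function.update t 2 l) 6 (b :: t 6)) 7 b
        simp only [Function.update_of_ne (show (6 : ℕ) ≠ 2 by norm_num)] at g2
        simp only [Function.update_of_ne (show (7 : ℕ) ≠ 6 by norm_num),
          Function.update_of_ne (show (7 : ℕ) ≠ 2 by norm_num)] at g3
        have g4 := exec_seqs_cons g1 (exec_seqs_cons g2 (exec_seqs_cons g3 (exec_seqs_nil _ _)))
        cases b
        · simpa using g4
        · simpa using g4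
      · simp [Function.update_of_ne]
      · rw [Function.update_of_ne (by norm_num), Function.update_self]
        rw [← hI6]
        simp
      · rw [Function.update_self]
        rw [← hI7]
        simp
      · simp [Function.update_of_ne, hI8]
      · simp [Function.update_of_ne, hI0]) (s1 2) s1 rfl
      ⟨by simp [a6], by simp [a7], a8, a0⟩
  simp only [List.reverse_nil, List.nil_append] at b6 b7
  -- move back
  obtain ⟨s3, e3, _, c2, c3⟩ := exec_moveAll O (show (6 : ℕ) ≠ 2 by norm_num) s2
  rw [b6, b2, List.append_nil, List.reverse_reverse] at c2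
  have c7 : s3 7 = (s1 2).reverse := by rw [c3 7 (by norm_num) (by norm_num), b7]
  have c8 : s3 8 = [] := by rw [c3 8 (by norm_num) (by norm_num), b8]
  have c0 : s3 0 = [] := by rw [c3 0 (by norm_num) (by norm_num), b0]
  have e4 := exec_push O s3 2 false
  set s4 := Function.update s3 2 (false :: s3 2) with hs4
  have d2 : s4 2 = false :: code e x N := by rw [hs4, Function.update_self, c2, a2]
  have d7 : s4 7 = List.replicate N true ++ false ::
      ((x.flatMap (fun b => [true, b])).reverse ++ false :: List.replicate e true) := by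
    rw [hs4, Function.update_of_ne (by norm_num), c7, a2]
    simp [code]
  have d8 : s4 8 = [] := by rw [hs4, Function.update_of_ne (by norm_num), c8]
  have d0 : s4 0 = [] := by rw [hs4, Function.update_of_ne (by norm_num), c0]
  obtain ⟨s5, e5, f2, f0⟩ := exec_mainLoop O N _ (false :: code e x N) s4 d7 d8 d2 d0
  have e6 := exec_push O s5 2 true
  have e7 := exec_push O (Function.update s5 2 (true :: s5 2)) 2 true
  rw [Function.update_self, Function.update_idem] at e7
  set s6 := Function.update s5 2 (true :: true :: s5 2) with hs6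
  have g6 : s6 2 = true :: true :: (rnd O)^[N] (false :: code e x N) := by
    rw [hs6, Function.update_self, f2]
  have hlen4 : (s4 7).length = e + 2 * x.length + N + 2 := by
    rw [hs4, Function.update_of_ne (by norm_num), c7, a2, List.length_reverse, code_length]
  have htime : codeTime e κ x.length + (((s1 2).length * (8 + 1) + 1) +
      (((s2 6).length * 5 + 1) + (1 + (((s4 7).length * (25 + 1) + 1) +
      (1 + (1 + (2 + 1 + 1) + 1) + 1) + 1) + 1) + 1) + 1) + 1 ≤ srchTime e κ x.length := by
    rw [b6, List.length_reverse, a2, code_length, hlen4]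
    unfold srchTime
    rw [← hN]
    omega
  by_cases hA : O (true :: true :: (rnd O)^[N] (false :: code e x N)) = true
  · refine ⟨Function.update s6 0 (true :: s6 0), ?_, ?_⟩
    · have e8 : Exec O (Prog.ask 2 (Prog.push 0 true) (Prog.push 0 false)) s6
          (Function.update s6 0 (true :: s6 0)) 2 := by
        apply exec_ask
        rw [g6, if_pos hA]
        exact exec_push O s6 0 true
      exact (exec_seqs_cons e1 (exec_seqs_cons e2 (exec_seqs_cons e3 (exec_seqs_cons e4
        (exec_seqs_cons e5 (exec_seqs_cons e6 (exec_seqs_cons e7 (exec_seqs_cons e8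
          (exec_seqs_nil _ _))))))))).mono htime
    · simp [hA]
  · refine ⟨Function.update s6 0 (false :: s6 0), ?_, ?_⟩
    · have e8 : Exec O (Prog.ask 2 (Prog.push 0 true) (Prog.push 0 false)) s6
          (Function.update s6 0 (false :: s6 0)) 2 := by
        apply exec_ask
        rw [g6, if_neg hA]
        exact exec_push O s6 0 false
      exact (exec_seqs_cons e1 (exec_seqs_cons e2 (exec_seqs_cons e3 (exec_seqs_cons e4
        (exec_seqs_cons e5 (exec_seqs_cons e6 (exec_seqs_cons e7 (exec_seqs_cons e8
          (exec_seqs_nil _ _))))))))).mono htime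
    · simp [hA]

/-- **The language computed by the binary search.** -/
theorem srch_mem (O : Oracle) (e κ : ℕ) :
    {x : List Bool | O (true :: true :: (rnd O)^[(x.length + 2) ^ 2 ^ κ]
      (false :: code e x ((x.length + 2) ^ 2 ^ κ))) = true} ∈ SigmaP O 0 := by
  have hspec : ∀ x : List Bool,
      (run O (srchProg e κ) [x] (srchTime e κ x.length)).1 = [] ∧
      (Accepts O (srchProg e κ) [x] ↔ O (true :: true :: (rnd O)^[(x.length + 2) ^ 2 ^ κ]
      (false :: code e x ((x.length + 2) ^ 2 ^ κ))) = true) := by
    intro x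
    obtain ⟨s', h1, h2⟩ := exec_srchProg O e κ x
    have h3 := run_of_exec h1
    have h4 : (run O (srchProg e κ) [x] (srchTime e κ x.length)).1 = [] := by rw [h3]
    refine ⟨h4, ?_⟩
    rw [accepts_iff_of_halted h4]
    unfold AcceptsIn
    rw [h3]
    simp only [true_and]
    exact h2
  refine ⟨0, srchProg e κ, ?_, ?_⟩
  · refine ⟨(Polynomial.C κ *
      (20 * ((Polynomial.X + 2) ^ 2 ^ κ + 1) * ((Polynomial.X + 2) ^ 2 ^ κ + 1) + 1) +
      20 * Polynomial.X + Polynomial.C (2 * e + 30)) +
      50 * (Polynomial.C (e + 2) + 2 * Polynomial.X + (Polynomial.X + 2) ^ 2 ^ κ) + 60, ?_⟩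
    intro xs hxs
    match xs with
    | [] => simp at hxs
    | x :: [] =>
      have h := (hspec x).1
      rw [run_of_halted h]
      · exact h
      · simp only [Polynomial.eval_add, Polynomial.eval_mul, Polynomial.eval_X,
          Polynomial.eval_ofNat, Polynomial.eval_C, Polynomial.eval_pow, Polynomial.eval_one,
          srchTime, codeTime, totalLength, List.map_cons, List.map_nil, List.sum_cons,
          List.sum_nil, Nat.add_zero]
        omega
    | x :: y :: zs => simp at hxs
  · intro x
    exact (hspec x).2.symm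

/-! ### Correctness of the search -/

theorem digit_aux (τ m : ℕ) : ((1 + 2 * (τ / 2 ^ (m + 1))) * 2 ^ m ≤ τ) ↔
    τ / 2 ^ m = 1 + 2 * (τ / 2 ^ (m + 1)) := by
  have h1 : τ / 2 ^ (m + 1) = τ / 2 ^ m / 2 := by
    rw [pow_succ, Nat.div_div_eq_div_mul]
  rw [h1, ← Nat.le_div_iff_mul_le (by positivity)]
  omega

theorem digit_aux' (τ m : ℕ) (h : ¬ (1 + 2 * (τ / 2 ^ (m + 1))) * 2 ^ m ≤ τ) :
    τ / 2 ^ m = 2 * (τ / 2 ^ (m + 1)) := by
  have h1 : τ / 2 ^ (m + 1) = τ / 2 ^ m / 2 := by
    rw [pow_succ, Nat.div_div_eq_div_mul]
  rw [h1, ← Nat.le_div_iff_mul_le (by positivity)] at h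
  rw [h1]
  omega

theorem zz_cons (b : Bool) (p : List Bool) (c : Cd) : zz (b :: p, c) = true :: b :: zz (p, c) := by
  simp [zz]

theorem srch_correct (O : Oracle) (c : Cd) (τ : ℕ) (hτ : τ < 2 ^ (c.2.2 + 1))
    (hO : ∀ p : List Bool, p.length ≤ c.2.2 + 1 → O (zz (p, c)) = decide (thw (p, c) ≤ τ)) :
    ∀ j, j ≤ c.2.2 + 1 → ∃ p : List Bool, p.length = j ∧ (rnd O)^[j] (zz ([], c)) = zz (p, c) ∧
      numL p = τ / 2 ^ (c.2.2 + 1 - j) := by
  intro j
  induction j with
  | zero =>
    intro _
    refine ⟨[], rfl, rfl, ?_⟩
    rw [Nat.sub_zero, Nat.div_eq_of_lt hτ]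
    rfl
  | succ j ih =>
    intro hj
    obtain ⟨p, hp1, hp2, hp3⟩ := ih (by omega)
    rw [Function.iterate_succ_apply', hp2]
    obtain ⟨m, hm⟩ : ∃ m, c.2.2 + 1 - j = m + 1 := ⟨c.2.2 - j, by omega⟩
    have hm' : c.2.2 + 1 - (j + 1) = m := by omega
    rw [hm] at hp3
    rw [hm']
    have h1 := hO (true :: p) (by simp [hp1]; omega)
    rw [zz_cons] at h1
    have h2 : thw (true :: p, c) = (1 + 2 * (τ / 2 ^ (m + 1))) * 2 ^ m := by
      unfold thw
      simp only [numL, List.length_cons, hp1, hm', hp3, Bool.toNat_true]
    rw [h2] at h1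
    unfold rnd
    rw [h1]
    by_cases hle : (1 + 2 * (τ / 2 ^ (m + 1))) * 2 ^ m ≤ τ
    · refine ⟨true :: p, by simp [hp1], ?_, ?_⟩
      · rw [if_pos (by simpa using hle), zz_cons]
      · simp only [numL, hp3, Bool.toNat_true]
        exact ((digit_aux τ m).1 hle).symm
    · refine ⟨false :: p, by simp [hp1], ?_, ?_⟩
      · rw [if_neg (by simpa using hle), zz_cons]
      · simp only [numL, hp3, Bool.toNat_false, zero_add]
        exact (digit_aux' τ m hle).symm

theorem srch_final (O : Oracle) (c : Cd) (v : ℕ) (b : Prop) (hv : v < 2 ^ c.2.2)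
    (hO : ∀ p : List Bool, p.length ≤ c.2.2 + 1 →
      O (zz (p, c)) = decide (thw (p, c) ≤ 2 * v + (if b then 1 else 0))) :
    O (true :: true :: (rnd O)^[c.2.2] (zz ([], c))) = true ↔ b := by
  have hτ : 2 * v + (if b then 1 else 0) < 2 ^ (c.2.2 + 1) := by
    rw [pow_succ]
    split_ifs <;> omega
  obtain ⟨p, hp1, hp2, hp3⟩ := srch_correct O c _ hτ hO c.2.2 (by omega)
  rw [hp2]
  have h1 := hO (true :: p) (by simp [hp1])
  rw [zz_cons] at h1
  rw [h1, decide_eq_true_eq]
  unfold thw
  have h2 : c.2.2 + 1 - c.2.2 = 1 := by omega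
  simp only [numL, List.length_cons, hp1, Nat.sub_self, pow_zero, mul_one, Bool.toNat_true, hp3,
    h2, pow_one]
  by_cases hb : b
  · rw [if_pos hb]
    constructor
    · intro _; exact hb
    · intro _; omega
  · rw [if_neg hb]
    constructor
    · intro h; omega
    · intro h; exact absurd h hb

/-- **Languages decided by the bits are in `P` relative to a language at level `k`.** -/
theorem delta_of_bits (g : Enum) (act : ℕ → Finset ℕ) (S : Oracle) (Y : List Bool → List Bool)
    (V : List Bool → ℕ) (k e κ : ℕ) (hk : (g e).1 = k) (L : Set (List Bool))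
    (hL : ∀ x, x ∈ L ↔ bv g act (orP g act S Y V) (e, x, (x.length + 2) ^ 2 ^ κ)) :
    ∃ O : Oracle, {x | O x = true} ∈ SigmaP (orP g act S Y V) k ∧ L ∈ SigmaP O 0 := by
  set A := orP g act S Y V with hA
  refine ⟨redO A k, redO_mem A k, ?_⟩
  have h1 := srch_mem (redO A k) e κ
  have h2 : L = {x : List Bool | redO A k (true :: true :: (rnd (redO A k))^[(x.length + 2) ^ 2 ^ κ]
      (false :: code e x ((x.length + 2) ^ 2 ^ κ))) = true} := by
    ext x
    rw [hL x]
    set N := (x.length + 2) ^ 2 ^ κ with hN
    set c : Cd := (e, x, N) with hc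
    have h3 : zz ([], c) = false :: code e x N := by simp [zz, hc]
    have hv : vv V c < 2 ^ c.2.2 := by
      unfold vv
      split_ifs with h
      · exact h
      · positivity
    have h4 := srch_final (redO A k) c (vv V c) (bv g act A c) hv (by
      intro p hp
      have h5 := redO_zz g act S Y V (p, c) hp
      have h6 : dp g (p, c).2 = k := hk
      rw [h6] at h5
      rw [hA, h5]
      rfl)
    rw [h3] at h4
    exact h4.symm
  rw [h2]
  exact h1

end Pool.Agent.H7p
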