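import Mathlib
import Pool.Agent.H8.PCond
import Pool.Agent.H7.PSearch

/-!
The limit of the construction: entries are forced to be violated or kept.
-/

set_option autoImplicit false

namespace Pool.Agent.H7p

open Classical
open Pool.Agent.H9
open Pool.Agent.H8p
open Pool.Agent.H7 (hword hword_length)
open Pool.Agent.H8u (Cd hid hid_length totalLength_cons_of tableLang2 tableLang2_mem)

/-- A state of the construction. -/
structure St where
  /-- the active entries -/
  act : ℕ → Finset ℕ
  /-- the entries active from now on -/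
  E : Finset ℕ
  /-- everything below `n` is fixed -/
  n : ℕ
  /-- the condition -/
  D : Cond

/-- validity of a state -/
def Valid (g : Enum) (B : Oracle) (s : St) : Prop :=
  (∀ N, s.n ≤ N → s.act N = s.E) ∧ Tot g s.act B s.E s.n s.D

/-- agreement with a state on the fixed part -/
def Agr (s : St) (act : ℕ → Finset ℕ) (D : Cond) : Prop :=
  (∀ N, N < s.n → act N = s.act N) ∧ ∀ w : List Bool, w.length < s.n → D w = s.D w

/-- the two machines of the entry do not accept complementary languages -/
def Viol (g : Enum) (B : Oracle) (e : ℕ) (act : ℕ → Finset ℕ) (D : Cond) : Prop :=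
  ∃ x : List Bool, ¬ (H8p.Acc (orD g act B D) (g e).2.1 ((g e).1 + 1) x ↔
      ¬ H8p.Acc (orD g act B D) (g e).2.2 ((g e).1 + 1) x)

theorem viol_local (g : Enum) (B : Oracle) (e : ℕ) (act : ℕ → Finset ℕ) (D : Cond)
    (h : Viol g B e act D) : ∃ n' : ℕ, ∀ (act' : ℕ → Finset ℕ) (D' : Cond),
      (∀ N, N < n' → act' N = act N) →
      (∀ w : List Bool, w.length < n' → D' w = D w) → Viol g B e act' D' := by
  obtain ⟨x, hx⟩ := h
  refine ⟨cost (g e).2.1 ((g e).1 + 1) x.length + cost (g e).2.2 ((g e).1 + 1) x.length, ?_⟩
  intro act' D' h1 h2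
  have hA := orD_congr g B h1 h2
  refine ⟨x, ?_⟩
  rw [acc_local (A := orD g act' B D') (A' := orD g act B D) (fun v hv => hA v (by omega)),
    acc_local (A := orD g act' B D') (A' := orD g act B D) (m := (g e).2.2)
      (fun v hv => hA v (by omega))]
  exact hx

theorem prune (g : Enum) (B : Oracle) : ∀ (m : ℕ) (E : Finset ℕ), E.card = m →
    ∀ (act : ℕ → Finset ℕ) (n : ℕ) (D : Cond), (∀ N, n ≤ N → act N = E) →
    ∃ s' : St, Valid g B s' ∧ n ≤ s'.n ∧ s'.E ⊆ E ∧ (∀ N, N < n → s'.act N = act N) ∧
      (∀ w : List Bool, w.length < n → s'.D w = D w) ∧ (∀ N, n ≤ N → s'.E ⊆ s'.act N) ∧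
      ∀ e ∈ E, e ∉ s'.E → ∀ (act' : ℕ → Finset ℕ) (D' : Cond), Agr s' act' D' →
        Viol g B e act' D' := by
  intro m
  induction m with
  | zero =>
    intro E hE act n D hact
    rw [Finset.card_eq_zero] at hE
    subst hE
    refine ⟨⟨act, ∅, n, D⟩, ⟨hact, ?_⟩, le_rfl, le_rfl, fun _ _ => rfl, fun _ _ => rfl, ?_, ?_⟩
    · intro D' _ e he
      exact absurd he (Finset.notMem_empty _)
    · intro N _
      exact Finset.empty_subset _
    · intro e he
      exact absurd he (Finset.notMem_empty _)
  | succ m ih =>
    intro E hE act n D hact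
    by_cases hT : Tot g act B E n D
    · refine ⟨⟨act, E, n, D⟩, ⟨hact, hT⟩, le_rfl, le_rfl, fun _ _ => rfl, fun _ _ => rfl, ?_, ?_⟩
      · intro N hN
        simp only
        rw [hact N hN]
      · intro e he hne
        exact absurd he hne
    · unfold Tot at hT
      push Not at hT
      obtain ⟨D1, hD1, e, he, x, hx⟩ := hT
      have hV : Viol g B e act D1 := by
        refine ⟨x, ?_⟩
        rcases hx with hx | hx
        · rw [_root_.not_iff]
          constructor
          · intro h
            exact absurd hx.1 h
          · intro h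
            exact absurd hx.2 h
        · rw [_root_.not_iff]
          constructor
          · intro _
            exact hx.2
          · intro _
            exact hx.1
      obtain ⟨n1, hn1⟩ := viol_local g B e act D1 hV
      set n2 := max n n1 with hn2
      have hcard : (E.erase e).card = m := by
        rw [Finset.card_erase_of_mem he, hE]
        rfl
      obtain ⟨s', h1, h2, h3, h4, h5, h6, h7⟩ := ih (E.erase e) hcard
        (fun N => if N < n2 then act N else E.erase e) n2 D1 (by
          intro N hN
          rw [if_neg (by omega)])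
      have hnn : n ≤ n2 := le_max_left _ _
      have hnn1 : n1 ≤ n2 := le_max_right _ _
      refine ⟨s', h1, by omega, h3.trans (Finset.erase_subset _ _), ?_, ?_, ?_, ?_⟩
      · intro N hN
        rw [h4 N (by omega), if_pos (by omega)]
      · intro w hw
        rw [h5 w (by omega), hD1 w hw]
      · intro N hN
        by_cases hN2 : N < n2
        · rw [h4 N hN2, if_pos hN2, hact N hN]
          exact h3.trans (Finset.erase_subset _ _)
        · exact h6 N (by omega)
      · intro e0 he0 hne0 act' D' hag
        by_cases hee : e0 = e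
        · subst hee
          apply hn1
          · intro N hN
            rw [hag.1 N (by omega), h4 N (by omega), if_pos (by omega)]
          · intro w hw
            rw [hag.2 w (by omega), h5 w (by omega)]
        · exact h7 e0 (Finset.mem_erase.2 ⟨hee, he0⟩) hne0 act' D' hag

/-- One step of the construction. -/
theorem stage_step (hstep : StepProp) (g : Enum) (B : Oracle)
    (r : ℕ → ℕ × Prog × Polynomial ℕ × Polynomial ℕ) (i : ℕ) (s : St) (_hs : Valid g B s) :
    ∃ s' : St, Valid g B s' ∧ s.n < s'.n ∧ Agr s s'.act s'.D ∧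
      (∀ N, s.n ≤ N → s'.E ⊆ s'.act N) ∧
      (∀ e ∈ insert i s.E, e ∉ s'.E → ∀ (act' : ℕ → Finset ℕ) (D' : Cond), Agr s' act' D' →
        Viol g B e act' D') ∧
      ∃ m : ℕ, ∀ (act' : ℕ → Finset ℕ) (D' : Cond), Agr s' act' D' → Fails g act' B (r i) D' m := by
  obtain ⟨s1, h1, h2, h3, h4, h5, h6, h7⟩ := prune g B _ (insert i s.E) rfl
    (fun N => if N < s.n then s.act N else insert i s.E) s.n s.D (by
      intro N hN
      rw [if_neg (by omega)])
  obtain ⟨D', m, h8, h9⟩ := hstep g B s1.act s1.E s1.n s1.D h1.1 h1.2 (r i)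
  obtain ⟨n', h10⟩ := fails_local g s1.act B (r i) D' m h9
  refine ⟨⟨s1.act, s1.E, max (s1.n + 1) n', D'⟩, ⟨?_, ?_⟩, ?_, ⟨?_, ?_⟩, ?_, ?_, m, ?_⟩
  · intro N hN
    simp only at hN
    exact h1.1 N (by omega)
  · intro D'' hD'' e he x
    refine h1.2 D'' ?_ e he x
    intro w hw
    rw [hD'' w (by simp only; omega)]
    exact h8 w hw
  · simp only
    omega
  · intro N hN
    simp only
    rw [h4 N hN, if_pos hN]
  · intro w hw
    simp only
    rw [h8 w (by omega), h5 w hw]
  · intro N hN
    exact h6 N hN
  · intro e he hne act' D'' hag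
    refine h7 e he hne act' D'' ⟨?_, ?_⟩
    · intro N hN
      exact hag.1 N (by simp only; omega)
    · intro w hw
      have h11 := hag.2 w (by simp only; omega)
      rw [h11]
      exact h8 w hw
  · intro act' D'' hag
    apply h10
    · intro N hN
      exact hag.1 N (by simp only; omega)
    · intro w hw
      exact hag.2 w (by simp only; omega)

/-- **The limit of the construction.** -/
theorem limit_exists (hstep : StepProp) (g : Enum) (B : Oracle)
    (r : ℕ → ℕ × Prog × Polynomial ℕ × Polynomial ℕ) :
    ∃ (act : ℕ → Finset ℕ) (D : Cond), (∀ i, ∃ m, Fails g act B (r i) D m) ∧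
      ∀ e, Viol g B e act D ∨ ∃ N₀, ∀ N, N₀ ≤ N → e ∈ act N := by
  have hne : Valid g B ⟨fun _ => ∅, ∅, 0, fun _ => (false, [], 0)⟩ := by
    refine ⟨fun _ _ => rfl, ?_⟩
    intro D' _ e he
    exact absurd he (Finset.notMem_empty _)
  choose! f hf using fun (i : ℕ) (s : St) (hs : Valid g B s) => stage_step hstep g B r i s hs
  let s : ℕ → St := fun i => Nat.rec (motive := fun _ => St)
    ⟨fun _ => ∅, ∅, 0, fun _ => (false, [], 0)⟩ (fun i s => f i s) i
  have hs0 : s 0 = ⟨fun _ => ∅, ∅, 0, fun _ => (false, [], 0)⟩ := rfl
  have hsS : ∀ i, s (i + 1) = f i (s i) := fun _ => rfl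
  have hV : ∀ i, Valid g B (s i) := by
    intro i
    induction i with
    | zero => rw [hs0]; exact hne
    | succ i ih => rw [hsS]; exact (hf i (s i) ih).1
  have hlt : ∀ i, (s i).n < (s (i + 1)).n := by
    intro i
    rw [hsS]
    exact (hf i (s i) (hV i)).2.1
  have hmono : ∀ i j, i ≤ j → (s i).n ≤ (s j).n := by
    intro i j hij
    induction j, hij using Nat.le_induction with
    | base => exact le_rfl
    | succ j _ ih => exact ih.trans (hlt j).le
  have hge : ∀ i, i ≤ (s i).n := by
    intro i
    induction i with
    | zero => exact Nat.zero_le _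
    | succ i ih => exact lt_of_le_of_lt ih (hlt i)
  have hag : ∀ i j, i ≤ j → Agr (s i) (s j).act (s j).D := by
    intro i j hij
    induction j, hij using Nat.le_induction with
    | base => exact ⟨fun _ _ => rfl, fun _ _ => rfl⟩
    | succ j hij ih =>
      have h1 := (hf j (s j) (hV j)).2.2.1
      rw [← hsS] at h1
      have h2 := hmono i j hij
      refine ⟨?_, ?_⟩
      · intro N hN
        rw [h1.1 N (by omega), ih.1 N hN]
      · intro w hw
        rw [h1.2 w (by omega), ih.2 w hw]
  set act : ℕ → Finset ℕ := fun N => (s (N + 1)).act N with hact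
  set D : Cond := fun w => (s (w.length + 1)).D w with hD
  have hlim : ∀ i, Agr (s i) act D := by
    intro i
    refine ⟨?_, ?_⟩
    · intro N hN
      simp only [hact]
      rcases Nat.le_total i (N + 1) with h | h
      · exact (hag i (N + 1) h).1 N hN
      · exact ((hag (N + 1) i h).1 N (by have := hge (N + 1); omega)).symm
    · intro w hw
      simp only [hD]
      rcases Nat.le_total i (w.length + 1) with h | h
      · exact (hag i (w.length + 1) h).2 w hw
      · exact ((hag (w.length + 1) i h).2 w (by have := hge (w.length + 1); omega)).symm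
  refine ⟨act, D, ?_, ?_⟩
  · intro i
    obtain ⟨m, hm⟩ := (hf i (s i) (hV i)).2.2.2.2.2
    rw [← hsS] at hm
    exact ⟨m, hm act D (hlim (i + 1))⟩
  · intro e
    by_cases hv : Viol g B e act D
    · exact Or.inl hv
    right
    have hE : ∀ j, e + 1 ≤ j → e ∈ (s j).E := by
      intro j hj
      induction j, hj using Nat.le_induction with
      | base =>
        by_contra hcon
        apply hv
        have h1 := (hf e (s e) (hV e)).2.2.2.2.1 e (Finset.mem_insert_self _ _)
        rw [← hsS] at h1
        exact h1 hcon act D (hlim (e + 1))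
      | succ j hj ih =>
        by_contra hcon
        apply hv
        have h1 := (hf j (s j) (hV j)).2.2.2.2.1 e (Finset.mem_insert_of_mem ih)
        rw [← hsS] at h1
        exact h1 hcon act D (hlim (j + 1))
    have hC : ∀ j, e + 1 ≤ j → ∀ N, (s (e + 1)).n ≤ N → e ∈ (s j).act N := by
      intro j hj
      induction j, hj using Nat.le_induction with
      | base =>
        intro N hN
        rw [(hV (e + 1)).1 N hN]
        exact hE (e + 1) le_rfl
      | succ j hj ih =>
        intro N hN
        by_cases hNj : N < (s j).n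
        · rw [(hag j (j + 1) (Nat.le_succ j)).1 N hNj]
          exact ih N hN
        · have h1 := (hf j (s j) (hV j)).2.2.2.1 N (by omega)
          rw [← hsS] at h1
          exact h1 (hE (j + 1) (by omega))
    refine ⟨(s (e + 1)).n, ?_⟩
    intro N hN
    simp only [hact]
    rcases Nat.le_total (e + 1) (N + 1) with h | h
    · exact hC (N + 1) h N hN
    · have := hge (e + 1)
      omega

/-- **Reduction of the main theorem to the diagonalisation step.** -/
theorem main_of_step (hstep : StepProp) (B : Oracle) :
    ∃ A : Oracle, (∀ k, SigmaP B k ⊆ SigmaP A k) ∧ (∀ k, SigmaP A k ⊂ SigmaP A (k + 1)) ∧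
      ∀ (k : ℕ) (L : Set (List Bool)), L ∈ SigmaP A (k + 1) → Lᶜ ∈ SigmaP A (k + 1) →
        L ∈ DeltaP A k := by
  have hcount : Countable (Polynomial ℕ) := by
    rw [← Cardinal.mk_le_aleph0_iff]
    refine (Polynomial.cardinalMk_le_max (R := ℕ)).trans ?_
    simp
  have hne : Nonempty (ℕ × Prog × Polynomial ℕ × Polynomial ℕ) := ⟨(0, Prog.skip, 0, 0)⟩
  have hne2 : Nonempty (ℕ × Mch × Mch) := ⟨(0, (Prog.skip, 0, 0), (Prog.skip, 0, 0))⟩
  obtain ⟨r, hr⟩ := exists_surjective_nat (ℕ × Prog × Polynomial ℕ × Polynomial ℕ)
  obtain ⟨g, hg⟩ := exists_surjective_nat (ℕ × Mch × Mch)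
  obtain ⟨act, D, h1, h2⟩ := limit_exists hstep g B r
  refine ⟨orD g act B D, fun k => sigmaP_below g act B _ _ _ k, ?_, ?_⟩
  · intro k
    have hnot : tableLang2 (orD g act B D) k ∉ SigmaP (orD g act B D) k := by
      rintro ⟨q, p, ⟨T, hT⟩, hL⟩
      obtain ⟨e, he⟩ := hr (k, p, q, T)
      obtain ⟨n, hn⟩ := h1 e
      apply hn
      simp only [he]
      have h1 := hL (List.replicate n true)
      have h2 : List.replicate n true ∈ tableLang2 (orD g act B D) k ↔ Alt true (k + 1) n
          (fun us => orD g act B D (false :: true :: hword (List.replicate n true) us) = true) := by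
        simp [tableLang2]
      rw [← h2, h1, List.length_replicate]
      apply Pool.Agent.H7.Alt_congr
      intro us hus
      have hl : us.length = k := by
        have := congrArg List.length hus
        simpa using this
      have htot : totalLength (List.replicate n true :: us) = n + k * q.eval n := by
        rw [totalLength_cons_of hus, List.length_replicate]
      have h3 := hT (List.replicate n true :: us) (by simp [hl])
      rw [htot] at h3
      exact accepts_iff_of_halted h3
    exact (Set.ssubset_iff_of_subset (sigmaP_mono _ k)).2 ⟨_, tableLang2_mem _ k, hnot⟩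
  · intro k L hL hLc
    obtain ⟨q, p, ⟨T, hT⟩, hL⟩ := hL
    obtain ⟨q', p', ⟨T', hT'⟩, hLc⟩ := hLc
    obtain ⟨e, he⟩ := hg (k, (p, q, T), (p', q', T'))
    -- acceptance
    have hacc : ∀ (q : Polynomial ℕ) (p : Prog) (T : Polynomial ℕ) (L : Set (List Bool)),
        (∀ xs : List (List Bool), xs.length = k + 1 + 1 →
          (run (orD g act B D) p xs (T.eval (totalLength xs))).1 = []) →
        (∀ x : List Bool, x ∈ L ↔
          Alt true (k + 1) (q.eval x.length) (fun us => Accepts (orD g act B D) p (x :: us))) →
        ∀ x, H8p.Acc (orD g act B D) (p, q, T) (k + 1) x ↔ x ∈ L := by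
      intro q p T L hT hL x
      rw [hL x]
      unfold H8p.Acc
      apply Pool.Agent.H7.Alt_congr
      intro us hus
      have hlen : us.length = k + 1 := by
        have := congrArg List.length hus
        simpa using this
      have htot := totalLength_cons_of (x := x) hus
      have hhalt := hT (x :: us) (by simp [hlen])
      rw [htot] at hhalt
      exact (accepts_iff_of_halted hhalt).symm
    have ha := hacc q p T L hT hL
    have ha' := hacc q' p' T' Lᶜ hT' hLc
    -- the entry is never killed
    have hnv : ¬ Viol g B e act D := by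
      rintro ⟨x, hx⟩
      apply hx
      rw [he]
      simp only
      rw [ha x, ha' x]
      simp
    obtain ⟨N₀, hN₀⟩ := (h2 e).resolve_left hnv
    obtain ⟨κ, hκ⟩ := poly_le_pow (((Polynomial.X + Polynomial.C (k + 1) * q +
      T.comp (Polynomial.X + Polynomial.C (k + 1) * q)) +
      (Polynomial.X + Polynomial.C (k + 1) * q' +
      T'.comp (Polynomial.X + Polynomial.C (k + 1) * q')) + 2) ^ 2 + Polynomial.C N₀)
    refine delta_of_bits g act _ _ _ k e κ (by rw [he]) L ?_
    intro x
    set N := (x.length + 2) ^ 2 ^ κ with hN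
    have hκx := hκ x.length
    have hbig : N₀ ≤ N := by
      refine le_trans ?_ hκx
      simp only [Polynomial.eval_add, Polynomial.eval_C]
      omega
    have hlive : Live g (e, x, N) := by
      simp only [Live, cost, ml, H8p.mt, mq, m1, m2, dp, he]
      refine le_trans ?_ hκx
      simp only [Polynomial.eval_add, Polynomial.eval_C, Polynomial.eval_pow, Polynomial.eval_X,
        Polynomial.eval_mul, Polynomial.eval_comp, Polynomial.eval_ofNat]
      omega
    unfold bv
    have h3 : (e, x, N).1 ∈ act (e, x, N).2.2 := hN₀ N hbig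
    have h4 : H8p.Acc (orD g act B D) (m1 g (e, x, N)) (dp g (e, x, N) + 1) (e, x, N).2.1 ↔
        x ∈ L := by
      unfold m1 dp
      simp only
      rw [he]
      exact ha x
    constructor
    · intro hx
      exact ⟨h3, hlive, h4.2 hx⟩
    · intro hx
      exact h4.1 hx.2.2

end Pool.Agent.H7p
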