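import Pool.Agent.H8.Switch
import Pool.Agent.H8.Pr

set_option autoImplicit false
set_option linter.unusedSectionVars false

/-!
# The counting lemma for thresholds

Every block `b` carries a random number `val b (Y b)`; the atom `(b, t)` says that the number
`2 * val b (Y b)` or `2 * val b (Y b) + 1` of the block is at least `t`. Terms are conjunctions of
few such atoms. The blocks of a set `K` are lowered (they carry the even number), the others are
raised. If no term is true when all blocks of `Z` are lowered, then with very high probability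
there is a small set `K` such that no term is true when only the blocks of `K` are lowered.
-/

namespace Pool.Agent.H7t

open Finset
open Pool.Agent.H8 (first_unique first_nondead)
open Pool.Agent.H8h (pr pr_eq pr_mono)

section

variable {B J : Type} [DecidableEq B]

/-- the term is true when the blocks of `K` are lowered and the other ones are raised -/
def Sat (val : B → J → ℕ) (Y : B → J) (K : Finset B) (T : Finset (B × ℕ)) : Prop :=
  ∀ x ∈ T, x.2 ≤ 2 * val x.1 (Y x.1) ∨ (x.2 = 2 * val x.1 (Y x.1) + 1 ∧ x.1 ∉ K)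

theorem Sat.anti {val : B → J → ℕ} {Y : B → J} {K K' : Finset B} (h : K ⊆ K')
    {T : Finset (B × ℕ)} (hT : Sat val Y K' T) : Sat val Y K T := by
  intro x hx
  rcases hT x hx with h1 | ⟨h1, h2⟩
  · exact Or.inl h1
  · exact Or.inr ⟨h1, fun h3 => h2 (h h3)⟩

/-- the blocks of a term -/
def blkT (T : Finset (B × ℕ)) : Finset B := T.image Prod.fst

theorem mem_blkT {T : Finset (B × ℕ)} {x : B × ℕ} (hx : x ∈ T) : x.1 ∈ blkT T :=
  Finset.mem_image_of_mem _ hx

/-- the blocks of `K` and the first blocks of `Z` -/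
def Lw (rk : B → ℕ) (Z K : Finset B) (n : ℕ) : Finset B := K ∪ Z.filter (fun b => rk b < n)

/-- a greedy run -/
inductive TRun (val : B → J → ℕ) (rk : B → ℕ) (Z : Finset B) (l : List (Finset (B × ℕ)))
    (Y : B → J) : Finset B → List B → Prop
  | nil (K : Finset B) : TRun val rk Z l Y K []
  | cons {K : Finset B} {l1 l2 : List (Finset (B × ℕ))} {T : Finset (B × ℕ)} {b : B}
      {L : List B} : l = l1 ++ T :: l2 →
      (∀ T' ∈ l1, ¬ Sat val Y (Lw rk Z K (rk b)) T') → Sat val Y (Lw rk Z K (rk b)) T →
      b ∈ Z → b ∉ K → (∀ T' ∈ l, ¬ Sat val Y (Lw rk Z K (rk b + 1)) T') →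
      TRun val rk Z l Y (K ∪ (blkT T ∩ Z)) L → TRun val rk Z l Y K (b :: L)

variable {val : B → J → ℕ} {rk : B → ℕ} {Z : Finset B} {l : List (Finset (B × ℕ))}

theorem TRun.mem {Y : B → J} {K : Finset B} {L : List B} (h : TRun val rk Z l Y K L) :
    ∀ b ∈ L, b ∈ Z ∧ b ∉ K := by
  induction h with
  | nil K => simp
  | cons h1 h2 h3 h4 h5 h6 _ ih =>
    intro b hb
    rcases List.mem_cons.1 hb with rfl | hb
    · exact ⟨h4, h5⟩
    · exact ⟨(ih b hb).1, fun h => (ih b hb).2 (Finset.mem_union_left _ h)⟩

theorem pivot_mem (hrk : Function.Injective rk) {Y : B → J} {K : Finset B}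
    {T : Finset (B × ℕ)} {b : B} (h1 : Sat val Y (Lw rk Z K (rk b)) T)
    (h2 : ¬ Sat val Y (Lw rk Z K (rk b + 1)) T) : b ∈ blkT T := by
  unfold Sat at h2
  push Not at h2
  obtain ⟨x, hx, h3, h4⟩ := h2
  rcases h1 x hx with h5 | ⟨h5, h6⟩
  · omega
  · have h7 := h4 h5
    have h8 : x.1 = b := by
      unfold Lw at h6 h7
      rw [Finset.mem_union, Finset.mem_filter] at h6 h7
      push Not at h6
      rcases h7 with h7 | h7
      · exact absurd h7 h6.1
      · apply hrk
        have := h6.2 h7.1
        omega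
    rw [← h8]
    exact mem_blkT hx

theorem TRun.nodup (hrk : Function.Injective rk) {Y : B → J} {K : Finset B} {L : List B}
    (h : TRun val rk Z l Y K L) : L.Nodup := by
  induction h with
  | nil K => simp
  | @cons K l1 l2 T b L h1 h2 h3 h4 h5 h6 h7 ih =>
    rw [List.nodup_cons]
    refine ⟨?_, ih⟩
    intro hb
    apply (h7.mem b hb).2
    refine Finset.mem_union_right _ (Finset.mem_inter.2 ⟨?_, h4⟩)
    exact pivot_mem hrk h3 (h6 T (by rw [h1]; simp))

/-- Existence of long runs. -/
theorem trun_decision (w : ℕ) (hl : ∀ T ∈ l, T.card ≤ w)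
    (Y : B → J) (hne : ∀ T ∈ l, ¬ Sat val Y Z T) :
    ∀ (r : ℕ) (K : Finset B), K ⊆ Z → (¬ ∃ L : List B, L.length = r ∧ TRun val rk Z l Y K L) →
      ∃ K' : Finset B, K ⊆ K' ∧ K' ⊆ Z ∧ K'.card ≤ K.card + w * r ∧
        ∀ T ∈ l, ¬ Sat val Y K' T := by
  intro r
  induction r with
  | zero =>
    intro K _ h
    exact absurd ⟨[], rfl, TRun.nil K⟩ h
  | succ r ih =>
    intro K hK h
    by_cases hall : ∀ T ∈ l, ¬ Sat val Y K T
    · exact ⟨K, Finset.Subset.refl _, hK, by omega, hall⟩
    -- the pivot
    have hex : ∃ n, ∀ T ∈ l, ¬ Sat val Y (Lw rk Z K n) T := by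
      refine ⟨(Z.sup rk) + 1, ?_⟩
      intro T hT hS
      apply hne T hT
      refine hS.anti ?_
      intro b hb
      refine Finset.mem_union_right _ (Finset.mem_filter.2 ⟨hb, ?_⟩)
      exact Nat.lt_succ_of_le (Finset.le_sup (f := rk) hb)
    classical
    obtain ⟨n, hn, hmin⟩ : ∃ n, (∀ T ∈ l, ¬ Sat val Y (Lw rk Z K n) T) ∧
        ∀ m < n, ¬ ∀ T ∈ l, ¬ Sat val Y (Lw rk Z K m) T :=
      ⟨Nat.find hex, Nat.find_spec hex, fun m hm => Nat.find_min hex hm⟩
    have hL0 : Lw rk Z K 0 = K := by
      unfold Lw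
      simp
    have hn0 : n ≠ 0 := by
      rintro rfl
      rw [hL0] at hn
      exact hall hn
    obtain ⟨m, rfl⟩ : ∃ m, n = m + 1 := ⟨n - 1, by omega⟩
    have hm := hmin m (by omega)
    -- the block
    obtain ⟨b, hbZ, hbK, hbm⟩ : ∃ b, b ∈ Z ∧ b ∉ K ∧ rk b = m := by
      by_contra hcon
      push Not at hcon
      apply hm
      have : Lw rk Z K m = Lw rk Z K (m + 1) := by
        unfold Lw
        ext b
        rw [Finset.mem_union, Finset.mem_union, Finset.mem_filter, Finset.mem_filter]
        by_cases hb : b ∈ K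
        · simp [hb]
        · simp only [hb, false_or]
          constructor
          · rintro ⟨h1, h2⟩
            exact ⟨h1, by omega⟩
          · rintro ⟨h1, h2⟩
            have := hcon b h1 hb
            exact ⟨h1, by omega⟩
      rw [this]
      exact hn
    subst hbm
    rcases first_nondead (fun T => ¬ Sat val Y (Lw rk Z K (rk b)) T) l with h1 |
      ⟨l1, l2, T, h1, h2, h3⟩
    · exact absurd h1 hm
    · rw [not_not] at h3
      have hT : T ∈ l := by rw [h1]; simp
      obtain ⟨K', g1, g2, g3, g4⟩ := ih (K ∪ (blkT T ∩ Z))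
        (Finset.union_subset hK Finset.inter_subset_right) (by
        rintro ⟨L, hL, hrun⟩
        exact h ⟨b :: L, by simp [hL], TRun.cons h1 h2 h3 hbZ hbK hn hrun⟩)
      refine ⟨K', Finset.subset_union_left.trans g1, g2, ?_, g4⟩
      have h5 : (blkT T ∩ Z).card ≤ w :=
        (Finset.card_le_card Finset.inter_subset_left).trans
          (Finset.card_image_le.trans (hl T hT))
      have h6 := Finset.card_union_le K (blkT T ∩ Z)
      calc K'.card ≤ (K ∪ (blkT T ∩ Z)).card + w * r := g3
        _ ≤ K.card + w + w * r := by omega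
        _ = K.card + w * (r + 1) := by ring

/-- The run determines the numbers of its blocks. -/
theorem trun_det (hrk : Function.Injective rk) {Y Y' : B → J} : ∀ {L : List B} {K : Finset B},
    TRun val rk Z l Y K L → TRun val rk Z l Y' K L →
    (∀ b, b ∉ L → val b (Y b) = val b (Y' b)) → ∀ b ∈ L, val b (Y b) = val b (Y' b) := by
  intro L
  induction L with
  | nil => simp
  | cons b L ih =>
    intro K h h' hag
    -- comparison at the pivot
    have comp : ∀ (Y Y' : B → J) (T : Finset (B × ℕ)),
        Sat val Y (Lw rk Z K (rk b)) T → (∀ x ∈ T, x.1 ∉ L) →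
        (∀ b', b' ∉ b :: L → val b' (Y b') = val b' (Y' b')) →
        ¬ Sat val Y' (Lw rk Z K (rk b + 1)) T → val b (Y' b) ≤ val b (Y b) := by
      intro Y Y' T h1 h2 h3 h4
      by_contra hcon
      push Not at hcon
      apply h4
      intro x hx
      by_cases hxb : x.1 = b
      · left
        rcases h1 x hx with h5 | ⟨h5, _⟩
        · rw [hxb] at h5 ⊢
          omega
        · rw [hxb] at h5 ⊢
          omega
      · have hval : val x.1 (Y x.1) = val x.1 (Y' x.1) := by
          apply h3
          rw [List.mem_cons]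
          push Not
          exact ⟨hxb, h2 x hx⟩
        rw [← hval]
        rcases h1 x hx with h5 | ⟨h5, h6⟩
        · exact Or.inl h5
        · refine Or.inr ⟨h5, ?_⟩
          intro h7
          unfold Lw at h6 h7
          rw [Finset.mem_union, Finset.mem_filter] at h6 h7
          push Not at h6
          rcases h7 with h7 | h7
          · exact h6.1 h7
          · apply hxb
            apply hrk
            have := h6.2 h7.1
            omega
    cases h with
    | @cons _ l1 l2 T _ _ g1 g2 g3 g4 g5 g6 g7 =>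
    cases h' with
    | @cons _ m1 m2 T' _ _ k1 k2 k3 k4 k5 k6 k7 =>
    have avT : ∀ x ∈ T, x.1 ∉ L := by
      intro x hx hL
      obtain ⟨e1, e2⟩ := g7.mem x.1 hL
      exact e2 (Finset.mem_union_right _ (Finset.mem_inter.2 ⟨mem_blkT hx, e1⟩))
    have avT' : ∀ x ∈ T', x.1 ∉ L := by
      intro x hx hL
      obtain ⟨e1, e2⟩ := k7.mem x.1 hL
      exact e2 (Finset.mem_union_right _ (Finset.mem_inter.2 ⟨mem_blkT hx, e1⟩))
    have hTl : T ∈ l := by rw [g1]; simp
    have hT'l : T' ∈ l := by rw [k1]; simp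
    have hb : val b (Y b) = val b (Y' b) := by
      apply le_antisymm
      · exact comp Y' Y T' k3 avT' (fun b' hb' => (hag b' hb').symm) (g6 T' hT'l)
      · exact comp Y Y' T g3 avT hag (k6 T hTl)
    have hvT : ∀ T'' : Finset (B × ℕ), (∀ x ∈ T'', x.1 ∉ L) →
        (Sat val Y (Lw rk Z K (rk b)) T'' ↔ Sat val Y' (Lw rk Z K (rk b)) T'') := by
      intro T'' hav
      unfold Sat
      apply forall_congr'; intro x
      apply forall_congr'; intro hx
      have : val x.1 (Y x.1) = val x.1 (Y' x.1) := by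
        by_cases hxb : x.1 = b
        · rw [hxb]
          exact hb
        · apply hag
          rw [List.mem_cons]
          push Not
          exact ⟨hxb, hav x hx⟩
      rw [this]
    have hTT : T = T' := by
      refine first_unique (fun T'' => Sat val Y (Lw rk Z K (rk b)) T'' ∧ ∀ x ∈ T'', x.1 ∉ L)
        g1 k1 ?_ ⟨g3, avT⟩ ?_ ⟨(hvT T' avT').2 k3, avT'⟩
      · intro T'' hT'' hcon
        exact g2 T'' hT'' hcon.1
      · intro T'' hT'' hcon
        exact k2 T'' hT'' ((hvT T'' hcon.2).1 hcon.1)
    subst hTT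
    intro b' hb'
    rcases List.mem_cons.1 hb' with rfl | hb'
    · exact hb
    · refine ih g7 k7 ?_ b' hb'
      intro b'' hb''
      by_cases hbb : b'' = b
      · rw [hbb]
        exact hb
      · apply hag
        rw [List.mem_cons]
        push Not
        exact ⟨hbb, hb''⟩

/-- A set of functions whose numbers on `D` are determined by the values outside of `D`. -/
theorem fib_count [Fintype B] [Fintype J] (D : Finset B) (M : ℕ) (𝒴 : Finset (B → J))
    (h : ∀ Y ∈ 𝒴, ∀ Y' ∈ 𝒴, (∀ b, b ∉ D → Y b = Y' b) → ∀ b ∈ D, val b (Y b) = val b (Y' b))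
    (hfib : ∀ b ∈ D, ∀ v, ((Finset.univ : Finset J).filter (fun j => val b j = v)).card * M ≤
      Fintype.card J) : 𝒴.card * M ^ D.card ≤ Fintype.card (B → J) := by
  classical
  have hinj : ∀ b v, ∃ ψ : J × Fin M → J, b ∈ D → Set.InjOn ψ {z | val b z.1 = v} := by
    intro b v
    by_cases hb : b ∈ D
    swap
    · exact ⟨Prod.fst, fun h => absurd h hb⟩
    have h1 : Fintype.card ({j : J // val b j = v} × Fin M) ≤ Fintype.card J := by
      rw [Fintype.card_prod, Fintype.card_fin, Fintype.card_subtype]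
      exact hfib b hb v
    obtain ⟨φ⟩ := Function.Embedding.nonempty_of_card_le h1
    refine ⟨fun z => if hz : val b z.1 = v then φ (⟨z.1, hz⟩, z.2) else z.1, fun _ => ?_⟩
    intro z hz z' hz' hzz
    change val b z.1 = v at hz
    change val b z'.1 = v at hz'
    simp only [dif_pos hz, dif_pos hz'] at hzz
    have h2 := φ.injective hzz
    rw [Prod.mk.injEq, Subtype.mk.injEq] at h2
    exact Prod.ext h2.1 h2.2
  choose ψ hψ using hinj
  have hcard : Fintype.card ({b : B // b ∈ D} → Fin M) = M ^ D.card := by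
    rw [Fintype.card_fun, Fintype.card_fin, Fintype.card_coe]
  rw [← hcard, ← Finset.card_univ (α := {b : B // b ∈ D} → Fin M), ← Finset.card_product,
    ← Finset.card_univ (α := B → J)]
  apply Finset.card_le_card_of_injOn (fun z b => if hb : b ∈ D then
    ψ b (val b (z.1 b)) (z.1 b, z.2 ⟨b, hb⟩) else z.1 b)
  · intro z _
    exact Finset.mem_coe.2 (Finset.mem_univ _)
  · rintro ⟨Y, m⟩ hz ⟨Y', m'⟩ hz' heq
    rw [Finset.mem_coe, Finset.mem_product] at hz hz'
    simp only at hz hz' heq
    have h1 : ∀ b, b ∉ D → Y b = Y' b := by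
      intro b hb
      have := congrFun heq b
      simpa [hb] using this
    have h2 := h Y hz.1 Y' hz'.1 h1
    have h3 : ∀ b (hb : b ∈ D), Y b = Y' b ∧ m ⟨b, hb⟩ = m' ⟨b, hb⟩ := by
      intro b hb
      have h4 := congrFun heq b
      simp only [dif_pos hb] at h4
      rw [← h2 b hb] at h4
      have h5 := hψ b (val b (Y b)) hb
        rfl (h2 b hb).symm h4
      rw [Prod.mk.injEq] at h5
      exact h5
    refine Prod.ext ?_ ?_
    · funext b
      by_cases hb : b ∈ D
      · exact (h3 b hb).1
      · exact h1 b hb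
    · funext b
      exact (h3 b.1 b.2).2

open Classical in
theorem thr_count [Fintype B] [Fintype J] (hrk : Function.Injective rk) (M r : ℕ)
    (hfib : ∀ b ∈ Z, ∀ v, ((Finset.univ : Finset J).filter (fun j => val b j = v)).card * M ≤
      Fintype.card J) :
    ((Finset.univ : Finset (B → J)).filter
      (fun Y => ∃ L : List B, L.length = r ∧ TRun val rk Z l Y ∅ L)).card * M ^ r ≤
      Z.card ^ r * Fintype.card (B → J) := by
  let fam : (Fin r → {b : B // b ∈ Z}) → Finset (B → J) := fun v =>
    (Finset.univ : Finset (B → J)).filter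
      (fun Y => TRun val rk Z l Y ∅ (List.ofFn (fun i => (v i).1)))
  have hsub : (Finset.univ : Finset (B → J)).filter
      (fun Y => ∃ L : List B, L.length = r ∧ TRun val rk Z l Y ∅ L) ⊆
      (Finset.univ : Finset (Fin r → {b : B // b ∈ Z})).biUnion fam := by
    intro Y hY
    rw [Finset.mem_filter] at hY
    obtain ⟨_, L, rfl, hL⟩ := hY
    rw [Finset.mem_biUnion]
    refine ⟨fun i => ⟨L.get i, (hL.mem _ (List.get_mem L i)).1⟩, Finset.mem_univ _, ?_⟩
    rw [Finset.mem_filter]
    refine ⟨Finset.mem_univ _, ?_⟩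
    have : List.ofFn (fun i : Fin L.length => L.get i) = L := List.ofFn_get L
    simp only
    rw [this]
    exact hL
  have hfam : ∀ v, (fam v).card * M ^ r ≤ Fintype.card (B → J) := by
    intro v
    rcases (fam v).eq_empty_or_nonempty with he | ⟨Y0, hY0⟩
    · rw [he]; simp
    have hL0 := (Finset.mem_filter.1 hY0).2
    set L := List.ofFn (fun i => (v i).1) with hL
    have hnd : L.Nodup := hL0.nodup hrk
    have hlen : L.toFinset.card = r := by
      rw [List.toFinset_card_of_nodup hnd, hL, List.length_ofFn]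
    have h1 := fib_count (val := val) L.toFinset M (fam v) (by
      intro Y hY Y' hY' hag b hb
      rw [List.mem_toFinset] at hb
      refine trun_det hrk (Finset.mem_filter.1 hY).2 (Finset.mem_filter.1 hY').2 ?_ b hb
      intro b' hb'
      rw [hag b' (by rwa [List.mem_toFinset])]) (by
      intro b hb
      rw [List.mem_toFinset] at hb
      exact hfib b (hL0.mem b hb).1)
    rw [hlen] at h1
    exact h1
  calc _ ≤ ((Finset.univ : Finset (Fin r → {b : B // b ∈ Z})).biUnion fam).card * M ^ r :=
        Nat.mul_le_mul_right _ (Finset.card_le_card hsub)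
    _ ≤ (∑ v : Fin r → {b : B // b ∈ Z}, (fam v).card) * M ^ r :=
        Nat.mul_le_mul_right _ Finset.card_biUnion_le
    _ = ∑ v : Fin r → {b : B // b ∈ Z}, (fam v).card * M ^ r := by rw [Finset.sum_mul]
    _ ≤ ∑ _v : Fin r → {b : B // b ∈ Z}, Fintype.card (B → J) :=
        Finset.sum_le_sum (fun v _ => hfam v)
    _ = Z.card ^ r * Fintype.card (B → J) := by
        rw [Finset.sum_const, Finset.card_univ, Fintype.card_fun, Fintype.card_fin,
          Fintype.card_coe, smul_eq_mul]

end

/-- **Counting lemma for thresholds.** -/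
theorem thr_pr {B J : Type} [DecidableEq B] [Fintype B] [Fintype J] [Nonempty J]
    (val : B → J → ℕ) (Z : Finset B) (l : List (Finset (B × ℕ))) (w : ℕ)
    (hl : ∀ T ∈ l, T.card ≤ w) (M : ℕ) (hM : 1 ≤ M)
    (hfib : ∀ b ∈ Z, ∀ v, ((Finset.univ : Finset J).filter (fun j => val b j = v)).card * M ≤
      Fintype.card J) (r : ℕ) :
    pr (fun Y : B → J => (∀ T ∈ l, ¬ Sat val Y Z T) ∧
      ∀ K : Finset B, K ⊆ Z → K.card ≤ w * r → ∃ T ∈ l, Sat val Y K T) ≤
      ((Z.card : ℝ) / M) ^ r := by
  classical
  have hM0 : (0 : ℝ) < M := by exact_mod_cast hM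
  have hΩ : (0 : ℝ) < Fintype.card (B → J) := by exact_mod_cast Fintype.card_pos
  set rk : B → ℕ := fun b => (Fintype.equivFin B b).1 with hrk
  have hrki : Function.Injective rk := by
    intro a b hab
    exact (Fintype.equivFin B).injective (Fin.ext hab)
  have hsub : (Finset.univ : Finset (B → J)).filter
      (fun Y => (∀ T ∈ l, ¬ Sat val Y Z T) ∧
      ∀ K : Finset B, K ⊆ Z → K.card ≤ w * r → ∃ T ∈ l, Sat val Y K T) ⊆
      (Finset.univ : Finset (B → J)).filter
      (fun Y => ∃ L : List B, L.length = r ∧ TRun val rk Z l Y ∅ L) := by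
    intro Y hY
    rw [Finset.mem_filter] at hY ⊢
    refine ⟨Finset.mem_univ _, ?_⟩
    by_contra hcon
    obtain ⟨K', _, h2, h3, h4⟩ := trun_decision w hl Y hY.2.1 r ∅
      (Finset.empty_subset _) hcon
    obtain ⟨T, hT, h5⟩ := hY.2.2 K' h2 (by simpa using h3)
    exact h4 T hT h5
  have hcount := thr_count (val := val) (Z := Z) (l := l) hrki M r hfib
  have h1 := Finset.card_le_card hsub
  rw [pr_eq, div_le_iff₀ hΩ, div_pow, div_mul_eq_mul_div, le_div_iff₀ (by positivity)]
  calc ((Finset.filter _ (Finset.univ : Finset (B → J))).card : ℝ) * (M : ℝ) ^ r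
      ≤ (((Finset.univ : Finset (B → J)).filter
        (fun Y => ∃ L : List B, L.length = r ∧ TRun val rk Z l Y ∅ L)).card : ℝ) *
        (M : ℝ) ^ r := by
        apply mul_le_mul_of_nonneg_right _ (by positivity)
        exact_mod_cast h1
    _ ≤ (Z.card : ℝ) ^ r * Fintype.card (B → J) := by exact_mod_cast hcount

end Pool.Agent.H7t
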