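import Mathlib
import Pool.Agent.H7.Groups

/-!
The stage construction of the oracle with unique witnesses.
-/

set_option autoImplicit false

namespace Pool.Agent.H7

open Pool.Agent.H9 Classical

/-- The objects chosen at one stage: a table and witnesses. -/
abbrev Choice := (List (List Bool) → Bool) × (Name → List Bool)

/-- The numerical conditions for a stage of length `n`. -/
def Good (d : Datum) (n : ℕ) : Prop :=
  ∃ (J c M : ℕ) (ε : ℝ), bound d n ≤ thr n J ∧ 1 ≤ c ∧ (J : ℝ) * ε < 1 / 4 ∧
    (∀ j < J, 2 * (2 : ℝ) ^ n ^ 2 ^ (j + 1) * M ≤ 2 ^ (thr n j / 2)) ∧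
    (∀ j < J, (M : ℝ) / 2 ^ (thr n j / 2) + 3 * (1 / 2) ^ c ≤ ε) ∧
    (∀ i < J, (((grow (bound d n + bound d n) (bound d n) d.1 c)^[i]
      (d.2.2.1 n + 1, d.2.2.2 n)).1 * d.1 + c) *
      ((grow (bound d n + bound d n) (bound d n) d.1 c)^[i]
      (d.2.2.1 n + 1, d.2.2.2 n)).2 ≤ M) ∧
    (((grow (bound d n + bound d n) (bound d n) d.1 c)^[J]
      (d.2.2.1 n + 1, d.2.2.2 n)).1 +
      ((grow (bound d n + bound d n) (bound d n) d.1 c)^[J]
      (d.2.2.1 n + 1, d.2.2.2 n)).2) * 2 ^ (2 * d.1 + 8) ≤ 2 ^ (n / 4) ∧
    (d.1 + 1) * n + 3 ≤ 2 ^ (n / 4)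

section

variable (Φ : Fam) (R : ℕ → Datum) (N : ℕ → ℕ)

/-- The witnesses given by the choices for all stages. -/
noncomputable def Zg (a : ℕ → Choice) (κ : Name) : List Bool :=
  if h : ∃ e, Φ.Act (N e) (bound (R e) (N e)) κ then (a h.choose).2 κ
  else List.replicate (Φ.wl κ.1 κ.2.length) false

/-- The oracle given by the choices for all stages. -/
noncomputable def orcA (a : ℕ → Choice) : Oracle :=
  Φ.orc (Ytab R N (fun e => (a e).1)) (Zg Φ R N a)

/-- Requirement `e` is satisfied. -/
def Req (e : ℕ) (a : ℕ → Choice) : Prop :=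
  (∀ κ, Φ.Act (N e) (bound (R e) (N e)) κ →
    ((a e).2 κ).length = Φ.wl κ.1 κ.2.length) ∧
  ¬ (AltL true (List.replicate (R e).1 (N e) ++ [N e]) (fun us => (a e).1 us = true) ↔
      AltL true (List.replicate (R e).1 ((R e).2.2.1 (N e)))
        (fun ws => AcceptsIn (orcA Φ R N a) (R e).2.1
          (List.replicate (N e) true :: ws) ((R e).2.2.2 (N e))))

variable {Φ R N}

theorem Zg_congr {a b : ℕ → Choice} {κ : Name}
    (h : ∀ e, Φ.Act (N e) (bound (R e) (N e)) κ → (a e).2 κ = (b e).2 κ) :
    Zg Φ R N a κ = Zg Φ R N b κ := by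
  unfold Zg
  split_ifs with hex
  · exact h _ hex.choose_spec
  · rfl

theorem use_lt_cl (κ : Name) : Φ.use κ.1 κ.2.length < Φ.cl κ := by
  have h3 := Φ.base_le_wl κ.1 κ.2.length
  unfold Fam.cl
  omega

variable (hN : ∀ e e', e < e' → bound (R e) (N e) < N e')

include hN

theorem act_unique {e e' : ℕ} {κ : Name} (h : Φ.Act (N e) (bound (R e) (N e)) κ)
    (h' : Φ.Act (N e') (bound (R e') (N e')) κ) : e = e' := by
  have h3 := use_lt_cl (Φ := Φ) κ
  rcases Nat.lt_trichotomy e e' with h4 | h4 | h4
  · have h5 := hN e e' h4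
    have h6 := h.2
    have h7 := h'.1
    omega
  · exact h4
  · have h5 := hN e' e h4
    have h6 := h'.2
    have h7 := h.1
    omega

theorem Zg_act (a : ℕ → Choice) {e : ℕ} {κ : Name}
    (h : Φ.Act (N e) (bound (R e) (N e)) κ) : Zg Φ R N a κ = (a e).2 κ := by
  have hex : ∃ e, Φ.Act (N e) (bound (R e) (N e)) κ := ⟨e, h⟩
  unfold Zg
  rw [dif_pos hex, act_unique hN hex.choose_spec h]

/-- The requirement depends only on the choices up to stage `e`. -/
theorem req_local (e : ℕ) (a b : ℕ → Choice) (hab : ∀ i ≤ e, a i = b i)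
    (h : Req Φ R N e a) : Req Φ R N e b := by
  refine ⟨?_, ?_⟩
  · intro κ hκ
    rw [← hab e le_rfl]
    exact h.1 κ hκ
  · intro hcon
    apply h.2
    rw [hab e le_rfl, hcon]
    apply AltL_congr
    intro ws hws
    refine (dtp_acceptsIn (R e).2.1 (List.replicate (N e) true :: ws) ((R e).2.2.2 (N e))
      (bound (R e) (N e)) ?_).depends ?_
    · have h1 : (List.map List.length ws).sum = (R e).1 * (R e).2.2.1 (N e) := by
        rw [hws, List.sum_replicate, smul_eq_mul]
      simp only [totalLength, List.map_cons, List.sum_cons, List.length_replicate, h1, bound]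
      omega
    · intro v hv
      have hv' : v.length ≤ bound (R e) (N e) := hv
      symm
      apply Φ.orc_congr (l := bound (R e) (N e)) _ _ v hv'
      · intro w hw
        apply Ytab_local
        intro e' he'
        rcases Nat.lt_or_ge e e' with h2 | h2
        · have := hN e e' h2
          omega
        · rw [hab e' h2]
      · intro i x h1 _
        apply Zg_congr
        intro e' he'
        rcases Nat.lt_or_ge e e' with h2 | h2
        · have h3 := hN e e' h2
          have h4 := he'.1
          simp only at h4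
          omega
        · rw [hab e' h2]

omit hN in
/-- Short words do not depend on the choice of a stage. -/
theorem orcA_short (a : ℕ → Choice) (e : ℕ) (v v' : Choice) {l : ℕ} (hl : l < N e)
    {w : List Bool} (hw : w.length ≤ l) :
    orcA Φ R N (Function.update a e v) w = orcA Φ R N (Function.update a e v') w := by
  apply Φ.orc_congr (l := l) _ _ w hw
  · intro u hu
    apply Ytab_local
    intro e' he'
    have : e' ≠ e := by
      rintro rfl
      omega
    rw [Function.update_of_ne this, Function.update_of_ne this]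
  · intro i x h1 _
    apply Zg_congr
    intro e' he'
    have : e' ≠ e := by
      rintro rfl
      have h4 := he'.1
      simp only at h4
      omega
    rw [Function.update_of_ne this, Function.update_of_ne this]

omit hN in
/-- Relevant words starting with `true` which do not ask for an active name. -/
theorem orcA_true (a : ℕ → Choice) (e : ℕ) (v v' : Choice) {u : List Bool}
    (hu : (true :: u) ∈ Φ.QQ (N e) (bound (R e) (N e)) 0) :
    orcA Φ R N (Function.update a e v) (true :: u) =
      orcA Φ R N (Function.update a e v') (true :: u) := by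
  unfold orcA Fam.orc
  rw [lfix_eq (Φ.op_local _ _), lfix_eq (Φ.op_local _ _)]
  apply Φ.op_true_congr
  intro i x z h1 h2
  obtain ⟨h3, h4⟩ := Fam.not_act_of_QQ_zero hu h1 h2
  have h5 : Zg Φ R N (Function.update a e v) (i, x) =
      Zg Φ R N (Function.update a e v') (i, x) := by
    apply Zg_congr
    intro e' he'
    have : e' ≠ e := by
      rintro rfl
      exact h3 he'
    rw [Function.update_of_ne this, Function.update_of_ne this]
  rw [h5]
  apply and_congr_right
  intro _
  apply Φ.F_local
  intro w hw
  exact orcA_short a e v v' (l := Φ.use i x.length) h4 hw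

/-- **Extension of the choices by one stage.** -/
theorem stage_ext (e : ℕ) (a : ℕ → Choice) (hgood : Good (R e) (N e)) :
    ∃ v, Req Φ R N e (Function.update a e v) := by
  obtain ⟨J, c, M, ε, hJ, hc, hJε, hnum, hε, hM, hT, hB⟩ := hgood
  set k := (R e).1 with hk
  set n := N e with hn
  set q := (R e).2.2.1 n with hq
  set τ := (R e).2.2.2 n with hτ
  set Λ := bound (R e) n with hΛ
  let upd : (List (List Bool) → Bool) → (Name → List Bool) → ℕ → Choice := fun y Z =>
    Function.update a e (y, Z)
  let b : ℕ → (List (List Bool) → Bool) → (Name → List Bool) → List Bool → Bool :=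
    fun j y Z => Φ.bb n Λ j (orcA Φ R N (upd y Z))
  let f : Oracle → Prop := fun A => AltL true (List.replicate k q)
    (fun ws => AcceptsIn A (R e).2.1 (List.replicate n true :: ws) τ)
  have hΛ2 : Λ = (k + 2) * n + 1 + (n + k * q + τ) := rfl
  have hdtp : ∀ ws ∈ paths (List.replicate k q), DTP {w : List Bool | w.length ≤ Λ} τ
      (fun A => AcceptsIn A (R e).2.1 (List.replicate n true :: ws) τ) := by
    intro ws hws
    rw [mem_paths] at hws
    apply dtp_acceptsIn
    have h1 : (List.map List.length ws).sum = k * q := by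
      rw [hws, List.sum_replicate, smul_eq_mul]
    simp only [totalLength, List.map_cons, List.sum_cons, List.length_replicate, h1]
    omega
  have hf : Lev (Φ.QQ n Λ J) (q + 1) τ true k f := by
    apply Lev.mono (Set.Subset.refl _) (Nat.le_succ q) le_rfl
    apply lev_of_altL
    intro ws hws
    exact (hdtp ws hws).mono_set (fun w hw => Fam.mem_QQ_top hJ hw)
  obtain ⟨y, Z, hZ, hfool⟩ := exists_fool (V := List Bool) (κ := Name) (P := Φ.cdP n Λ)
    (𝒦 := Φ.grp n Λ) (nm := nm) (A := Λ) (q0 := Λ) (E := Φ.EE) (Q := Φ.QQ n Λ) (T0 := Λ) (c := c)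
    (M := M) (VV := fun κ => strings (Φ.wl κ.1 κ.2.length))
    (L := fun j => (2 : ℝ) ^ (thr n j / 2)) (ε := ε) (k := k) (ex := true) (J := J) (b := b)
    (by
      intro j _ κ hκ
      apply exists_nm
      have h1 := (Fam.mem_grp.1 hκ).1.2
      unfold Fam.cl at h1
      omega)
    (fun j _ κ hκ u hu => Fam.dtp_EE hκ hu)
    (fun j _ w hw hP => Fam.QQ_step hw hP)
    (fun j _ => by positivity)
    (by
      intro j _ κ hκ
      rw [card_strings]
      push_cast
      exact pow_le_pow_right₀ (by norm_num) (Fam.wl_ge hκ))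
    (by
      intro j hj
      refine le_trans ?_ (hnum j hj)
      have h1 : ((Φ.grp n Λ j).card : ℝ) ≤ 2 ^ n ^ 2 ^ (j + 1) := by
        exact_mod_cast Fam.card_grp (Φ := Φ) (n := n) (Λ := Λ) j
      have h2 : (0 : ℝ) ≤ M := Nat.cast_nonneg M
      have h3 : 2 * ((Φ.grp n Λ j).card : ℝ) ≤ 2 * 2 ^ n ^ 2 ^ (j + 1) := by linarith
      exact mul_le_mul_of_nonneg_right h3 h2)
    hc hε (fun i j hij _ => Fam.grp_disjoint hij)
    (by
      -- independence of the witnesses
      intro y Z Z'
      funext w
      simp only [b, Fam.bb]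
      split_ifs with hw
      · match w with
        | [] =>
          unfold orcA
          rw [Φ.orc_nil, Φ.orc_nil]
        | false :: u =>
          unfold orcA
          rw [Φ.orc_false, Φ.orc_false]
          congr 1
          funext e'
          by_cases he : e' = e
          · subst he
            simp [upd]
          · simp only [upd]
            rw [Function.update_of_ne he, Function.update_of_ne he]
        | true :: u => exact orcA_true a e _ _ hw
      · rfl)
    (by
      intro j _ y Z
      have h1 := Fam.bb_step (Φ := Φ) (n := n) (Λ := Λ)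
        (Ytab R N (fun e' => (upd y Z e').1)) (Zg Φ R N (upd y Z)) j
      have h2 : comb (Φ.cdP n Λ j) (b j y Z) (Zg Φ R N (upd y Z))
          (Gset (Φ.grp n Λ j) Λ Φ.EE (b j y Z)) =
          comb (Φ.cdP n Λ j) (b j y Z) Z (Gset (Φ.grp n Λ j) Λ Φ.EE (b j y Z)) := by
        apply comb_local
        intro κ hκ
        have h3 : κ ∈ Φ.grp n Λ j := (Finset.mem_filter.1 hκ).1
        rw [Zg_act hN (upd y Z) (Fam.mem_grp.1 h3).1]
        simp [upd]
      rw [← h2]
      exact h1)
    hJε
    (by
      -- the base assignment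
      intro w hw Z
      have hconst : (∀ v v' : List (List Bool) → Bool, b 0 v Z w = b 0 v' Z w) →
          DTP Set.univ 1 (fun v : List (List Bool) → Bool => b 0 v Z w = true) := by
        intro h
        refine (DTP.const (Q := Set.univ) 1 (b 0 (fun _ => false) Z w = true)).congr ?_
        intro v
        rw [h v (fun _ => false)]
      match w with
      | [] =>
        apply hconst
        intro v v'
        simp only [b, Fam.bb, if_pos hw]
        unfold orcA
        rw [Φ.orc_nil, Φ.orc_nil]
      | false :: u =>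
        by_cases hst : ∃ us : List (List Bool),
            us.map List.length = List.replicate ((R e).1 + 1) (N e) ∧
            u = hword (List.replicate (N e) true) us
        · obtain ⟨us, h1, h2⟩ := hst
          refine (DTP.var (Q := Set.univ) us (Set.mem_univ _)).congr ?_
          intro v
          simp only [b, Fam.bb, if_pos hw]
          unfold orcA
          rw [Φ.orc_false, h2, Ytab_apply hN _ h1]
          simp [upd]
        · apply hconst
          intro v v'
          simp only [b, Fam.bb, if_pos hw]
          unfold orcA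
          rw [Φ.orc_false, Φ.orc_false]
          apply Ytab_congr
          intro e' us h1 h2
          have : e' ≠ e := by
            rintro rfl
            exact hst ⟨us, h1, h2⟩
          simp only [upd]
          rw [Function.update_of_ne this, Function.update_of_ne this]
      | true :: u =>
        apply hconst
        intro v v'
        simp only [b, Fam.bb, if_pos hw]
        exact orcA_true a e _ _ hw)
    (q + 1, τ) (Nat.le_add_left 1 q) hM f hf
    (μ := n / 4) (B := (k + 1) * n) (m := n) (ms := List.replicate k n) hB hT (by simp)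
    (fun x hx => by rw [List.eq_of_mem_replicate hx]; omega) (by omega)
    (by rw [List.sum_replicate, smul_eq_mul]; linarith) (fun _ => [])
  refine ⟨(y, Z), ?_, ?_⟩
  · intro κ hκ
    rw [Function.update_self]
    obtain ⟨j, hj, hκj⟩ := Fam.exists_grp hκ hJ
    rw [mem_funs] at hZ
    have h1 := hZ.1 κ (mem_groups.2 ⟨j, hj, hκj⟩)
    exact mem_strings.1 h1
  · rw [Function.update_self]
    intro hcon
    apply hfool
    rw [hcon]
    apply AltL_congr
    intro ws hws
    refine (hdtp ws (mem_paths.2 hws)).depends ?_
    intro w hw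
    simp only [b, Fam.bb]
    rw [if_pos (Fam.mem_QQ_top hJ hw)]

end

/-- **The construction.** -/
theorem u_construction (Φ : Fam) (R : ℕ → Datum)
    (hgood : ∀ e n₀, ∃ n, n₀ ≤ n ∧ Good (R e) n) :
    ∃ (A : Oracle) (Z : Name → List Bool),
      (∀ e, ∃ n, ¬ (Alt true ((R e).1 + 1) n
          (fun us => A (false :: hword (List.replicate n true) us) = true) ↔
        Alt true (R e).1 ((R e).2.2.1 n)
          (fun ws => AcceptsIn A (R e).2.1 (List.replicate n true :: ws) ((R e).2.2.2 n)))) ∧
      (∀ i x, (Z (i, x)).length = Φ.wl i x.length) ∧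
      ∀ i x z, z.length = Φ.wl i x.length →
        (A (ucode i x z) = true ↔ z = Z (i, x) ∧ Φ.F i A x) := by
  obtain ⟨N, hN1, hN2⟩ := exists_lengths (fun e n => Good (R e) n) (fun e n => bound (R e) n)
    (fun e n => le_bound (R e) n) hgood
  obtain ⟨a, ha⟩ := exists_seq (α := Choice) (Req Φ R N) (req_local hN2)
    (fun e a => stage_ext hN2 e a (hN1 e))
  refine ⟨orcA Φ R N a, Zg Φ R N a, ?_, ?_, ?_⟩
  · intro e
    refine ⟨N e, ?_⟩
    have h := (ha e).2
    rw [← List.replicate_succ'] at h
    intro hcon
    apply h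
    rw [← Alt_eq, ← Alt_eq, ← hcon, Alt_eq, Alt_eq]
    apply AltL_congr
    intro us hus
    unfold orcA
    rw [Φ.orc_false, Ytab_apply hN2 _ hus]
  · intro i x
    by_cases h : ∃ e, Φ.Act (N e) (bound (R e) (N e)) (i, x)
    · obtain ⟨e, he⟩ := h
      rw [Zg_act hN2 a he]
      exact (ha e).1 (i, x) he
    · unfold Zg
      rw [dif_neg h]
      simp
  · intro i x z hz
    have h1 : orcA Φ R N a (ucode i x z) = decide (z = Zg Φ R N a (i, x) ∧
        Φ.F i (orcA Φ R N a) x) := Φ.orc_ucode _ _ hz
    rw [h1, decide_eq_true_iff]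

end Pool.Agent.H7
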