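import Mathlib
import Pool.Agent.H7.UDiag
import Pool.Agent.H7.Verify

/-!
The numerical conditions hold at arbitrarily large lengths.
-/

set_option autoImplicit false

namespace Pool.Agent.H7

open Pool.Agent.H9

theorem grow_le {A' T0 k c X : ℕ} (h2 : 2 ≤ X) (hA : A' ≤ X) (hT : T0 ≤ X) (hk : k ≤ X)
    (hc : c ≤ X) {p : ℕ × ℕ} (h1 : p.1 ≤ X) (h3 : p.2 ≤ X) :
    (grow A' T0 k c p).1 ≤ X ^ 7 ∧ (grow A' T0 k c p).2 ≤ X ^ 7 ∧ (p.1 * k + c) * p.2 ≤ X ^ 7 := by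
  have a1 : p.1 * k + c ≤ X ^ 3 := by
    have e1 : p.1 * k ≤ X * X := Nat.mul_le_mul h1 hk
    have e2 : X * X + X ≤ X ^ 3 := by nlinarith
    omega
  have a2 : (p.1 * k + c) * p.2 ≤ X ^ 4 := by
    calc (p.1 * k + c) * p.2 ≤ X ^ 3 * X := Nat.mul_le_mul a1 h3
      _ = X ^ 4 := by ring
  have hX5 : X ≤ X ^ 5 := Nat.le_self_pow (by norm_num) X
  have hX7 : X ^ 7 = X * X * X ^ 5 := by ring
  have h4 : 4 * X ^ 5 ≤ X ^ 7 := by
    rw [hX7]
    exact Nat.mul_le_mul_right _ (by nlinarith)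
  refine ⟨?_, ?_, ?_⟩
  · have : (p.1 * k + c) * p.2 * A' ≤ X ^ 5 := by
      calc (p.1 * k + c) * p.2 * A' ≤ X ^ 4 * X := Nat.mul_le_mul a2 hA
        _ = X ^ 5 := by ring
    show p.1 + (p.1 * k + c) * p.2 * A' ≤ X ^ 7
    omega
  · have : (p.1 * k + c) * p.2 * T0 ≤ X ^ 5 := by
      calc (p.1 * k + c) * p.2 * T0 ≤ X ^ 4 * X := Nat.mul_le_mul a2 hT
        _ = X ^ 5 := by ring
    show 2 * ((p.1 * k + c) * p.2) * T0 + p.2 ≤ X ^ 7
    have e : 2 * ((p.1 * k + c) * p.2) * T0 = 2 * ((p.1 * k + c) * p.2 * T0) := by ring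
    rw [e]
    omega
  · exact a2.trans (Nat.pow_le_pow_right (by omega) (by norm_num))

theorem iterate_grow_le {A' T0 k c X : ℕ} (h2 : 2 ≤ X) (hA : A' ≤ X) (hT : T0 ≤ X) (hk : k ≤ X)
    (hc : c ≤ X) {p : ℕ × ℕ} (h1 : p.1 ≤ X) (h3 : p.2 ≤ X) (i : ℕ) :
    ((grow A' T0 k c)^[i] p).1 ≤ X ^ 7 ^ i ∧ ((grow A' T0 k c)^[i] p).2 ≤ X ^ 7 ^ i ∧
      (((grow A' T0 k c)^[i] p).1 * k + c) * ((grow A' T0 k c)^[i] p).2 ≤ X ^ 7 ^ (i + 1) := by
  have hXi : ∀ i, X ≤ X ^ 7 ^ i := fun i => Nat.le_self_pow (by positivity) X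
  have key : ∀ i, ((grow A' T0 k c)^[i] p).1 ≤ X ^ 7 ^ i ∧
      ((grow A' T0 k c)^[i] p).2 ≤ X ^ 7 ^ i := by
    intro i
    induction i with
    | zero => simpa using ⟨h1, h3⟩
    | succ i ih =>
      have h4 := grow_le (h2.trans (hXi i)) (hA.trans (hXi i)) (hT.trans (hXi i))
        (hk.trans (hXi i)) (hc.trans (hXi i)) ih.1 ih.2
      rw [Function.iterate_succ_apply', pow_succ, pow_mul]
      exact ⟨h4.1, h4.2.1⟩
  have h4 := grow_le (h2.trans (hXi i)) (hA.trans (hXi i)) (hT.trans (hXi i))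
        (hk.trans (hXi i)) (hc.trans (hXi i)) (key i).1 (key i).2
  refine ⟨(key i).1, (key i).2, ?_⟩
  rw [pow_succ, pow_mul]
  exact h4.2.2

/-- The datum given by polynomials. -/
def pdatum (k : ℕ) (p : Prog) (q T : Polynomial ℕ) : Datum :=
  (k, p, fun n => q.eval n, fun n => T.eval (n + k * q.eval n))

theorem good_frequently (k : ℕ) (p : Prog) (q T : Polynomial ℕ) (n₀ : ℕ) :
    ∃ n, n₀ ≤ n ∧ Good (pdatum k p q T) n := by
  set d := pdatum k p q T with hd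
  -- the bound as a polynomial
  let BP : Polynomial ℕ := Polynomial.C (k + 2) * Polynomial.X + 1 +
    (Polynomial.X + Polynomial.C k * q + T.comp (Polynomial.X + Polynomial.C k * q))
  have hBP : ∀ n, BP.eval n = bound d n := by
    intro n
    simp [BP, hd, pdatum, bound, Polynomial.eval_comp]
  obtain ⟨J, hJ⟩ := poly_le_pow BP
  set c := J + 5 with hc
  let XP : Polynomial ℕ := BP + BP + q + 1 + T.comp (Polynomial.X + Polynomial.C k * q) +
    Polynomial.C (k + c + 2)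
  have hXP : ∀ n, XP.eval n = bound d n + bound d n + q.eval n + 1 +
      T.eval (n + k * q.eval n) + (k + c + 2) := by
    intro n
    simp only [XP, Polynomial.eval_add, Polynomial.eval_one, Polynomial.eval_C,
      Polynomial.eval_comp, Polynomial.eval_X, Polynomial.eval_mul, hBP]
  let MP : Polynomial ℕ := XP ^ 7 ^ J * Polynomial.C (2 * 2 ^ (2 * k + 8)) +
    (Polynomial.C (k + 1) * Polynomial.X + 3)
  obtain ⟨n₁, hn₁⟩ := poly_le_two_pow (s := fun n => n) (fun n => le_rfl) (by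
    intro c
    obtain ⟨M, hM⟩ := exists_poly_le_two_pow 1 c
    exact ⟨M, fun n hn => by simpa using hM n hn⟩) MP
  set n := n₀ + n₁ + c + 6 with hn
  refine ⟨n, by omega, ?_⟩
  have hbig := hn₁ n (by omega)
  set X := XP.eval n with hX
  have hMP : MP.eval n = X ^ 7 ^ J * (2 * 2 ^ (2 * k + 8)) + ((k + 1) * n + 3) := by
    simp [MP, hX]
  rw [hMP] at hbig
  have hXv := hXP n
  rw [← hX] at hXv
  have hMle : X ^ 7 ^ J ≤ 2 ^ (n / 4) := by
    have : 1 ≤ 2 * 2 ^ (2 * k + 8) := by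
      have := Nat.one_le_two_pow (n := 2 * k + 8)
      omega
    have h1 : X ^ 7 ^ J * 1 ≤ X ^ 7 ^ J * (2 * 2 ^ (2 * k + 8)) := Nat.mul_le_mul_left _ this
    omega
  -- the groups
  have hsj : ∀ j, n ≤ n ^ 2 ^ (j + 1) := fun j => Nat.le_self_pow (by positivity) n
  have hthr : ∀ j, thr n j = (n ^ 2 ^ (j + 1)) * (n ^ 2 ^ (j + 1)) := by
    intro j
    unfold thr
    rw [← pow_add, ← pow_mul]
    congr 1
    rw [pow_succ]
    ring
  have hhalf : ∀ j, 3 * n ^ 2 ^ (j + 1) ≤ thr n j / 2 := by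
    intro j
    rw [hthr]
    have h1 := hsj j
    have h2 : 6 ≤ n ^ 2 ^ (j + 1) := by omega
    have h3 : 6 * n ^ 2 ^ (j + 1) ≤ n ^ 2 ^ (j + 1) * n ^ 2 ^ (j + 1) :=
      Nat.mul_le_mul_right _ h2
    omega
  have hM2 : ∀ j, X ^ 7 ^ J ≤ 2 ^ n ^ 2 ^ (j + 1) := by
    intro j
    refine hMle.trans (Nat.pow_le_pow_right (by norm_num) ?_)
    have := hsj j
    omega
  have hiter := fun i => iterate_grow_le (A' := bound d n + bound d n) (T0 := bound d n) (k := k)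
    (c := c) (X := X) (p := (q.eval n + 1, T.eval (n + k * q.eval n))) (by omega) (by omega)
    (by omega) (by omega) (by omega) (by simp only; omega) (by simp only; omega) i
  refine ⟨J, c, X ^ 7 ^ J, 4 * (1 / 2 : ℝ) ^ c, ?_, by omega, ?_, ?_, ?_, ?_, ?_, ?_⟩
  · rw [← hBP]
    refine (hJ n).trans ?_
    unfold thr
    apply Nat.pow_le_pow_left
    have : 6 ≤ n := by omega
    nlinarith [Nat.mul_le_mul this this]
  · rw [hc]
    have e1 : (J : ℝ) ≤ 2 ^ J := by exact_mod_cast Nat.lt_two_pow_self.le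
    have e2 : (2 : ℝ) ^ J * (4 * (1 / 2) ^ (J + 5)) = 1 / 8 := by
      rw [pow_add, mul_comm (4 : ℝ), mul_assoc, ← mul_assoc, ← mul_assoc, ← mul_pow]
      norm_num
    have e3 : (J : ℝ) * (4 * (1 / 2) ^ (J + 5)) ≤ 2 ^ J * (4 * (1 / 2) ^ (J + 5)) :=
      mul_le_mul_of_nonneg_right e1 (by positivity)
    linarith
  · intro j _
    have h1 : 2 * 2 ^ n ^ 2 ^ (j + 1) * X ^ 7 ^ J ≤ 2 ^ (thr n j / 2) := by
      calc 2 * 2 ^ n ^ 2 ^ (j + 1) * X ^ 7 ^ J
          ≤ 2 * 2 ^ n ^ 2 ^ (j + 1) * 2 ^ n ^ 2 ^ (j + 1) := Nat.mul_le_mul_left _ (hM2 j)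
        _ = 2 ^ (1 + n ^ 2 ^ (j + 1) + n ^ 2 ^ (j + 1)) :=
            (fun s : ℕ => by rw [pow_add, pow_add, pow_one] :
              ∀ s : ℕ, 2 * 2 ^ s * 2 ^ s = 2 ^ (1 + s + s)) (n ^ 2 ^ (j + 1))
        _ ≤ 2 ^ (thr n j / 2) := by
            apply Nat.pow_le_pow_right (by norm_num)
            have h2 := hhalf j
            have h3 := hsj j
            omega
    exact_mod_cast h1
  · intro j _
    have h1 : X ^ 7 ^ J * 2 ^ c ≤ 2 ^ (thr n j / 2) := by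
      calc X ^ 7 ^ J * 2 ^ c ≤ 2 ^ n ^ 2 ^ (j + 1) * 2 ^ n ^ 2 ^ (j + 1) := by
            apply Nat.mul_le_mul (hM2 j)
            apply Nat.pow_le_pow_right (by norm_num)
            have h3 := hsj j
            omega
        _ = 2 ^ (n ^ 2 ^ (j + 1) + n ^ 2 ^ (j + 1)) := (pow_add 2 _ _).symm
        _ ≤ 2 ^ (thr n j / 2) := by
            apply Nat.pow_le_pow_right (by norm_num)
            have h2 := hhalf j
            omega
    have h2 : ((X ^ 7 ^ J : ℕ) : ℝ) / 2 ^ (thr n j / 2) ≤ (1 / 2) ^ c := by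
      rw [div_le_iff₀ (by positivity)]
      have h3 : ((X ^ 7 ^ J : ℕ) : ℝ) * 2 ^ c ≤ 2 ^ (thr n j / 2) := by exact_mod_cast h1
      calc ((X ^ 7 ^ J : ℕ) : ℝ) = (1 / 2) ^ c * (((X ^ 7 ^ J : ℕ) : ℝ) * 2 ^ c) := by
            rw [mul_comm _ ((2 : ℝ) ^ c), ← mul_assoc, ← mul_pow]
            norm_num
        _ ≤ (1 / 2) ^ c * 2 ^ (thr n j / 2) := mul_le_mul_of_nonneg_left h3 (by positivity)
    linarith
  · intro i hi
    have h1 := (hiter i).2.2
    refine h1.trans ?_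
    apply Nat.pow_le_pow_right (by omega)
    exact Nat.pow_le_pow_right (by norm_num) hi
  · obtain ⟨h1, h2, _⟩ := hiter J
    have h3 : (((grow (bound d n + bound d n) (bound d n) d.1 c)^[J]
      (d.2.2.1 n + 1, d.2.2.2 n)).1 +
      ((grow (bound d n + bound d n) (bound d n) d.1 c)^[J]
      (d.2.2.1 n + 1, d.2.2.2 n)).2) ≤ X ^ 7 ^ J + X ^ 7 ^ J := Nat.add_le_add h1 h2
    refine (Nat.mul_le_mul_right _ h3).trans ?_
    have h4 : (X ^ 7 ^ J + X ^ 7 ^ J) * 2 ^ (2 * d.1 + 8) =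
        X ^ 7 ^ J * (2 * 2 ^ (2 * k + 8)) := by
      have : d.1 = k := rfl
      rw [this]
      ring
    rw [h4]
    omega
  · have : d.1 = k := rfl
    rw [this]
    omega

end Pool.Agent.H7
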